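import Pool.Statements.S11846

set_option autoImplicit false
open scoped Classical
open Pool Pool.MP_dc28e4_co

namespace Pool.Agent.S11846

/-- The disjoint union of a star with `8b` leaves (centre `0`) and `b` independent edges. -/
def gr (b : ℕ) : SimpleGraph (Fin (10 * b + 1)) :=
  SimpleGraph.mk (fun u v =>
    (u.val = 0 ∧ 1 ≤ v.val ∧ v.val ≤ 8 * b) ∨ (v.val = 0 ∧ 1 ≤ u.val ∧ u.val ≤ 8 * b) ∨
    (8 * b + 1 ≤ u.val ∧ u.val ≤ 9 * b ∧ v.val = u.val + b) ∨
    (8 * b + 1 ≤ v.val ∧ v.val ≤ 9 * b ∧ u.val = v.val + b))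
    (by constructor; intro u v h; omega) (by constructor; intro u h; omega)

theorem gr_adj (b : ℕ) (u v : Fin (10 * b + 1)) : (gr b).Adj u v ↔
    ((u.val = 0 ∧ 1 ≤ v.val ∧ v.val ≤ 8 * b) ∨ (v.val = 0 ∧ 1 ≤ u.val ∧ u.val ≤ 8 * b) ∨
    (8 * b + 1 ≤ u.val ∧ u.val ≤ 9 * b ∧ v.val = u.val + b) ∨
    (8 * b + 1 ≤ v.val ∧ v.val ≤ 9 * b ∧ u.val = v.val + b)) := Iff.rfl

theorem gr_nbr_unique (b : ℕ) (u v w : Fin (10 * b + 1)) (hu : u.val ≠ 0)
    (h1 : (gr b).Adj u v) (h2 : (gr b).Adj u w) : v = w := by
  rw [gr_adj] at h1 h2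
  apply Fin.ext
  omega

theorem gr_acyclic (b : ℕ) : (gr b).IsAcyclic := by
  have key : ∀ (v : Fin (10 * b + 1)) (c : (gr b).Walk v v), v.val ≠ 0 → ¬ c.IsCycle := by
    intro v c hv hc
    have h1 := hc.snd_ne_penultimate
    have hnil : ¬ c.Nil := hc.not_nil
    exact h1 (gr_nbr_unique b v _ _ hv (c.adj_snd hnil) (c.adj_penultimate hnil).symm)
  intro v c hc
  by_cases hv : v.val = 0
  · have hnil : ¬ c.Nil := hc.not_nil
    have ha := c.adj_snd hnil
    have hs : c.snd.val ≠ 0 := by
      rw [gr_adj] at ha
      omega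
    have hmem : c.snd ∈ c.support := c.getVert_mem_support 1
    exact key c.snd (c.rotate c.snd hmem) hs (hc.rotate hmem)
  · exact key v c hv hc

theorem sum_formula {M : Type*} [AddCommMonoid M] {k : ℕ} (G : SimpleGraph (Fin k))
    (F : Fin k → M) :
    (∑ u : Fin k, ∑ v : Fin k, (if u < v ∧ G.Adj u v then F u + F v else 0)) =
      ∑ u : Fin k, G.degree u • F u := by
  have h1 : (∑ u : Fin k, ∑ v : Fin k, (if u < v ∧ G.Adj u v then F u + F v else 0)) =
      (∑ u : Fin k, ∑ v : Fin k, (if u < v ∧ G.Adj u v then F u else 0)) +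
      (∑ u : Fin k, ∑ v : Fin k, (if u < v ∧ G.Adj u v then F v else 0)) := by
    rw [← Finset.sum_add_distrib]
    refine Finset.sum_congr rfl fun u _ => ?_
    rw [← Finset.sum_add_distrib]
    refine Finset.sum_congr rfl fun v _ => ?_
    split_ifs <;> simp
  rw [h1, Finset.sum_comm (f := fun u v => (if u < v ∧ G.Adj u v then F v else 0)),
    ← Finset.sum_add_distrib]
  refine Finset.sum_congr rfl fun u _ => ?_
  rw [← Finset.sum_add_distrib]
  have h2 : ∀ v : Fin k, ((if u < v ∧ G.Adj u v then F u else 0) +
      (if v < u ∧ G.Adj v u then F u else 0)) = if G.Adj u v then F u else 0 := by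
    intro v
    by_cases hA : G.Adj u v
    · have hne : u ≠ v := hA.ne
      rcases lt_or_gt_of_ne hne with h | h
      · simp [h, hA, not_lt_of_gt h]
      · simp [h, hA, hA.symm, not_lt_of_gt h]
    · have hA' : ¬ G.Adj v u := fun h => hA h.symm
      simp [hA, hA']
  rw [Finset.sum_congr rfl fun v _ => h2 v, ← Finset.sum_filter, Finset.sum_const]
  congr 1
  rw [← SimpleGraph.card_neighborFinset_eq_degree]
  congr 1
  ext v
  simp

theorem gr_degree_zero (b : ℕ) (u : Fin (10 * b + 1)) (hu : u.val = 0) :
    (gr b).degree u = 8 * b := by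
  rw [← SimpleGraph.card_neighborFinset_eq_degree]
  have h : (gr b).neighborFinset u =
      Finset.filter (fun v : Fin (10 * b + 1) => 1 ≤ v.val ∧ v.val ≤ 8 * b) Finset.univ := by
    ext v
    rw [SimpleGraph.mem_neighborFinset, gr_adj]
    simp only [Finset.mem_filter, Finset.mem_univ, true_and]
    omega
  rw [h]
  by_cases hb : b = 0
  · subst hb
    rfl
  have h2 : Finset.filter (fun v : Fin (10 * b + 1) => 1 ≤ v.val ∧ v.val ≤ 8 * b) Finset.univ
      = Finset.Icc (⟨1, by omega⟩ : Fin (10 * b + 1)) ⟨8 * b, by omega⟩ := by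
    ext v
    simp [Finset.mem_Icc, Fin.le_def]
  rw [h2, Fin.card_Icc]
  simp

theorem gr_degree_one (b : ℕ) (u : Fin (10 * b + 1)) (hu : u.val ≠ 0) :
    (gr b).degree u = 1 := by
  rw [← SimpleGraph.card_neighborFinset_eq_degree, Finset.card_eq_one]
  have h0 : 0 < 10 * b + 1 := by omega
  have hlt := u.isLt
  have hex : ∃ w, (gr b).Adj u w := by
    by_cases h1 : u.val ≤ 8 * b
    · refine ⟨⟨0, h0⟩, ?_⟩
      rw [gr_adj]
      exact Or.inr (Or.inl ⟨rfl, by omega, h1⟩)
    · by_cases h2 : u.val ≤ 9 * b
      · refine ⟨⟨u.val + b, by omega⟩, ?_⟩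
        rw [gr_adj]
        exact Or.inr (Or.inr (Or.inl ⟨by omega, h2, rfl⟩))
      · refine ⟨⟨u.val - b, by omega⟩, ?_⟩
        rw [gr_adj]
        refine Or.inr (Or.inr (Or.inr ⟨?_, ?_, ?_⟩))
        · show 8 * b + 1 ≤ u.val - b
          omega
        · show u.val - b ≤ 9 * b
          omega
        · show u.val = u.val - b + b
          omega
  obtain ⟨w, hw⟩ := hex
  refine ⟨w, ?_⟩
  ext v
  rw [SimpleGraph.mem_neighborFinset, Finset.mem_singleton]
  constructor
  · intro h
    exact gr_nbr_unique b u v w hu h hw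
  · intro h
    rw [h]
    exact hw

theorem gr_degree (b : ℕ) (hb : 1 ≤ b) (u : Fin (10 * b + 1)) :
    (gr b).degree u = (if u.val = 0 then 8 * b - 1 else 0) + 1 := by
  by_cases hu : u.val = 0
  · rw [gr_degree_zero b u hu, if_pos hu]
    omega
  · rw [gr_degree_one b u hu, if_neg hu]

theorem sum_ite_zero {M : Type*} [AddCommMonoid M] (k : ℕ) (g : Fin (k + 1) → M) :
    (∑ u : Fin (k + 1), if u.val = 0 then g u else 0) = g 0 := by
  rw [Finset.sum_eq_single (0 : Fin (k + 1))]
  · simp
  · intro u _ hu
    rw [if_neg]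
    intro h
    exact hu (Fin.ext h)
  · simp

theorem gr_sum_smul {M : Type*} [AddCommMonoid M] (b : ℕ) (hb : 1 ≤ b)
    (F : Fin (10 * b + 1) → M) :
    (∑ u : Fin (10 * b + 1), (gr b).degree u • F u) = (8 * b - 1) • F 0 + ∑ u, F u := by
  have : ∀ u : Fin (10 * b + 1), (gr b).degree u • F u =
      (if u.val = 0 then (8 * b - 1) • F u else 0) + F u := by
    intro u
    rw [gr_degree b hb u]
    split_ifs <;> simp [add_smul]
  rw [Finset.sum_congr rfl fun u _ => this u, Finset.sum_add_distrib, sum_ite_zero]

theorem gr_pairs (b : ℕ) (hb : 1 ≤ b) :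
    (∑ u : Fin (10 * b + 1), ∑ v : Fin (10 * b + 1),
      (if u < v ∧ (gr b).Adj u v then (1 : ℕ) else 0)) = 9 * b := by
  have h := sum_formula (gr b) (fun _ => (1 : ℕ))
  rw [gr_sum_smul b hb] at h
  have h2 : (∑ u : Fin (10 * b + 1), ∑ v : Fin (10 * b + 1),
      (if u < v ∧ (gr b).Adj u v then (1 + 1 : ℕ) else 0)) =
      2 * (∑ u : Fin (10 * b + 1), ∑ v : Fin (10 * b + 1),
      (if u < v ∧ (gr b).Adj u v then (1 : ℕ) else 0)) := by
    rw [Finset.mul_sum]
    refine Finset.sum_congr rfl fun u _ => ?_
    rw [Finset.mul_sum]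
    refine Finset.sum_congr rfl fun v _ => ?_
    split_ifs <;> simp
  rw [h2] at h
  simp only [Finset.sum_const, Finset.card_univ, Fintype.card_fin, smul_eq_mul, mul_one] at h
  omega

theorem gr_card (b : ℕ) (hb : 1 ≤ b) : (gr b).edgeSet.ncard = 9 * b := by
  have h1 := (gr b).sum_degrees_eq_twice_card_edges
  have h2 := gr_sum_smul b hb (fun _ => (1 : ℕ))
  simp only [smul_eq_mul, mul_one, Finset.sum_const, Finset.card_univ, Fintype.card_fin] at h2
  rw [h2] at h1
  rw [← SimpleGraph.coe_edgeFinset, Set.ncard_coe_finset]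
  omega

/-- The zero-sum lower bound: no `N ≤ 18b-2` is good. -/
theorem lower (b : ℕ) (hb : 1 ≤ b) (N : ℕ) (hN : N ≤ 18 * b - 2) :
    ¬ (∀ c : Sym2 (Fin N) → ZMod (9 * b), ∃ f : Fin (10 * b + 1) → Fin N,
        Function.Injective f ∧
        (∑ u : Fin (10 * b + 1), ∑ v : Fin (10 * b + 1),
          (if u < v ∧ (gr b).Adj u v then c s(f u, f v) else (0 : ZMod (9 * b)))) = 0) := by
  intro h
  let F : Fin N → ℕ := fun x => if x.val < 9 * b - 1 then 0 else 1
  obtain ⟨f, hf, hsum⟩ := h (Sym2.lift ⟨fun x y => ((F x + F y : ℕ) : ZMod (9 * b)),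
    fun x y => by simp only [add_comm]⟩)
  simp only [Sym2.lift_mk] at hsum
  have hs2 : (∑ u : Fin (10 * b + 1), ∑ v : Fin (10 * b + 1),
      (if u < v ∧ (gr b).Adj u v then ((F (f u) + F (f v) : ℕ) : ZMod (9 * b)) else 0)) =
      ((∑ u : Fin (10 * b + 1), ∑ v : Fin (10 * b + 1),
        (if u < v ∧ (gr b).Adj u v then F (f u) + F (f v) else 0) : ℕ) : ZMod (9 * b)) := by
    push_cast
    rfl
  rw [hs2, sum_formula (gr b) (fun u => F (f u)), gr_sum_smul b hb,
    ZMod.natCast_eq_zero_iff] at hsum
  simp only [smul_eq_mul] at hsum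
  have hF0 : F (f 0) = 0 ∨ F (f 0) = 1 := by
    simp only [F]
    split_ifs <;> simp
  -- number of vertices placed in the upper part
  have hcount : (∑ u, F (f u)) = (Finset.univ.filter
      (fun u : Fin (10 * b + 1) => ¬ (f u).val < 9 * b - 1)).card := by
    rw [Finset.card_filter]
    refine Finset.sum_congr rfl fun u _ => ?_
    simp only [F]
    split_ifs <;> simp_all
  have hup : (Finset.univ.filter
      (fun u : Fin (10 * b + 1) => ¬ (f u).val < 9 * b - 1)).card ≤ 9 * b - 1 := by
    have : (Finset.univ.filter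
      (fun u : Fin (10 * b + 1) => ¬ (f u).val < 9 * b - 1)).card ≤
        (Finset.Ico (9 * b - 1) N).card := by
      apply Finset.card_le_card_of_injOn (fun u => (f u).val)
      · intro u hu
        simp only [Finset.coe_filter, Finset.mem_univ, true_and, Set.mem_ofPred_eq] at hu
        simp only [Finset.coe_Ico, Set.mem_Ico]
        exact ⟨by omega, (f u).isLt⟩
      · intro u _ v _ huv
        exact hf (Fin.ext huv)
    rw [Nat.card_Ico] at this
    omega
  have hlow : (Finset.univ.filter
      (fun u : Fin (10 * b + 1) => (f u).val < 9 * b - 1)).card ≤ 9 * b - 1 := by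
    have : (Finset.univ.filter
      (fun u : Fin (10 * b + 1) => (f u).val < 9 * b - 1)).card ≤
        (Finset.range (9 * b - 1)).card := by
      apply Finset.card_le_card_of_injOn (fun u => (f u).val)
      · intro u hu
        simp only [Finset.coe_filter, Finset.mem_univ, true_and, Set.mem_ofPred_eq] at hu
        simp only [Finset.coe_range, Set.mem_Iio]
        exact hu
      · intro u _ v _ huv
        exact hf (Fin.ext huv)
    rw [Finset.card_range] at this
    exact this
  have htot := Finset.card_filter_add_card_filter_not (s := (Finset.univ : Finset (Fin (10 * b + 1))))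
    (fun u : Fin (10 * b + 1) => (f u).val < 9 * b - 1)
  rw [Finset.card_univ, Fintype.card_fin] at htot
  rw [hcount] at hsum
  obtain ⟨q, hq⟩ := hsum
  rcases hF0 with h0 | h0
  · rw [h0] at hq
    have hq1 : q < 1 := by
      by_contra hcon
      have : 9 * b * 1 ≤ 9 * b * q := Nat.mul_le_mul_left _ (by omega)
      omega
    have hq0 : q = 0 := by omega
    subst hq0
    omega
  · rw [h0] at hq
    have hq1 : q < 2 := by
      by_contra hcon
      have : 9 * b * 2 ≤ 9 * b * q := Nat.mul_le_mul_left _ (by omega)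
      omega
    have hq0 : 1 < q := by
      by_contra hcon
      have : 9 * b * q ≤ 9 * b * 1 := Nat.mul_le_mul_left _ (by omega)
      omega
    omega

/-- Greedy alternative: a matching with `b` edges or a vertex cover with at most `2(b-1)`
vertices. -/
theorem match_or_cover {V : Type*} [Nonempty V] (r : V → V → Prop) (b : ℕ) :
    (∃ P Q : ℕ → V, (∀ i < b, ∀ j < b, i ≠ j → P i ≠ P j) ∧
      (∀ i < b, ∀ j < b, i ≠ j → Q i ≠ Q j) ∧ (∀ i < b, ∀ j < b, P i ≠ Q j) ∧
      ∀ i < b, r (P i) (Q i)) ∨
    ∃ C : Finset V, C.card ≤ 2 * (b - 1) ∧ ∀ x y, x ≠ y → r x y → x ∈ C ∨ y ∈ C := by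
  induction b with
  | zero =>
    left
    obtain ⟨x⟩ := ‹Nonempty V›
    exact ⟨fun _ => x, fun _ => x, by simp, by simp, by simp, by simp⟩
  | succ b ih =>
    rcases ih with ⟨P, Q, hP, hQ, hPQ, hr⟩ | ⟨C, hC, hcov⟩
    · by_cases hall : ∀ x y, x ≠ y → r x y →
          x ∈ (Finset.range b).image P ∪ (Finset.range b).image Q ∨
          y ∈ (Finset.range b).image P ∪ (Finset.range b).image Q
      · right
        refine ⟨_, ?_, hall⟩
        have h1 := Finset.card_union_le ((Finset.range b).image P) ((Finset.range b).image Q)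
        have h2 : ((Finset.range b).image P).card ≤ b := by
          simpa using (Finset.card_image_le (s := Finset.range b) (f := P))
        have h3 : ((Finset.range b).image Q).card ≤ b := by
          simpa using (Finset.card_image_le (s := Finset.range b) (f := Q))
        omega
      · left
        push Not at hall
        obtain ⟨x, y, hxy, hrxy, hx, hy⟩ := hall
        simp only [Finset.mem_union, Finset.mem_image, Finset.mem_range, not_or, not_exists,
          not_and] at hx hy
        have upd : ∀ (g : ℕ → V) (z : V) (i : ℕ), i < b → Function.update g b z i = g i := by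
          intro g z i hi
          exact Function.update_of_ne (by omega) _ _
        have updb : ∀ (g : ℕ → V) (z : V), Function.update g b z b = z := by
          intro g z
          exact Function.update_self _ _ _
        refine ⟨Function.update P b x, Function.update Q b y, ?_, ?_, ?_, ?_⟩
        · intro i hi j hj hij
          rcases Nat.lt_succ_iff_lt_or_eq.mp hi with hi' | rfl
          · rcases Nat.lt_succ_iff_lt_or_eq.mp hj with hj' | rfl
            · rw [upd P x i hi', upd P x j hj']
              exact hP i hi' j hj' hij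
            · rw [upd P x i hi', updb]
              exact hx.1 i hi'
          · rcases Nat.lt_succ_iff_lt_or_eq.mp hj with hj' | rfl
            · rw [updb, upd P x j hj']
              exact fun h => hx.1 j hj' h.symm
            · exact absurd rfl hij
        · intro i hi j hj hij
          rcases Nat.lt_succ_iff_lt_or_eq.mp hi with hi' | rfl
          · rcases Nat.lt_succ_iff_lt_or_eq.mp hj with hj' | rfl
            · rw [upd Q y i hi', upd Q y j hj']
              exact hQ i hi' j hj' hij
            · rw [upd Q y i hi', updb]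
              exact hy.2 i hi'
          · rcases Nat.lt_succ_iff_lt_or_eq.mp hj with hj' | rfl
            · rw [updb, upd Q y j hj']
              exact fun h => hy.2 j hj' h.symm
            · exact absurd rfl hij
        · intro i hi j hj
          rcases Nat.lt_succ_iff_lt_or_eq.mp hi with hi' | rfl
          · rcases Nat.lt_succ_iff_lt_or_eq.mp hj with hj' | rfl
            · rw [upd P x i hi', upd Q y j hj']
              exact hPQ i hi' j hj'
            · rw [upd P x i hi', updb]
              exact hy.1 i hi'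
          · rcases Nat.lt_succ_iff_lt_or_eq.mp hj with hj' | rfl
            · rw [updb, upd Q y j hj']
              exact fun h => hx.2 j hj' h.symm
            · rw [updb, updb]
              exact hxy
        · intro i hi
          rcases Nat.lt_succ_iff_lt_or_eq.mp hi with hi' | rfl
          · rw [upd P x i hi', upd Q y i hi']
            exact hr i hi'
          · rw [updb, updb]
            exact hrxy
    · right
      exact ⟨C, by omega, hcov⟩

/-- Enumerate part of a finset by natural numbers. -/
theorem enum {V : Type*} (v : V) (A : Finset V) (n : ℕ) (hA : n ≤ A.card) :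
    ∃ L : ℕ → V, (∀ i < n, L i ∈ A) ∧ ∀ i < n, ∀ j < n, i ≠ j → L i ≠ L j := by
  obtain ⟨B, hBA, hB⟩ := Finset.exists_subset_card_eq hA
  let e := B.equivFinOfCardEq hB
  refine ⟨fun i => if h : i < n then (e.symm ⟨i, h⟩ : V) else v, ?_, ?_⟩
  · intro i hi
    simp only [dif_pos hi]
    exact hBA (e.symm ⟨i, hi⟩).2
  · intro i hi j hj hij h
    simp only [dif_pos hi, dif_pos hj] at h
    have h2 := e.symm.injective (Subtype.ext h)
    exact hij (by simpa using h2)

/-- Assemble a monochromatic copy from a star and a matching. -/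
theorem build {K : Type*} {V : Type*} (b : ℕ) (c : Sym2 V → K) (β : K) (v : V) (A : Finset V)
    (hA : 8 * b ≤ A.card) (hvA : v ∉ A) (hcA : ∀ x ∈ A, c s(v, x) = β) (P Q : ℕ → V)
    (hP : ∀ i < b, ∀ j < b, i ≠ j → P i ≠ P j) (hQ : ∀ i < b, ∀ j < b, i ≠ j → Q i ≠ Q j)
    (hPQ : ∀ i < b, ∀ j < b, P i ≠ Q j) (hr : ∀ i < b, c s(P i, Q i) = β)
    (hPv : ∀ i < b, P i ≠ v) (hQv : ∀ i < b, Q i ≠ v)
    (hPA : ∀ i < b, P i ∉ A) (hQA : ∀ i < b, Q i ∉ A) :
    ∃ f : Fin (10 * b + 1) → V, Function.Injective f ∧
      ∀ u w, (gr b).Adj u w → c s(f u, f w) = β := by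
  obtain ⟨L, hLA, hL⟩ := enum v A (8 * b) hA
  let g : ℕ → V := fun n => if n = 0 then v else if n ≤ 8 * b then L (n - 1) else
    if n ≤ 9 * b then P (n - 8 * b - 1) else Q (n - 9 * b - 1)
  have g0 : g 0 = v := by simp [g]
  have g1 : ∀ n, 1 ≤ n → n ≤ 8 * b → g n = L (n - 1) := by
    intro n h1 h2
    simp only [g]
    rw [if_neg (by omega), if_pos h2]
  have g2 : ∀ n, 8 * b + 1 ≤ n → n ≤ 9 * b → g n = P (n - 8 * b - 1) := by
    intro n h1 h2
    simp only [g]
    rw [if_neg (by omega), if_neg (by omega), if_pos h2]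
  have g3 : ∀ n, 9 * b + 1 ≤ n → g n = Q (n - 9 * b - 1) := by
    intro n h1
    simp only [g]
    rw [if_neg (by omega), if_neg (by omega), if_neg (by omega)]
  have hinj : ∀ i j, i < j → j ≤ 10 * b → g i ≠ g j := by
    intro i j hij hj
    rcases Nat.eq_zero_or_pos i with hi0 | hi0
    · subst hi0
      rw [g0]
      by_cases h1 : j ≤ 8 * b
      · rw [g1 j (by omega) h1]
        intro h
        exact hvA (h ▸ hLA (j - 1) (by omega))
      · by_cases h2 : j ≤ 9 * b
        · rw [g2 j (by omega) h2]
          exact fun h => hPv _ (by omega) h.symm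
        · rw [g3 j (by omega)]
          exact fun h => hQv _ (by omega) h.symm
    · by_cases hi1 : i ≤ 8 * b
      · rw [g1 i (by omega) hi1]
        have hLi := hLA (i - 1) (by omega)
        by_cases h1 : j ≤ 8 * b
        · rw [g1 j (by omega) h1]
          exact hL _ (by omega) _ (by omega) (by omega)
        · by_cases h2 : j ≤ 9 * b
          · rw [g2 j (by omega) h2]
            intro h
            exact hPA _ (by omega) (h ▸ hLi)
          · rw [g3 j (by omega)]
            intro h
            exact hQA _ (by omega) (h ▸ hLi)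
      · by_cases hi2 : i ≤ 9 * b
        · rw [g2 i (by omega) hi2]
          by_cases h2 : j ≤ 9 * b
          · rw [g2 j (by omega) h2]
            exact hP _ (by omega) _ (by omega) (by omega)
          · rw [g3 j (by omega)]
            exact hPQ _ (by omega) _ (by omega)
        · rw [g3 i (by omega), g3 j (by omega)]
          exact hQ _ (by omega) _ (by omega) (by omega)
  refine ⟨fun u => g u.val, ?_, ?_⟩
  · intro u w huw
    by_contra hne
    have hne' : u.val ≠ w.val := fun h => hne (Fin.ext h)
    rcases lt_or_gt_of_ne hne' with h | h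
    · exact hinj _ _ h (by omega) huw
    · exact hinj _ _ h (by omega) huw.symm
  · intro u w huw
    rw [gr_adj] at huw
    show c s(g u.val, g w.val) = β
    rcases huw with ⟨h1, h2, h3⟩ | ⟨h1, h2, h3⟩ | ⟨h1, h2, h3⟩ | ⟨h1, h2, h3⟩
    · rw [h1, g0, g1 _ h2 h3]
      exact hcA _ (hLA _ (by omega))
    · rw [h1, g0, g1 _ h2 h3, Sym2.eq_swap]
      exact hcA _ (hLA _ (by omega))
    · rw [g2 _ h1 h2, g3 w.val (by omega)]
      have : w.val - 9 * b - 1 = u.val - 8 * b - 1 := by omega
      rw [this]
      exact hr _ (by omega)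
    · rw [g2 _ h1 h2, g3 u.val (by omega), Sym2.eq_swap]
      have : u.val - 9 * b - 1 = w.val - 8 * b - 1 := by omega
      rw [this]
      exact hr _ (by omega)

/-- Finiteness of the zero-sum Ramsey number of `gr b`. -/
theorem finite_zero (b : ℕ) (hb : 1 ≤ b) : ∃ N : ℕ,
    ∀ c : Sym2 (Fin N) → ZMod (9 * b), ∃ f : Fin (10 * b + 1) → Fin N,
        Function.Injective f ∧
        (∑ u : Fin (10 * b + 1), ∑ v : Fin (10 * b + 1),
          (if u < v ∧ (gr b).Adj u v then c s(f u, f v) else (0 : ZMod (9 * b)))) = 0 := by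
  have : NeZero (9 * b) := ⟨by omega⟩
  let s := 9 * b * (8 * b)
  let t := 9 * b * (b + 1)
  refine ⟨t * (s + 1), ?_⟩
  intro c
  let e : Fin t × Fin (s + 1) ≃ Fin (t * (s + 1)) := finProdFinEquiv
  have h1 : ∀ i : Fin t, ∃ γ : ZMod (9 * b), 8 * b ≤ (Finset.univ.filter
      (fun j : Fin s => c s(e (i, 0), e (i, j.succ)) = γ)).card := by
    intro i
    obtain ⟨γ, _, hγ⟩ := Finset.exists_le_card_fiber_of_mul_le_card_of_maps_to
      (s := (Finset.univ : Finset (Fin s))) (t := (Finset.univ : Finset (ZMod (9 * b))))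
      (f := fun j : Fin s => c s(e (i, 0), e (i, j.succ))) (n := 8 * b)
      (fun _ _ => Finset.mem_univ _) Finset.univ_nonempty (by
        rw [Finset.card_univ, Finset.card_univ, ZMod.card, Fintype.card_fin])
    exact ⟨γ, hγ⟩
  choose γ hγ using h1
  obtain ⟨γ0, _, hγ0⟩ := Finset.exists_le_card_fiber_of_mul_le_card_of_maps_to
      (s := (Finset.univ : Finset (Fin t))) (t := (Finset.univ : Finset (ZMod (9 * b))))
      (f := γ) (n := b + 1)
      (fun _ _ => Finset.mem_univ _) Finset.univ_nonempty (by
        rw [Finset.card_univ, Finset.card_univ, ZMod.card, Fintype.card_fin])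
  have htpos : 0 < t := by positivity
  obtain ⟨I, hIA, hI⟩ := enum (⟨0, htpos⟩ : Fin t) _ (b + 1) hγ0
  simp only [Finset.mem_filter, Finset.mem_univ, true_and] at hIA
  have hJ : ∀ i : Fin t, ∃ j : Fin s, c s(e (i, 0), e (i, j.succ)) = γ i := by
    intro i
    have : 0 < (Finset.univ.filter
      (fun j : Fin s => c s(e (i, 0), e (i, j.succ)) = γ i)).card := by
      have := hγ i
      omega
    obtain ⟨j, hj⟩ := Finset.card_pos.mp this
    exact ⟨j, (Finset.mem_filter.mp hj).2⟩
  choose J hJc using hJ
  obtain ⟨f, hf, hfc⟩ := build b c γ0 (e (I 0, 0))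
    ((Finset.univ.filter
      (fun j : Fin s => c s(e (I 0, 0), e (I 0, j.succ)) = γ (I 0))).image
        (fun j => e (I 0, j.succ)))
    (by
      rw [Finset.card_image_of_injective]
      · exact hγ (I 0)
      · intro j j' h
        have := e.injective h
        simpa using this)
    (by
      intro h
      simp only [Finset.mem_image] at h
      obtain ⟨j, _, hj⟩ := h
      have := e.injective hj
      simp at this)
    (by
      intro x hx
      simp only [Finset.mem_image, Finset.mem_filter, Finset.mem_univ, true_and] at hx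
      obtain ⟨j, hj, rfl⟩ := hx
      rw [hj]
      exact hIA 0 (by omega))
    (fun i => e (I (i + 1), 0)) (fun i => e (I (i + 1), (J (I (i + 1))).succ))
    (by
      intro i hi j hj hij h
      have := e.injective h
      simp only [Prod.mk.injEq, and_true] at this
      exact hI (i + 1) (by omega) (j + 1) (by omega) (by omega) this)
    (by
      intro i hi j hj hij h
      have := e.injective h
      simp only [Prod.mk.injEq] at this
      exact hI (i + 1) (by omega) (j + 1) (by omega) (by omega) this.1)
    (by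
      intro i hi j hj h
      have := e.injective h
      simp only [Prod.mk.injEq] at this
      exact absurd this.2.symm (Fin.succ_ne_zero _))
    (by
      intro i hi
      show c s(e (I (i + 1), 0), e (I (i + 1), (J (I (i + 1))).succ)) = γ0
      rw [hJc, hIA (i + 1) (by omega)])
    (by
      intro i hi h
      have := e.injective h
      simp only [Prod.mk.injEq, and_true] at this
      exact hI (i + 1) (by omega) 0 (by omega) (by omega) this)
    (by
      intro i hi h
      have := e.injective h
      simp only [Prod.mk.injEq] at this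
      exact hI (i + 1) (by omega) 0 (by omega) (by omega) this.1)
    (by
      intro i hi h
      simp only [Finset.mem_image] at h
      obtain ⟨j, _, hj⟩ := h
      have := e.injective hj
      simp only [Prod.mk.injEq] at this
      exact hI (i + 1) (by omega) 0 (by omega) (by omega) this.1.symm)
    (by
      intro i hi h
      simp only [Finset.mem_image] at h
      obtain ⟨j, _, hj⟩ := h
      have := e.injective hj
      simp only [Prod.mk.injEq] at this
      exact hI (i + 1) (by omega) 0 (by omega) (by omega) this.1.symm)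
  refine ⟨f, hf, ?_⟩
  have h2 : ∀ u v : Fin (10 * b + 1),
      (if u < v ∧ (gr b).Adj u v then c s(f u, f v) else (0 : ZMod (9 * b))) =
      ((if u < v ∧ (gr b).Adj u v then (1 : ℕ) else 0 : ℕ) : ZMod (9 * b)) * γ0 := by
    intro u v
    split_ifs with h
    · rw [hfc u v h.2]
      simp
    · simp
  rw [Finset.sum_congr rfl fun u _ => Finset.sum_congr rfl fun v _ => h2 u v]
  simp_rw [← Finset.sum_mul]
  have h3 := congrArg (Nat.cast : ℕ → ZMod (9 * b)) (gr_pairs b hb)
  rw [ZMod.natCast_self] at h3
  push_cast at h3 ⊢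
  rw [h3, zero_mul]

/-- `2a+b+1` is an upper bound for the two-colour Ramsey number of `K_{1,a} + bK_2`, `a = 8b`. -/
theorem upper (b : ℕ) (hb : 1 ≤ b) (c : Sym2 (Fin (17 * b + 1)) → Bool) :
    ∃ f : Fin (10 * b + 1) → Fin (17 * b + 1),
      Function.Injective f ∧ ∃ β : Bool, ∀ u v : Fin (10 * b + 1), (gr b).Adj u v →
        c s(f u, f v) = β := by
  by_contra hno
  have hno' : ∀ β : Bool, ¬ ∃ f : Fin (10 * b + 1) → Fin (17 * b + 1),
      Function.Injective f ∧ ∀ u v : Fin (10 * b + 1), (gr b).Adj u v →
        c s(f u, f v) = β := by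
    rintro β ⟨f, hf, hfc⟩
    exact hno ⟨f, hf, β, hfc⟩
  -- colour degrees
  let D : Bool → Fin (17 * b + 1) → Finset (Fin (17 * b + 1)) := fun β v =>
    Finset.univ.filter (fun x => x ≠ v ∧ c s(v, x) = β)
  have memD : ∀ β v x, x ∈ D β v ↔ x ≠ v ∧ c s(v, x) = β := by
    intro β v x
    simp [D]
  have hsum : ∀ β v, (D β v).card + (D (!β) v).card = 17 * b := by
    intro β v
    rw [← Finset.card_union_of_disjoint]
    · have : D β v ∪ D (!β) v = Finset.univ.erase v := by
        ext x
        simp only [Finset.mem_union, memD, Finset.mem_erase, Finset.mem_univ, and_true]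
        cases c s(v, x) <;> cases β <;> simp
      rw [this, Finset.card_erase_of_mem (Finset.mem_univ _), Finset.card_univ, Fintype.card_fin]
      omega
    · rw [Finset.disjoint_left]
      intro x hx hx'
      rw [memD] at hx hx'
      have := hx.2.symm.trans hx'.2
      cases β <;> simp at this
  have notb : ∀ (x β : Bool), x ≠ β → x = !β := by decide
  -- Claim A
  have claimA : ∀ β v, (D β v).card ≤ 10 * b - 1 := by
    intro β v
    by_contra hcon
    have hbig : 10 * b ≤ (D β v).card := by omega
    have : Nonempty (Fin (17 * b + 1)) := ⟨v⟩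
    rcases match_or_cover (fun x y => x ≠ v ∧ y ≠ v ∧ c s(x, y) = β) b with
      ⟨P, Q, hP, hQ, hPQ, hr⟩ | ⟨C, hC, hcov⟩
    · apply hno' β
      have hcA : 8 * b ≤ (D β v \ ((Finset.range b).image P ∪ (Finset.range b).image Q)).card := by
        have h1 := Finset.card_union_le ((Finset.range b).image P) ((Finset.range b).image Q)
        have h2 : ((Finset.range b).image P).card ≤ b := by
          simpa using (Finset.card_image_le (s := Finset.range b) (f := P))
        have h3 : ((Finset.range b).image Q).card ≤ b := by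
          simpa using (Finset.card_image_le (s := Finset.range b) (f := Q))
        have h4 := Finset.le_card_sdiff ((Finset.range b).image P ∪ (Finset.range b).image Q)
          (D β v)
        omega
      refine build b c β v _ hcA ?_ ?_ P Q hP hQ hPQ (fun i hi => (hr i hi).2.2)
        (fun i hi => (hr i hi).1) (fun i hi => (hr i hi).2.1) ?_ ?_
      · intro h
        rw [Finset.mem_sdiff, memD] at h
        exact h.1.1 rfl
      · intro x hx
        rw [Finset.mem_sdiff, memD] at hx
        exact hx.1.2
      · intro i hi h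
        rw [Finset.mem_sdiff] at h
        apply h.2
        exact Finset.mem_union_left _ (Finset.mem_image_of_mem _ (Finset.mem_range.mpr hi))
      · intro i hi h
        rw [Finset.mem_sdiff] at h
        apply h.2
        exact Finset.mem_union_right _ (Finset.mem_image_of_mem _ (Finset.mem_range.mpr hi))
    · apply hno' (!β)
      have hW : 10 * b + 1 ≤ (Finset.univ \ (insert v C)).card := by
        have h4 := Finset.le_card_sdiff (insert v C) (Finset.univ : Finset (Fin (17 * b + 1)))
        have h5 := Finset.card_insert_le v C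
        rw [Finset.card_univ, Fintype.card_fin] at h4
        omega
      obtain ⟨L, hLA, hL⟩ := enum v _ _ hW
      have hinj : Function.Injective (fun u : Fin (10 * b + 1) => L u.val) := by
        intro u w huw
        by_contra hne
        exact hL _ u.isLt _ w.isLt (fun h => hne (Fin.ext h)) huw
      refine ⟨fun u => L u.val, hinj, ?_⟩
      intro u w huw
      apply notb
      intro hcol
      have hu := hLA u.val u.isLt
      have hw := hLA w.val w.isLt
      simp only [Finset.mem_sdiff, Finset.mem_univ, true_and, Finset.mem_insert, not_or] at hu hw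
      have hne : L u.val ≠ L w.val := fun h => huw.ne (hinj h)
      rcases hcov _ _ hne ⟨hu.1, hw.1, hcol⟩ with h | h
      · exact hu.2 h
      · exact hw.2 h
  -- Claim B
  have claimB : ∀ β v, (D β v).card ≤ 9 * b - 1 := by
    intro β v
    by_contra hcon
    have hbig : 9 * b ≤ (D β v).card := by omega
    have : Nonempty (Fin (17 * b + 1)) := ⟨v⟩
    rcases match_or_cover (fun x y => x ≠ v ∧ y ∈ D (!β) v ∧ c s(x, y) = β) b with
      ⟨P, Q, hP, hQ, hPQ, hr⟩ | ⟨C, hC, hcov⟩
    · apply hno' β
      have hcA : 8 * b ≤ (D β v \ ((Finset.range b).image P)).card := by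
        have h2 : ((Finset.range b).image P).card ≤ b := by
          simpa using (Finset.card_image_le (s := Finset.range b) (f := P))
        have h4 := Finset.le_card_sdiff ((Finset.range b).image P) (D β v)
        omega
      refine build b c β v _ hcA ?_ ?_ P Q hP hQ hPQ (fun i hi => (hr i hi).2.2)
        (fun i hi => (hr i hi).1) (fun i hi => ((memD _ _ _).mp (hr i hi).2.1).1) ?_ ?_
      · intro h
        rw [Finset.mem_sdiff, memD] at h
        exact h.1.1 rfl
      · intro x hx
        rw [Finset.mem_sdiff, memD] at hx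
        exact hx.1.2
      · intro i hi h
        rw [Finset.mem_sdiff] at h
        apply h.2
        exact Finset.mem_image_of_mem _ (Finset.mem_range.mpr hi)
      · intro i hi h
        rw [Finset.mem_sdiff, memD] at h
        have h6 := (memD _ _ _).mp (hr i hi).2.1
        have := h.1.2.symm.trans h6.2
        cases β <;> simp at this
    · have hY : 0 < (D (!β) v \ C).card := by
        have h4 := Finset.le_card_sdiff C (D (!β) v)
        have h5 := hsum β v
        have h6 := claimA β v
        omega
      obtain ⟨y, hy⟩ := Finset.card_pos.mp hY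
      rw [Finset.mem_sdiff] at hy
      have hyv := (memD _ _ _).mp hy.1
      have hsub : Finset.univ \ (insert y C) ⊆ D (!β) y := by
        intro x hx
        simp only [Finset.mem_sdiff, Finset.mem_univ, true_and, Finset.mem_insert, not_or] at hx
        rw [memD]
        refine ⟨hx.1, ?_⟩
        by_cases hxv : x = v
        · rw [hxv, Sym2.eq_swap]
          exact hyv.2
        · apply notb
          intro hcol
          rw [Sym2.eq_swap] at hcol
          rcases hcov x y hx.1 ⟨hxv, hy.1, hcol⟩ with h | h
          · exact hx.2 h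
          · exact hy.2 h
      have h7 := Finset.card_le_card hsub
      have h4 := Finset.le_card_sdiff (insert y C) (Finset.univ : Finset (Fin (17 * b + 1)))
      have h5 := Finset.card_insert_le y C
      rw [Finset.card_univ, Fintype.card_fin] at h4
      have h8 := claimA (!β) y
      omega
  have claimD : ∀ β v, 8 * b + 1 ≤ (D β v).card := by
    intro β v
    have h1 := hsum β v
    have h2 := claimB (!β) v
    omega
  -- Claim C
  have claimC : ∀ β v, ∃ Y : Finset (Fin (17 * b + 1)), Y ⊆ D (!β) v ∧ 6 * b + 3 ≤ Y.card ∧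
      ∀ x ∈ Y, ∀ y ∈ Y, x ≠ y → c s(x, y) = !β := by
    intro β v
    have : Nonempty (Fin (17 * b + 1)) := ⟨v⟩
    rcases match_or_cover (fun x y => x ∈ D (!β) v ∧ y ∈ D (!β) v ∧ c s(x, y) = β) b with
      ⟨P, Q, hP, hQ, hPQ, hr⟩ | ⟨C, hC, hcov⟩
    · exfalso
      apply hno' β
      refine build b c β v (D β v) ?_ ?_ ?_ P Q hP hQ hPQ (fun i hi => (hr i hi).2.2)
        (fun i hi => ((memD _ _ _).mp (hr i hi).1).1)
        (fun i hi => ((memD _ _ _).mp (hr i hi).2.1).1) ?_ ?_
      · have := claimD β v
        omega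
      · intro h
        rw [memD] at h
        exact h.1 rfl
      · intro x hx
        rw [memD] at hx
        exact hx.2
      · intro i hi h
        rw [memD] at h
        have h6 := (memD _ _ _).mp (hr i hi).1
        have := h.2.symm.trans h6.2
        cases β <;> simp at this
      · intro i hi h
        rw [memD] at h
        have h6 := (memD _ _ _).mp (hr i hi).2.1
        have := h.2.symm.trans h6.2
        cases β <;> simp at this
    · refine ⟨D (!β) v \ C, Finset.sdiff_subset, ?_, ?_⟩
      · have h4 := Finset.le_card_sdiff C (D (!β) v)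
        have h5 := claimD (!β) v
        omega
      · intro x hx y hy hxy
        rw [Finset.mem_sdiff] at hx hy
        apply notb
        intro hcol
        rcases hcov x y hxy ⟨hx.1, hy.1, hcol⟩ with h | h
        · exact hx.2 h
        · exact hy.2 h
  let v0 : Fin (17 * b + 1) := ⟨0, by omega⟩
  obtain ⟨Y, hYD, hYc, hY⟩ := claimC true v0
  obtain ⟨X, hXD, hXc, hX⟩ := claimC false v0
  simp only [Bool.not_true, Bool.not_false] at hYD hY hXD hX
  have hdisj : ∀ x ∈ X, x ∉ Y := by
    intro x hx hy
    have h1 := (memD _ _ _).mp (hXD hx)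
    have h2 := (memD _ _ _).mp (hYD hy)
    have := h1.2.symm.trans h2.2
    simp at this
  -- a vertex of X has few true neighbours in Y
  have hx_few : ∀ x ∈ X, (Y.filter (fun y => c s(x, y) = true)).card + X.card ≤ 9 * b := by
    intro x hx
    have hsub : (X.erase x) ∪ Y.filter (fun y => c s(x, y) = true) ⊆ D true x := by
      intro z hz
      rw [memD]
      rcases Finset.mem_union.mp hz with h | h
      · rw [Finset.mem_erase] at h
        exact ⟨h.1, hX x hx z h.2 (Ne.symm h.1)⟩
      · rw [Finset.mem_filter] at h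
        refine ⟨?_, h.2⟩
        rintro rfl
        exact hdisj z hx h.1
    have hd : Disjoint (X.erase x) (Y.filter (fun y => c s(x, y) = true)) := by
      rw [Finset.disjoint_left]
      intro z hz hz'
      exact hdisj z (Finset.mem_of_mem_erase hz) (Finset.mem_of_mem_filter z hz')
    have h1 := Finset.card_le_card hsub
    rw [Finset.card_union_of_disjoint hd, Finset.card_erase_of_mem hx] at h1
    have h2 := claimB true x
    omega
  have hy_few : ∀ y ∈ Y, (X.filter (fun x => c s(x, y) = false)).card + Y.card ≤ 9 * b := by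
    intro y hy
    have hsub : (Y.erase y) ∪ X.filter (fun x => c s(x, y) = false) ⊆ D false y := by
      intro z hz
      rw [memD]
      rcases Finset.mem_union.mp hz with h | h
      · rw [Finset.mem_erase] at h
        exact ⟨h.1, hY y hy z h.2 (Ne.symm h.1)⟩
      · rw [Finset.mem_filter] at h
        refine ⟨?_, ?_⟩
        · rintro rfl
          exact hdisj z h.1 hy
        · rw [Sym2.eq_swap]
          exact h.2
    have hd : Disjoint (Y.erase y) (X.filter (fun x => c s(x, y) = false)) := by
      rw [Finset.disjoint_left]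
      intro z hz hz'
      exact hdisj z (Finset.mem_of_mem_filter z hz') (Finset.mem_of_mem_erase hz)
    have h1 := Finset.card_le_card hsub
    rw [Finset.card_union_of_disjoint hd, Finset.card_erase_of_mem hy] at h1
    have h2 := claimB false y
    omega
  have hdc : (∑ x ∈ X, (Y.filter (fun y => c s(x, y) = true)).card) +
      (∑ y ∈ Y, (X.filter (fun x => c s(x, y) = false)).card) = X.card * Y.card := by
    have h1 : (∑ y ∈ Y, (X.filter (fun x => c s(x, y) = false)).card) =
        ∑ x ∈ X, (Y.filter (fun y => c s(x, y) = false)).card := by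
      simp only [Finset.card_filter]
      rw [Finset.sum_comm]
    rw [h1, ← Finset.sum_add_distrib]
    have h2 : ∀ x ∈ X, (Y.filter (fun y => c s(x, y) = true)).card +
        (Y.filter (fun y => c s(x, y) = false)).card = Y.card := by
      intro x _
      have := Finset.card_filter_add_card_filter_not (s := Y) (fun y => c s(x, y) = true)
      simpa using this
    rw [Finset.sum_congr rfl h2]
    simp
  have hs1 : (∑ x ∈ X, (Y.filter (fun y => c s(x, y) = true)).card) ≤
      ∑ x ∈ X, (9 * b - X.card) := by
    refine Finset.sum_le_sum fun x hx => ?_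
    have := hx_few x hx
    omega
  have hs2 : (∑ y ∈ Y, (X.filter (fun x => c s(x, y) = false)).card) ≤
      ∑ y ∈ Y, (9 * b - Y.card) := by
    refine Finset.sum_le_sum fun y hy => ?_
    have := hy_few y hy
    omega
  rw [Finset.sum_const, smul_eq_mul] at hs1 hs2
  have hXle : X.card ≤ 9 * b := by
    obtain ⟨x, hx⟩ : X.Nonempty := Finset.card_pos.mp (by omega)
    have := hx_few x hx
    omega
  have hYle : Y.card ≤ 9 * b := by
    obtain ⟨y, hy⟩ : Y.Nonempty := Finset.card_pos.mp (by omega)
    have := hy_few y hy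
    omega
  obtain ⟨p, hp⟩ := Nat.exists_eq_add_of_le hXle
  obtain ⟨q, hq⟩ := Nat.exists_eq_add_of_le hYle
  have e1 : 9 * b - X.card = p := by omega
  have e2 : 9 * b - Y.card = q := by omega
  rw [e1] at hs1
  rw [e2] at hs2
  have hp3 : p + 3 ≤ 3 * b := by omega
  have hq3 : q + 3 ≤ 3 * b := by omega
  have hfin : X.card * Y.card ≤ X.card * p + Y.card * q := by
    rw [← hdc]
    exact Nat.add_le_add hs1 hs2
  nlinarith [Nat.mul_le_mul hXc hYc, Nat.mul_le_mul_left X.card hp3,
    Nat.mul_le_mul_left Y.card hq3, Nat.mul_le_mul_left X.card hYc,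
    Nat.mul_le_mul_left Y.card hXc]

/-- The negation of the preceding statement: For every ε>0, for all large m and every forest G with m edges, the zero-sum Ramsey number R(G,Z_m) is at most (1+ε) times the 2-colour Ramsey number R(G,2); since R(G,Z_m) ≥ R(G,2) always, this is the limit-equals-1 conjecture. -/
theorem result :
    ¬ (∀ ε : ℝ, 0 < ε → ∃ M : ℕ, ∀ m : ℕ, M ≤ m → ∀ k : ℕ, ∀ G : SimpleGraph (Fin k),
    G.IsAcyclic → G.edgeSet.ncard = m →
    ((sInf {N : ℕ | ∀ c : Sym2 (Fin N) → ZMod m, ∃ f : Fin k → Fin N,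
        Function.Injective f ∧
        (∑ u : Fin k, ∑ v : Fin k,
          (if u < v ∧ G.Adj u v then c s(f u, f v) else (0 : ZMod m))) = 0} : ℕ) : ℝ) ≤
    (1 + ε) * ((sInf {N : ℕ | ∀ c : Sym2 (Fin N) → Bool, ∃ f : Fin k → Fin N,
        Function.Injective f ∧ ∃ b : Bool, ∀ u v : Fin k, G.Adj u v →
          c s(f u, f v) = b} : ℕ) : ℝ)) := by
  intro h
  obtain ⟨M, hM⟩ := h (1 / 34) (by norm_num)
  have hb : 1 ≤ M + 5 := by omega
  have h1 := hM (9 * (M + 5)) (by omega) (10 * (M + 5) + 1) (gr (M + 5)) (gr_acyclic _)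
    (gr_card _ hb)
  generalize hb5 : M + 5 = b at h1 hb
  have hbig : 5 ≤ b := by omega
  have hupper : sInf {N : ℕ | ∀ c : Sym2 (Fin N) → Bool, ∃ f : Fin (10 * b + 1) → Fin N,
        Function.Injective f ∧ ∃ b' : Bool, ∀ u v : Fin (10 * b + 1), (gr b).Adj u v →
          c s(f u, f v) = b'} ≤ 17 * b + 1 := Nat.sInf_le (upper b hb)
  have hlower : 18 * b - 1 ≤ sInf {N : ℕ | ∀ c : Sym2 (Fin N) → ZMod (9 * b),
      ∃ f : Fin (10 * b + 1) → Fin N, Function.Injective f ∧
        (∑ u : Fin (10 * b + 1), ∑ v : Fin (10 * b + 1),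
          (if u < v ∧ (gr b).Adj u v then c s(f u, f v) else (0 : ZMod (9 * b)))) = 0} := by
    by_contra hcon
    have hmem := Nat.sInf_mem (s := {N : ℕ | ∀ c : Sym2 (Fin N) → ZMod (9 * b),
      ∃ f : Fin (10 * b + 1) → Fin N, Function.Injective f ∧
        (∑ u : Fin (10 * b + 1), ∑ v : Fin (10 * b + 1),
          (if u < v ∧ (gr b).Adj u v then c s(f u, f v) else (0 : ZMod (9 * b)))) = 0})
      (finite_zero b hb)
    exact lower b hb _ (by omega) hmem
  have h2 : ((18 * b - 1 : ℕ) : ℝ) ≤ (1 + 1 / 34) * ((17 * b + 1 : ℕ) : ℝ) := by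
    refine le_trans (Nat.cast_le.mpr hlower) (le_trans h1 ?_)
    exact mul_le_mul_of_nonneg_left (Nat.cast_le.mpr hupper) (by norm_num)
  have h3 : ((18 * b - 1 : ℕ) : ℝ) = 18 * (b : ℝ) - 1 := by
    rw [Nat.cast_sub (by omega)]
    push_cast
    ring
  rw [h3] at h2
  push_cast at h2
  have h4 : (5 : ℝ) ≤ (b : ℝ) := by exact_mod_cast hbig
  linarith

end Pool.Agent.S11846
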