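import Pool.Statements.S01012

set_option autoImplicit false
open Pool Pool.MP_293fae_al

namespace Pool.Agent.S01012

open Polynomial

/-- The Gaussian integer `1 + i`. -/
def gpi : GaussianInt := ⟨1, 1⟩

theorem gpi_irreducible : Irreducible gpi := by
  constructor
  · intro h
    have h1 := Zsqrtd.norm_eq_one_iff.mpr h
    simp [gpi, Zsqrtd.norm] at h1
  · intro a b hab
    have h1 : (Zsqrtd.norm a).natAbs * (Zsqrtd.norm b).natAbs = 2 := by
      rw [← Int.natAbs_mul, ← Zsqrtd.norm_mul, ← hab]
      simp [gpi, Zsqrtd.norm]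
    have h2 : (Zsqrtd.norm a).natAbs ∣ 2 := ⟨_, h1.symm⟩
    rcases (Nat.dvd_prime Nat.prime_two).mp h2 with h | h
    · left; exact Zsqrtd.norm_eq_one_iff.mp h
    · right
      rw [h] at h1
      apply Zsqrtd.norm_eq_one_iff.mp
      omega

/-- The maximal ideal `(1 + i)` of the Gaussian integers. -/
def pA : Ideal GaussianInt := Ideal.span {gpi}

instance pA_max : pA.IsMaximal := PrincipalIdealRing.isMaximal_of_irreducible gpi_irreducible

/-- The maximal ideal `(1 + i, X)` of `ℤ[i][X]`. -/
noncomputable def P : Ideal GaussianInt[X] := Ideal.comap (constantCoeff (R := GaussianInt)) pA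

instance P_max : P.IsMaximal :=
  Ideal.comap_isMaximal_of_surjective _ Polynomial.constantCoeff_surjective

theorem P_eq : P = Ideal.span {C gpi, X} := by
  apply le_antisymm
  · intro f hf
    have h1 : constantCoeff f ∈ pA := hf
    rw [pA, Ideal.mem_span_singleton] at h1
    obtain ⟨c, hc⟩ := h1
    rw [← Polynomial.divX_mul_X_add f]
    apply Ideal.add_mem
    · exact Ideal.mul_mem_left _ _ (Ideal.subset_span (by simp))
    · have : f.coeff 0 = gpi * c := hc
      rw [this, C_mul]
      exact Ideal.mul_mem_right _ _ (Ideal.subset_span (by simp))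
  · rw [Ideal.span_le]
    intro f hf
    rcases hf with rfl | hf
    · show constantCoeff (C gpi) ∈ pA
      simp [pA]
    · rw [Set.mem_singleton_iff] at hf
      subst hf
      show constantCoeff X ∈ pA
      simp

instance : P.LiesOver pA := by
  constructor
  ext a
  show a ∈ pA ↔ constantCoeff (C a) ∈ pA
  simp

theorem not_field : ¬ IsField GaussianInt := by
  intro h
  obtain ⟨b, hb⟩ := h.mul_inv_cancel gpi_irreducible.ne_zero
  exact gpi_irreducible.not_isUnit (IsUnit.of_mul_eq_one b hb)

theorem P_height : P.height = 2 := by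
  rw [Polynomial.height_eq_height_add_one pA P,
    IsPrincipalIdealRing.height_eq_one_of_isMaximal pA not_field]
  rfl

/-- The localization of `ℤ[i][X]` at `(1 + i, X)`. -/
abbrev R : Type := Localization.AtPrime P

theorem maxIdeal_eq :
    IsLocalRing.maximalIdeal R =
      Ideal.span {algebraMap GaussianInt[X] R (C gpi), algebraMap GaussianInt[X] R X} := by
  rw [← Localization.AtPrime.map_eq_maximalIdeal]
  refine (congrArg (Ideal.map (algebraMap GaussianInt[X] (Localization.AtPrime P))) P_eq).trans ?_
  rw [Ideal.map_span, Set.image_pair]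

/-- `1 + i` in the local ring. -/
noncomputable def w : R := algebraMap GaussianInt[X] R (C gpi)

/-- `i` in the local ring. -/
noncomputable def im : R := algebraMap GaussianInt[X] R (C ⟨0, 1⟩)

theorem im_sq : im * im = -1 := by
  unfold im
  rw [← map_mul, ← C_mul, ← map_one (algebraMap GaussianInt[X] R), ← map_neg]
  congr 1
  rw [← C_1, ← C_neg]
  congr 1

theorem w_eq : w = 1 + im := by
  unfold w im
  rw [← map_one (algebraMap GaussianInt[X] R), ← map_add]
  congr 1
  rw [← C_1, ← C_add]
  congr 1

theorem w_prime : Prime w := by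
  have h0 : Prime (C gpi : GaussianInt[X]) :=
    Polynomial.prime_C_iff.mpr gpi_irreducible.prime
  have h1 : (Ideal.span {(C gpi : GaussianInt[X])}).IsPrime :=
    (Ideal.span_singleton_prime h0.ne_zero).mpr h0
  have hle : Ideal.span {(C gpi : GaussianInt[X])} ≤ P := by
    rw [P_eq]
    exact Ideal.span_mono (by simp)
  have hdisj : Disjoint (P.primeCompl : Set GaussianInt[X])
      (Ideal.span {(C gpi : GaussianInt[X])} : Set GaussianInt[X]) := by
    rw [Set.disjoint_left]
    intro x hx hx'
    exact hx (hle hx')
  have h2 := IsLocalization.isPrime_of_isPrime_disjoint P.primeCompl R _ h1 hdisj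
  rw [Ideal.map_span, Set.image_singleton] at h2
  have hne : w ≠ 0 := by
    unfold w
    intro h
    have := (IsLocalization.injective R P.primeCompl_le_nonZeroDivisors)
      (h.trans (map_zero (algebraMap GaussianInt[X] R)).symm)
    exact h0.ne_zero this
  exact (Ideal.span_singleton_prime hne).mp h2

/-- If `i ^ 2 = -1` and `w = 1 + i` is a prime element of a domain, then `2 * w` is not a sum of
two squares. -/
theorem not_two_squares {R : Type} [CommRing R] [IsDomain R] {im w : R} (hI : im * im = -1)
    (hw : w = 1 + im) (hwp : Prime w) (a b : R) : 2 * w ≠ a ^ 2 + b ^ 2 := by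
  intro h
  have huv : (a + im * b) * (a - im * b) = 2 * w := by
    rw [h]; linear_combination (-b ^ 2) * hI
  have h2 : (2 : R) = -im * w ^ 2 := by
    rw [hw]; linear_combination (im + 2) * hI
  have hsub : (a + im * b) - (a - im * b) = w ^ 2 * b := by
    rw [hw]; linear_combination (-b) * hI
  generalize a + im * b = u at *
  generalize a - im * b = v at *
  have key : ∀ u v : R, ∀ c : R, ∀ k : R, u * v = w * k → u - v = w * c → w ∣ u ∧ w ∣ v := by
    intro u v c k h1 h2
    have h3 : w ∣ u * v := ⟨k, h1⟩
    rcases hwp.dvd_or_dvd h3 with h4 | h4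
    · refine ⟨h4, ?_⟩
      have : v = u - w * c := by rw [← h2]; ring
      rw [this]
      exact dvd_sub h4 (dvd_mul_right _ _)
    · refine ⟨?_, h4⟩
      have : u = v + w * c := by rw [← h2]; ring
      rw [this]
      exact dvd_add h4 (dvd_mul_right _ _)
  obtain ⟨⟨u1, hu1⟩, ⟨v1, hv1⟩⟩ := key _ _ (w * b) 2 (by rw [huv]; ring) (by rw [hsub]; ring)
  have e1 : u1 * v1 = w * (-im) := by
    have : w * w * (u1 * v1) = w * w * (w * (-im)) := by
      have h5 : u * v = w * u1 * (w * v1) := by rw [← hu1, ← hv1]
      rw [huv, h2] at h5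
      linear_combination -h5
    exact mul_left_cancel₀ (mul_ne_zero hwp.ne_zero hwp.ne_zero) this
  have e2 : u1 - v1 = w * b := by
    have : w * (u1 - v1) = w * (w * b) := by
      rw [mul_sub, ← hu1, ← hv1, hsub]; ring
    exact mul_left_cancel₀ hwp.ne_zero this
  obtain ⟨⟨u2, hu2⟩, ⟨v2, hv2⟩⟩ := key _ _ b (-im) e1 e2
  have e3 : w * (u2 * v2) = -im := by
    have : w * (w * (u2 * v2)) = w * (-im) := by
      rw [← e1, hu2, hv2]; ring
    exact mul_left_cancel₀ hwp.ne_zero this
  have e4 : w * (u2 * v2 * im) = 1 := by
    linear_combination im * e3 - hI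
  exact hwp.not_isUnit (IsUnit.of_mul_eq_one _ e4)

/-- In a domain in which `i ^ 2 = -1` and `w = 1 + i` is prime, the set of sums of squares is not
the set of sums of two squares, whereas it is in the field of fractions. -/
theorem general {R : Type} [CommRing R] [IsDomain R] {im w : R} (hI : im * im = -1)
    (hw : w = 1 + im) (hwp : Prime w)
    (H : ∀ (K : Type) [Field K] [Algebra R K] [IsFractionRing R K],
      ∀ n : ℕ,
        ((∀ x : R, IsSumSq x → ∃ f : Fin n → R, x = ∑ i, f i ^ 2) ↔
          (∀ x : K, IsSumSq x → ∃ f : Fin n → K, x = ∑ i, f i ^ 2))) : False := by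
  have h := (H (FractionRing R) 2).mpr ?_
  · have hs : IsSumSq (2 * w) := by
      have : (2 * w : R) = 1 * 1 + (1 * 1 + (w * w + 0)) := by
        rw [hw]; linear_combination -hI
      rw [this]
      exact .sq_add _ (.sq_add _ (.sq_add _ .zero))
    obtain ⟨f, hf⟩ := h _ hs
    rw [Fin.sum_univ_two] at hf
    exact not_two_squares hI hw hwp _ _ hf
  · intro x _
    have h2 : (2 : FractionRing R) ≠ 0 := by
      intro h2
      have h3 : algebraMap R (FractionRing R) 2 = algebraMap R (FractionRing R) 0 := by
        rw [map_ofNat, map_zero]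
        exact h2
      have h4 : (2 : R) = 0 := IsFractionRing.injective R (FractionRing R) h3
      have h5 : (2 : R) = -im * w ^ 2 := by
        rw [hw]; linear_combination (im + 2) * hI
      rw [h5] at h4
      rcases mul_eq_zero.mp h4 with h6 | h6
      · rw [neg_eq_zero] at h6
        rw [h6] at hI
        simp at hI
      · exact hwp.ne_zero (pow_eq_zero_iff (by norm_num) |>.mp h6)
    refine ⟨![(x + 1) / 2, algebraMap R _ im * ((x - 1) / 2)], ?_⟩
    have hI : (algebraMap R (FractionRing R) im) * (algebraMap R (FractionRing R) im) = -1 := by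
      rw [← map_mul, hI]; simp
    rw [Fin.sum_univ_two]
    simp only [Matrix.cons_val_zero, Matrix.cons_val_one]
    field_simp
    linear_combination (-(x - 1) ^ 2) * hI

theorem result :
    ¬ (∀ (R : Type) [CommRing R] [IsDomain R] [IsLocalRing R] [IsNoetherianRing R],
      ringKrullDim R = 2 →
      (∃ a b : R, IsLocalRing.maximalIdeal R = Ideal.span {a, b}) →
      ∀ (K : Type) [Field K] [Algebra R K] [IsFractionRing R K],
      ∀ n : ℕ,
        ((∀ x : R, IsSumSq x → ∃ f : Fin n → R, x = ∑ i, f i ^ 2) ↔
          (∀ x : K, IsSumSq x → ∃ f : Fin n → K, x = ∑ i, f i ^ 2))) := by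
  intro H
  have hdim : ringKrullDim R = 2 := by
    rw [IsLocalization.AtPrime.ringKrullDim_eq_height P R, P_height]
    rfl
  have hdom : IsDomain R := IsLocalization.isDomain_localization P.primeCompl_le_nonZeroDivisors
  have hnoeth : IsNoetherianRing R := IsLocalization.isNoetherianRing P.primeCompl R inferInstance
  have hp := w_prime
  have hI := im_sq
  have hw := w_eq
  have hmax := maxIdeal_eq
  generalize algebraMap GaussianInt[X] R (C gpi) = a at hmax
  generalize algebraMap GaussianInt[X] R X = b at hmax
  generalize w = w at *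
  generalize im = im at *
  exact general hI hw hp (H R hdim ⟨_, _, hmax⟩)

end Pool.Agent.S01012
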