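import Pool.Statements.S02504

set_option autoImplicit false
open Pool Pool.MP_9f8f27_al

namespace Pool.Agent.S02504

open LaurentPolynomial

/-- The lamplighter group `𝔽₂[T, T⁻¹] ⋊ ℤ`. -/
@[ext] structure Lamp : Type where
  /-- the lamps -/
  f : (ZMod 2)[T;T⁻¹]
  /-- the position -/
  k : ℤ

noncomputable instance : Mul Lamp := ⟨fun g h => ⟨g.f + T g.k * h.f, g.k + h.k⟩⟩
noncomputable instance : One Lamp := ⟨⟨0, 0⟩⟩
noncomputable instance : Inv Lamp := ⟨fun g => ⟨-(T (-g.k) * g.f), -g.k⟩⟩

theorem mul_f (g h : Lamp) : (g * h).f = g.f + T g.k * h.f := rfl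
theorem mul_k (g h : Lamp) : (g * h).k = g.k + h.k := rfl
theorem one_f : (1 : Lamp).f = 0 := rfl
theorem one_k : (1 : Lamp).k = 0 := rfl
theorem inv_f (g : Lamp) : (g⁻¹).f = -(T (-g.k) * g.f) := rfl
theorem inv_k (g : Lamp) : (g⁻¹).k = -g.k := rfl

noncomputable instance : Group Lamp :=
  Group.ofLeftAxioms
    (by
      intro g h l
      ext1
      · simp only [mul_f, mul_k, T_add]; ring
      · simp only [mul_k]; ring)
    (by
      intro g
      ext1
      · simp only [mul_f, one_f, one_k, T_zero]; ring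
      · simp only [mul_k, one_k]; ring)
    (by
      intro g
      ext1
      · simp only [mul_f, inv_f, inv_k, one_f]; ring
      · simp only [mul_k, inv_k, one_k]; ring)

/-- The generator that switches the lamp. -/
noncomputable def a : Lamp := ⟨1, 0⟩

/-- The generator that moves. -/
noncomputable def t : Lamp := ⟨0, 1⟩

theorem t_zpow (n : ℤ) : t ^ n = ⟨0, n⟩ := by
  induction n using Int.induction_on with
  | zero => rfl
  | succ n ih =>
    rw [zpow_add_one, ih]
    ext1
    · simp [mul_f, t]
    · simp [mul_k, t]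
  | pred n ih =>
    rw [zpow_sub_one, ih]
    ext1
    · simp [mul_f, t, inv_f]
    · simp [mul_k, t, inv_k]; ring

theorem closure_eq (S : Set Lamp) (ha : a ∈ S) (ht : t ∈ S) : Subgroup.closure S = ⊤ := by
  rw [eq_top_iff]
  have h1 : ∀ n : ℤ, (⟨0, n⟩ : Lamp) ∈ Subgroup.closure S := by
    intro n
    rw [← t_zpow]
    exact Subgroup.zpow_mem _ (Subgroup.subset_closure ht) n
  have h2 : ∀ f : (ZMod 2)[T;T⁻¹], (⟨f, 0⟩ : Lamp) ∈ Subgroup.closure S := by
    intro f
    induction f using LaurentPolynomial.induction_on' with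
    | add p q hp hq =>
      have : (⟨p + q, 0⟩ : Lamp) = ⟨p, 0⟩ * ⟨q, 0⟩ := by
        ext1
        · simp [mul_f]
        · simp [mul_k]
      rw [this]
      exact Subgroup.mul_mem _ hp hq
    | C_mul_T n b =>
      have hb : b = 0 ∨ b = 1 := by revert b; decide
      rcases hb with rfl | rfl
      · have : (⟨C 0 * T n, 0⟩ : Lamp) = 1 := by
          ext1
          · simp [one_f]
          · rfl
        rw [this]
        exact Subgroup.one_mem _
      · have : (⟨C 1 * T n, 0⟩ : Lamp) = ⟨0, n⟩ * a * ⟨0, -n⟩ := by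
          ext1
          · simp [mul_f, a]
          · simp [mul_k, a]
        rw [this]
        exact Subgroup.mul_mem _ (Subgroup.mul_mem _ (h1 n) (Subgroup.subset_closure ha)) (h1 _)
  intro g _
  have : g = ⟨g.f, 0⟩ * ⟨0, g.k⟩ := by
    ext1
    · simp [mul_f]
    · simp [mul_k]
  rw [this]
  exact Subgroup.mul_mem _ (h2 _) (h1 _)

/-! ### The action on `Kˣ × K` -/

section action

variable (K : Type) [Field K] [Algebra (ZMod 2) K]

/-- Evaluation of a Laurent polynomial at a unit. -/
noncomputable def ev (α : Kˣ) : (ZMod 2)[T;T⁻¹] →+* K := LaurentPolynomial.eval₂ (algebraMap (ZMod 2) K) α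

theorem ev_T (α : Kˣ) (n : ℤ) : ev K α (T n) = ((α ^ n : Kˣ) : K) := by
  unfold ev
  rw [LaurentPolynomial.eval₂_T]

/-- The lamplighter group acts on `Kˣ × K`: `t` acts by `(α, x) ↦ (α, α x)` and `a` acts by
`(α, x) ↦ (α, x + 1)`. -/
noncomputable instance : MulAction Lamp (Kˣ × K) where
  smul g p := (p.1, ((p.1 ^ g.k : Kˣ) : K) * p.2 + ev K p.1 g.f)
  one_smul p := by
    show (p.1, ((p.1 ^ (0 : ℤ) : Kˣ) : K) * p.2 + ev K p.1 0) = p
    simp
  mul_smul g h p := by
    show (p.1, ((p.1 ^ (g.k + h.k) : Kˣ) : K) * p.2 + ev K p.1 (g.f + T g.k * h.f)) =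
      (p.1, ((p.1 ^ g.k : Kˣ) : K) * (((p.1 ^ h.k : Kˣ) : K) * p.2 + ev K p.1 h.f)
        + ev K p.1 g.f)
    rw [map_add, map_mul, ev_T, zpow_add, Units.val_mul]
    congr 1
    ring

theorem smul_def (g : Lamp) (α : Kˣ) (x : K) :
    g • (α, x) = (α, ((α ^ g.k : Kˣ) : K) * x + ev K α g.f) := rfl

end action

/-! ### Balls -/

/-- `g` is a product of at most `n` elements of `S ∪ S⁻¹`. -/
def InBall (S : Finset Lamp) (n : ℕ) (g : Lamp) : Prop :=
  ∃ l : List Lamp, l.length ≤ n ∧ (∀ x ∈ l, x ∈ S ∨ x⁻¹ ∈ S) ∧ l.prod = g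

theorem ball_bound (S : Finset Lamp) (hS : ∀ x ∈ S, x = a ∨ x = t) (l : List Lamp)
    (hl : ∀ x ∈ l, x ∈ S ∨ x⁻¹ ∈ S) :
    l.prod.k.natAbs ≤ l.length ∧ ∃ P : Polynomial (ZMod 2), P.natDegree ≤ 2 * l.length ∧
      T l.length * l.prod.f = Polynomial.toLaurent P := by
  induction l with
  | nil =>
    refine ⟨by simp [one_k], 0, by simp, ?_⟩
    simp [one_f]
  | cons x l ih =>
    obtain ⟨h1, P, hP, h2⟩ := ih (fun y hy => hl y (List.mem_cons_of_mem _ hy))
    have hx := hl x List.mem_cons_self
    have hx' : x = a ∨ x = t ∨ x = ⟨0, -1⟩ := by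
      rcases hx with hx | hx
      · rcases hS x hx with h | h
        · exact Or.inl h
        · exact Or.inr (Or.inl h)
      · rcases hS _ hx with h | h
        · left
          rw [inv_eq_iff_eq_inv] at h
          rw [h]
          ext1
          · have : (-1 : (ZMod 2)[T;T⁻¹]) = 1 := by
              have h2 : (2 : (ZMod 2)[T;T⁻¹]) = 0 := by
                have h3 : ((2 : ZMod 2)) = 0 := by decide
                calc (2 : (ZMod 2)[T;T⁻¹]) = C (2 : ZMod 2) := (map_ofNat C 2).symm
                  _ = C 0 := by rw [h3]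
                  _ = 0 := map_zero C
              linear_combination -h2
            simp [inv_f, a, this]
          · simp [inv_k, a]
        · right; right
          rw [inv_eq_iff_eq_inv] at h
          rw [h]
          ext1
          · simp [inv_f, t]
          · simp [inv_k, t]
    rw [List.prod_cons, List.length_cons]
    have hT : (T ((l.length + 1 : ℕ) : ℤ) : (ZMod 2)[T;T⁻¹]) = T 1 * T (l.length : ℤ) := by
      rw [← T_add]; congr 1; push_cast; ring
    rcases hx' with rfl | rfl | rfl
    · refine ⟨?_, Polynomial.X ^ (l.length + 1) + Polynomial.X * P, ?_, ?_⟩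
      · simp only [mul_k, a]; omega
      · refine (Polynomial.natDegree_add_le _ _).trans (max_le ?_ ?_)
        · rw [Polynomial.natDegree_X_pow]; omega
        · refine Polynomial.natDegree_mul_le.trans ?_
          rw [Polynomial.natDegree_X]; omega
      · rw [map_add, map_mul, Polynomial.toLaurent_X, ← h2, Polynomial.toLaurent_X_pow, mul_f, hT]
        simp only [a, T_zero]
        ring
    · refine ⟨?_, Polynomial.X ^ 2 * P, ?_, ?_⟩
      · simp only [mul_k, t]; omega
      · refine Polynomial.natDegree_mul_le.trans ?_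
        rw [Polynomial.natDegree_X_pow]; omega
      · rw [map_mul, Polynomial.toLaurent_X_pow, ← h2, mul_f, hT]
        have : (T ((2 : ℕ) : ℤ) : (ZMod 2)[T;T⁻¹]) = T 1 * T 1 := by
          rw [← T_add]; rfl
        rw [this]
        simp only [t]
        ring
    · refine ⟨?_, P, ?_, ?_⟩
      · simp only [mul_k]; omega
      · omega
      · rw [← h2, mul_f, hT]
        have : (T 1 * T (-1) : (ZMod 2)[T;T⁻¹]) = 1 := by
          rw [← T_add]; simp
        simp only []
        linear_combination (T (l.length : ℤ) * l.prod.f) * this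

/-! ### Counting fixed points -/

section count

variable (K : Type) [Field K] [Fintype K] [DecidableEq K] [Algebra (ZMod 2) K]

open Classical in
omit [Algebra (ZMod 2) K] in
/-- The set of units at which a nonzero polynomial vanishes is small. -/
theorem card_roots_units (P : Polynomial K) (hP : P ≠ 0) :
    (Finset.univ.filter (fun α : Kˣ => P.eval (α : K) = 0)).card ≤ P.natDegree := by
  calc (Finset.univ.filter (fun α : Kˣ => P.eval (α : K) = 0)).card
      = ((Finset.univ.filter (fun α : Kˣ => P.eval (α : K) = 0)).image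
          (fun α : Kˣ => (α : K))).card := by
        rw [Finset.card_image_of_injective _ Units.val_injective]
    _ ≤ P.roots.toFinset.card := by
        apply Finset.card_le_card
        intro x hx
        rw [Finset.mem_image] at hx
        obtain ⟨α, hα, rfl⟩ := hx
        rw [Finset.mem_filter] at hα
        rw [Multiset.mem_toFinset, Polynomial.mem_roots hP]
        exact hα.2
    _ ≤ P.roots.card := Multiset.toFinset_card_le _
    _ ≤ P.natDegree := Polynomial.card_roots' P

open Classical in
/-- The units `α` such that some element with first coordinate `α` may be fixed along with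
everything else. -/
theorem card_bad (N : ℕ) (g : Lamp) (hg : g ≠ 1) (hk : g.k.natAbs ≤ N)
    (P : Polynomial (ZMod 2)) (hP : P.natDegree ≤ 2 * N)
    (hf : T (N : ℤ) * g.f = Polynomial.toLaurent P) :
    (Finset.univ.filter (fun α : Kˣ => α ^ g.k = 1 ∧ ev K α g.f = 0)).card ≤ 2 * N := by
  by_cases hk0 : g.k = 0
  · have hf0 : g.f ≠ 0 := by
      intro h
      apply hg
      ext1
      · rw [h, one_f]
      · rw [hk0, one_k]
    have hP0 : P ≠ 0 := by
      rintro rfl
      rw [map_zero] at hf
      have h1 : (T (-(N : ℤ)) : (ZMod 2)[T;T⁻¹]) * (T (N : ℤ) * g.f) = g.f := by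
        rw [← mul_assoc, ← T_add]; simp
      rw [hf, mul_zero] at h1
      exact hf0 h1.symm
    have hQ : P.map (algebraMap (ZMod 2) K) ≠ 0 :=
      (Polynomial.map_ne_zero_iff (algebraMap (ZMod 2) K).injective).mpr hP0
    refine le_trans (le_trans (Finset.card_le_card ?_) (card_roots_units K _ hQ)) ?_
    · intro α hα
      rw [Finset.mem_filter] at hα ⊢
      refine ⟨Finset.mem_univ _, ?_⟩
      have h1 : ev K α (Polynomial.toLaurent P) = 0 := by
        rw [← hf, map_mul, hα.2.2, mul_zero]
      unfold ev at h1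
      rw [LaurentPolynomial.eval₂_toLaurent] at h1
      rw [Polynomial.eval_map]
      exact h1
    · rw [Polynomial.natDegree_map]
      exact hP
  · have hpos : 0 < g.k.natAbs := Int.natAbs_pos.mpr hk0
    have hQ : (Polynomial.X ^ g.k.natAbs - Polynomial.C 1 : Polynomial K) ≠ 0 :=
      Polynomial.X_pow_sub_C_ne_zero hpos 1
    refine le_trans (le_trans (Finset.card_le_card ?_) (card_roots_units K _ hQ)) ?_
    · intro α hα
      rw [Finset.mem_filter] at hα ⊢
      refine ⟨Finset.mem_univ _, ?_⟩
      have h1 : α ^ g.k.natAbs = 1 := by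
        rcases Int.natAbs_eq g.k with h | h
        · have := hα.2.1
          rw [h, zpow_natCast] at this
          exact this
        · have := hα.2.1
          rw [h, zpow_neg, zpow_natCast, inv_eq_one] at this
          exact this
      have h2 : ((α : K)) ^ g.k.natAbs = 1 := by
        rw [← Units.val_pow_eq_pow_val, h1, Units.val_one]
      simp [h2]
    · rw [Polynomial.natDegree_X_pow_sub_C]
      omega

open Classical in
/-- A nontrivial element of the ball of radius `N` has few fixed points. -/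
theorem card_fixed (N : ℕ) (g : Lamp) (hg : g ≠ 1) (hk : g.k.natAbs ≤ N)
    (P : Polynomial (ZMod 2)) (hP : P.natDegree ≤ 2 * N)
    (hf : T (N : ℤ) * g.f = Polynomial.toLaurent P) :
    (Finset.univ.filter (fun p : Kˣ × K => g • p = p)).card ≤ (2 * N + 1) * Fintype.card K := by
  have hbad := card_bad K N g hg hk P hP hf
  set bad := Finset.univ.filter (fun α : Kˣ => α ^ g.k = 1 ∧ ev K α g.f = 0) with hbad_def
  have hsub : Finset.univ.filter (fun p : Kˣ × K => g • p = p) ⊆
      (bad ×ˢ Finset.univ) ∪ (Finset.univ : Finset Kˣ).image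
        (fun α => (α, ev K α g.f / (1 - ((α ^ g.k : Kˣ) : K)))) := by
    rintro ⟨α, x⟩ hp
    rw [Finset.mem_filter] at hp
    rw [Finset.mem_union]
    have h1 := hp.2
    rw [smul_def] at h1
    have h2 : ((α ^ g.k : Kˣ) : K) * x + ev K α g.f = x := congrArg Prod.snd h1
    by_cases hα : α ^ g.k = 1
    · left
      rw [Finset.mem_product]
      refine ⟨?_, Finset.mem_univ _⟩
      rw [hbad_def, Finset.mem_filter]
      refine ⟨Finset.mem_univ _, hα, ?_⟩
      rw [hα, Units.val_one] at h2
      linear_combination h2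
    · right
      rw [Finset.mem_image]
      refine ⟨α, Finset.mem_univ _, ?_⟩
      have h3 : (1 - ((α ^ g.k : Kˣ) : K)) ≠ 0 := by
        intro h
        apply hα
        apply Units.ext
        rw [Units.val_one]
        linear_combination -h
      congr 1
      rw [div_eq_iff h3]
      linear_combination h2
  calc _ ≤ _ := Finset.card_le_card hsub
    _ ≤ (bad ×ˢ (Finset.univ : Finset K)).card + ((Finset.univ : Finset Kˣ).image
        (fun α => (α, ev K α g.f / (1 - ((α ^ g.k : Kˣ) : K))))).card := Finset.card_union_le _ _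
    _ ≤ 2 * N * Fintype.card K + Fintype.card K := by
        apply Nat.add_le_add
        · rw [Finset.card_product, Finset.card_univ]
          exact Nat.mul_le_mul_right _ hbad
        · refine Finset.card_image_le.trans ?_
          rw [Finset.card_univ]
          exact Fintype.card_le_of_injective _ Units.val_injective
    _ = (2 * N + 1) * Fintype.card K := by ring

end count

/-- For every `N` the lamplighter group acts on at most `36 N ^ 4 + 2` points so that every
nontrivial element of the ball of radius `N` fixes at most a proportion `1/N` of the points. -/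
theorem approx (S : Finset Lamp) (hS : ∀ x ∈ S, x = a ∨ x = t) (N : ℕ) :
    ∃ d : ℕ, 0 < d ∧ d ≤ 36 * N ^ 4 + 2 ∧ ∃ φ : Lamp → Equiv.Perm (Fin d),
      φ 1 = 1 ∧ (∀ g h, φ (g * h) = φ g * φ h) ∧
      ∀ g : Lamp,
          (∃ l : List Lamp, l.length ≤ N ∧ (∀ x ∈ l, x ∈ S ∨ x⁻¹ ∈ S) ∧ l.prod = g) →
          g ≠ 1 →
          1 - 1 / (N : ℝ) ≤
            ((Finset.univ.filter (fun i : Fin d => φ g i ≠ i)).card : ℝ) / (d : ℝ) := by
  classical
  set x := (2 * N + 1) * N with hx
  set e := Nat.log 2 x + 1 with he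
  let K := GaloisField 2 e
  have hcard : Nat.card K = 2 ^ e := GaloisField.card 2 e (by omega)
  have : Finite K := Nat.finite_of_card_ne_zero (by rw [hcard]; positivity)
  have : Fintype K := Fintype.ofFinite K
  have hq : Fintype.card K = 2 ^ e := by rw [← Nat.card_eq_fintype_card, hcard]
  have hq1 : x < 2 ^ e := Nat.lt_pow_succ_log_self (by norm_num) x
  have hq2 : 2 ^ e ≤ 2 * x + 2 := by
    rcases Nat.eq_zero_or_pos x with h | h
    · rw [he, h]; simp
    · have := Nat.pow_log_le_self 2 (Nat.pos_iff_ne_zero.mp h)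
      rw [he, pow_succ]
      omega
  have hqpos : 2 ≤ 2 ^ e := by
    rw [he, pow_succ]
    have := Nat.one_le_two_pow (n := Nat.log 2 x)
    omega
  set q := 2 ^ e with hqdef
  have hunits : Fintype.card Kˣ = q - 1 := by rw [Fintype.card_units, hq]
  have hdcard : Fintype.card (Kˣ × K) = (q - 1) * q := by
    rw [Fintype.card_prod, hunits, hq]
  set d := (q - 1) * q with hd
  have hdpos : 0 < d := by
    rw [hd]
    apply Nat.mul_pos
    · omega
    · omega
  let eqv : Kˣ × K ≃ Fin d := Fintype.equivFinOfCardEq hdcard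
  refine ⟨d, hdpos, ?_, fun g => eqv.permCongr (MulAction.toPerm g), ?_, ?_, ?_⟩
  · rcases Nat.eq_zero_or_pos N with h | h
    · have hx0 : x = 0 := by rw [hx, h]
      have : q = 2 := by omega
      rw [hd, this, h]
      norm_num
    · have hx1 : x ≤ 3 * N ^ 2 := by rw [hx]; nlinarith
      have hq3 : q ≤ 2 * x := by
        have hxpos : x ≠ 0 := by rw [hx]; positivity
        have := Nat.pow_log_le_self 2 hxpos
        rw [hqdef, he, pow_succ]
        omega
      have hq4 : q ≤ 6 * N ^ 2 := by omega
      have : d ≤ q * q := Nat.mul_le_mul_right _ (by omega)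
      have h2 : q * q ≤ (6 * N ^ 2) * (6 * N ^ 2) := Nat.mul_le_mul hq4 hq4
      have h3 : (6 * N ^ 2) * (6 * N ^ 2) = 36 * N ^ 4 := by ring
      omega
  · ext i
    simp [Equiv.permCongr_apply]
  · intro g h
    ext i
    simp [Equiv.permCongr_apply, mul_smul]
  · rintro g ⟨l, hl, hlS, rfl⟩ hg
    obtain ⟨h1, P, hP, h2⟩ := ball_bound S hS l hlS
    have hfix := card_fixed K l.length l.prod hg h1 P hP h2
    rw [hq] at hfix
    have hfix2 : (Finset.univ.filter (fun p : Kˣ × K => l.prod • p = p)).card ≤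
        (2 * N + 1) * q := hfix.trans (Nat.mul_le_mul_right _ (by omega))
    have hmoved : (Finset.univ.filter
        (fun i : Fin d => eqv.permCongr (MulAction.toPerm l.prod) i ≠ i)).card =
        (Finset.univ.filter (fun p : Kˣ × K => l.prod • p ≠ p)).card := by
      symm
      apply Finset.card_bij (fun p _ => eqv p)
      · intro p hp
        rw [Finset.mem_filter] at hp ⊢
        refine ⟨Finset.mem_univ _, ?_⟩
        simpa [Equiv.permCongr_apply] using hp.2
      · intro p _ p' _ h
        exact eqv.injective h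
      · intro i hi
        rw [Finset.mem_filter] at hi
        refine ⟨eqv.symm i, ?_, by simp⟩
        rw [Finset.mem_filter]
        refine ⟨Finset.mem_univ _, ?_⟩
        intro h
        apply hi.2
        simp [Equiv.permCongr_apply, h]
    have hsum : (Finset.univ.filter (fun p : Kˣ × K => l.prod • p = p)).card +
        (Finset.univ.filter (fun p : Kˣ × K => l.prod • p ≠ p)).card = d := by
      rw [Finset.card_filter_add_card_filter_not, Finset.card_univ, hdcard]
    rw [hmoved]
    rcases Nat.eq_zero_or_pos N with h | hN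
    · exfalso
      apply hg
      have : l.length = 0 := by omega
      rw [List.length_eq_zero_iff.mp this]
      rfl
    · have hdR : (0 : ℝ) < d := by exact_mod_cast hdpos
      have hNR : (0 : ℝ) < N := by exact_mod_cast hN
      rw [le_div_iff₀ hdR]
      have hsumR : ((Finset.univ.filter (fun p : Kˣ × K => l.prod • p ≠ p)).card : ℝ) =
          d - (Finset.univ.filter (fun p : Kˣ × K => l.prod • p = p)).card := by
        have : (((Finset.univ.filter (fun p : Kˣ × K => l.prod • p = p)).card +
          (Finset.univ.filter (fun p : Kˣ × K => l.prod • p ≠ p)).card : ℕ) : ℝ) = d := by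
          exact_mod_cast hsum
        push_cast at this
        linarith
      rw [hsumR]
      have key : N * (Finset.univ.filter (fun p : Kˣ × K => l.prod • p = p)).card ≤ d := by
        calc N * (Finset.univ.filter (fun p : Kˣ × K => l.prod • p = p)).card
            ≤ N * ((2 * N + 1) * q) := Nat.mul_le_mul_left _ hfix2
          _ = x * q := by rw [hx]; ring
          _ ≤ (q - 1) * q := Nat.mul_le_mul_right _ (by omega)
      have keyR : (N : ℝ) * (Finset.univ.filter (fun p : Kˣ × K => l.prod • p = p)).card ≤ d := by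
        exact_mod_cast key
      have : ((Finset.univ.filter (fun p : Kˣ × K => l.prod • p = p)).card : ℝ) ≤ d / N := by
        rw [le_div_iff₀ hNR]
        linarith
      have h3 : (1 - 1 / (N : ℝ)) * d = d - d / N := by ring
      rw [h3]
      linarith

/-! ### Growth -/

/-- The word `a^{ε₀} t a^{ε₁} t ⋯`. -/
noncomputable def word (ε : List Bool) : List Lamp :=
  ε.flatMap (fun b => if b then [a, t] else [t])

theorem word_length (ε : List Bool) : (word ε).length ≤ 2 * ε.length := by
  induction ε with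
  | nil => simp [word]
  | cons b ε ih =>
    have : word (b :: ε) = (if b then [a, t] else [t]) ++ word ε := rfl
    rw [this, List.length_append, List.length_cons]
    cases b <;> simp <;> omega

theorem word_mem (ε : List Bool) (x : Lamp) (hx : x ∈ word ε) : x = a ∨ x = t := by
  induction ε with
  | nil => simp [word] at hx
  | cons b ε ih =>
    have : word (b :: ε) = (if b then [a, t] else [t]) ++ word ε := rfl
    rw [this, List.mem_append] at hx
    rcases hx with hx | hx
    · cases b
      · simp at hx; exact Or.inr hx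
      · simpa using hx
    · exact ih hx

theorem word_inj (ε : List Bool) : ∀ ε' : List Bool, ε.length = ε'.length →
    (word ε).prod = (word ε').prod → ε = ε' := by
  have hcoeff : ∀ (ε : List Bool), ∃ P : Polynomial (ZMod 2),
      (word ε).prod.f = Polynomial.toLaurent P := by
    intro ε
    induction ε with
    | nil => exact ⟨0, by simp [word, one_f]⟩
    | cons b ε ih =>
      obtain ⟨P, hP⟩ := ih
      have : word (b :: ε) = (if b then [a, t] else [t]) ++ word ε := rfl
      rw [this, List.prod_append]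
      cases b
      · refine ⟨Polynomial.X * P, ?_⟩
        rw [map_mul, Polynomial.toLaurent_X, ← hP]
        simp [mul_f, t]
      · refine ⟨1 + Polynomial.X * P, ?_⟩
        rw [map_add, map_mul, Polynomial.toLaurent_X, ← hP]
        simp [mul_f, mul_k, t, a]
  induction ε with
  | nil =>
    intro ε' h _
    exact (List.length_eq_zero_iff.mp h.symm).symm
  | cons b ε ih =>
    intro ε' hlen hprod
    cases ε' with
    | nil => simp at hlen
    | cons b' ε' =>
      have e1 : word (b :: ε) = (if b then [a, t] else [t]) ++ word ε := rfl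
      have e2 : word (b' :: ε') = (if b' then [a, t] else [t]) ++ word ε' := rfl
      rw [e1, e2, List.prod_append, List.prod_append] at hprod
      obtain ⟨P, hP⟩ := hcoeff ε
      obtain ⟨P', hP'⟩ := hcoeff ε'
      have hbb : b = b' := by
        by_contra hne
        have hX : ∀ Q Q' : Polynomial (ZMod 2), 1 + Polynomial.X * Q ≠ Polynomial.X * Q' := by
          intro Q Q' h
          have := congrArg (Polynomial.eval 0) h
          simp at this
        cases b <;> cases b'
        · exact hne rfl
        · have h1 := congrArg Lamp.f hprod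
          have h2 : Polynomial.toLaurent (1 + Polynomial.X * P') =
              Polynomial.toLaurent (Polynomial.X * P) := by
            rw [map_add, map_mul, map_mul, Polynomial.toLaurent_X, ← hP, ← hP']
            simpa [mul_f, mul_k, t, a] using h1.symm
          exact hX _ _ (Polynomial.toLaurent_injective h2)
        · have h1 := congrArg Lamp.f hprod
          have h2 : Polynomial.toLaurent (1 + Polynomial.X * P) =
              Polynomial.toLaurent (Polynomial.X * P') := by
            rw [map_add, map_mul, map_mul, Polynomial.toLaurent_X, ← hP, ← hP']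
            simpa [mul_f, mul_k, t, a] using h1
          exact hX _ _ (Polynomial.toLaurent_injective h2)
        · exact hne rfl
      subst hbb
      have := ih ε' (by simpa using hlen) (mul_left_cancel hprod)
      rw [this]

/-- The ball of radius `2 m` has at least `2 ^ m` elements. -/
theorem growth (S : Finset Lamp) (ha : a ∈ S) (ht : t ∈ S)
    (hfin : ∀ n : ℕ, Finite {g : Lamp // ∃ l : List Lamp, l.length ≤ n ∧
      (∀ x ∈ l, x ∈ S ∨ x⁻¹ ∈ S) ∧ l.prod = g}) (m : ℕ) :
    2 ^ m ≤ Nat.card {g : Lamp // ∃ l : List Lamp, l.length ≤ 2 * m ∧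
      (∀ x ∈ l, x ∈ S ∨ x⁻¹ ∈ S) ∧ l.prod = g} := by
  have := hfin (2 * m)
  have hmem : ∀ ε : List.Vector Bool m, ∃ l : List Lamp, l.length ≤ 2 * m ∧
      (∀ x ∈ l, x ∈ S ∨ x⁻¹ ∈ S) ∧ l.prod = (word ε.1).prod := by
    intro ε
    refine ⟨word ε.1, (word_length _).trans (by rw [ε.2]), ?_, rfl⟩
    intro x hx
    left
    rcases word_mem _ _ hx with rfl | rfl
    · exact ha
    · exact ht
  let F : List.Vector Bool m → {g : Lamp // ∃ l : List Lamp, l.length ≤ 2 * m ∧
      (∀ x ∈ l, x ∈ S ∨ x⁻¹ ∈ S) ∧ l.prod = g} := fun ε => ⟨(word ε.1).prod, hmem ε⟩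
  have hF : Function.Injective F := by
    intro ε ε' h
    have h1 : (word ε.1).prod = (word ε'.1).prod := congrArg Subtype.val h
    exact Subtype.ext (word_inj ε.1 ε'.1 (by rw [ε.2, ε'.2]) h1)
  have := Nat.card_le_card_of_injective F hF
  rwa [Nat.card_eq_fintype_card, card_vector, Fintype.card_bool] at this

/-- Balls are finite. -/
theorem ball_finite (S : Finset Lamp) (n : ℕ) : Finite {g : Lamp // ∃ l : List Lamp,
    l.length ≤ n ∧ (∀ x ∈ l, x ∈ S ∨ x⁻¹ ∈ S) ∧ l.prod = g} := by
  classical
  let A : Type := {x : Lamp // x ∈ S ∪ S.image (fun x => x⁻¹)}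
  have h1 : Set.Finite {l : List A | l.length ≤ n} := List.finite_length_le A n
  have h2 : Set.Finite ((fun l : List A => (l.map Subtype.val).prod) '' {l : List A | l.length ≤ n}) :=
    h1.image _
  apply Set.Finite.subset h2
  rintro g ⟨l, hl, hlS, rfl⟩
  have hA : ∀ x ∈ l, x ∈ S ∪ S.image (fun x => x⁻¹) := by
    intro x hx
    rw [Finset.mem_union, Finset.mem_image]
    rcases hlS x hx with h | h
    · exact Or.inl h
    · exact Or.inr ⟨x⁻¹, h, inv_inv x⟩
  refine ⟨l.attach.map (fun x => ⟨x.1, hA x.1 x.2⟩), ?_, ?_⟩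
  · simpa using hl
  · simp [List.map_map, Function.comp_def]

theorem exists_large (C : ℕ) : ∃ m : ℕ, C * (36 * (C * (2 * m)) ^ 4 + 2) < 2 ^ m := by
  have h := tendsto_pow_const_mul_const_pow_of_abs_lt_one 4
    (r := (1 / 2 : ℝ)) (by rw [abs_of_pos] <;> norm_num)
  have h' := tendsto_pow_const_mul_const_pow_of_abs_lt_one 0
    (r := (1 / 2 : ℝ)) (by rw [abs_of_pos] <;> norm_num)
  have h2 : (0 : ℝ) < 1 / (2 * (576 * (C : ℝ) ^ 5 + 1)) := by positivity
  have h3 : (0 : ℝ) < 1 / (2 * (2 * (C : ℝ) + 1)) := by positivity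
  have e1 := h.eventually (gt_mem_nhds h2)
  have e2 := h'.eventually (gt_mem_nhds h3)
  obtain ⟨m, h4, h5⟩ := (e1.and e2).exists
  refine ⟨m, ?_⟩
  have hpow : (0 : ℝ) < 2 ^ m := by positivity
  have hhalf : ((1 / 2 : ℝ)) ^ m = 1 / 2 ^ m := by rw [div_pow, one_pow]
  rw [hhalf] at h4 h5
  have h6 : (m : ℝ) ^ 4 * (576 * (C : ℝ) ^ 5 + 1) < 2 ^ m / 2 := by
    rw [mul_one_div, div_lt_div_iff₀ hpow (by positivity)] at h4
    linarith
  have h7 : (2 * (C : ℝ) + 1) < 2 ^ m / 2 := by
    rw [pow_zero, one_mul, div_lt_div_iff₀ hpow (by positivity)] at h5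
    linarith
  have h8 : (0 : ℝ) ≤ (m : ℝ) ^ 4 := by positivity
  have h9 : ((C * (36 * (C * (2 * m)) ^ 4 + 2) : ℕ) : ℝ) < ((2 ^ m : ℕ) : ℝ) := by
    push_cast
    nlinarith
  exact_mod_cast h9

theorem result :
    ¬ (∀ (G : Type) [Group G] (S : Finset G), Subgroup.closure (S : Set G) = ⊤ →
      (∀ n : ℕ, ∃ d : ℕ, 0 < d ∧ ∃ φ : G → Equiv.Perm (Fin d),
        φ 1 = 1 ∧
        (∀ g h : G,
          (∃ l : List G, l.length ≤ n ∧ (∀ x ∈ l, x ∈ S ∨ x⁻¹ ∈ S) ∧ l.prod = g) →
          (∃ l : List G, l.length ≤ n ∧ (∀ x ∈ l, x ∈ S ∨ x⁻¹ ∈ S) ∧ l.prod = h) →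
          ((Finset.univ.filter (fun i : Fin d => φ (g * h) i ≠ (φ g * φ h) i)).card : ℝ)
              / (d : ℝ) ≤ 1 / (n : ℝ)) ∧
        (∀ g : G,
          (∃ l : List G, l.length ≤ n ∧ (∀ x ∈ l, x ∈ S ∨ x⁻¹ ∈ S) ∧ l.prod = g) →
          g ≠ 1 →
          1 - 1 / (n : ℝ) ≤
            ((Finset.univ.filter (fun i : Fin d => φ g i ≠ i)).card : ℝ) / (d : ℝ))) →
      ∃ C : ℕ, 0 < C ∧ ∀ n d : ℕ, 0 < d →
        (∃ φ : G → Equiv.Perm (Fin d),
          φ 1 = 1 ∧
          (∀ g h : G,
            (∃ l : List G, l.length ≤ C * n ∧ (∀ x ∈ l, x ∈ S ∨ x⁻¹ ∈ S) ∧ l.prod = g) →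
            (∃ l : List G, l.length ≤ C * n ∧ (∀ x ∈ l, x ∈ S ∨ x⁻¹ ∈ S) ∧ l.prod = h) →
            ((Finset.univ.filter (fun i : Fin d => φ (g * h) i ≠ (φ g * φ h) i)).card : ℝ)
                / (d : ℝ) ≤ 1 / ((C * n : ℕ) : ℝ)) ∧
          (∀ g : G,
            (∃ l : List G, l.length ≤ C * n ∧ (∀ x ∈ l, x ∈ S ∨ x⁻¹ ∈ S) ∧ l.prod = g) →
            g ≠ 1 →
            1 - 1 / ((C * n : ℕ) : ℝ) ≤
              ((Finset.univ.filter (fun i : Fin d => φ g i ≠ i)).card : ℝ) / (d : ℝ))) →
        Nat.card {g : G // ∃ l : List G, l.length ≤ n ∧ (∀ x ∈ l, x ∈ S ∨ x⁻¹ ∈ S) ∧ l.prod = g}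
          ≤ C * d) := by
  classical
  intro H
  let S : Finset Lamp := {a, t}
  have hS : ∀ x ∈ S, x = a ∨ x = t := by
    intro x hx
    simpa [S] using hx
  have haS : a ∈ S := by simp [S]
  have htS : t ∈ S := by simp [S]
  have hzero : ∀ (d : ℕ) (φ : Lamp → Equiv.Perm (Fin d)), (∀ g h, φ (g * h) = φ g * φ h) →
      ∀ (r : ℕ) (g h : Lamp),
      ((Finset.univ.filter (fun i : Fin d => φ (g * h) i ≠ (φ g * φ h) i)).card : ℝ)
              / (d : ℝ) ≤ 1 / (r : ℝ) := by
    intro d φ hφ r g h
    have : (Finset.univ.filter (fun i : Fin d => φ (g * h) i ≠ (φ g * φ h) i)) = ∅ := by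
      rw [Finset.filter_eq_empty_iff]
      intro i _
      rw [hφ]
      simp
    rw [this]
    simp
  obtain ⟨C, hC, hall⟩ := H Lamp S (closure_eq _ (by simp [S]) (by simp [S])) (by
    intro n
    obtain ⟨d, hd, -, φ, h1, h2, h3⟩ := approx S hS n
    exact ⟨d, hd, φ, h1, fun g h _ _ => hzero d φ h2 n g h, h3⟩)
  obtain ⟨m, hm⟩ := exists_large C
  obtain ⟨d, hd, hdle, φ, h1, h2, h3⟩ := approx S hS (C * (2 * m))
  have h4 := hall (2 * m) d hd
    ⟨φ, h1, fun g h _ _ => hzero d φ h2 (C * (2 * m)) g h, h3⟩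
  have h5 := growth S haS htS (ball_finite S) m
  have h6 : C * d ≤ C * (36 * (C * (2 * m)) ^ 4 + 2) := Nat.mul_le_mul_left _ hdle
  omega

end Pool.Agent.S02504
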