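import Pool.Statements.S15436

/-!
Disproof of the statement, in ZFC.  The counterexample lives at the singular strong limit cardinal
beth_{omega_1}, of cofinality omega_1.

Outline.  Let `kap` be beth_{omega_1}, let `MM` be a set of that size, filtered by `rr : MM → omega_1`
into pieces of smaller size.  For a strictly increasing `g : ℕ → omega_1` let `Below rr g` be the set
of points of rank below some `g n`.  A Bernstein argument gives a two-colouring of the subsets of
`Below rr g` which is not constant on the range of any at most two-to-one map which is Lipschitz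
with respect to the filtration (`Good`).  A subset `A` of `MM` is coloured by the sequence, over all
`g`, of the colours of the trace of `A` on `Below rr g`; this uses fewer than `kap` colours.
If `f` is an order embedding of the lexicographic power `K ^ ℕ`, with `K` of size `kap`, into the
subsets of `MM`, then a game argument (`exists_uniform`) produces `g` and a tree of finite sequences
of fixed splitting levels, and the tree produces (`exists_phi`) a Lipschitz, at most two-to-one map
into the set of traces of values of `f`.  Hence `f` takes two values of different colour, and no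
colour class contains a copy of the lexicographic power, a linear order of size `kap`.
-/

set_option autoImplicit false
open Pool Pool.MP_d6c85c_lc

namespace Pool.Agent.S15436

section Part1

open Cardinal Set Function PiNat Order

/-- A family of sets, each at least as large as the index set, has an injective choice function. -/
theorem exists_injective_choice {ι X : Type} (B : ι → Set X) (h : ∀ i, #ι ≤ #(B i)) :
    ∃ x : ι → X, Injective x ∧ ∀ i, x i ∈ B i := by
  classical
  obtain ⟨r, wo, hr⟩ := Cardinal.exists_ord_eq ι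
  have hex : ∀ (i : ι) (prev : ∀ j, r j i → X), ∃ y ∈ B i, ∀ j (hj : r j i), prev j hj ≠ y := by
    intro i prev
    by_contra hcon
    push Not at hcon
    have hsub : B i ⊆ Set.range (fun j : {j // r j i} => prev j.1 j.2) := by
      intro y hy
      obtain ⟨j, hj, hjy⟩ := hcon y hy
      exact ⟨⟨j, hj⟩, hjy⟩
    have h1 : #(B i) ≤ #{j // r j i} := (Cardinal.mk_le_mk_of_subset hsub).trans Cardinal.mk_range_le
    have h2 : #{j // r j i} < #ι := by
      have := Ordinal.card_typein (r := r) i
      rw [← this]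
      exact Cardinal.card_typein_lt i hr
    exact absurd (h i) (not_le.2 (h1.trans_lt h2))
  choose nxt hnxt1 hnxt2 using hex
  have wf : WellFounded r := wo.wf
  let x : ι → X := wf.fix (fun i prev => nxt i prev)
  have hx : ∀ i, x i = nxt i (fun j _ => x j) := fun i => wf.fix_eq _ i
  refine ⟨x, ?_, ?_⟩
  · intro i j hij
    by_contra hne
    rcases (trichotomous_of r i j) with hr' | hr' | hr'
    · have := hnxt2 j (fun k _ => x k) i hr'
      rw [← hx j] at this
      exact this hij
    · exact hne hr'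
    · have := hnxt2 i (fun k _ => x k) j hr'
      rw [← hx i] at this
      exact this hij.symm
  · intro i
    rw [hx i]
    exact hnxt1 i _

/-- A Bernstein-type colouring. -/
theorem exists_bernstein {ι X : Type} (B : ι → Set X) (h : ∀ i, #(ι × Bool) ≤ #(B i)) :
    ∃ c : X → Bool, ∀ i, (∃ x ∈ B i, c x = true) ∧ (∃ x ∈ B i, c x = false) := by
  classical
  obtain ⟨x, hinj, hx⟩ := exists_injective_choice (fun p : ι × Bool => B p.1) (fun p => h p.1)
  refine ⟨fun y => decide (∃ i, x (i, true) = y), fun i => ⟨⟨x (i, true), hx (i, true), ?_⟩, ⟨x (i, false), hx (i, false), ?_⟩⟩⟩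
  · simp
  · simp only [decide_eq_false_iff_not, not_exists]
    intro j hj
    have := hinj hj
    simp at this

end Part1

section Part2

open Cardinal Set Function PiNat Order

theorem drop_res {K : Type} (x : ℕ → K) (n m : ℕ) (h : m ≤ n) :
    (res x n).drop (n - m) = res x m := by
  obtain ⟨k, rfl⟩ := Nat.exists_eq_add_of_le h
  have : m + k - m = k := by omega
  rw [this]
  clear this h
  induction k with
  | zero => simp
  | succ k ih =>
    rw [← Nat.add_assoc, res_succ, List.drop_succ_cons, ih]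

section Game

variable {K W : Type} (ρ : List K → W) (ν : W → Cardinal.{0})

/-- `Win ρ ν g s`: there is a strategy of small sets, such that every branch through `s` avoiding
it departs from `g`. -/
def Win (g : ℕ → W) (s : List K) : Prop :=
  ∃ σ : List K → Set K, (∀ t, #(σ t) < ν (g t.length)) ∧
    ∀ x : ℕ → K, res x s.length = s → (∀ n, s.length ≤ n → x n ∉ σ (res x n)) →
      ∃ n, s.length ≤ n ∧ ρ (res x n) ≠ g n

variable {ρ ν}

theorem not_win_rho (hν : ∀ w, 0 < ν w) {g : ℕ → W} {s : List K} (h : ¬ Win ρ ν g s) :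
    ρ s = g s.length := by
  by_contra hne
  apply h
  refine ⟨fun _ => ∅, fun t => by simpa using hν _, fun x hx _ => ⟨s.length, le_rfl, ?_⟩⟩
  rwa [hx]

theorem not_win_succ (hν : ∀ w, 0 < ν w) {g : ℕ → W} {s : List K} (h : ¬ Win ρ ν g s) :
    ν (g s.length) ≤ #{ξ : K | ¬ Win ρ ν g (ξ :: s)} := by
  classical
  by_contra hlt
  rw [not_le] at hlt
  apply h
  let τ : List K → List K → Set K := fun t => if h : Win ρ ν g t then h.choose else fun _ => ∅
  have hτ : ∀ t u, #(τ t u) < ν (g u.length) := by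
    intro t u
    simp only [τ]
    split_ifs with h1
    · exact h1.choose_spec.1 u
    · simpa using hν _
  refine ⟨fun t => if t = s then {ξ : K | ¬ Win ρ ν g (ξ :: s)} else
    τ (t.drop (t.length - (s.length + 1))) t, ?_, ?_⟩
  · intro t
    dsimp only
    split_ifs with h1
    · rw [h1]; exact hlt
    · exact hτ _ _
  · intro x hx hav
    have h0 := hav s.length le_rfl
    rw [hx] at h0
    simp only [if_true, mem_ofPred_eq, not_not] at h0
    -- `h0 : Win (x |s| :: s)`
    have hres : res x (s.length + 1) = x s.length :: s := by rw [res_succ, hx]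
    have hspec := h0.choose_spec.2 x (by simpa using hres) ?_
    · obtain ⟨n, hn, hn'⟩ := hspec
      refine ⟨n, ?_, hn'⟩
      simp at hn
      omega
    · intro n hn
      simp only [List.length_cons] at hn
      have h1 := hav n (by omega)
      have hne : res x n ≠ s := by
        intro heq
        have := congrArg List.length heq
        simp at this
        omega
      simp only [hne, if_false, res_length] at h1
      rw [drop_res x n (s.length + 1) hn, hres] at h1
      simp only [τ, h0, dif_pos] at h1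
      exact h1

theorem exists_uniform [LinearOrder W] (hν : ∀ w, 0 < ν w)
    (hbig : ∀ (s : List K) (Z : (ℕ → W) → Set K), (∀ g, #(Z g) < ν (ρ s)) →
      ∃ ξ, (∀ g, ξ ∉ Z g) ∧ ρ s < ρ (ξ :: s)) :
    ∃ g : ℕ → W, StrictMono g ∧ ∃ U : Set (List K), [] ∈ U ∧ ∀ s ∈ U, ρ s = g s.length ∧
      ν (g s.length) ≤ #{ξ : K | ξ :: s ∈ U} := by
  classical
  by_contra hcon
  have hwin : ∀ g : ℕ → W, StrictMono g → Win ρ ν g [] := by
    intro g hg
    by_contra hw
    exact hcon ⟨g, hg, {s | ¬ Win ρ ν g s}, hw, fun s hs => ⟨not_win_rho hν hs, not_win_succ hν hs⟩⟩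
  choose σ hσ1 hσ2 using hwin
  have hnext : ∀ s : List K, ∃ ξ : K, (∀ (g : ℕ → W) (hg : StrictMono g), g s.length = ρ s →
      ξ ∉ σ g hg s) ∧ ρ s < ρ (ξ :: s) := by
    intro s
    have hsm : ∀ g : ℕ → W, #((if h : StrictMono g ∧ g s.length = ρ s then σ g h.1 s else ∅ : Set K)) <
        ν (ρ s) := by
      intro g
      split_ifs with h
      · have h3 := hσ1 g h.1 s
        have h4 : ν (g s.length) = ν (ρ s) := congrArg ν h.2
        exact h3.trans_eq h4
      · simpa using hν _
    obtain ⟨ξ, h1, h2⟩ := hbig s _ hsm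
    refine ⟨ξ, ?_, h2⟩
    intro g hg hgs
    have := h1 g
    rwa [dif_pos ⟨hg, hgs⟩] at this
  choose nx hnx1 hnx2 using hnext
  let t : ℕ → List K := fun n => Nat.rec [] (fun _ u => nx u :: u) n
  have ht0 : t 0 = [] := rfl
  have htS : ∀ n, t (n + 1) = nx (t n) :: t n := fun n => rfl
  let x : ℕ → K := fun n => nx (t n)
  have hres : ∀ n, res x n = t n := by
    intro n
    induction n with
    | zero => rfl
    | succ n ih => rw [res_succ, ih, htS]
  let g : ℕ → W := fun n => ρ (t n)
  have hg : StrictMono g := strictMono_nat_of_lt_succ (fun n => hnx2 (t n))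
  obtain ⟨n, _, hn⟩ := hσ2 g hg x rfl (by
    intro n _
    rw [hres n]
    have hl : (t n).length = n := by rw [← hres n, res_length]
    exact hnx1 (t n) g hg (by rw [hl]))
  apply hn
  rw [hres n]

end Game

end Part2

section Part3

open Cardinal Set Function PiNat Order

section Embed

variable {K W M : Type}

theorem exists_res (a : K) (s : List K) : ∃ x : ℕ → K, res x s.length = s ∧ x s.length = a := by
  have : ∃ x : ℕ → K, res x s.length = s ∧ ∀ n, s.length ≤ n → x n = a := by
    induction s with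
    | nil => exact ⟨fun _ => a, rfl, fun _ _ => rfl⟩
    | cons ξ s ih =>
      obtain ⟨x, hx, hx'⟩ := ih
      refine ⟨update x s.length ξ, ?_, ?_⟩
      · rw [List.length_cons, res_succ, update_self]
        congr 1
        rw [← hx]
        conv_lhs => rw [res_length]
        rw [res_eq_res]
        intro m hm
        rw [update_of_ne (by omega)]
      · intro n hn
        rw [List.length_cons] at hn
        rw [update_of_ne (by omega)]
        exact hx' n (by omega)
  obtain ⟨x, h1, h2⟩ := this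
  exact ⟨x, h1, h2 _ le_rfl⟩

/-- the points split by the node `s` -/
def Sp (f : (ℕ → K) → Set M) (s : List K) : Set M :=
  {m | ∃ x y : ℕ → K, res x s.length = s ∧ res y s.length = s ∧ m ∈ f x ∧ m ∉ f y}

variable [LinearOrder K] {f : (ℕ → K) → Set M}
  
theorem Sp_nonempty [Nontrivial K] (hf : ∀ x y n, (∀ m < n, x m = y m) → x n < y n → f x ⊂ f y)
    (s : List K) : (Sp f s).Nonempty := by
  obtain ⟨a, b, hab⟩ := exists_pair_lt K
  obtain ⟨x, hx, hxa⟩ := exists_res a s
  have h := hf x (update x s.length b) s.length (fun m hm => by rw [update_of_ne (by omega)])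
    (by rw [update_self, hxa]; exact hab)
  obtain ⟨m, hm1, hm2⟩ := Set.exists_of_ssubset h
  refine ⟨m, update x s.length b, x, ?_, hx, hm1, hm2⟩
  conv_rhs => rw [← hx]
  rw [res_eq_res]
  intro k hk
  rw [update_of_ne (by omega)]

theorem Sp_disjoint (hf : ∀ x y n, (∀ m < n, x m = y m) → x n < y n → f x ⊂ f y)
    (s : List K) (ξ ξ' : K) (h : ξ < ξ') (m : M) (h1 : m ∈ Sp f (ξ :: s)) :
    m ∉ Sp f (ξ' :: s) := by
  rintro ⟨x', y', hx', hy', hmx', hmy'⟩
  obtain ⟨x, y, hx, hy, hmx, hmy⟩ := h1
  apply hmy'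
  rw [List.length_cons, res_succ, List.cons.injEq] at hx hy'
  refine (hf x y' s.length ?_ ?_).subset hmx
  · rw [← res_eq_res, hx.2, hy'.2]
  · rw [hx.1, hy'.1]; exact h

theorem Sp_inj (hf : ∀ x y n, (∀ m < n, x m = y m) → x n < y n → f x ⊂ f y)
    (s : List K) (ξ ξ' : K) (m : M) (h1 : m ∈ Sp f (ξ :: s)) (h2 : m ∈ Sp f (ξ' :: s)) :
    ξ = ξ' := by
  rcases lt_trichotomy ξ ξ' with h | h | h
  · exact absurd h2 (Sp_disjoint hf s ξ ξ' h m h1)
  · exact h
  · exact absurd h1 (Sp_disjoint hf s ξ' ξ h m h2)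

variable [LinearOrder W]

theorem exists_mm [WellFoundedLT W] [Nontrivial K] (r : M → W)
    (hf : ∀ x y n, (∀ m < n, x m = y m) → x n < y n → f x ⊂ f y) :
    ∃ mm : List K → M, ∀ s, mm s ∈ Sp f s ∧ ∀ m ∈ Sp f s, r (mm s) ≤ r m := by
  have : ∀ s : List K, ∃ m, m ∈ Sp f s ∧ ∀ m' ∈ Sp f s, r m ≤ r m' := by
    intro s
    obtain ⟨w, ⟨m, hm, rfl⟩, hw⟩ := WellFounded.has_min (wellFounded_lt (α := W)) (r '' Sp f s)
      ((Sp_nonempty hf s).image r)
    exact ⟨m, hm, fun m' hm' => not_lt.1 (hw _ ⟨m', hm', rfl⟩)⟩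
  choose mm hmm using this
  exact ⟨mm, hmm⟩

/-- the part of `M` below `g` -/
abbrev Below (r : M → W) (g : ℕ → W) : Type := {m : M // ∃ n, r m < g n}

variable {r : M → W} {mm : List K → M} {g : ℕ → W} {U : Set (List K)}

theorem exists_phi [Nonempty K]
    (hf : ∀ x y n, (∀ m < n, x m = y m) → x n < y n → f x ⊂ f y)
    (hmm : ∀ s, mm s ∈ Sp f s ∧ ∀ m ∈ Sp f s, r (mm s) ≤ r m)
    (hg : StrictMono g) (hU0 : [] ∈ U)
    (hU : ∀ s ∈ U, r (mm s) = g s.length ∧
      #(Set {m : M // r m < g s.length}) ≤ #{ξ : K | ξ :: s ∈ U}) :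
    ∃ φ : Set (Below r g) → (ℕ → K),
      (∀ (x y : Set (Below r g)) (n : ℕ), (∀ m : Below r g, r m < g n → (m ∈ x ↔ m ∈ y)) →
        ∀ m : Below r g, r m < g n → ((m : M) ∈ f (φ x) ↔ (m : M) ∈ f (φ y))) ∧
      (∀ x y z : Set (Below r g), x ≠ y → y ≠ z → x ≠ z →
        (∀ m : Below r g, (m : M) ∈ f (φ x) ↔ (m : M) ∈ f (φ y)) →
        (∀ m : Below r g, (m : M) ∈ f (φ y) ↔ (m : M) ∈ f (φ z)) → False) := by
  classical
  have hi : ∀ s : List K, ∃ i : Set {m : M // r m < g s.length} → K,
      s ∈ U → (Injective i ∧ ∀ a, i a :: s ∈ U) := by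
    intro s
    by_cases hs : s ∈ U
    · obtain ⟨e⟩ := (hU s hs).2
      exact ⟨fun a => (e a).1, fun _ => ⟨fun a b hab => e.injective (Subtype.ext hab),
        fun a => (e a).2⟩⟩
    · exact ⟨fun _ => Classical.arbitrary K, fun h => absurd h hs⟩
  choose i hi using hi
  let restr : (s : List K) → Set (Below r g) → Set {m : M // r m < g s.length} :=
    fun s x => {m | (⟨m.1, ⟨s.length, m.2⟩⟩ : Below r g) ∈ x}
  let t : Set (Below r g) → ℕ → List K := fun x n => Nat.rec [] (fun _ u => i u (restr u x) :: u) n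
  have ht0 : ∀ x, t x 0 = [] := fun _ => rfl
  have htS : ∀ x n, t x (n + 1) = i (t x n) (restr (t x n) x) :: t x n := fun _ _ => rfl
  let φ : Set (Below r g) → (ℕ → K) := fun x n => i (t x n) (restr (t x n) x)
  have hres : ∀ x n, res (φ x) n = t x n := by
    intro x n
    induction n with
    | zero => rfl
    | succ n ih => rw [res_succ, ih, htS]
  have hlen : ∀ x n, (t x n).length = n := by
    intro x n
    rw [← hres x n, res_length]
  have htU : ∀ x n, t x n ∈ U := by
    intro x n
    induction n with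
    | zero => exact hU0
    | succ n ih => rw [htS]; exact (hi _ ih).2 _
  have hagree : ∀ x y n, (∀ m : Below r g, r m < g n → (m ∈ x ↔ m ∈ y)) →
      ∀ k, k ≤ n + 1 → t x k = t y k := by
    intro x y n h k
    induction k with
    | zero => intro _; rfl
    | succ k ih =>
      intro hk
      have h1 := ih (by omega)
      rw [htS, htS, ← h1]
      congr 2
      ext ⟨m, hm⟩
      simp only [restr, mem_ofPred_eq]
      apply h
      rw [hlen] at hm
      exact hm.trans_le (hg.monotone (by omega))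
  have hagree' : ∀ x y n, t x (n + 1) = t y (n + 1) →
      ∀ m : Below r g, r m < g n → (m ∈ x ↔ m ∈ y) := by
    intro x y n h m hm
    rw [htS, htS, List.cons.injEq] at h
    obtain ⟨h1, h2⟩ := h
    rw [← h2] at h1
    have h3 := (hi _ (htU x n)).1 h1
    have hm' : r m.1 < g (t x n).length := by rw [hlen]; exact hm
    have h4 := Set.ext_iff.1 h3 ⟨m.1, hm'⟩
    simpa only [restr, mem_ofPred_eq] using h4
  have hinj : ∀ x y, φ x = φ y → x = y := by
    intro x y h
    ext m
    obtain ⟨n, hn⟩ := m.2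
    refine hagree' x y n ?_ m hn
    exact (hres x (n + 1)).symm.trans ((congrArg (fun u => res u (n + 1)) h).trans (hres y (n + 1)))
  have hkey : ∀ x y z, (∃ n, (∀ m < n, φ x m = φ y m) ∧ φ x n < φ y n) →
      (∃ n, (∀ m < n, φ y m = φ z m) ∧ φ y n < φ z n) →
      (∀ m : Below r g, (m : M) ∈ f (φ x) ↔ (m : M) ∈ f (φ z)) → False := by
    rintro x y z ⟨n1, h1, h1'⟩ ⟨n2, h2, h2'⟩ hxz
    let k := max n1 n2 + 1
    have hk1 : n1 < k := by have := le_max_left n1 n2; omega
    have hk2 : n2 < k := by have := le_max_right n1 n2; omega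
    let s := t y k
    have hsl : s.length = k := hlen y k
    have hsr : res (φ y) k = s := hres y k
    obtain ⟨⟨u, v, hu, hv, hmu, hmv⟩, -⟩ := hmm s
    rw [hsl, ← hsr] at hu hv
    rw [res_eq_res] at hu hv
    have hr : r (mm s) = g k := by rw [(hU s (htU y k)).1, hsl]
    have hr' : r (mm s) < g (k + 1) := by rw [hr]; exact hg (Nat.lt_succ_self k)
    have hB := hxz ⟨mm s, ⟨k + 1, hr'⟩⟩
    simp only at hB
    have hxv : f (φ x) ⊂ f v := hf _ _ n1 (fun m hm => by rw [h1 m hm, hv (hm.trans hk1)])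
      (by rw [hv hk1]; exact h1')
    have huz : f u ⊂ f (φ z) := hf _ _ n2 (fun m hm => by rw [← h2 m hm, hu (hm.trans hk2)])
      (by rw [hu hk2]; exact h2')
    exact hmv (hxv.subset (hB.2 (huz.subset hmu)))
  have htri : ∀ x y, x ≠ y → (∃ n, (∀ m < n, φ x m = φ y m) ∧ φ x n < φ y n) ∨
      (∃ n, (∀ m < n, φ y m = φ x m) ∧ φ y n < φ x n) := by
    intro x y hxy
    have hne : φ x ≠ φ y := fun h => hxy (hinj _ _ h)
    have hex : ∃ n, φ x n ≠ φ y n := Function.ne_iff.1 hne
    have h1 := Nat.find_spec hex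
    have h2 : ∀ m < Nat.find hex, φ x m = φ y m := fun m hm => not_not.1 (Nat.find_min hex hm)
    rcases lt_or_gt_of_ne h1 with h | h
    · exact Or.inl ⟨_, h2, h⟩
    · exact Or.inr ⟨_, fun m hm => (h2 m hm).symm, h⟩
  refine ⟨φ, ?_, ?_⟩
  · intro x y n h m hm
    have h1 := hagree x y n h n (by omega)
    have hns : (m : M) ∉ Sp f (t x n) := by
      intro hSp
      have h2 := (hmm (t x n)).2 _ hSp
      rw [(hU _ (htU x n)).1, hlen] at h2
      exact absurd hm (not_lt.2 h2)
    have hx1 : res (φ x) (t x n).length = t x n := by rw [hlen, hres]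
    have hy1 : res (φ y) (t x n).length = t x n := by rw [hlen, hres, h1]
    constructor
    · intro hmx
      by_contra hmy
      exact hns ⟨φ x, φ y, hx1, hy1, hmx, hmy⟩
    · intro hmy
      by_contra hmx
      exact hns ⟨φ y, φ x, hy1, hx1, hmy, hmx⟩
  · intro x y z hxy hyz hxz hFxy hFyz
    have hFxz : ∀ m : Below r g, (m : M) ∈ f (φ x) ↔ (m : M) ∈ f (φ z) :=
      fun m => (hFxy m).trans (hFyz m)
    rcases htri x y hxy with h1 | h1
    · rcases htri y z hyz with h2 | h2
      · exact hkey x y z h1 h2 hFxz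
      · rcases htri x z hxz with h3 | h3
        · exact hkey x z y h3 h2 hFxy
        · exact hkey z x y h3 h1 (fun m => (hFyz m).symm)
    · rcases htri x z hxz with h3 | h3
      · exact hkey y x z h1 h3 hFyz
      · rcases htri y z hyz with h2 | h2
        · exact hkey y z x h2 h3 (fun m => (hFxy m).symm)
        · exact hkey z y x h2 h1 (fun m => (hFxz m).symm)

end Embed

end Part3

section Part4

open Cardinal Set Function PiNat Order

section Bern

variable {W M : Type} [LinearOrder W] {r : M → W} {g : ℕ → W}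

/-- Lipschitz and at most two-to-one maps -/
def Good (r : M → W) (g : ℕ → W) (F : Set (Below r g) → Set (Below r g)) : Prop :=
  (∀ (x y : Set (Below r g)) (n : ℕ), (∀ m : Below r g, r m < g n → (m ∈ x ↔ m ∈ y)) →
        ∀ m : Below r g, r m < g n → (m ∈ F x ↔ m ∈ F y)) ∧
  (∀ x y z : Set (Below r g), x ≠ y → y ≠ z → x ≠ z → F x = F y → F y = F z → False)

theorem card_good_le (hstep : ∀ n, #(Set {m : M // r m < g n}) ≤ #(Below r g))
    (hinf : ℵ₀ ≤ #(Below r g)) :
    #{F : Set (Below r g) → Set (Below r g) // Good r g F} ≤ #(Set (Below r g)) := by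
  classical
  let emb : (n : ℕ) → Set {m : M // r m < g n} → Set (Below r g) := fun n a =>
    {m | ∃ h : r m.1 < g n, (⟨m.1, h⟩ : {m : M // r m < g n}) ∈ a}
  let code : {F : Set (Below r g) → Set (Below r g) // Good r g F} →
      Set ((Σ n : ℕ, Set {m : M // r m < g n}) × Below r g) := fun F =>
    {p | p.2 ∈ F.1 (emb p.1.1 p.1.2)}
  have hcode : Injective code := by
    intro F G hFG
    apply Subtype.ext
    funext x
    ext m
    obtain ⟨n, hn⟩ := m.2
    let a : Set {m : M // r m < g n} := {m | (⟨m.1, ⟨n, m.2⟩⟩ : Below r g) ∈ x}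
    have hag : ∀ m : Below r g, r m < g n → (m ∈ x ↔ m ∈ emb n a) := by
      intro m hm
      simp only [emb, a, mem_ofPred_eq]
      constructor
      · intro h; exact ⟨hm, h⟩
      · rintro ⟨_, h⟩; exact h
    have h1 := F.2.1 x (emb n a) n hag m hn
    have h2 := G.2.1 x (emb n a) n hag m hn
    have h3 : (m ∈ F.1 (emb n a) ↔ m ∈ G.1 (emb n a)) := by
      have := Set.ext_iff.1 hFG ⟨⟨n, a⟩, m⟩
      simpa only [code, mem_ofPred_eq] using this
    rw [h1, h2, h3]
  calc #{F : Set (Below r g) → Set (Below r g) // Good r g F}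
      ≤ #(Set ((Σ n : ℕ, Set {m : M // r m < g n}) × Below r g)) := mk_le_of_injective hcode
    _ = 2 ^ #((Σ n : ℕ, Set {m : M // r m < g n}) × Below r g) := mk_set
    _ ≤ 2 ^ #(Below r g) := by
        apply power_le_power_left two_ne_zero
        rw [mk_prod, lift_id, lift_id, mk_sigma]
        have h1 : Cardinal.sum (fun n : ℕ => #(Set {m : M // r m < g n})) ≤ #(Below r g) := by
          refine (sum_le_sum _ (fun _ : ℕ => #(Below r g)) hstep).trans ?_
          rw [sum_const']
          calc #ℕ * #(Below r g) ≤ #(Below r g) * #(Below r g) := by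
                gcongr; simpa using hinf
            _ = #(Below r g) := mul_eq_self hinf
        calc _ ≤ #(Below r g) * #(Below r g) := by gcongr
          _ = #(Below r g) := mul_eq_self hinf
    _ = #(Set (Below r g)) := mk_set.symm

theorem exists_bernstein_good (hstep : ∀ n, #(Set {m : M // r m < g n}) ≤ #(Below r g))
    (hinf : ℵ₀ ≤ #(Below r g)) :
    ∃ c : Set (Below r g) → Bool, ∀ F, Good r g F → ∃ x y, c (F x) ≠ c (F y) := by
  have hunc : ℵ₀ < #(Set (Below r g)) := hinf.trans_lt (by rw [mk_set]; exact cantor _)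
  obtain ⟨c, hc⟩ := exists_bernstein
    (fun F : {F : Set (Below r g) → Set (Below r g) // Good r g F} => Set.range F.1) (by
      intro F
      have h1 : #({F : Set (Below r g) → Set (Below r g) // Good r g F} × Bool) ≤
          #(Set (Below r g)) := by
        rw [mk_prod, lift_id, lift_id]
        calc _ ≤ #(Set (Below r g)) * #(Set (Below r g)) := by
              gcongr
              · exact card_good_le hstep hinf
              · refine le_trans ?_ hunc.le
                simpa using (Cardinal.nat_lt_aleph0 2).le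
          _ = #(Set (Below r g)) := mul_eq_self hunc.le
      refine h1.trans ?_
      have h2 : #(Set (Below r g)) ≤ #(Set.range F.1) * ℵ₀ := by
        refine mk_le_mk_mul_of_mk_preimage_le (Set.rangeFactorization F.1) ?_
        rintro ⟨b, x, hx⟩
        have hfin : (Set.rangeFactorization F.1 ⁻¹' {⟨b, x, hx⟩}).Finite := by
          by_contra hinf'
          have hinf'' : (Set.rangeFactorization F.1 ⁻¹' {⟨b, x, hx⟩}).Infinite := hinf'
          obtain ⟨t, ht1, ht2⟩ := hinf''.exists_subset_card_eq 3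
          obtain ⟨u, v, w, huv, huw, hvw, rfl⟩ := Finset.card_eq_three.1 ht2
          have hFb : ∀ z ∈ ({u, v, w} : Finset (Set (Below r g))), F.1 z = b := by
            intro z hz
            have := ht1 hz
            exact congrArg Subtype.val this
          have hu := hFb u (by simp)
          have hv := hFb v (by simp)
          have hw := hFb w (by simp)
          exact F.2.2 u v w huv hvw huw (hu.trans hv.symm) (hv.trans hw.symm)
        exact hfin.lt_aleph0.le
      by_contra hlt
      rw [not_le] at hlt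
      have h3 : #(Set.range F.1) * ℵ₀ < #(Set (Below r g)) := mul_lt_of_lt hunc.le hlt hunc
      exact absurd h2 (not_le.2 h3))
  refine ⟨c, fun F hF => ?_⟩
  obtain ⟨⟨_, ⟨x, rfl⟩, hx⟩, ⟨_, ⟨y, rfl⟩, hy⟩⟩ := hc ⟨F, hF⟩
  exact ⟨x, y, by rw [hx, hy]; simp⟩

end Bern

end Part4

section Part5

open Cardinal Set Function PiNat Order

theorem main_abstract {W M K : Type} [LinearOrder W] [WellFoundedLT W] [LinearOrder K]
    (r : M → W) {κ : Cardinal.{0}} (hκ : IsStrongLimit κ) (hK : #K = κ)
    (hr : ∀ w, #{m : M // r m ≤ w} < κ) (hW : #(ℕ → W) < κ)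
    (hstep : ∀ g : ℕ → W, StrictMono g → ∀ n, #(Set {m : M // r m < g n}) ≤ #(Below r g))
    (hinf : ∀ g : ℕ → W, StrictMono g → ℵ₀ ≤ #(Below r g)) :
    ∃ c : Set M → ((ℕ → W) → Bool), ∀ f : (ℕ → K) → Set M,
      (∀ x y n, (∀ m < n, x m = y m) → x n < y n → f x ⊂ f y) → ∃ x y, c (f x) ≠ c (f y) := by
  classical
  have hκ0 : ℵ₀ ≤ κ := hκ.aleph0_le
  have hb : ∀ g : ℕ → W, StrictMono g → ∃ c : Set (Below r g) → Bool,
      ∀ F, Good r g F → ∃ x y, c (F x) ≠ c (F y) :=
    fun g hg => exists_bernstein_good (hstep g hg) (hinf g hg)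
  choose cg hcg using hb
  refine ⟨fun A g => if h : StrictMono g then cg g h (Subtype.val ⁻¹' A) else false, ?_⟩
  intro f hf
  by_contra hcon
  push Not at hcon
  have hKnt : Nontrivial K := by
    rw [← Cardinal.one_lt_iff_nontrivial, hK]
    exact one_lt_aleph0.trans_le hκ0
  obtain ⟨mm, hmm⟩ := exists_mm r hf
  have hKcard : ∀ S : Set K, #S < κ → ∃ ξ, ξ ∉ S := by
    intro S hS
    by_contra h
    push Not at h
    have : S = Set.univ := Set.eq_univ_of_forall h
    rw [this, mk_univ, hK] at hS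
    exact lt_irrefl _ hS
  have hν0 : ∀ w : W, 0 < #(Set {m : M // r m < w}) := fun w => by
    rw [mk_set]; exact (power_ne_zero _ two_ne_zero).bot_lt
  have hlt : ∀ w : W, #(Set {m : M // r m < w}) < κ := by
    intro w
    rw [mk_set]
    apply hκ.isStrongPrelimit
    refine lt_of_le_of_lt ?_ (hr w)
    exact mk_subtype_mono (fun m hm => le_of_lt hm)
  obtain ⟨g, hg, U, hU0, hU⟩ := exists_uniform (ρ := fun s : List K => r (mm s))
    (ν := fun w => #(Set {m : M // r m < w})) hν0 (by
      intro s Z hZ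
      have h1 : #(⋃ g, Z g) < κ := by
        refine (mk_iUnion_le_sum_mk).trans_lt ?_
        refine (sum_le_sum _ (fun _ => #(Set {m : M // r m < r (mm s)}))
          (fun g => (hZ g).le)).trans_lt ?_
        rw [sum_const']
        exact mul_lt_of_lt hκ0 hW (hlt _)
      have h2 : #{ξ : K | r (mm (ξ :: s)) ≤ r (mm s)} < κ := by
        refine lt_of_le_of_lt ?_ (hr (r (mm s)))
        refine mk_le_of_injective
          (f := fun ξ : {ξ : K | r (mm (ξ :: s)) ≤ r (mm s)} =>
            (⟨mm (ξ.1 :: s), ξ.2⟩ : {m : M // r m ≤ r (mm s)})) ?_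
        rintro ⟨ξ, hξ⟩ ⟨ξ', hξ'⟩ h
        simp only [Subtype.mk.injEq] at h
        apply Subtype.ext
        refine Sp_inj hf s ξ ξ' (mm (ξ :: s)) (hmm _).1 ?_
        rw [h]
        exact (hmm _).1
      obtain ⟨ξ, hξ⟩ := hKcard ((⋃ g, Z g) ∪ {ξ : K | r (mm (ξ :: s)) ≤ r (mm s)})
        ((mk_union_le _ _).trans_lt (add_lt_of_lt hκ0 h1 h2))
      rw [mem_union, not_or, mem_iUnion, mem_ofPred_eq, not_exists, not_le] at hξ
      exact ⟨ξ, hξ.1, hξ.2⟩)
  obtain ⟨φ, hφ1, hφ2⟩ := exists_phi hf hmm hg hU0 hU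
  have hgood : Good r g (fun x => (Subtype.val ⁻¹' (f (φ x)) : Set (Below r g))) := by
    refine ⟨hφ1, ?_⟩
    intro x y z hxy hyz hxz h1 h2
    exact hφ2 x y z hxy hyz hxz (fun m => Set.ext_iff.1 h1 m) (fun m => Set.ext_iff.1 h2 m)
  obtain ⟨x, y, hxy⟩ := hcg g hg _ hgood
  apply hxy
  have := congrFun (hcon (φ x) (φ y)) g
  simp only [dif_pos hg] at this
  exact this

end Part5

section Part6

open Cardinal Set Function PiNat Order

/-- index type of order type `ω₁` -/
abbrev WW : Type := (ℵ₁ : Cardinal.{0}).ord.ToType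

/-- the ordinal of an index -/
noncomputable abbrev io (w : WW) : Ordinal.{0} := (w.toOrd : Ordinal)

theorem io_lt (w : WW) : io w < (ℵ₁ : Cardinal.{0}).ord := w.toOrd.2

theorem io_mono {v w : WW} (h : v ≤ w) : io v ≤ io w := by
  have : v.toOrd ≤ w.toOrd := (Ordinal.ToType.mk.symm.le_iff_le).2 h
  exact this

theorem io_strictMono {v w : WW} (h : v < w) : io v < io w := by
  have : v.toOrd < w.toOrd := (Ordinal.ToType.mk.symm.lt_iff_lt).2 h
  exact this

theorem exists_io (o : Ordinal.{0}) (h : o < (ℵ₁ : Cardinal.{0}).ord) : ∃ w : WW, io w = o := by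
  refine ⟨Ordinal.ToType.mk ⟨o, h⟩, ?_⟩
  simp [io]

/-- the cardinal `ℶ_{ω₁}` -/
noncomputable abbrev kap : Cardinal.{0} := beth (ℵ₁ : Cardinal.{0}).ord

theorem kap_strong : IsStrongLimit kap :=
  isStrongLimit_beth.2 (isSuccLimit_ord (aleph0_le_aleph 1)).isSuccPrelimit

theorem kap_inf : ℵ₀ ≤ kap := kap_strong.aleph0_le

/-- the block of index `w` -/
abbrev BB (w : WW) : Type := (beth (io w)).out

theorem mk_BB (w : WW) : #(BB w) = beth (io w) := mk_out _

/-- the ground set -/
abbrev MM : Type := Σ w : WW, BB w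

/-- the rank function -/
abbrev rr (m : MM) : WW := m.1

theorem mk_WW : #WW = ℵ₁ := mk_ord_toType _

theorem WW_lt : ℵ₁ < kap := by
  refine (aleph_le_beth 1).trans_lt (beth_lt_beth.2 ?_)
  refine Ordinal.one_lt_omega0.trans ?_
  rw [← ord_aleph0]
  exact ord_lt_ord.2 aleph0_lt_aleph_one

theorem beth_lt_kap (w : WW) : beth (io w) < kap := beth_lt_beth.2 (io_lt w)

theorem le_of_forall_beth_le {c : Cardinal.{0}} (h : ∀ w : WW, beth (io w) ≤ c) : kap ≤ c := by
  rw [kap, beth_limit (isSuccLimit_ord (aleph0_le_aleph 1))]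
  apply ciSup_le'
  rintro ⟨o, ho⟩
  obtain ⟨w, rfl⟩ := exists_io o ho
  exact h w

theorem mk_MM_le : #MM ≤ kap := by
  rw [mk_sigma]
  refine (sum_le_sum _ (fun _ : WW => kap) (fun w => ?_)).trans ?_
  · rw [mk_BB]; exact (beth_lt_kap w).le
  · rw [sum_const', mk_WW]
    exact (mul_le_mul' WW_lt.le le_rfl).trans (mul_eq_self kap_inf).le

theorem mk_MM : #MM = kap := by
  refine le_antisymm mk_MM_le (le_of_forall_beth_le fun w => ?_)
  rw [← mk_BB]
  exact mk_le_of_injective (f := fun b => (⟨w, b⟩ : MM)) (fun a b h => by simpa using h)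

theorem mk_le_lt (w : WW) : #{m : MM // rr m ≤ w} < kap := by
  have hemb : ∀ v : WW, v ≤ w → Nonempty (BB v ↪ BB w) := by
    intro v hv
    have : #(BB v) ≤ #(BB w) := by
      rw [mk_BB, mk_BB]; exact beth_le_beth.2 (io_mono hv)
    exact this
  have h : #{m : MM // rr m ≤ w} ≤ #(WW × BB w) := by
    refine mk_le_of_injective (f := fun m => (m.1.1, (hemb m.1.1 m.2).some m.1.2)) ?_
    rintro ⟨⟨v, b⟩, hv⟩ ⟨⟨v', b'⟩, hv'⟩ h
    simp only [Prod.mk.injEq] at h
    obtain ⟨rfl, h2⟩ := h
    simpa using h2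
  refine h.trans_lt ?_
  rw [mk_prod, lift_id, lift_id, mk_WW, mk_BB]
  exact mul_lt_of_lt kap_inf WW_lt (beth_lt_kap w)

theorem mk_lt_le (w : WW) : #{m : MM // rr m < w} ≤ beth (io w) := by
  have hemb : ∀ v : WW, v < w → Nonempty (BB v ↪ BB w) := by
    intro v hv
    have : #(BB v) ≤ #(BB w) := by
      rw [mk_BB, mk_BB]; exact beth_le_beth.2 (io_mono hv.le)
    exact this
  have h : #{m : MM // rr m < w} ≤ #(Iio w × BB w) := by
    refine mk_le_of_injective (f := fun m => (⟨m.1.1, m.2⟩, (hemb m.1.1 m.2).some m.1.2)) ?_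
    rintro ⟨⟨v, b⟩, hv⟩ ⟨⟨v', b'⟩, hv'⟩ h
    simp only [Prod.mk.injEq] at h
    obtain ⟨h1, h2⟩ := h
    have h1' : v = v' := congrArg Subtype.val h1
    subst h1'
    simpa using h2
  refine h.trans ?_
  rw [mk_prod, lift_id, lift_id, mk_BB]
  have h1 : #(Iio w) ≤ ℵ₀ := by
    have : #(Iio w) < ℵ₁ := by
      have := mk_Iio_lt w (by simp)
      rwa [mk_WW] at this
    rwa [← Order.lt_succ_iff, succ_aleph0]
  calc _ ≤ ℵ₀ * beth (io w) := mul_le_mul' h1 le_rfl
    _ = beth (io w) := aleph0_mul_eq (aleph0_le_beth _)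

theorem hstep (g : ℕ → WW) (hg : StrictMono g) (n : ℕ) :
    #(Set {m : MM // rr m < g n}) ≤ #(Below rr g) := by
  rw [mk_set]
  calc (2 : Cardinal.{0}) ^ #{m : MM // rr m < g n} ≤ 2 ^ beth (io (g n)) :=
        power_le_power_left two_ne_zero (mk_lt_le _)
    _ = beth (Order.succ (io (g n))) := (beth_succ _).symm
    _ ≤ beth (io (g (n + 1))) := beth_le_beth.2 (Order.succ_le_of_lt (io_strictMono (hg (Nat.lt_succ_self n))))
    _ = #(BB (g (n + 1))) := (mk_BB _).symm
    _ ≤ #(Below rr g) := by
        refine mk_le_of_injective (f := fun b => (⟨⟨g (n + 1), b⟩, ⟨n + 2, hg (by omega)⟩⟩ : Below rr g)) ?_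
        intro a b h
        simpa using h

theorem hinf (g : ℕ → WW) (hg : StrictMono g) : ℵ₀ ≤ #(Below rr g) := by
  have h1 := aleph0_le_beth (io (g 0))
  rw [← mk_BB] at h1
  refine h1.trans ?_
  refine mk_le_of_injective (f := fun b => (⟨⟨g 0, b⟩, ⟨1, hg (by omega)⟩⟩ : Below rr g)) ?_
  intro a b h
  simpa using h

theorem mk_seq_WW : #(ℕ → WW) < kap := by
  have h : #(ℕ → WW) = ℵ₁ ^ (ℵ₀ : Cardinal.{0}) := by
    rw [← power_def, mk_WW, mk_nat]
  rw [h]
  calc (ℵ₁ : Cardinal.{0}) ^ (ℵ₀ : Cardinal.{0}) ≤ (2 ^ (ℵ₁ : Cardinal.{0})) ^ (ℵ₀ : Cardinal.{0}) :=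
        power_le_power_right (cantor _).le
    _ = 2 ^ (ℵ₁ : Cardinal.{0}) := by
        rw [← power_mul, mul_aleph0_eq (aleph0_le_aleph 1)]
    _ < kap := kap_strong.isStrongPrelimit WW_lt

theorem not_regular : ¬ Cardinal.IsRegular kap := by
  intro h
  have h1 : Cardinal.sum (fun w : WW => beth (io w)) < kap :=
    sum_lt_of_isRegular h (by rw [mk_WW]; exact WW_lt) beth_lt_kap
  have h2 : #MM = Cardinal.sum (fun w : WW => beth (io w)) := by
    rw [mk_sigma]
    congr 1
    funext w
    exact mk_BB w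
  rw [← h2, mk_MM] at h1
  exact lt_irrefl _ h1

theorem mk_seq {K : Type} (hK : #K = kap) : #(ℕ → K) = kap := by
  have h0 : #(ℕ → K) = #(ℕ → MM) := by
    rw [← power_def, ← power_def, hK, mk_MM]
  rw [h0]
  refine le_antisymm ?_ ?_
  · have hcov : (Set.univ : Set (ℕ → MM)) ⊆ ⋃ w : WW, {x | ∀ n, rr (x n) ≤ w} := by
      intro x _
      rw [mem_iUnion]
      by_contra hcon
      push Not at hcon
      have h1 : (Set.univ : Set WW) ⊆ ⋃ n, Iio (rr (x n)) := by
        intro w _
        have := hcon w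
        rw [mem_ofPred_eq] at this
        push Not at this
        obtain ⟨n, hn⟩ := this
        exact mem_iUnion.2 ⟨n, hn⟩
      have h2 : (Set.univ : Set WW).Countable := by
        refine Set.Countable.mono h1 (Set.countable_iUnion fun n => ?_)
        rw [← le_aleph0_iff_set_countable]
        have : #(Iio (rr (x n))) < ℵ₁ := by
          have := mk_Iio_lt (rr (x n)) (by simp)
          rwa [mk_WW] at this
        rwa [← Order.lt_succ_iff, succ_aleph0]
      rw [← le_aleph0_iff_set_countable, mk_univ, mk_WW] at h2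
      exact absurd h2 (not_le.2 aleph0_lt_aleph_one)
    rw [← mk_univ]
    refine (mk_le_mk_of_subset hcov).trans ((mk_iUnion_le_sum_mk).trans ?_)
    refine (sum_le_sum _ (fun _ => kap) (fun w => ?_)).trans ?_
    · have h3 : #{x : ℕ → MM | ∀ n, rr (x n) ≤ w} ≤ #(ℕ → {m : MM // rr m ≤ w}) := by
        refine mk_le_of_injective (f := fun x n => ⟨x.1 n, x.2 n⟩) ?_
        intro x y h
        apply Subtype.ext
        funext n
        have := congrFun h n
        simpa using this
      refine h3.trans ?_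
      rw [← power_def, mk_nat]
      have h4 : (#{m : MM // rr m ≤ w}) ^ (ℵ₀ : Cardinal.{0}) ≤
          2 ^ (#{m : MM // rr m ≤ w} * ℵ₀) := by
        rw [power_mul]
        exact power_le_power_right (cantor _).le
      refine h4.trans (kap_strong.isStrongPrelimit ?_).le
      exact mul_lt_of_lt kap_inf (mk_le_lt w) (aleph0_lt_aleph_one.trans WW_lt)
    · rw [sum_const', mk_WW]
      exact (mul_le_mul' WW_lt.le le_rfl).trans (mul_eq_self kap_inf).le
  · rw [← mk_MM]
    exact mk_le_of_injective (f := fun m (_ : ℕ) => m) (fun a b h => congrFun h 0)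

theorem sum_eq {α : Ordinal.{0}} (hα : aleph α = kap) :
    Cardinal.sum (fun ν : Set.Iio α => (2 : Cardinal.{0}) ^ Cardinal.aleph ν.1) =
      Cardinal.lift.{1} kap := by
  refine le_antisymm ?_ ?_
  · refine (sum_le_sum _ (fun _ => kap) (fun ν => ?_)).trans ?_
    · refine (kap_strong.isStrongPrelimit ?_).le
      rw [← hα]
      exact aleph_lt_aleph.2 ν.2
    · rw [sum_const, Cardinal.mk_Iio_ordinal, lift_id']
      have h1 : α.card ≤ kap := by rw [← hα]; exact α.card_le_aleph
      calc _ ≤ Cardinal.lift.{1} kap * Cardinal.lift.{1} kap := by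
            gcongr
            exact Cardinal.lift_le.2 h1
        _ = Cardinal.lift.{1} kap := mul_eq_self (aleph0_le_lift.2 kap_inf)
  · by_contra hlt
    rw [not_le] at hlt
    obtain ⟨c, hc⟩ := mem_range_lift_of_le hlt.le
    rw [← hc, lift_lt] at hlt
    refine absurd (le_of_forall_beth_le (c := c) fun w => ?_) (not_le.2 hlt)
    obtain ⟨ν, hν⟩ := mem_range_aleph_iff.2 (aleph0_le_beth (io w))
    have hνα : ν < α := by
      rw [← aleph_lt_aleph, hν, hα]
      exact beth_lt_kap w
    rw [← lift_le.{1}, hc]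
    refine le_trans ?_ (lift_le_sum (fun ν : Set.Iio α => (2 : Cardinal.{0}) ^ Cardinal.aleph ν.1)
      ⟨ν, hνα⟩)
    rw [lift_le, ← hν]
    exact (cantor _).le

end Part6


/-- The negation of the preceding statement: If aleph_alpha is singular and M has size sum over nu<alpha of 2^aleph_nu, then for any colouring of the subsets of M with aleph_alpha colours, some colour class under inclusion contains an order-embedded copy of every poset of size aleph_alpha. -/
theorem result :
    ¬ (∀ (α : Ordinal.{0}), ¬ (Cardinal.aleph α).IsRegular →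
      ∀ (M : Type),
        Cardinal.lift.{1} (Cardinal.mk M) =
          Cardinal.sum (fun ν : Set.Iio α => (2 : Cardinal.{0}) ^ Cardinal.aleph ν.1) →
        ∀ (ι : Type), Cardinal.mk ι = Cardinal.aleph α →
          ∀ c : Set M → ι, ∃ i : ι,
            ∀ (P : Type) [PartialOrder P], Cardinal.mk P = Cardinal.aleph α →
              ∃ f : P → Set M, (∀ x, c (f x) = i) ∧ ∀ x y : P, f x ≤ f y ↔ x ≤ y) := by
  classical
  intro H
  obtain ⟨α, hα⟩ := Cardinal.mem_range_aleph_iff.2 kap_inf
  let K : Type := kap.ord.ToType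
  have hK : Cardinal.mk K = kap := Cardinal.mk_ord_toType _
  obtain ⟨c, hc⟩ := main_abstract (K := K) rr kap_strong hK mk_le_lt mk_seq_WW hstep hinf
  have hcol : Cardinal.mk ((ℕ → WW) → Bool) ≤ Cardinal.mk K := by
    rw [← Cardinal.power_def, hK, Cardinal.mk_bool]
    exact (kap_strong.isStrongPrelimit mk_seq_WW).le
  obtain ⟨e⟩ := hcol
  have hreg : ¬ (Cardinal.aleph α).IsRegular := by rw [hα]; exact not_regular
  obtain ⟨i, hi⟩ := H α hreg MM (by rw [mk_MM]; exact (sum_eq hα).symm) K (by rw [hK, hα])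
    (fun A => e (c A))
  have hP : Cardinal.mk (Lex (ℕ → K)) = Cardinal.aleph α := by
    rw [hα]; exact mk_seq hK
  obtain ⟨f, hf1, hf2⟩ := hi (Lex (ℕ → K)) hP
  obtain ⟨x, y, hxy⟩ := hc (fun x => f (toLex x)) (by
    intro x y n h1 h2
    have hlt : toLex x < toLex y := ⟨n, h1, h2⟩
    refine ⟨(hf2 _ _).2 hlt.le, fun h => ?_⟩
    exact absurd ((hf2 _ _).1 h) (not_le_of_gt hlt))
  apply hxy
  apply e.injective
  exact (hf1 (toLex x)).trans (hf1 (toLex y)).symm

end Pool.Agent.S15436
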