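import Pool.Statements.S00360
import Pool.Agent.Helper16.GradeFinal

set_option autoImplicit false
open Pool Pool.MP_a907e8_ag

namespace Pool.Agent.S00360

/-- The negation of the preceding statement: For every Noetherian local ring A and nonzero finitely generated A-module M with a finite projective resolution, the maximal length of an A-regular sequence in ann M plus the Krull dimension of A/ann M equals the Krull dimension of A. -/
theorem result :
    ¬ (∀ (A : Type) [CommRing A] [IsLocalRing A] [IsNoetherianRing A]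
      (M : Type) [AddCommGroup M] [Module A M] [Module.Finite A M] [Nontrivial M],
      (∃ P : CategoryTheory.ProjectiveResolution (ModuleCat.of A M), ∃ n : ℕ,
          ∀ i : ℕ, n ≤ i → CategoryTheory.Limits.IsZero (P.complex.X i)) →
      ∀ g : ℕ,
        (∃ rs : List A, rs.length = g ∧ (∀ r ∈ rs, r ∈ Module.annihilator A M) ∧
            RingTheory.Sequence.IsWeaklyRegular A rs) →
        (¬ ∃ rs : List A, rs.length = g + 1 ∧ (∀ r ∈ rs, r ∈ Module.annihilator A M) ∧
            RingTheory.Sequence.IsWeaklyRegular A rs) →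
        (g : WithBot ℕ∞) + ringKrullDim (A ⧸ Module.annihilator A M) = ringKrullDim A) := by
  intro H
  have H' := H Pool.Agent.Helper16.AA Pool.Agent.Helper16.MA
    (Pool.Agent.Helper16.exists_res _ _ _ _ _ Pool.Agent.Helper16.GA.x_mul_u
      Pool.Agent.Helper16.GA.x_mul_t Pool.Agent.Helper16.GA.y_mul_t Pool.Agent.Helper16.regAA)
  let Q : ℕ → Prop := fun g => ∃ rs : List Pool.Agent.Helper16.AA, rs.length = g ∧
    (∀ r ∈ rs, r ∈ Module.annihilator Pool.Agent.Helper16.AA Pool.Agent.Helper16.MA) ∧
            RingTheory.Sequence.IsWeaklyRegular Pool.Agent.Helper16.AA rs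
  have h0 : Q 0 := ⟨[], rfl, by simp, by simp⟩
  have h3 : ¬ Q 3 := by
    rintro ⟨rs, h1, h2, h3⟩
    exact Pool.Agent.Helper16.no_regular_three rs h1 h2 h3
  have hg : ∃ g : ℕ, g ≤ 2 ∧ Q g ∧ ¬ Q (g + 1) := by
    by_contra hcon
    push Not at hcon
    exact h3 (hcon 2 le_rfl (hcon 1 (by norm_num) (hcon 0 (by norm_num) h0)))
  obtain ⟨g, hg2, hQ, hnQ⟩ := hg
  have h4 := H' g hQ hnQ
  have h5 : (g : WithBot ℕ∞) ≤ 2 := by exact_mod_cast hg2
  have h6 := Pool.Agent.Helper16.dim_quot_le
  have h7 := Pool.Agent.Helper16.four_le_dim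
  rw [← h4] at h7
  have h8 : (4 : WithBot ℕ∞) ≤ 2 + 1 := h7.trans (add_le_add h5 h6)
  exact absurd h8 (by decide)

end Pool.Agent.S00360
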