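import Pool.Statements.S01144
import Pool.Agent.Helper4.LinCert

set_option autoImplicit false
open Pool Pool.MP_34520e_al

namespace Pool.Agent.S01144

open Pool.Agent.Helper4.Lin

theorem finite_G : Finite (Gp β4) := by
  apply Finite.of_injective (fun g : Gp β4 => (g.v, g.z))
  intro g h hgh
  have h1 : g.v = h.v := congrArg Prod.fst hgh
  have h2 : g.z = h.z := congrArg Prod.snd hgh
  exact Gp.ext h1 h2

theorem big_Z4 : ∀ s : Finset Z4, s.card ≤ 6 → ∃ c, c ∉ s := by
  intro s hs
  by_contra hcon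
  push Not at hcon
  have h1 : (Finset.univ : Finset Z4) ⊆ s := fun c _ => hcon c
  have h2 := Finset.card_le_card h1
  have h3 : (Finset.univ : Finset Z4).card = 262144 := by
    rw [Finset.card_univ]
    simp [Fintype.card_prod, ZMod.card]
  omega

/-- The first extra coordinate. -/
def pi1 : Z4 →ₗ[ZMod 2] ZMod 2 := (LinearMap.fst (ZMod 2) (ZMod 2) (ZMod 2)).comp
  (LinearMap.snd (ZMod 2) (Fin 4 → Fin 4 → ZMod 2) (ZMod 2 × ZMod 2))

/-- The second extra coordinate. -/
def pi2 : Z4 →ₗ[ZMod 2] ZMod 2 := (LinearMap.snd (ZMod 2) (ZMod 2) (ZMod 2)).comp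
  (LinearMap.snd (ZMod 2) (Fin 4 → Fin 4 → ZMod 2) (ZMod 2 × ZMod 2))

/-- The negation of the preceding statement: Every lattice that embeds as a sublattice of the equivalence relations on some set, with any two of the images commuting under relational composition, has an order dual that also embeds this way. -/
theorem result :
    ¬ (∀ (L : Type) [Lattice L],
      (∃ (X : Type) (f : LatticeHom L (Setoid X)), Function.Injective f ∧
        ∀ (a b : L) (x y : X),
          (∃ z, (f a).r x z ∧ (f b).r z y) ↔ (∃ z, (f b).r x z ∧ (f a).r z y)) →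
      (∃ (X : Type) (f : LatticeHom Lᵒᵈ (Setoid X)), Function.Injective f ∧
        ∀ (a b : Lᵒᵈ) (x y : X),
          (∃ z, (f a).r x z ∧ (f b).r z y) ↔ (∃ z, (f b).r x z ∧ (f a).r z y))) := by
  intro h
  obtain ⟨X, f, hinj, hcomm⟩ := h (NL (Gp β4)) linear_NL
  have := finite_G
  obtain ⟨Y, S, x0, y0, hg⟩ := exists_AgS X f hinj hcomm (⟨0, ((fun _ _ => 0), (1, 0))⟩ : Gp β4)
    (by
      intro h
      have h1 : ((⟨0, ((fun _ _ => 0), (1, 0))⟩ : Gp β4)).z.2.1 = (1 : Gp β4).z.2.1 := by rw [h]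
      have h2 : (1 : ZMod 2) = 0 := h1
      revert h2; decide)
  obtain ⟨E, inst, ε, Q, hε, hE, hQ⟩ := main_system S ((fun _ _ => 0), (1, 0))
    ((fun _ _ => 0), (0, 1)) pi1 pi2 (fun _ _ => rfl) (fun _ _ => rfl) rfl rfl rfl rfl big_Z4
    _ x0 y0 hg
  exact no_system E ε Q hε hE hQ

end Pool.Agent.S01144
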