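import Pool.Statements.S01394
import Pool.Agent.Helper4.RittAnomaly2

set_option autoImplicit false
open Pool Pool.MP_4c097f_al

namespace Pool.Agent.S01394

/-- The negation of the preceding statement: For a char-0 ordinary differential field K and a differentially finitely generated differential K-domain A, f a non-unit and P a minimal prime over [f]: n differentially independent elements in A give at least n−1 in A/P. -/
theorem result :
    ¬ (∀ (K : Type) [Field K] [CharZero K] [Differential K]
      (A : Type) [CommRing A] [IsDomain A] [Algebra K A] [Differential A],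
      (∀ k : K, (Differential.deriv : Derivation ℤ A A) (algebraMap K A k)
          = algebraMap K A ((Differential.deriv : Derivation ℤ K K) k)) →
      (∃ S : Finset A, Algebra.adjoin K
          (Set.range (fun p : S × ℕ =>
            (⇑(Differential.deriv : Derivation ℤ A A))^[p.2] (p.1 : A))) = ⊤) →
      ∀ (f : A), ¬ IsUnit f →
      ∀ (P : Ideal A),
        P ∈ (Ideal.span (Set.range (fun n : ℕ =>
              (⇑(Differential.deriv : Derivation ℤ A A))^[n] f))).minimalPrimes →
      ∀ n : ℕ,
        (∃ S : Finset A, S.card = n ∧
          AlgebraicIndependent K (fun p : S × ℕ =>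
            (⇑(Differential.deriv : Derivation ℤ A A))^[p.2] (p.1 : A))) →
        (∃ T : Finset A, n ≤ T.card + 1 ∧
          AlgebraicIndependent K (fun p : T × ℕ =>
            Ideal.Quotient.mk P
              ((⇑(Differential.deriv : Derivation ℤ A A))^[p.2] (p.1 : A))))) := by
  intro h
  have h1 := h ℚ Helper4.RittAnomaly.A Helper4.RittAnomaly.compat
    ⟨Helper4.RittAnomaly.S3, Helper4.RittAnomaly.adjoin_S3⟩
    (Helper4.RittAnomaly.a 2) Helper4.RittAnomaly.a2_not_unit
    Helper4.RittAnomaly.M Helper4.RittAnomaly.M_mem_minimalPrimes 2
    ⟨Helper4.RittAnomaly.S2, Helper4.RittAnomaly.S2_card, Helper4.RittAnomaly.S2_indep⟩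
  obtain ⟨T, hT, hind⟩ := h1
  exact Helper4.RittAnomaly.not_indep T hT hind

end Pool.Agent.S01394
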