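import Pool.Statements.S01640
import Pool.Agent.Helper5.TriT
import Pool.Agent.Helper5.GoodField

set_option autoImplicit false
open Pool Pool.MP_5f0000_al

namespace Pool.Agent.S01640

open Matrix Pool.Agent.Helper5.PropT

section Aux

variable {p : ℕ} [Fact p.Prime]

/-- The triangle group is functorial in the coefficient ring. -/
theorem map_Tri {S K : Type*} [CommRing S] [CommRing K] [Algebra (ZMod p) S] [Algebra (ZMod p) K]
    (φ : S →+* K) (s s' : S) :
    (Tri p s s').map (Matrix.SpecialLinearGroup.map φ) = Tri p (φ s) (φ s') := by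
  have hal : ∀ a : ZMod p, φ (algebraMap (ZMod p) S a) = algebraMap (ZMod p) K a := by
    intro a
    have h : φ.comp (algebraMap (ZMod p) S) = algebraMap (ZMod p) K := Subsingleton.elim _ _
    exact congrArg (fun f : ZMod p →+* K => f a) h
  have h1 : ∀ a, Matrix.SpecialLinearGroup.map φ (t1H p s' a) = t1H p (φ s') a := by
    intro a
    apply Subtype.ext
    change (!![1, algebraMap (ZMod p) S a.toAdd, -(algebraMap (ZMod p) S a.toAdd * s'); 0, 1, 0; 0, 0, 1]
      : Matrix (Fin 3) (Fin 3) S).map φ =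
      !![1, algebraMap (ZMod p) K a.toAdd, -(algebraMap (ZMod p) K a.toAdd * φ s'); 0, 1, 0; 0, 0, 1]
    ext i j
    fin_cases i <;> fin_cases j <;> simp [hal]
  have h2 : ∀ a, Matrix.SpecialLinearGroup.map φ (t2H p a) = t2H p a := by
    intro a
    apply Subtype.ext
    change (!![1, 0, 0; -algebraMap (ZMod p) S a.toAdd, 1, algebraMap (ZMod p) S a.toAdd; 0, 0, 1]
      : Matrix (Fin 3) (Fin 3) S).map φ =
      !![1, 0, 0; -algebraMap (ZMod p) K a.toAdd, 1, algebraMap (ZMod p) K a.toAdd; 0, 0, 1]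
    ext i j
    fin_cases i <;> fin_cases j <;> simp [hal]
  have h3 : ∀ a, Matrix.SpecialLinearGroup.map φ (t3H p s a) = t3H p (φ s) a := by
    intro a
    apply Subtype.ext
    change (!![1, 0, 0; 0, 1, 0; algebraMap (ZMod p) S a.toAdd * s, -algebraMap (ZMod p) S a.toAdd, 1]
      : Matrix (Fin 3) (Fin 3) S).map φ =
      !![1, 0, 0; 0, 1, 0; algebraMap (ZMod p) K a.toAdd * φ s, -algebraMap (ZMod p) K a.toAdd, 1]
    ext i j
    fin_cases i <;> fin_cases j <;> simp [hal]
  unfold Tri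
  rw [MonoidHom.map_closure]
  congr 1
  rw [Set.image_union, Set.image_union, ← Set.range_comp, ← Set.range_comp, ← Set.range_comp]
  congr 1
  · congr 1
    · congr 1; funext a; exact h1 a
    · congr 1; funext a; exact h2 a
  · congr 1; funext a; exact h3 a

end Aux


/-- The negation of the preceding statement: Every group with Kazhdan's property (T) has only finitely many normal subgroups whose quotient is a finite simple group with a split BN-pair of rank 1, i.e. a finite simple group of Lie type of rank 1. -/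
theorem result :
    ¬ (∀ (G : Type) [Group G],
      (∀ (H : Type) [NormedAddCommGroup H] [InnerProductSpace ℂ H] [CompleteSpace H]
          (ρ : G →* unitary (H →L[ℂ] H)),
          (∀ (S : Finset G) (ε : ℝ), 0 < ε →
              ∃ v : H, ‖v‖ = 1 ∧ ∀ s ∈ S, ‖(ρ s : H →L[ℂ] H) v - v‖ < ε) →
          ∃ v : H, v ≠ 0 ∧ ∀ g : G, (ρ g : H →L[ℂ] H) v = v) →
      Set.Finite {N : Subgroup G | ∃ (Q : Type) (_ : Group Q), ∃ f : G →* Q,
          Function.Surjective f ∧ f.ker = N ∧ Finite Q ∧ IsSimpleGroup Q ∧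
          ∃ (X : Type) (φ : Q →* Equiv.Perm X), Finite X ∧ 3 ≤ Nat.card X ∧
            (∀ a b c d : X, a ≠ b → c ≠ d → ∃ g : Q, φ g a = c ∧ φ g b = d) ∧
            ∃ (x : X) (U : Subgroup Q),
              (∀ u ∈ U, φ u x = x) ∧
              (∀ u ∈ U, ∀ h : Q, φ h x = x → h * u * h⁻¹ ∈ U) ∧
              ∀ y z : X, y ≠ x → z ≠ x → ∃! u : Q, u ∈ U ∧ φ u y = z}) := by
  intro hall
  have hp5 : Fact (Nat.Prime 5) := ⟨by norm_num⟩
  -- the fields
  let K : ℕ → Type := fun j => GaloisField 5 (2 ^ (j + 2))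
  let instF : ∀ j, Field (K j) := fun j => inferInstanceAs (Field (GaloisField 5 (2 ^ (j + 2))))
  let instA : ∀ j, Algebra (ZMod 5) (K j) :=
    fun j => inferInstanceAs (Algebra (ZMod 5) (GaloisField 5 (2 ^ (j + 2))))
  have instFin : ∀ j, Finite (K j) := fun j => inferInstanceAs (Finite (GaloisField 5 (2 ^ (j + 2))))
  have hne : ∀ j : ℕ, 2 ^ (j + 2) ≠ 0 := fun j => by positivity
  have hex : ∀ j, ∃ (σ : K j →+* K j) (s : K j), Good 5 (K j) σ s := fun j =>
    exists_good (le_refl 5) (K j) (j + 1) (by omega) (GaloisField.finrank 5 (hne j))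
  choose σ s hgood using hex
  have hcard : ∀ j, Nat.card (K j) = 5 ^ (2 ^ (j + 2)) := fun j => GaloisField.card 5 _ (hne j)
  -- the group
  let S : Type := ∀ j, K j
  let sS : S := fun j => s j
  let sS' : S := fun j => σ j (s j)
  have hsS : sS * sS' = 1 := funext (fun j => (hgood j).hs)
  have hfin := hall ↥(Tri 5 sS sS') (fun H _ _ _ ρ hai => by
    exact propT_Tri (le_refl 5) sS sS' hsS ρ hai)
  -- the quotients
  have hmap : ∀ j, (Tri 5 sS sS').map (Matrix.SpecialLinearGroup.map (Pi.evalRingHom K j)) =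
      Tri 5 (s j) (σ j (s j)) := fun j => map_Tri (Pi.evalRingHom K j) sS sS'
  obtain ⟨B, hB⟩ := (hfin.image Subgroup.index).bddAbove
  set j := B with hj
  let F1 : ↥(Tri 5 sS sS') →* ↥(Tri 5 (s j) (σ j (s j))) :=
    ((Matrix.SpecialLinearGroup.map (Pi.evalRingHom K j)).comp (Tri 5 sS sS').subtype).codRestrict _
      (fun x => by rw [← hmap j]; exact ⟨x.1, x.2, rfl⟩)
  have hF1 : Function.Surjective F1 := by
    rintro ⟨y, hy⟩
    rw [← hmap j] at hy
    obtain ⟨x, hx, hxy⟩ := hy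
    exact ⟨⟨x, hx⟩, Subtype.ext hxy⟩
  let F2 : ↥(Tri 5 (s j) (σ j (s j))) →* ↥(QQ (σ j) (s j) 5) :=
    (MulAction.toPermHom (↥(Tri 5 (s j) (σ j (s j)))) (XX (σ j) (s j) 5)).rangeRestrict
  have hF2 : Function.Surjective F2 := MonoidHom.rangeRestrict_surjective _
  obtain ⟨hQfin, hQs, hQcard, hX⟩ := main_quotient (hgood j)
  have hsurj : Function.Surjective (F2.comp F1) := hF2.comp hF1
  have hmem : (F2.comp F1).ker ∈ {N : Subgroup ↥(Tri 5 sS sS') | ∃ (Q : Type) (_ : Group Q),
          ∃ f : ↥(Tri 5 sS sS') →* Q,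
          Function.Surjective f ∧ f.ker = N ∧ Finite Q ∧ IsSimpleGroup Q ∧
          ∃ (X : Type) (φ : Q →* Equiv.Perm X), Finite X ∧ 3 ≤ Nat.card X ∧
            (∀ a b c d : X, a ≠ b → c ≠ d → ∃ g : Q, φ g a = c ∧ φ g b = d) ∧
            ∃ (x : X) (U : Subgroup Q),
              (∀ u ∈ U, φ u x = x) ∧
              (∀ u ∈ U, ∀ h : Q, φ h x = x → h * u * h⁻¹ ∈ U) ∧
              ∀ y z : X, y ≠ x → z ≠ x → ∃! u : Q, u ∈ U ∧ φ u y = z} :=
    ⟨↥(QQ (σ j) (s j) 5), inferInstance, F2.comp F1, hsurj, rfl, hQfin, hQs, hX⟩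
  have hle : (F2.comp F1).ker.index ≤ B := hB ⟨_, hmem, rfl⟩
  have hindex : (F2.comp F1).ker.index = Nat.card ↥(QQ (σ j) (s j) 5) := by
    rw [Subgroup.index_ker]
    have : (F2.comp F1).range = ⊤ := MonoidHom.range_eq_top.mpr hsurj
    rw [this]
    exact Subgroup.card_top
  rw [hindex] at hle
  have h1 : Nat.card (K j) ≤ B := hQcard.trans hle
  rw [hcard] at h1
  have h2 : B < 5 ^ (2 ^ (B + 2)) := by
    calc B < B + 2 := by omega
      _ < 2 ^ (B + 2) := Nat.lt_two_pow_self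
      _ < 5 ^ (2 ^ (B + 2)) := Nat.lt_pow_self (by norm_num)
  exact (not_le.mpr h2) h1

end Pool.Agent.S01640
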