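import Pool.Statements.S02248

/-!
A finitely generated strongly scale-invariant group that is not virtually nilpotent.

Let x_i (i an integer) be the iterates of the substitution x ↦ x + x^2 over F_2 applied to a
transcendental x = x_0, let t be the automorphism with t(x_i) = x_(i+1), let A be the
multiplicative group generated by all 1 + x_i = x_(i+1)/x_i and let C be the ring spanned by A.
The group Γ of all maps h ↦ a * t^k(h) + c with a in A, k an integer, c in C is generated by the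
three maps h ↦ h + 1, h ↦ (1 + x) * h and h ↦ t(h). Conjugation by the affine map
ψ(h) = x * t(h) + 1 maps Γ onto the subgroup of index 2 given by the condition c in x * C, and an
element of all the iterated images fixes the power series w = 1 + x * t(w). Since w is not a
quotient of elements of C (a degree argument), only the identity does.
In the formalization x_i is the germ at infinity of the sequence n ↦ (n + i)-th iterate of
X ↦ X + X^2, in the ring of germs at infinity of sequences of rational functions over F_2, and the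
power series w is replaced by congruences modulo powers of x.
-/

set_option autoImplicit false
open Pool Pool.MP_8f716c_al

namespace Pool.Agent.S02248

section Aux

open Polynomial Filter
open scoped commutatorElement

/-! ### Polynomial part -/

/-- the ring endomorphism P ↦ P(X + X^2) of F_2[X] -/
noncomputable def T : (ZMod 2)[X] →+* (ZMod 2)[X] := compRingHom (X + X ^ 2)

lemma T_apply (P : (ZMod 2)[X]) : T P = P.comp (X + X ^ 2) := rfl

lemma T_X : T X = X + X ^ 2 := by simp [T_apply]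

lemma X_dvd_T_X : (X : (ZMod 2)[X]) ∣ T X := ⟨1 + X, by rw [T_X]; ring⟩

lemma eval_T (P : (ZMod 2)[X]) : (T P).eval 0 = P.eval 0 := by
  simp [T_apply, eval_comp]

lemma natDegree_T (P : (ZMod 2)[X]) : (T P).natDegree = 2 * P.natDegree := by
  rw [T_apply, natDegree_comp]
  have : (X + X ^ 2 : (ZMod 2)[X]).natDegree = 2 := by
    compute_degree!
  rw [this]; ring

lemma T_injective : Function.Injective T := by
  rw [injective_iff_map_eq_zero]
  intro P hP
  rw [T_apply, comp_eq_zero_iff] at hP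
  rcases hP with h | ⟨_, h⟩
  · exact h
  · exfalso
    have h1 : (X + X ^ 2 : (ZMod 2)[X]).natDegree = 2 := by
      compute_degree!
    rw [h, natDegree_C] at h1
    omega

lemma X_pow_dvd_T {n : ℕ} {P : (ZMod 2)[X]} (h : X ^ n ∣ P) : X ^ n ∣ T P := by
  obtain ⟨Q, rfl⟩ := h
  rw [map_mul, map_pow]
  exact Dvd.dvd.mul_right (pow_dvd_pow_of_dvd X_dvd_T_X n) _

lemma X_pow_dvd_of_T {n : ℕ} : ∀ {P : (ZMod 2)[X]}, X ^ n ∣ T P → X ^ n ∣ P := by
  induction n with
  | zero => intro P _; simp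
  | succ n ih =>
    intro P h
    have h1 : X ∣ T P := dvd_trans (dvd_pow_self X (Nat.succ_ne_zero n)) h
    have h2 : X ∣ P := by
      rw [X_dvd_iff, coeff_zero_eq_eval_zero] at h1 ⊢
      rwa [eval_T] at h1
    obtain ⟨Q, rfl⟩ := h2
    rw [map_mul, T_X, show (X + X ^ 2 : (ZMod 2)[X]) * T Q = X * ((1 + X) * T Q) by ring,
      pow_succ'] at h
    have h3 : X ^ n ∣ (1 + X) * T Q := (mul_dvd_mul_iff_left X_ne_zero).1 h
    have h4 : IsCoprime (X ^ n : (ZMod 2)[X]) (1 + X) := by
      apply IsCoprime.pow_left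
      exact ⟨-1, 1, by ring⟩
    have h5 : X ^ n ∣ T Q := h4.dvd_of_dvd_mul_left h3
    rw [pow_succ']
    exact mul_dvd_mul_left X (ih h5)

lemma X_pow_dvd_of_T_iter {n : ℕ} (m : ℕ) {P : (ZMod 2)[X]} (h : X ^ n ∣ T^[m] P) :
    X ^ n ∣ P := by
  induction m with
  | zero => exact h
  | succ m ih =>
    rw [Function.iterate_succ_apply'] at h
    exact ih (X_pow_dvd_of_T h)

lemma eq_zero_of_X_pow_dvd {P : (ZMod 2)[X]} (h : ∀ n : ℕ, X ^ n ∣ P) : P = 0 := by
  by_contra hP
  have h1 := h (P.natDegree + 1)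
  have h2 := natDegree_le_of_dvd h1 hP
  rw [natDegree_X_pow] at h2
  omega

/-- partial sums of the fixed point of h ↦ X * T h + 1 -/
noncomputable def S : ℕ → (ZMod 2)[X]
  | 0 => 0
  | n + 1 => X * T (S n) + 1

/-- the products X * T X * ... * T^[k-1] X -/
noncomputable def XX : ℕ → (ZMod 2)[X]
  | 0 => 1
  | n + 1 => X * T (XX n)

/-- irrationality of the fixed point of h ↦ X * T h + 1 -/
theorem irrational (U W : (ZMod 2)[X]) (h : ∀ n : ℕ, X ^ n ∣ U * S n - W) : U = 0 := by
  have key : T U * (W - U) - X * (U * T W) = 0 := by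
    apply eq_zero_of_X_pow_dvd
    intro n
    have h1 : X ^ n ∣ T (U * S n - W) := X_pow_dvd_T (h n)
    have h2 : X ^ n ∣ U * S (n + 1) - W :=
      dvd_trans (pow_dvd_pow X (Nat.le_succ n)) (h (n + 1))
    have e : T U * (W - U) - X * (U * T W)
        = (X * U) * T (U * S n - W) - T U * (U * S (n + 1) - W) := by
      rw [map_sub, map_mul]
      simp only [S]
      ring
    rw [e]
    exact dvd_sub (Dvd.dvd.mul_left h1 _) (Dvd.dvd.mul_left h2 _)
  by_contra hU
  have hTU : T U ≠ 0 := fun h0 => hU (T_injective (by rw [h0, map_zero]))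
  have hW : W ≠ 0 := by
    rintro rfl
    rw [map_zero, mul_zero, mul_zero, sub_zero, zero_sub, mul_neg, neg_eq_zero] at key
    exact (mul_ne_zero hTU hU) key
  have hTW : T W ≠ 0 := fun h0 => hW (T_injective (by rw [h0, map_zero]))
  have key2 : T U * (W - U) = X * (U * T W) := sub_eq_zero.1 key
  have hWU : W - U ≠ 0 := by
    intro h0
    rw [h0, mul_zero] at key2
    exact (mul_ne_zero X_ne_zero (mul_ne_zero hU hTW)) key2.symm
  have d := congrArg natDegree key2
  rw [natDegree_mul hTU hWU, natDegree_mul X_ne_zero (mul_ne_zero hU hTW),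
    natDegree_mul hU hTW, natDegree_T, natDegree_T, natDegree_X] at d
  rcases lt_trichotomy W.natDegree U.natDegree with hlt | heq | hgt
  · have := natDegree_sub_eq_right_of_natDegree_lt hlt
    omega
  · have := natDegree_sub_le W U
    rw [heq, max_self] at this
    omega
  · have := natDegree_sub_eq_left_of_natDegree_lt hgt
    omega

/-- A commutative ring with an automorphism `t`, a homomorphism from F_2, and a unit `x`,
transcendental over F_2, with `t x = x + x^2`. -/
structure Model where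
  M : Type
  inst : CommRing M
  ι : ZMod 2 →+* M
  t : RingAut M
  x : Mˣ
  hx : t (x : M) = x + x ^ 2
  htr : ∀ P : (ZMod 2)[X], P.eval₂ ι (x : M) = 0 → P = 0

attribute [instance] Model.inst

variable (m : Model)

/-- evaluation of polynomials at x -/
noncomputable def ev : (ZMod 2)[X] →+* m.M := eval₂RingHom m.ι (m.x : m.M)

lemma ev_X : ev m X = m.x := by simp [ev]

lemma ev_inj {P Q : (ZMod 2)[X]} (h : ev m P = ev m Q) : P = Q := by
  have h1 : ev m (P - Q) = 0 := by rw [map_sub, h, sub_self]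
  exact sub_eq_zero.1 (m.htr _ h1)

lemma ev_T (P : (ZMod 2)[X]) : ev m (T P) = m.t (ev m P) := by
  have h : (ev m).comp T = (m.t : m.M →+* m.M).comp (ev m) := by
    apply Polynomial.ringHom_ext'
    · exact Subsingleton.elim _ _
    · simp only [RingHom.coe_comp, Function.comp_apply, T_X, map_add, map_pow, ev_X]
      exact m.hx.symm
  exact congrArg (fun f : (ZMod 2)[X] →+* m.M => f P) h

lemma ev_T_iter (n : ℕ) (P : (ZMod 2)[X]) : ev m (T^[n] P) = (m.t ^ n) (ev m P) := by
  induction n with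
  | zero => simp
  | succ n ih =>
    rw [Function.iterate_succ_apply', ev_T, ih, pow_succ', RingAut.mul_apply]

lemma two_eq_zero : (2 : m.M) = 0 := by
  have h : m.ι 2 = 2 := map_ofNat m.ι 2
  have h2 : (2 : ZMod 2) = 0 := rfl
  rw [← h, h2, map_zero]

/-- action of ring automorphisms on units -/
def mapU {M : Type} [CommRing M] (s : RingAut M) (a : Mˣ) : Mˣ :=
  ⟨s a, s (a⁻¹ : Mˣ), by rw [← map_mul]; simp, by rw [← map_mul]; simp⟩

@[simp] lemma mapU_coe {M : Type} [CommRing M] (s : RingAut M) (a : Mˣ) :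
    ((mapU s a : Mˣ) : M) = s a := rfl

lemma mapU_mul {M : Type} [CommRing M] (s : RingAut M) (a b : Mˣ) :
    mapU s (a * b) = mapU s a * mapU s b := by
  ext; simp

lemma mapU_one {M : Type} [CommRing M] (s : RingAut M) : mapU s 1 = 1 := by
  ext; simp

lemma mapU_inv {M : Type} [CommRing M] (s : RingAut M) (a : Mˣ) :
    mapU s a⁻¹ = (mapU s a)⁻¹ := by
  rw [eq_inv_iff_mul_eq_one, ← mapU_mul, inv_mul_cancel, mapU_one]

lemma mapU_comp {M : Type} [CommRing M] (s r : RingAut M) (a : Mˣ) :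
    mapU s (mapU r a) = mapU (s * r) a := by
  ext; simp [RingAut.mul_apply]

/-- the unit t x / x = 1 + x -/
def uu : m.Mˣ := mapU m.t m.x * (m.x)⁻¹

lemma uu_coe : (uu m : m.M) = 1 + m.x := by
  simp only [uu, Units.val_mul, mapU_coe, m.hx]
  rw [pow_two, add_mul, mul_assoc, Units.mul_inv, mul_one]

lemma uu_mul_x : uu m * m.x = mapU m.t m.x := by
  simp [uu]

/-- the multiplicative group generated by all t^i (1 + x) -/
def A : Subgroup m.Mˣ := Subgroup.closure (Set.range fun i : ℤ => mapU (m.t ^ i) (uu m))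

lemma uu_mem (i : ℤ) : mapU (m.t ^ i) (uu m) ∈ A m :=
  Subgroup.subset_closure ⟨i, rfl⟩

lemma uu_mem' : uu m ∈ A m := by
  have := uu_mem m 0
  have h : mapU (m.t ^ (0 : ℤ)) (uu m) = uu m := by ext; simp
  rwa [h] at this

lemma A_map (k : ℤ) {a : m.Mˣ} (ha : a ∈ A m) : mapU (m.t ^ k) a ∈ A m := by
  induction ha using Subgroup.closure_induction with
  | mem a ha =>
    obtain ⟨i, rfl⟩ := ha
    simp only
    rw [mapU_comp, ← zpow_add]
    exact uu_mem m _
  | one => rw [mapU_one]; exact (A m).one_mem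
  | mul a b _ _ iha ihb => rw [mapU_mul]; exact (A m).mul_mem iha ihb
  | inv a _ iha => rw [mapU_inv]; exact (A m).inv_mem iha

lemma x_ratio (k : ℤ) : mapU (m.t ^ k) m.x * (m.x)⁻¹ ∈ A m := by
  induction k using Int.induction_on with
  | zero =>
    have h : mapU (m.t ^ (0 : ℤ)) m.x * (m.x)⁻¹ = 1 := by ext; simp
    rw [h]; exact (A m).one_mem
  | succ k ih =>
    have h : mapU (m.t ^ ((k : ℤ) + 1)) m.x * (m.x)⁻¹
        = mapU (m.t ^ (k : ℤ)) (uu m) * (mapU (m.t ^ (k : ℤ)) m.x * (m.x)⁻¹) := by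
      rw [← mul_assoc, ← mapU_mul, uu_mul_x, mapU_comp, zpow_add_one]
    rw [h]
    exact (A m).mul_mem (uu_mem m _) ih
  | pred k ih =>
    have h : mapU (m.t ^ (-(k : ℤ) - 1)) m.x * (m.x)⁻¹
        = (mapU (m.t ^ (-(k : ℤ) - 1)) (uu m))⁻¹ * (mapU (m.t ^ (-(k : ℤ))) m.x * (m.x)⁻¹) := by
      rw [eq_inv_mul_iff_mul_eq, ← mul_assoc, ← mapU_mul, uu_mul_x, mapU_comp,
        ← zpow_add_one, sub_add_cancel]
    rw [h]
    exact (A m).mul_mem ((A m).inv_mem (uu_mem m _)) ih

/-- the additive group generated by A (a subring) -/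
def CC : AddSubgroup m.M := AddSubgroup.closure {c | ∃ a ∈ A m, (a : m.M) = c}

lemma A_mem_CC {a : m.Mˣ} (ha : a ∈ A m) : (a : m.M) ∈ CC m :=
  AddSubgroup.subset_closure ⟨a, ha, rfl⟩

lemma one_mem_CC : (1 : m.M) ∈ CC m := by
  have := A_mem_CC m (A m).one_mem
  simpa using this

lemma smul_mem_CC {a : m.Mˣ} (ha : a ∈ A m) {c : m.M} (hc : c ∈ CC m) :
    (a : m.M) * c ∈ CC m := by
  induction hc using AddSubgroup.closure_induction with
  | mem c hc =>
    obtain ⟨b, hb, rfl⟩ := hc
    have := A_mem_CC m ((A m).mul_mem ha hb)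
    simpa using this
  | zero => simpa using (CC m).zero_mem
  | add b c _ _ ihb ihc => rw [mul_add]; exact (CC m).add_mem ihb ihc
  | neg b _ ihb => rw [mul_neg]; exact (CC m).neg_mem ihb

lemma mul_mem_CC {b c : m.M} (hb : b ∈ CC m) (hc : c ∈ CC m) : b * c ∈ CC m := by
  induction hb using AddSubgroup.closure_induction with
  | mem b hb =>
    obtain ⟨a, ha, rfl⟩ := hb
    exact smul_mem_CC m ha hc
  | zero => simpa using (CC m).zero_mem
  | add a b _ _ iha ihb => rw [add_mul]; exact (CC m).add_mem iha ihb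
  | neg b _ ihb => rw [neg_mul]; exact (CC m).neg_mem ihb

lemma pow_mem_CC {b : m.M} (hb : b ∈ CC m) (n : ℕ) : b ^ n ∈ CC m := by
  induction n with
  | zero => simpa using one_mem_CC m
  | succ n ih => rw [pow_succ]; exact mul_mem_CC m ih hb

lemma t_mem_CC (k : ℤ) {c : m.M} (hc : c ∈ CC m) : (m.t ^ k) c ∈ CC m := by
  induction hc using AddSubgroup.closure_induction with
  | mem c hc =>
    obtain ⟨b, hb, rfl⟩ := hc
    exact A_mem_CC m (A_map m k hb)
  | zero => simpa using (CC m).zero_mem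
  | add b c _ _ ihb ihc => rw [map_add]; exact (CC m).add_mem ihb ihc
  | neg b _ ihb => rw [map_neg]; exact (CC m).neg_mem ihb

lemma t_mem_CC' {c : m.M} (hc : c ∈ CC m) : m.t c ∈ CC m := by
  have := t_mem_CC m 1 hc
  simpa using this

lemma x_mem_CC : (m.x : m.M) ∈ CC m := by
  have h : (m.x : m.M) = (uu m : m.M) - 1 := by rw [uu_coe]; ring
  rw [h]
  exact (CC m).sub_mem (A_mem_CC m (uu_mem' m)) (one_mem_CC m)

lemma ev_mem_CC (P : (ZMod 2)[X]) : ev m P ∈ CC m := by
  induction P using Polynomial.induction_on' with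
  | add p q hp hq => rw [map_add]; exact (CC m).add_mem hp hq
  | monomial n a =>
    rw [← C_mul_X_pow_eq_monomial, map_mul, map_pow, ev_X]
    apply mul_mem_CC m _ (pow_mem_CC m (x_mem_CC m) n)
    have ha : a = 0 ∨ a = 1 := by
      revert a; decide
    rcases ha with rfl | rfl
    · simpa using (CC m).zero_mem
    · simpa using one_mem_CC m

lemma A_cases {a : m.Mˣ} (ha : a ∈ A m) : ∃ c ∈ CC m, (a : m.M) = 1 + m.x * c := by
  induction ha using Subgroup.closure_induction with
  | mem a ha =>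
    obtain ⟨i, rfl⟩ := ha
    refine ⟨_, A_mem_CC m (x_ratio m i), ?_⟩
    simp only [mapU_coe, uu_coe, map_add, map_one, Units.val_mul]
    rw [mul_comm ((m.t ^ i) (m.x : m.M)), ← mul_assoc, Units.mul_inv, one_mul]
  | one => exact ⟨0, (CC m).zero_mem, by simp⟩
  | mul a b _ _ iha ihb =>
    obtain ⟨c, hc, hca⟩ := iha
    obtain ⟨d, hd, hdb⟩ := ihb
    refine ⟨c + d + m.x * c * d, ?_, ?_⟩
    · exact (CC m).add_mem ((CC m).add_mem hc hd)
        (mul_mem_CC m (mul_mem_CC m (x_mem_CC m) hc) hd)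
    · rw [Units.val_mul, hca, hdb]; ring
  | inv a ha' iha =>
    obtain ⟨c, hc, hca⟩ := iha
    refine ⟨-((a⁻¹ : m.Mˣ) * c), ?_, ?_⟩
    · exact (CC m).neg_mem (smul_mem_CC m ((A m).inv_mem ha') hc)
    · have h : ((a⁻¹ : m.Mˣ) : m.M) * (1 + m.x * c) = 1 := by rw [← hca, Units.inv_mul]
      linear_combination h

lemma CC_cases {c : m.M} (hc : c ∈ CC m) :
    ∃ d ∈ CC m, c = m.x * d ∨ c = 1 + m.x * d := by
  induction hc using AddSubgroup.closure_induction with
  | mem c hc =>
    obtain ⟨b, hb, rfl⟩ := hc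
    obtain ⟨d, hd, h⟩ := A_cases m hb
    exact ⟨d, hd, Or.inr h⟩
  | zero => exact ⟨0, (CC m).zero_mem, Or.inl (by simp)⟩
  | add b c _ _ ihb ihc =>
    obtain ⟨d, hd, h⟩ := ihb
    obtain ⟨e, he, h'⟩ := ihc
    refine ⟨d + e, (CC m).add_mem hd he, ?_⟩
    rcases h with rfl | rfl <;> rcases h' with rfl | rfl
    · left; ring
    · right; ring
    · right; ring
    · left; linear_combination two_eq_zero m
  | neg b _ ihb =>
    obtain ⟨d, hd, h⟩ := ihb
    refine ⟨-d, (CC m).neg_mem hd, ?_⟩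
    rcases h with rfl | rfl
    · left; ring
    · right; linear_combination (-1 : m.M) * two_eq_zero m

variable (m : Model)

/-- `a` becomes a quotient of two polynomials in `x` with constant term 1 after applying `t^n` -/
def RatU (n : ℕ) (a : m.M) : Prop :=
  ∃ D N : (ZMod 2)[X], IsUnit (ev m D) ∧ IsUnit (ev m N) ∧ D.eval 0 = 1 ∧ N.eval 0 = 1 ∧
    ev m D * (m.t ^ n) a = ev m N

/-- `c` becomes a quotient of two polynomials in `x`, the denominator with constant term 1,
after applying `t^n` -/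
def Rat (n : ℕ) (c : m.M) : Prop :=
  ∃ D N : (ZMod 2)[X], IsUnit (ev m D) ∧ D.eval 0 = 1 ∧ ev m D * (m.t ^ n) c = ev m N

lemma isUnit_t {b : m.M} (h : IsUnit b) : IsUnit (m.t b) := h.map m.t

lemma RatU.succ {n : ℕ} {a : m.M} (h : RatU m n a) : RatU m (n + 1) a := by
  obtain ⟨D, N, hD, hN, hD0, hN0, h⟩ := h
  refine ⟨T D, T N, ?_, ?_, ?_, ?_, ?_⟩
  · rw [ev_T]; exact isUnit_t m hD
  · rw [ev_T]; exact isUnit_t m hN
  · rw [eval_T, hD0]
  · rw [eval_T, hN0]
  · rw [ev_T, ev_T, ← h, map_mul, pow_succ', RingAut.mul_apply]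

lemma Rat.succ {n : ℕ} {a : m.M} (h : Rat m n a) : Rat m (n + 1) a := by
  obtain ⟨D, N, hD, hD0, h⟩ := h
  refine ⟨T D, T N, ?_, ?_, ?_⟩
  · rw [ev_T]; exact isUnit_t m hD
  · rw [eval_T, hD0]
  · rw [ev_T, ev_T, ← h, map_mul, pow_succ', RingAut.mul_apply]

lemma RatU.mono {n k : ℕ} (hnk : n ≤ k) {a : m.M} (h : RatU m n a) : RatU m k a := by
  induction k, hnk using Nat.le_induction with
  | base => exact h
  | succ k _ ih => exact RatU.succ m ih

lemma Rat.mono {n k : ℕ} (hnk : n ≤ k) {a : m.M} (h : Rat m n a) : Rat m k a := by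
  induction k, hnk using Nat.le_induction with
  | base => exact h
  | succ k _ ih => exact Rat.succ m ih

lemma ratU_of_mem_A {a : m.Mˣ} (ha : a ∈ A m) : ∃ n, RatU m n (a : m.M) := by
  induction ha using Subgroup.closure_induction with
  | mem a ha =>
    obtain ⟨i, rfl⟩ := ha
    obtain ⟨j, hj⟩ : ∃ j : ℕ, (j : ℤ) = (i.natAbs : ℤ) + i :=
      ⟨((i.natAbs : ℤ) + i).toNat, by omega⟩
    have e : (m.t ^ i.natAbs) ((m.t ^ i) (uu m : m.M)) = ev m (T^[j] (1 + X)) := by
      rw [ev_T_iter, map_add, map_one, ev_X, ← uu_coe, ← RingAut.mul_apply, ← zpow_natCast,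
        ← zpow_add, ← zpow_natCast, hj]
    refine ⟨i.natAbs, 1, T^[j] (1 + X), ?_, ?_, ?_, ?_, ?_⟩
    · simp
    · rw [← e]
      exact ((uu m).isUnit.map (m.t ^ i)).map (m.t ^ i.natAbs)
    · simp
    · have : ∀ j : ℕ, (T^[j] (1 + X : (ZMod 2)[X])).eval 0 = 1 := by
        intro j
        induction j with
        | zero => simp
        | succ j ih => rw [Function.iterate_succ_apply', eval_T, ih]
      exact this j
    · rw [map_one, one_mul, mapU_coe]
      exact e
  | one => exact ⟨0, 1, 1, by simp, by simp, by simp, by simp, by simp⟩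
  | mul a b _ _ iha ihb =>
    obtain ⟨n, hn⟩ := iha
    obtain ⟨k, hk⟩ := ihb
    obtain ⟨D, N, h1, h2, h3, h4, h5⟩ := RatU.mono m (le_max_left n k) hn
    obtain ⟨D', N', h1', h2', h3', h4', h5'⟩ := RatU.mono m (le_max_right n k) hk
    refine ⟨max n k, D * D', N * N', ?_, ?_, ?_, ?_, ?_⟩
    · rw [map_mul]; exact h1.mul h1'
    · rw [map_mul]; exact h2.mul h2'
    · rw [eval_mul, h3, h3', one_mul]
    · rw [eval_mul, h4, h4', one_mul]
    · rw [map_mul, map_mul, Units.val_mul, map_mul, ← h5, ← h5']; ring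
  | inv a _ iha =>
    obtain ⟨n, D, N, h1, h2, h3, h4, h5⟩ := iha
    refine ⟨n, N, D, h2, h1, h4, h3, ?_⟩
    rw [← h5, mul_assoc, ← map_mul, Units.mul_inv, map_one, mul_one]

lemma rat_of_mem_CC {c : m.M} (hc : c ∈ CC m) : ∃ n, Rat m n c := by
  induction hc using AddSubgroup.closure_induction with
  | mem c hc =>
    obtain ⟨b, hb, rfl⟩ := hc
    obtain ⟨n, D, N, h1, h2, h3, h4, h5⟩ := ratU_of_mem_A m hb
    exact ⟨n, D, N, h1, h3, h5⟩
  | zero => exact ⟨0, 1, 0, by simp, by simp, by simp⟩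
  | add b c _ _ ihb ihc =>
    obtain ⟨n, hn⟩ := ihb
    obtain ⟨k, hk⟩ := ihc
    obtain ⟨D, N, h1, h3, h5⟩ := Rat.mono m (le_max_left n k) hn
    obtain ⟨D', N', h1', h3', h5'⟩ := Rat.mono m (le_max_right n k) hk
    refine ⟨max n k, D * D', N * D' + D * N', ?_, ?_, ?_⟩
    · rw [map_mul]; exact h1.mul h1'
    · rw [eval_mul, h3, h3', one_mul]
    · simp only [map_mul, map_add, ← h5, ← h5']; ring
  | neg b _ ihb =>
    obtain ⟨n, D, N, h1, h3, h5⟩ := ihb
    exact ⟨n, D, -N, h1, h3, by rw [map_neg, map_neg, mul_neg, h5]⟩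

/-- divisibility by `x^n` in C descends to polynomials -/
lemma dvd_of_CC {n : ℕ} {P : (ZMod 2)[X]} {c : m.M} (hc : c ∈ CC m)
    (h : ev m P = (m.x : m.M) ^ n * c) : X ^ n ∣ P := by
  obtain ⟨k, D, N, h1, h3, h5⟩ := rat_of_mem_CC m hc
  have e : ev m (D * T^[k] P) = ev m ((T^[k] X) ^ n * N) := by
    rw [map_mul, ev_T_iter, h, map_mul, map_pow, map_mul, map_pow, ev_T_iter, ev_X, ← h5]
    ring
  have e2 := ev_inj m e
  have h6 : X ∣ T^[k] (X : (ZMod 2)[X]) := by
    have : ∀ k : ℕ, X ∣ T^[k] (X : (ZMod 2)[X]) := by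
      intro k
      induction k with
      | zero => simp
      | succ k ih =>
        rw [Function.iterate_succ_apply']
        have := X_pow_dvd_T (n := 1) (P := T^[k] X) (by simpa using ih)
        simpa using this
    exact this k
  have h7 : X ^ n ∣ D * T^[k] P := by
    rw [e2]
    exact Dvd.dvd.mul_right (pow_dvd_pow_of_dvd h6 n) _
  have h8 : IsCoprime (X ^ n : (ZMod 2)[X]) D := by
    apply IsCoprime.pow_left
    have h9 : X ∣ D - 1 := by
      rw [X_dvd_iff, coeff_zero_eq_eval_zero, eval_sub, h3, eval_one, sub_self]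
    obtain ⟨E, hE⟩ := h9
    exact ⟨-E, 1, by linear_combination hE⟩
  exact X_pow_dvd_of_T_iter k (h8.dvd_of_dvd_mul_left h7)

/-- the elements ψ^n(0) -/
noncomputable def s (n : ℕ) : m.M := ev m (S n)

lemma s_succ (n : ℕ) : s m (n + 1) = m.x * m.t (s m n) + 1 := by
  simp only [s, S, map_add, map_mul, map_one, ev_T, ev_X]

lemma s_zero : s m 0 = 0 := by simp [s, S]

/-- X_n = x t(x) ... t^(n-1)(x) -/
noncomputable def xx (n : ℕ) : m.M := ev m (XX n)

lemma xx_succ (n : ℕ) : xx m (n + 1) = m.x * m.t (xx m n) := by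
  simp only [xx, XX, map_mul, ev_T, ev_X]

lemma xx_zero : xx m 0 = 1 := by simp [xx, XX]

lemma s_mem (n : ℕ) : s m n ∈ CC m := ev_mem_CC m _
lemma xx_mem (n : ℕ) : xx m n ∈ CC m := ev_mem_CC m _

/-- the permutation ψ(h) = x * t h + 1 -/
noncomputable def psi : Equiv.Perm m.M where
  toFun h := m.x * m.t h + 1
  invFun y := m.t.symm ((m.x⁻¹ : m.Mˣ) * (y - 1))
  left_inv h := by simp
  right_inv y := by simp

lemma psi_apply (h : m.M) : psi m h = m.x * m.t h + 1 := rfl

lemma psi_pow_apply (k : ℕ) (h : m.M) :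
    (psi m ^ k) h = xx m k * (m.t ^ k) h + s m k := by
  induction k generalizing h with
  | zero => simp [xx_zero, s_zero]
  | succ k ih =>
    rw [pow_succ', Equiv.Perm.mul_apply, ih, psi_apply, xx_succ, s_succ, map_add, map_mul,
      pow_succ', RingAut.mul_apply]
    ring

lemma psi_pow_CC (n : ℕ) {c : m.M} (hc : c ∈ CC m) :
    ∃ d ∈ CC m, (psi m ^ n) c = s m n + (m.x : m.M) ^ n * d := by
  induction n with
  | zero => exact ⟨c, hc, by simp [s_zero]⟩
  | succ n ih =>
    obtain ⟨d, hd, h⟩ := ih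
    refine ⟨(uu m : m.M) ^ n * m.t d, ?_, ?_⟩
    · exact mul_mem_CC m (pow_mem_CC m (A_mem_CC m (uu_mem' m)) n) (t_mem_CC' m hd)
    · rw [pow_succ', Equiv.Perm.mul_apply, h, psi_apply, map_add, s_succ, map_mul, map_pow]
      have e : m.t (m.x : m.M) = uu m * m.x := by
        have := congrArg Units.val (uu_mul_x m)
        simpa using this.symm
      rw [e]; ring

lemma s_add (n k : ℕ) : ∃ d ∈ CC m, s m (n + k) = s m n + (m.x : m.M) ^ n * d := by
  obtain ⟨d, hd, h⟩ := psi_pow_CC m n (s_mem m k)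
  refine ⟨d, hd, ?_⟩
  rw [← h]
  have h1 : (psi m ^ (n + k)) 0 = s m (n + k) := by
    rw [psi_pow_apply]; simp
  have h2 : (psi m ^ k) 0 = s m k := by
    rw [psi_pow_apply]; simp
  rw [← h1, pow_add, Equiv.Perm.mul_apply, h2]

lemma xx_t_s (k n : ℕ) : xx m k * (m.t ^ k) (s m n) = s m (n + k) - s m k := by
  have h1 : (psi m ^ (k + n)) 0 = s m (k + n) := by
    rw [psi_pow_apply]; simp
  have h2 : (psi m ^ n) 0 = s m n := by
    rw [psi_pow_apply]; simp
  rw [pow_add, Equiv.Perm.mul_apply, h2, psi_pow_apply] at h1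
  rw [add_comm n k, ← h1]; ring

/-- The key claim. -/
theorem key_claim {u w : m.M} (hu : u ∈ CC m) (hw : w ∈ CC m)
    (h : ∀ n : ℕ, ∃ c ∈ CC m, u * s m n - w = (m.x : m.M) ^ n * c) : u = 0 ∧ w = 0 := by
  obtain ⟨k1, hk1⟩ := rat_of_mem_CC m hu
  obtain ⟨k2, hk2⟩ := rat_of_mem_CC m hw
  set k := max k1 k2 with hk
  obtain ⟨D1, N1, a1, a2, a3⟩ := Rat.mono m (le_max_left k1 k2) hk1
  obtain ⟨D2, N2, b1, b2, b3⟩ := Rat.mono m (le_max_right k1 k2) hk2
  rw [← hk] at a3 b3
  -- common denominator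
  set U := N1 * D2 with hU
  set W := N2 * D1 with hW
  have eU : ev m (D1 * D2) * (m.t ^ k) u = ev m U := by
    rw [hU, map_mul, map_mul, ← a3]; ring
  have eW : ev m (D1 * D2) * (m.t ^ k) w = ev m W := by
    rw [hW, map_mul, map_mul, ← b3]; ring
  have unitD : IsUnit (ev m (D1 * D2)) := by rw [map_mul]; exact a1.mul b1
  have main : ∀ n : ℕ, ∃ c ∈ CC m, ev m U * (m.t ^ k) (s m n) - ev m W = (m.x : m.M) ^ n * c := by
    intro n
    obtain ⟨c, hc, e⟩ := h n
    have e2 := congrArg (m.t ^ k) e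
    rw [map_sub, map_mul, map_mul, map_pow] at e2
    have hx : (m.t ^ k) (m.x : m.M)
        = ((mapU (m.t ^ (k : ℤ)) m.x * (m.x)⁻¹ : m.Mˣ) : m.M) * m.x := by
      simp
    refine ⟨ev m (D1 * D2) * (((mapU (m.t ^ (k : ℤ)) m.x * (m.x)⁻¹ : m.Mˣ) : m.M) ^ n
      * (m.t ^ k) c), ?_, ?_⟩
    · refine mul_mem_CC m (ev_mem_CC m _) (mul_mem_CC m (pow_mem_CC m
        (A_mem_CC m (x_ratio m k)) n) ?_)
      have := t_mem_CC m (k : ℤ) hc
      simpa using this
    · rw [← eU, ← eW]
      have : ev m (D1 * D2) * (m.t ^ k) u * (m.t ^ k) (s m n) - ev m (D1 * D2) * (m.t ^ k) w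
          = ev m (D1 * D2) * ((m.t ^ k) u * (m.t ^ k) (s m n) - (m.t ^ k) w) := by ring
      rw [this, e2, hx, mul_pow]
      ring
  have main2 : ∀ n : ℕ, X ^ n ∣ U * S n - (XX k * W + U * S k) := by
    intro n
    obtain ⟨c, hc, e⟩ := main n
    obtain ⟨d, hd, e2⟩ := s_add m n k
    have hmem : xx m k * c - ev m U * d ∈ CC m :=
      (CC m).sub_mem (mul_mem_CC m (xx_mem m k) hc) (mul_mem_CC m (ev_mem_CC m _) hd)
    apply dvd_of_CC m hmem
    have e3 := xx_t_s m k n
    have e4 : ev m (U * S n - (XX k * W + U * S k))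
        = ev m U * s m n - (xx m k * ev m W + ev m U * s m k) := by
      simp only [map_sub, map_add, map_mul, s, xx]
    rw [e4]
    linear_combination xx m k * e - ev m U * e3 - ev m U * e2
  have hU0 : U = 0 := irrational _ _ main2
  have u0 : u = 0 := by
    rw [hU0, map_zero] at eU
    have h1 : (m.t ^ k) u = 0 := by
      rwa [unitD.mul_right_eq_zero] at eU
    exact (map_eq_zero_iff (m.t ^ k) (m.t ^ k).injective).1 h1
  have hW0 : W = 0 := by
    apply eq_zero_of_X_pow_dvd
    intro n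
    obtain ⟨c, hc, e⟩ := main n
    rw [hU0, map_zero, zero_mul, zero_sub] at e
    exact dvd_of_CC m ((CC m).neg_mem hc) (by linear_combination -e)
  refine ⟨u0, ?_⟩
  rw [hW0, map_zero] at eW
  have h1 : (m.t ^ k) w = 0 := by
    rwa [unitD.mul_right_eq_zero] at eW
  exact (map_eq_zero_iff (m.t ^ k) (m.t ^ k).injective).1 h1

variable (m : Model)

/-- The group of all affine maps h ↦ a t^k(h) + c with a ∈ A, k ∈ ℤ, c ∈ C. -/
def Gam : Subgroup (Equiv.Perm m.M) where
  carrier := {f | ∃ a ∈ A m, ∃ k : ℤ, ∃ c ∈ CC m, ∀ h, f h = a * (m.t ^ k) h + c}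
  one_mem' := ⟨1, (A m).one_mem, 0, 0, (CC m).zero_mem, by simp⟩
  mul_mem' := by
    rintro f g ⟨a, ha, k, c, hc, hf⟩ ⟨b, hb, l, d, hd, hg⟩
    refine ⟨a * mapU (m.t ^ k) b, (A m).mul_mem ha (A_map m k hb), k + l,
      a * (m.t ^ k) d + c, (CC m).add_mem (smul_mem_CC m ha (t_mem_CC m k hd)) hc, ?_⟩
    intro h
    rw [Equiv.Perm.mul_apply, hg, hf, map_add, map_mul, zpow_add, RingAut.mul_apply,
      Units.val_mul, mapU_coe]
    ring
  inv_mem' := by
    rintro f ⟨a, ha, k, c, hc, hf⟩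
    refine ⟨mapU (m.t ^ (-k)) a⁻¹, A_map m _ ((A m).inv_mem ha), -k,
      -((mapU (m.t ^ (-k)) a⁻¹ : m.Mˣ) * (m.t ^ (-k)) c), ?_, ?_⟩
    · exact (CC m).neg_mem (smul_mem_CC m (A_map m _ ((A m).inv_mem ha)) (t_mem_CC m _ hc))
    · intro h
      rw [Equiv.Perm.inv_eq_iff_eq, hf, map_add, map_mul, map_neg, map_mul, mapU_coe,
        ← RingAut.mul_apply (m.t ^ k) (m.t ^ (-k)), ← RingAut.mul_apply (m.t ^ k) (m.t ^ (-k)),
        ← RingAut.mul_apply (m.t ^ k) (m.t ^ (-k)), ← zpow_add, add_neg_cancel, zpow_zero,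
        RingAut.one_apply, RingAut.one_apply, RingAut.one_apply, mul_add, mul_neg,
        ← mul_assoc, ← mul_assoc, Units.mul_inv, one_mul, one_mul]
      ring

lemma mem_Gam {f : Equiv.Perm m.M} :
    f ∈ Gam m ↔ ∃ a ∈ A m, ∃ k : ℤ, ∃ c ∈ CC m, ∀ h, f h = a * (m.t ^ k) h + c := Iff.rfl

/-- translation by c -/
def tau (c : m.M) : Equiv.Perm m.M := Equiv.addRight c

lemma tau_apply (c h : m.M) : tau m c h = h + c := rfl

lemma tau_add (c d : m.M) : tau m (c + d) = tau m c * tau m d := by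
  ext h; simp only [Equiv.Perm.mul_apply, tau_apply]; ring

lemma tau_zero : tau m 0 = 1 := by
  ext h; simp [tau_apply]

lemma tau_neg (c : m.M) : tau m (-c) = (tau m c)⁻¹ := by
  rw [eq_inv_iff_mul_eq_one, ← tau_add, neg_add_cancel, tau_zero]

/-- multiplication by a -/
def mu (a : m.Mˣ) : Equiv.Perm m.M := Units.mulLeft a

lemma mu_apply (a : m.Mˣ) (h : m.M) : mu m a h = a * h := rfl

lemma mu_mul (a b : m.Mˣ) : mu m (a * b) = mu m a * mu m b := by
  ext h; simp only [Equiv.Perm.mul_apply, mu_apply, Units.val_mul]; ring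

lemma mu_one : mu m 1 = 1 := by
  ext h; simp [mu_apply]

lemma mu_inv (a : m.Mˣ) : mu m a⁻¹ = (mu m a)⁻¹ := by
  rw [eq_inv_iff_mul_eq_one, ← mu_mul, inv_mul_cancel, mu_one]

/-- the automorphism t^k as a permutation -/
def tt (k : ℤ) : Equiv.Perm m.M := (m.t ^ k : m.M ≃+* m.M).toEquiv

lemma tt_apply (k : ℤ) (h : m.M) : tt m k h = (m.t ^ k) h := rfl

lemma tt_add (k l : ℤ) : tt m (k + l) = tt m k * tt m l := by
  ext h; simp only [Equiv.Perm.mul_apply, tt_apply, zpow_add, RingAut.mul_apply]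

lemma tt_zero : tt m 0 = 1 := by
  ext h; simp [tt_apply]

lemma tt_eq_zpow (k : ℤ) : tt m k = (tt m 1) ^ k := by
  induction k using Int.induction_on with
  | zero => rw [tt_zero, zpow_zero]
  | succ k ih => rw [tt_add, ih, zpow_add_one]
  | pred k ih =>
    rw [zpow_sub_one, ← ih, eq_mul_inv_iff_mul_eq, ← tt_add, sub_add_cancel]

lemma tau_mem {c : m.M} (hc : c ∈ CC m) : tau m c ∈ Gam m :=
  ⟨1, (A m).one_mem, 0, c, hc, fun h => by simp [tau_apply]⟩

lemma mu_mem {a : m.Mˣ} (ha : a ∈ A m) : mu m a ∈ Gam m :=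
  ⟨a, ha, 0, 0, (CC m).zero_mem, fun h => by simp [mu_apply]⟩

lemma tt_mem (k : ℤ) : tt m k ∈ Gam m :=
  ⟨1, (A m).one_mem, k, 0, (CC m).zero_mem, fun h => by simp [tt_apply]⟩

/-- Γ is generated by the translation by 1, the multiplication by 1 + x, and t. -/
theorem Gam_eq_closure :
    Gam m = Subgroup.closure {tau m 1, mu m (uu m), tt m 1} := by
  apply le_antisymm
  · rintro f ⟨a, ha, k, c, hc, hf⟩
    set H := Subgroup.closure {tau m 1, mu m (uu m), tt m 1} with hH
    have h1 : tau m 1 ∈ H := Subgroup.subset_closure (by simp)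
    have h2 : mu m (uu m) ∈ H := Subgroup.subset_closure (by simp)
    have h3 : tt m 1 ∈ H := Subgroup.subset_closure (by simp)
    have h4 : ∀ k : ℤ, tt m k ∈ H := fun k => by
      rw [tt_eq_zpow]; exact H.zpow_mem h3 k
    have h5 : ∀ b ∈ A m, mu m b ∈ H := by
      intro b hb
      induction hb using Subgroup.closure_induction with
      | mem b hb =>
        obtain ⟨i, rfl⟩ := hb
        have e : mu m (mapU (m.t ^ i) (uu m)) = tt m i * mu m (uu m) * tt m (-i) := by
          ext h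
          simp only [Equiv.Perm.mul_apply, mu_apply, tt_apply, map_mul, mapU_coe]
          rw [← RingAut.mul_apply (m.t ^ i) (m.t ^ (-i)), ← zpow_add, add_neg_cancel, zpow_zero,
            RingAut.one_apply]
        simp only
        rw [e]
        exact H.mul_mem (H.mul_mem (h4 i) h2) (h4 _)
      | one => rw [mu_one]; exact H.one_mem
      | mul a b _ _ iha ihb => rw [mu_mul]; exact H.mul_mem iha ihb
      | inv a _ iha => rw [mu_inv]; exact H.inv_mem iha
    have h6 : ∀ c ∈ CC m, tau m c ∈ H := by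
      intro c hc
      induction hc using AddSubgroup.closure_induction with
      | mem c hc =>
        obtain ⟨b, hb, rfl⟩ := hc
        have e : tau m (b : m.M) = mu m b * tau m 1 * mu m b⁻¹ := by
          ext h
          simp only [Equiv.Perm.mul_apply, mu_apply, tau_apply, mul_add, mul_one,
            Units.mul_inv_cancel_left]
        rw [e]
        exact H.mul_mem (H.mul_mem (h5 b hb) h1) (h5 _ ((A m).inv_mem hb))
      | zero => rw [tau_zero]; exact H.one_mem
      | add b c _ _ ihb ihc => rw [tau_add]; exact H.mul_mem ihb ihc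
      | neg b _ ihb => rw [tau_neg]; exact H.inv_mem ihb
    have e : f = tau m c * (mu m a * tt m k) := by
      ext h
      rw [hf]; rfl
    rw [e]
    exact H.mul_mem (h6 c hc) (H.mul_mem (h5 a ha) (h4 k))
  · rw [Subgroup.closure_le]
    rintro f (rfl | rfl | rfl)
    · exact tau_mem m (one_mem_CC m)
    · exact mu_mem m (uu_mem' m)
    · exact tt_mem m 1

theorem Gam_fg : Group.FG (Gam m) := by
  have h : (Gam m).FG := by
    rw [Subgroup.fg_iff]
    exact ⟨{tau m 1, mu m (uu m), tt m 1}, (Gam_eq_closure m).symm, Set.toFinite _⟩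
  exact (Group.fg_iff_subgroup_fg (Gam m)).2 h

/-- conjugation by ψ maps Γ into itself -/
lemma perm_inv_apply {α : Type} (f : Equiv.Perm α) (y : α) : f⁻¹ (f y) = y := by
  rw [Equiv.Perm.inv_eq_iff_eq]

lemma conj_mem {f : Equiv.Perm m.M} (hf : f ∈ Gam m) : psi m * f * (psi m)⁻¹ ∈ Gam m := by
  obtain ⟨a, ha, k, c, hc, hf⟩ := hf
  -- a' = t a * (x / t^k x)
  set a' : m.Mˣ := mapU m.t a * (mapU (m.t ^ k) m.x * (m.x)⁻¹)⁻¹ with ha'
  have hA : a' ∈ A m := by
    have h1 := A_map m 1 ha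
    rw [zpow_one] at h1
    exact (A m).mul_mem h1 ((A m).inv_mem (x_ratio m k))
  refine ⟨a', hA, k, m.x * m.t c + 1 - a', ?_, ?_⟩
  · exact (CC m).sub_mem ((CC m).add_mem (mul_mem_CC m (x_mem_CC m) (t_mem_CC' m hc))
      (one_mem_CC m)) (A_mem_CC m hA)
  · intro h
    obtain ⟨y, rfl⟩ := (psi m).surjective h
    rw [Equiv.Perm.mul_apply, Equiv.Perm.mul_apply, perm_inv_apply, hf, psi_apply,
      psi_apply]
    have e : (a' : m.M) * (m.t ^ k) (m.x : m.M) = m.x * m.t (a : m.M) := by
      have : a' * mapU (m.t ^ k) m.x = m.x * mapU m.t a := by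
        rw [ha', mul_inv, inv_inv]
        calc mapU m.t a * ((mapU (m.t ^ k) m.x)⁻¹ * m.x) * mapU (m.t ^ k) m.x
            = mapU m.t a * m.x * ((mapU (m.t ^ k) m.x)⁻¹ * mapU (m.t ^ k) m.x) := by
              ac_rfl
          _ = _ := by rw [inv_mul_cancel, mul_one, mul_comm]
      have := congrArg Units.val this
      simpa using this
    have e2 : (m.t ^ k) (m.t y) = m.t ((m.t ^ k) y) := by
      rw [← RingAut.mul_apply, ← RingAut.mul_apply, ← zpow_add_one, ← zpow_one_add, add_comm]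
    simp only [map_add, map_mul, map_one, e2]
    linear_combination (-(m.t ((m.t ^ k) y))) * e

/-- an element of Γ whose translation part is in x C is a conjugate by ψ of an element of Γ -/
lemma mem_conj {f : Equiv.Perm m.M} {a : m.Mˣ} (ha : a ∈ A m) {k : ℤ} {c : m.M} (hc : c ∈ CC m)
    (hf : ∀ h, f h = a * (m.t ^ k) h + m.x * c) : (psi m)⁻¹ * f * psi m ∈ Gam m := by
  obtain ⟨d, hd, hda⟩ := A_cases m ha
  set r : m.Mˣ := mapU (m.t ^ k) m.x * (m.x)⁻¹ with hr
  have hrA : r ∈ A m := x_ratio m k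
  have hr2 : (m.t ^ k) (m.x : m.M) = r * m.x := by
    have : mapU (m.t ^ k) m.x = r * m.x := by simp [hr]
    have := congrArg Units.val this
    simpa using this
  refine ⟨mapU (m.t ^ (-1 : ℤ)) (a * r), A_map m _ ((A m).mul_mem ha hrA), k,
    (m.t ^ (-1 : ℤ)) (d + c), t_mem_CC m _ ((CC m).add_mem hd hc), ?_⟩
  intro h
  rw [Equiv.Perm.mul_apply, Equiv.Perm.mul_apply, Equiv.Perm.inv_eq_iff_eq, hf, psi_apply,
    psi_apply]
  have e3 : ∀ y : m.M, m.t ((m.t ^ (-1 : ℤ)) y) = y := by
    intro y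
    rw [zpow_neg_one, ← RingAut.mul_apply, mul_inv_cancel, RingAut.one_apply]
  have e2 : (m.t ^ k) (m.t h) = m.t ((m.t ^ k) h) := by
    rw [← RingAut.mul_apply, ← RingAut.mul_apply, ← zpow_add_one, ← zpow_one_add, add_comm]
  simp only [map_add, map_mul, map_one, mapU_coe, Units.val_mul, e3, e2, hr2]
  linear_combination hda

/-- the endomorphism of Γ -/
noncomputable def phi : Gam m →* Gam m where
  toFun g := ⟨psi m * g * (psi m)⁻¹, conj_mem m g.2⟩
  map_one' := by ext; simp
  map_mul' g h := by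
    apply Subtype.ext
    simp [mul_assoc]

lemma phi_coe (g : Gam m) : ((phi m g : Gam m) : Equiv.Perm m.M) = psi m * g * (psi m)⁻¹ := rfl

lemma phi_injective : Function.Injective (phi m) := by
  intro g h hgh
  have := congrArg Subtype.val hgh
  rw [phi_coe, phi_coe] at this
  apply Subtype.ext
  simpa using this

lemma phi_iter_coe (n : ℕ) (g : Gam m) :
    (((phi m)^[n] g : Gam m) : Equiv.Perm m.M) = psi m ^ n * g * (psi m ^ n)⁻¹ := by
  induction n with
  | zero => simp
  | succ n ih =>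
    rw [Function.iterate_succ_apply', phi_coe, ih, pow_succ']
    group

lemma phi_range_finiteIndex : (phi m).range.FiniteIndex := by
  have hτ : tau m 1 ∈ Gam m := tau_mem m (one_mem_CC m)
  have key : ∀ g : Gam m, g ∈ (phi m).range ∨ (⟨tau m 1, hτ⟩ : Gam m)⁻¹ * g ∈ (phi m).range := by
    intro g
    obtain ⟨a, ha, k, c, hc, hf⟩ := g.2
    obtain ⟨d, hd, h | h⟩ := CC_cases m hc
    · left
      have h1 := mem_conj m ha hd (f := (g : Equiv.Perm m.M)) (k := k)
        (by intro y; rw [hf, h])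
      refine ⟨⟨_, h1⟩, ?_⟩
      apply Subtype.ext
      rw [phi_coe]
      simp only
      group
    · right
      have h1 := mem_conj m ha hd (f := (tau m 1)⁻¹ * (g : Equiv.Perm m.M)) (k := k)
        (by
          intro y
          rw [Equiv.Perm.mul_apply, Equiv.Perm.inv_eq_iff_eq, hf, h, tau_apply]; ring)
      refine ⟨⟨_, h1⟩, ?_⟩
      apply Subtype.ext
      rw [phi_coe]
      simp only [Subgroup.coe_mul, InvMemClass.coe_inv]
      group
  have hfin : Finite (Gam m ⧸ (phi m).range) := by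
    let q : Bool → Gam m ⧸ (phi m).range := fun b =>
      if b then QuotientGroup.mk (1 : Gam m) else QuotientGroup.mk (⟨tau m 1, hτ⟩ : Gam m)
    apply Finite.of_surjective q
    intro y
    induction y using QuotientGroup.induction_on with
    | H g =>
      rcases key g with h | h
      · refine ⟨true, ?_⟩
        simp only [q, if_true]
        rw [QuotientGroup.eq, inv_one, one_mul]
        exact h
      · refine ⟨false, ?_⟩
        simp only [q]
        rw [if_neg (by simp), QuotientGroup.eq]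
        exact h
  exact Subgroup.finiteIndex_of_finite_quotient

lemma stab_trivial_aux {g : Gam m} (hg : ∀ n : ℕ, g ∈ Set.range ((phi m)^[n]))
    {a : m.Mˣ} (ha : a ∈ A m) (k : ℕ) {c : m.M} (hc : c ∈ CC m)
    (hf : ∀ h, (g : Equiv.Perm m.M) h = a * (m.t ^ k) h + c) : g = 1 := by
  have h1 : ∀ n : ℕ, ∃ e ∈ CC m, ((a : m.M) - xx m k) * s m n - (a * s m k - xx m k * c)
      = (m.x : m.M) ^ n * e := by
    intro n
    obtain ⟨g', hg'⟩ := hg n
    obtain ⟨a', ha', k', c', hc', hf'⟩ := g'.2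
    have h2 : (g : Equiv.Perm m.M) ((psi m ^ n) 0) = (psi m ^ n) c' := by
      rw [← hg', phi_iter_coe, Equiv.Perm.mul_apply, Equiv.Perm.mul_apply,
        perm_inv_apply, hf']
      simp
    obtain ⟨d, hd, h3⟩ := psi_pow_CC m n hc'
    have h4 : (psi m ^ n) 0 = s m n := by rw [psi_pow_apply]; simp
    rw [h4, hf, h3] at h2
    -- h2 : a * t^k (s n) + c = s n + x^n d
    obtain ⟨d2, hd2, h5⟩ := s_add m n k
    have h6 := xx_t_s m k n
    refine ⟨xx m k * d - a * d2, ?_, ?_⟩
    · exact (CC m).sub_mem (mul_mem_CC m (xx_mem m k) hd) (smul_mem_CC m ha hd2)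
    · linear_combination xx m k * h2 - (a : m.M) * h6 - (a : m.M) * h5
  have hmem1 : (a : m.M) - xx m k ∈ CC m := (CC m).sub_mem (A_mem_CC m ha) (xx_mem m k)
  have hmem2 : (a : m.M) * s m k - xx m k * c ∈ CC m :=
    (CC m).sub_mem (smul_mem_CC m ha (s_mem m k)) (mul_mem_CC m (xx_mem m k) hc)
  obtain ⟨h7, h8⟩ := key_claim m hmem1 hmem2 h1
  rcases Nat.eq_zero_or_pos k with hk | hk
  · subst hk
    rw [xx_zero] at h7 h8
    rw [s_zero] at h8
    have ha1 : (a : m.M) = 1 := sub_eq_zero.1 h7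
    have hc1 : c = 0 := by
      linear_combination -h8
    apply Subtype.ext
    ext h
    rw [hf, ha1, hc1]
    simp
  · exfalso
    obtain ⟨k, rfl⟩ : ∃ j, k = j + 1 := ⟨k - 1, by omega⟩
    obtain ⟨d, hd, hda⟩ := A_cases m ha
    have ha1 : (a : m.M) = xx m (k + 1) := sub_eq_zero.1 h7
    rw [xx_succ, hda] at ha1
    have h9 : X ^ 1 ∣ (1 : (ZMod 2)[X]) := by
      apply dvd_of_CC m (c := m.t (xx m k) - d) ((CC m).sub_mem (t_mem_CC' m (xx_mem m k)) hd)
      rw [map_one]
      linear_combination ha1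
    rw [pow_one] at h9
    exact (Polynomial.not_isUnit_X) (isUnit_of_dvd_one h9)

theorem stab_trivial {g : Gam m} (hg : ∀ n : ℕ, g ∈ Set.range ((phi m)^[n])) : g = 1 := by
  obtain ⟨a, ha, k, c, hc, hf⟩ := g.2
  rcases Int.le_total 0 k with hk | hk
  · obtain ⟨j, rfl⟩ := Int.eq_ofNat_of_zero_le hk
    exact stab_trivial_aux m hg ha j hc (fun h => by rw [hf, zpow_natCast])
  · have hg' : ∀ n : ℕ, g⁻¹ ∈ Set.range ((phi m)^[n]) := by
      intro n
      obtain ⟨y, hy⟩ := hg n
      refine ⟨y⁻¹, ?_⟩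
      rw [← hy, iterate_map_inv]
    obtain ⟨j, hj⟩ := Int.eq_ofNat_of_zero_le (Int.neg_nonneg_of_nonpos hk)
    have hinv : ∃ b ∈ A m, ∃ d ∈ CC m, ∀ h, ((g⁻¹ : Gam m) : Equiv.Perm m.M) h
        = b * (m.t ^ j) h + d := by
      refine ⟨mapU (m.t ^ (-k)) a⁻¹, A_map m _ ((A m).inv_mem ha),
        -((mapU (m.t ^ (-k)) a⁻¹ : m.Mˣ) * (m.t ^ (-k)) c), ?_, ?_⟩
      · exact (CC m).neg_mem (smul_mem_CC m (A_map m _ ((A m).inv_mem ha)) (t_mem_CC m _ hc))
      · intro h
        rw [← zpow_natCast, ← hj, InvMemClass.coe_inv, Equiv.Perm.inv_eq_iff_eq, hf, map_add,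
          map_mul, map_neg, map_mul, mapU_coe,
          ← RingAut.mul_apply (m.t ^ k) (m.t ^ (-k)), ← RingAut.mul_apply (m.t ^ k) (m.t ^ (-k)),
          ← RingAut.mul_apply (m.t ^ k) (m.t ^ (-k)), ← zpow_add, add_neg_cancel, zpow_zero,
          RingAut.one_apply, RingAut.one_apply, RingAut.one_apply, mul_add, mul_neg,
          ← mul_assoc, ← mul_assoc, Units.mul_inv, one_mul, one_mul]
        ring
    obtain ⟨b, hb, d, hd, hf'⟩ := hinv
    have := stab_trivial_aux m hg' hb j hd hf'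
    rwa [inv_eq_one] at this

variable (m : Model)

/-- translations by polynomials as elements of Γ -/
noncomputable def tP (P : (ZMod 2)[X]) : Gam m := ⟨tau m (ev m P), tau_mem m (ev_mem_CC m P)⟩

/-- multiplication by 1 + x as an element of Γ -/
def mU : Gam m := ⟨mu m (uu m), mu_mem m (uu_mem' m)⟩

lemma tP_sub (P Q : (ZMod 2)[X]) : tP m (P - Q) = (tP m Q)⁻¹ * tP m P := by
  apply Subtype.ext
  simp only [tP, Subgroup.coe_mul, InvMemClass.coe_inv]
  rw [← tau_neg, ← tau_add, map_sub]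
  congr 1; ring

lemma tP_inj {P : (ZMod 2)[X]} (h : tP m P = 1) : P = 0 := by
  have h1 := congrArg Subtype.val h
  have h2 : tau m (ev m P) 0 = 0 := by
    simp only [tP] at h1
    rw [h1]; rfl
  rw [tau_apply, zero_add] at h2
  exact ev_inj m (by rw [h2, map_zero])

lemma mU_pow_apply (N : ℕ) (h : m.M) :
    ((mU m ^ N : Gam m) : Equiv.Perm m.M) h = ev m ((1 + X) ^ N) * h := by
  induction N generalizing h with
  | zero => simp
  | succ N ih =>
    rw [pow_succ', Subgroup.coe_mul, Equiv.Perm.mul_apply, ih]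
    simp only [mU, mu_apply, uu_coe, pow_succ', map_mul, map_add, map_one, ev_X]
    ring

lemma comm_eq (N : ℕ) (P : (ZMod 2)[X]) :
    ⁅tP m P, mU m ^ N⁆ = tP m ((1 - (1 + X) ^ N) * P) := by
  rw [commutatorElement_def, mul_inv_eq_iff_eq_mul, mul_inv_eq_iff_eq_mul]
  apply Subtype.ext
  ext h
  simp only [Subgroup.coe_mul, Equiv.Perm.mul_apply]
  rw [mU_pow_apply, mU_pow_apply]
  simp only [tP, tau_apply, map_mul, map_sub, map_one]
  ring

theorem not_nilpotent (H : Subgroup (Gam m)) (hf : H.FiniteIndex) (hN : Group.IsNilpotent H) :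
    False := by
  obtain ⟨N, hNpos, _, hNmem⟩ := Subgroup.exists_pow_mem_of_index_ne_zero hf.index_ne_zero (mU m)
  have : Finite (Gam m ⧸ H) := Subgroup.finite_quotient_of_finiteIndex
  obtain ⟨i, j, hij, hq⟩ := Finite.exists_ne_map_eq_of_infinite
    (fun i : ℕ => (QuotientGroup.mk (tP m (X ^ i)) : Gam m ⧸ H))
  rw [QuotientGroup.eq, ← tP_sub] at hq
  set Q : (ZMod 2)[X] := X ^ j - X ^ i with hQ
  have hQ0 : Q ≠ 0 := by
    intro h0
    rw [hQ, sub_eq_zero] at h0
    have := congrArg natDegree h0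
    rw [natDegree_X_pow, natDegree_X_pow] at this
    exact hij this.symm
  set R : (ZMod 2)[X] := 1 - (1 + X) ^ N with hR
  have hR0 : R ≠ 0 := by
    intro h0
    rw [hR, sub_eq_zero] at h0
    have := congrArg natDegree h0
    have h1 : (1 + X : (ZMod 2)[X]).natDegree = 1 := by compute_degree!
    rw [natDegree_one, natDegree_pow, h1] at this
    omega
  have hlcs : ∀ n : ℕ, tP m (R ^ n * Q) ∈ H.lowerCentralSeries n := by
    intro n
    induction n with
    | zero => simpa using hq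
    | succ n ih =>
      rw [pow_succ', mul_assoc, hR, ← comm_eq, Subgroup.lowerCentralSeries_succ]
      exact Subgroup.commutator_mem_commutator ih hNmem
  obtain ⟨n, hn⟩ := (Subgroup.isNilpotent_iff_lowerCentralSeries (S := H)).1 hN
  have h1 := hlcs n
  rw [hn, Subgroup.mem_bot] at h1
  exact (mul_ne_zero (pow_ne_zero n hR0) hQ0) (tP_inj m h1)

/-- The main statement for a model. -/
theorem main_of_model (m : Model) : ∃ (G : Type) (_ : Group G), Group.FG G ∧
    (∃ φ : G →* G, Function.Injective φ ∧ φ.range.FiniteIndex ∧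
      (⋂ k : ℕ, Set.range ((⇑φ)^[k + 1])).Finite) ∧
    ¬ ∃ H : Subgroup G, H.FiniteIndex ∧ Group.IsNilpotent ↥H := by
  refine ⟨Gam m, inferInstance, Gam_fg m, ⟨phi m, phi_injective m, phi_range_finiteIndex m, ?_⟩, ?_⟩
  · apply Set.Finite.subset (Set.finite_singleton (1 : Gam m))
    intro g hg
    rw [Set.mem_iInter] at hg
    apply stab_trivial m
    intro n
    cases n with
    | zero => exact ⟨g, rfl⟩
    | succ n => exact hg n
  · rintro ⟨H, hf, hN⟩
    exact not_nilpotent m H hf hN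

/-- germs at +∞ of functions ℤ → F_2(X) -/
abbrev GG : Type := (atTop : Filter ℤ).Germ (RatFunc (ZMod 2))

lemma tend1 : Tendsto (fun n : ℤ => n + 1) atTop atTop := tendsto_atTop_add_const_right _ _ tendsto_id
lemma tend2 : Tendsto (fun n : ℤ => n - 1) atTop atTop := by
  simpa [sub_eq_add_neg] using tendsto_atTop_add_const_right atTop (-1 : ℤ) tendsto_id

/-- shift automorphism -/
noncomputable def shift : RingAut GG where
  toFun f := f.compTendsto (fun n : ℤ => n + 1) tend1
  invFun f := f.compTendsto (fun n : ℤ => n - 1) tend2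
  left_inv f := by
    induction f using Filter.Germ.inductionOn with
    | _ f =>
      simp only [Germ.coe_compTendsto]
      congr 1
      ext n
      simp
  right_inv f := by
    induction f using Filter.Germ.inductionOn with
    | _ f =>
      simp only [Germ.coe_compTendsto]
      congr 1
      ext n
      simp
  map_mul' f g := by
    induction f using Filter.Germ.inductionOn with
    | _ f =>
      induction g using Filter.Germ.inductionOn with
      | _ g => rfl
  map_add' f g := by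
    induction f using Filter.Germ.inductionOn with
    | _ f =>
      induction g using Filter.Germ.inductionOn with
      | _ g => rfl

/-- the iterates of x ↦ x + x^2 -/
noncomputable def xseq (n : ℤ) : RatFunc (ZMod 2) := algebraMap (ZMod 2)[X] _ (T^[n.toNat] X)

lemma T_iter_X_ne (n : ℕ) : T^[n] (X : (ZMod 2)[X]) ≠ 0 := by
  intro h
  have : T^[n] (X : (ZMod 2)[X]) = T^[n] 0 := by rw [h, iterate_map_zero]
  exact X_ne_zero (T_injective.iterate n this)

lemma xseq_ne (n : ℤ) : xseq n ≠ 0 := by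
  unfold xseq
  intro h
  rw [map_eq_zero_iff _ (IsFractionRing.injective (ZMod 2)[X] (RatFunc (ZMod 2)))] at h
  exact T_iter_X_ne _ h

lemma T_iter_eq (n : ℕ) (P : (ZMod 2)[X]) : T^[n] P = P.comp (T^[n] X) := by
  induction n generalizing P with
  | zero => simp
  | succ n ih =>
    rw [Function.iterate_succ_apply', Function.iterate_succ_apply', ih, T_apply, T_apply, comp_assoc]

/-- the ring homomorphism P ↦ germ of n ↦ T^n P -/
noncomputable def FF : (ZMod 2)[X] →+* GG :=
  (Germ.coeRingHom (atTop : Filter ℤ)).comp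
    (RingHom.pi (fun n : ℤ => (algebraMap (ZMod 2)[X] (RatFunc (ZMod 2))).comp (T ^ n.toNat)))

lemma FF_apply (P : (ZMod 2)[X]) :
    FF P = ((fun n : ℤ => algebraMap (ZMod 2)[X] (RatFunc (ZMod 2)) (T^[n.toNat] P) :
      ℤ → RatFunc (ZMod 2)) : GG) := by
  simp only [FF, RingHom.coe_comp, Function.comp_apply]
  have : (RingHom.pi (fun n : ℤ => (algebraMap (ZMod 2)[X] (RatFunc (ZMod 2))).comp (T ^ n.toNat))) P
      = fun n : ℤ => algebraMap (ZMod 2)[X] (RatFunc (ZMod 2)) (T^[n.toNat] P) := by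
    ext n
    simp [RingHom.coe_pow]
  rw [this]
  rfl

/-- the unit x -/
noncomputable def xunit : GGˣ :=
  ⟨((xseq : ℤ → RatFunc (ZMod 2)) : GG), ((fun n => (xseq n)⁻¹ : ℤ → RatFunc (ZMod 2)) : GG),
    by
      rw [← Germ.coe_mul, ← Germ.coe_one]
      congr 1
      ext n
      simp [xseq_ne], by
      rw [← Germ.coe_mul, ← Germ.coe_one]
      congr 1
      ext n
      simp [xseq_ne]⟩

lemma xunit_coe : (xunit : GG) = FF X := by
  rw [FF_apply]; rfl

lemma shift_xunit : shift (xunit : GG) = xunit + (xunit : GG) ^ 2 := by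
  change ((xseq ∘ (fun n : ℤ => n + 1) : ℤ → RatFunc (ZMod 2)) : GG) =
    ((xseq + xseq ^ 2 : ℤ → RatFunc (ZMod 2)) : GG)
  rw [Germ.coe_eq]
  filter_upwards [eventually_ge_atTop (0 : ℤ)] with n hn
  have h1 : (n + 1).toNat = n.toNat + 1 := by omega
  simp only [Function.comp_apply, xseq, Pi.add_apply, Pi.pow_apply, h1]
  rw [Function.iterate_succ_apply, T_X, iterate_map_add, iterate_map_pow, map_add, map_pow]

lemma FF_inj {P : (ZMod 2)[X]} (h : FF P = 0) : P = 0 := by
  rw [FF_apply] at h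
  have h2 : ((fun n : ℤ => algebraMap (ZMod 2)[X] (RatFunc (ZMod 2)) (T^[n.toNat] P) :
      ℤ → RatFunc (ZMod 2)) : GG) = ((0 : ℤ → RatFunc (ZMod 2)) : GG) := h
  rw [Germ.coe_eq] at h2
  obtain ⟨n, hn⟩ := h2.exists
  simp only [Pi.zero_apply] at hn
  rw [map_eq_zero_iff _ (IsFractionRing.injective (ZMod 2)[X] (RatFunc (ZMod 2)))] at hn
  have : T^[n.toNat] P = T^[n.toNat] 0 := by rw [hn, iterate_map_zero]
  exact T_injective.iterate _ this

/-- the model -/
noncomputable def model : Model where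
  M := GG
  inst := inferInstance
  ι := FF.comp C
  t := shift
  x := xunit
  hx := shift_xunit
  htr := by
    intro P hP
    apply FF_inj
    have h : eval₂RingHom (FF.comp C) (xunit : GG) = FF := by
      apply Polynomial.ringHom_ext'
      · exact Subsingleton.elim _ _
      · simp only [coe_eval₂RingHom, eval₂_X, xunit_coe]
    rw [← h]
    exact hP

end Aux

/-- The negation of the preceding statement: Every finitely generated group with an injective self-homomorphism whose image has finite index and whose iterated images intersect in a finite set is virtually nilpotent (equivalently, has polynomial growth). -/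
theorem result :
    ¬ (∀ (Γ : Type) [Group Γ] [Group.FG Γ],
      (∃ φ : Γ →* Γ, Function.Injective φ ∧ φ.range.FiniteIndex ∧
          (⋂ k : ℕ, Set.range ((⇑φ)^[k + 1])).Finite) →
        ∃ H : Subgroup Γ, H.FiniteIndex ∧ Group.IsNilpotent ↥H) := by
  intro hall
  obtain ⟨G, hG, hFG, hφ, hnot⟩ := main_of_model model
  exact hnot (@hall G hG hFG hφ)

end Pool.Agent.S02248
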