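import Pool.Statements.S02725
import Pool.Agent.Helper54.Hopf.Mod

set_option autoImplicit false
open Pool Pool.MP_b0f484_al

namespace Pool.Agent.S02725

/-- There is a set of group laws such that all groups satisfying them are soluble of bounded derived length, and for some finite n the relatively free group of rank n has a surjective endomorphism that is not injective. -/
theorem result :
    ∃ (L : Set (FreeGroup ℕ)) (d : ℕ),
      (∀ (G : Type) [Group G],
        (∀ w ∈ L, ∀ φ : FreeGroup ℕ →* G, φ w = 1) → derivedSeries G d = ⊥) ∧
      ∃ n : ℕ, ∃ f :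
        (FreeGroup (Fin n) ⧸ Subgroup.normalClosure
          {x : FreeGroup (Fin n) | ∃ w ∈ L, ∃ φ : FreeGroup ℕ →* FreeGroup (Fin n), φ w = x}) →*
        (FreeGroup (Fin n) ⧸ Subgroup.normalClosure
          {x : FreeGroup (Fin n) | ∃ w ∈ L, ∃ φ : FreeGroup ℕ →* FreeGroup (Fin n), φ w = x}),
        Function.Surjective f ∧ ¬ Function.Injective f := by
  exact Pool.Agent.Helper54.Hopf.main

end Pool.Agent.S02725
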