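import Pool.Statements.S02793
import Pool.Agent.Helper67.SemiGrowth.Grp

set_option autoImplicit false
open Pool Pool.MP_b57530_al

namespace Pool.Agent.S02793

/-- There is a group G and a finite set A in G such that every element of G is s⁻¹t with s,t in the semigroup S generated by A, S has non-exponential growth, and G has exponential growth. -/
theorem result :
    ∃ (G : Type) (_ : Group G) (A : Finset G),
      (∀ g : G, ∃ s ∈ Subsemigroup.closure (A : Set G),
          ∃ t ∈ Subsemigroup.closure (A : Set G), g = s⁻¹ * t) ∧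
      (∀ c : ℝ, 1 < c → ∃ N : ℕ, ∀ n ≥ N,
        (({g : G | ∃ l : List G, (∀ x ∈ l, x ∈ A) ∧ l.length ≤ n ∧ l.prod = g}.ncard : ℝ)
          ≤ c ^ n)) ∧
      (∃ c : ℝ, 1 < c ∧ ∀ n : ℕ,
        c ^ n ≤ (({g : G | ∃ l : List G, (∀ x ∈ l, x ∈ A ∨ x⁻¹ ∈ A) ∧ l.length ≤ n ∧
          l.prod = g}.ncard : ℝ))) :=
  ⟨Pool.Agent.Helper67.SG.Gp, inferInstance, Pool.Agent.Helper67.SG.A,
    Pool.Agent.Helper67.SG.quot, Pool.Agent.Helper67.SG.pball_growth,
    Pool.Agent.Helper67.SG.ball_growth⟩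

end Pool.Agent.S02793
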