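import Pool.Statements.S03163
import Pool.Agent.Helper80.CKMain

set_option autoImplicit false
open Pool Pool.MP_d34459_al

namespace Pool.Agent.S03163

/-- For irrational β>1 and φ:F₂→ℝ with φ(a)=-1, φ(b)=β, K=φ⁻¹[0,1), no map Ψ from the free group on K into K fixing K has Ψ(w₁)⁻¹…: Ψ(w₁w₂)⁻¹Ψ(w₁)Ψ(w₂) uniformly a product of boundedly many conjugates of a^±1, b^±1. -/
theorem result :
    ∀ β : ℝ, 1 < β → Irrational β →
    ∀ φ : FreeGroup (Fin 2) →* Multiplicative ℝ,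
      φ (FreeGroup.of (0 : Fin 2)) = Multiplicative.ofAdd (-1 : ℝ) →
      φ (FreeGroup.of (1 : Fin 2)) = Multiplicative.ofAdd β →
    ∀ K : Set (FreeGroup (Fin 2)),
      K = {w | 0 ≤ Multiplicative.toAdd (φ w) ∧ Multiplicative.toAdd (φ w) < 1} →
    ¬ ∃ Ψ : FreeGroup K → FreeGroup (Fin 2), ∃ N : ℕ,
      (∀ w, Ψ w ∈ K) ∧
      (∀ k : K, Ψ (FreeGroup.of k) = (k : FreeGroup (Fin 2))) ∧
      ∀ w₁ w₂ : FreeGroup K, ∃ L : List (FreeGroup (Fin 2)), L.length ≤ N ∧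
        (∀ x ∈ L, ∃ g : FreeGroup (Fin 2), ∃ i : Fin 2,
          x = g * FreeGroup.of i * g⁻¹ ∨ x = g * (FreeGroup.of i)⁻¹ * g⁻¹) ∧
        L.prod = (Ψ (w₁ * w₂))⁻¹ * (Ψ w₁ * Ψ w₂) := by
  intro β hβ1 hβ φ h0 h1 K hK
  exact Pool.Agent.Helper80.CK.main β hβ1 hβ φ h0 h1 K hK

end Pool.Agent.S03163
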