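import Pool.Statements.S03302
import Pool.Agent.Helper3.GrpK
-- import your own Pool.Agent.* helpers here

set_option autoImplicit false
open Pool Pool.MP_e00c87_al

namespace Pool.Agent.S03302

open Pool.Agent.Helper3.NilDer Pool.Agent.Helper3.GrpG Pool.Agent.Helper3.GrpG.G

def g₁ : G := vw ((1, 0), (0, 0)) 0
def g₂ : G := vw ((0, 1), (0, 0)) 0
def g₃ : G := vw ((0, 0), (1, 0)) 0
def g₄ : G := vw ((0, 0), (0, 1)) 0

deriving instance DecidableEq for Pool.Agent.Helper3.GrpG.G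

theorem g₁₂ : g₁ * g₂ ≠ g₂ * g₁ := by
  intro h
  have := congrArg G.w h
  revert this
  decide

theorem g₃₄ (c : G) (h : g₃ * g₄ = c * (g₄ * g₃)) : c = vw 0 (0, 2) := by
  have h1 : g₃ * g₄ = vw 0 (0, 2) * (g₄ * g₃) := by
    decide
  rw [h1] at h
  exact (mul_right_cancel h).symm

theorem g₁₃ (c : G) (v : V) (w : W) (h : g₃ * g₄ = c * (g₄ * g₃))
    (h' : g₁ * vw v w = c * (vw v w * g₁)) : False := by
  rw [g₃₄ c h] at h'
  rw [g₁, vw_mul, vw_mul, vw_mul, β_zero_left] at h'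
  have h2 := congrArg (fun g : G => g.w.2) h'
  simp only [vw, β, Prod.snd_add, Prod.snd_zero] at h2
  have h3 : ∀ a : ZMod 3, a = 2 + a → False := by decide
  apply h3 w.2
  linear_combination h2

/-- No product-like group is an image of the unitary Sylow subgroup. -/
theorem no_image (n : ℕ) (hn : 0 < n) [Fact (Nat.Prime 3)]
    (φ : GaloisField 3 (2 * n) × GaloisField 3 (2 * n) → G)
    (h1 : ∀ x : GaloisField 3 (2 * n) × GaloisField 3 (2 * n),
      x.2 + x.2 ^ (3 ^ n) + x.1 ^ (3 ^ n + 1) = 0 → φ x ∈ pr.ker)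
    (h2 : ∀ g ∈ pr.ker, ∃ x : GaloisField 3 (2 * n) × GaloisField 3 (2 * n),
      x.2 + x.2 ^ (3 ^ n) + x.1 ^ (3 ^ n + 1) = 0 ∧ φ x = g)
    (h3 : ∀ x y : GaloisField 3 (2 * n) × GaloisField 3 (2 * n),
      x.2 + x.2 ^ (3 ^ n) + x.1 ^ (3 ^ n + 1) = 0 →
      y.2 + y.2 ^ (3 ^ n) + y.1 ^ (3 ^ n + 1) = 0 →
      φ (x.1 + y.1, x.2 + y.2 - x.1 * y.1 ^ (3 ^ n)) = φ x * φ y) : False := by
  have hchar : CharP (GaloisField 3 (2 * n)) 3 := inferInstance
  have : Fintype (GaloisField 3 (2 * n)) := Fintype.ofFinite _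
  have hcard : Nat.card (GaloisField 3 (2 * n)) = 3 ^ (2 * n) := GaloisField.card 3 (2 * n) (by omega)
  have hq0 : 3 ^ n ≠ 0 := by positivity
  have h30 : (3 : GaloisField 3 (2 * n)) = 0 := by
    have := CharP.cast_eq_zero (GaloisField 3 (2 * n)) 3
    exact_mod_cast this
  have hqq : ∀ a : GaloisField 3 (2 * n), (a ^ (3 ^ n)) ^ (3 ^ n) = a := by
    intro a
    rw [← pow_mul, ← pow_add, ← two_mul, ← hcard, Nat.card_eq_fintype_card]
    exact FiniteField.pow_card a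
  have hadd : ∀ a b : GaloisField 3 (2 * n), (a + b) ^ (3 ^ n) = a ^ (3 ^ n) + b ^ (3 ^ n) :=
    fun a b => add_pow_char_pow a b 3 n
  have hsub : ∀ a b : GaloisField 3 (2 * n), (a - b) ^ (3 ^ n) = a ^ (3 ^ n) - b ^ (3 ^ n) :=
    fun a b => sub_pow_char_pow a b n
  have hneg : ∀ a : GaloisField 3 (2 * n), (-a) ^ (3 ^ n) = -a ^ (3 ^ n) := by
    intro a
    have := hsub 0 a
    rw [zero_sub, zero_pow hq0, zero_sub] at this
    exact this
  set q := 3 ^ n with hq
  -- the four elements of `P`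
  obtain ⟨x, hx, hxg⟩ := h2 g₁ rfl
  obtain ⟨x', hx', hxg'⟩ := h2 g₂ rfl
  obtain ⟨y, hy, hyg⟩ := h2 g₃ rfl
  obtain ⟨y', hy', hyg'⟩ := h2 g₄ rfl
  -- `x.1 ≠ 0`
  have hx0 : x.1 ≠ 0 := by
    intro h0
    have e1 := h3 x x' hx hx'
    have e2 := h3 x' x hx' hx
    rw [h0] at e1 e2
    rw [zero_pow hq0] at e2
    have e3 : φ x * φ x' = φ x' * φ x := by
      rw [← e1, ← e2]
      congr 1
      ext
      · ring
      · ring
    rw [hxg, hxg'] at e3
    exact g₁₂ e3
  -- the commutator of `y` and `y'`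
  set t : GaloisField 3 (2 * n) := y'.1 * y.1 ^ q - y.1 * y'.1 ^ q with ht
  have htt : t ^ q = -t := by
    rw [ht, hsub, mul_pow, mul_pow, hqq, hqq]
    ring
  have hc : ((0 : GaloisField 3 (2 * n)), t).2 + ((0 : GaloisField 3 (2 * n)), t).2 ^ q +
      ((0 : GaloisField 3 (2 * n)), t).1 ^ (q + 1) = 0 := by
    simp only []
    rw [htt, zero_pow (Nat.succ_ne_zero q)]
    ring
  have mulmem : ∀ a b : GaloisField 3 (2 * n) × GaloisField 3 (2 * n),
      a.2 + a.2 ^ q + a.1 ^ (q + 1) = 0 → b.2 + b.2 ^ q + b.1 ^ (q + 1) = 0 →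
      (a.2 + b.2 - a.1 * b.1 ^ q) + (a.2 + b.2 - a.1 * b.1 ^ q) ^ q + (a.1 + b.1) ^ (q + 1) = 0 := by
    intro a b ha hb
    rw [hsub, hadd, mul_pow, hqq, pow_succ (a.1 + b.1), hadd]
    rw [pow_succ] at ha hb
    linear_combination ha + hb
  -- general commutator identity: if `v.1 * u.1^q - u.1 * v.1^q = t` then
  -- `φ u * φ v = φ (0, t) * (φ v * φ u)`
  have comm : ∀ u v : GaloisField 3 (2 * n) × GaloisField 3 (2 * n),
      u.2 + u.2 ^ q + u.1 ^ (q + 1) = 0 → v.2 + v.2 ^ q + v.1 ^ (q + 1) = 0 →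
      v.1 * u.1 ^ q - u.1 * v.1 ^ q = t → φ u * φ v = φ (0, t) * (φ v * φ u) := by
    intro u v hu hv huv
    rw [← h3 u v hu hv, ← h3 v u hv hu]
    rw [← h3 (0, t) (v.1 + u.1, v.2 + u.2 - v.1 * u.1 ^ q) hc (mulmem v u hv hu)]
    congr 1
    ext
    · simp only []; ring
    · simp only []
      linear_combination (-1 : GaloisField 3 (2 * n)) * (-huv)
  have c1 := comm y y' hy hy' ht.symm
  -- the solution `u`
  have hxq : x.1 ^ q ≠ 0 := pow_ne_zero _ hx0
  obtain ⟨u1, hu1⟩ : ∃ u1 : GaloisField 3 (2 * n), u1 * x.1 ^ q = -t :=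
    ⟨-t / x.1 ^ q, div_mul_cancel₀ _ hxq⟩
  have hu1q : x.1 * u1 ^ q = t := by
    have := congrArg (fun a => a ^ q) hu1
    simp only [mul_pow, hqq, hneg, htt, neg_neg] at this
    rw [← this]; exact mul_comm _ _
  have hu : (u1, u1 ^ (q + 1)).2 + (u1, u1 ^ (q + 1)).2 ^ q + (u1, u1 ^ (q + 1)).1 ^ (q + 1) = 0 := by
    simp only []
    rw [pow_succ, mul_pow, hqq]
    linear_combination (u1 ^ q * u1) * h30
  have c2 := comm x (u1, u1 ^ (q + 1)) hx hu (by
    simp only []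
    rw [hu1, hu1q]
    linear_combination (-t) * h30)
  rw [hyg, hyg'] at c1
  have hmem := h1 _ hu
  rw [hxg, eq_vw_of_h hmem] at c2
  exact g₁₃ _ _ _ c1 c2

/-- The negation of the preceding statement: For any saturated formation F and finite soluble minimal non-F-group G whose F-residual is a Sylow p-subgroup, that residual is a homomorphic image of the Sylow p-subgroup of PSU(3,q) over the field of order q², q = p^n, for some n ≥ 1. -/
theorem result :
    ¬ (∀ (F : ∀ (H : Type) [Group H], Prop),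
    (∀ (H K : Type) [Group H] [Group K] [Finite H] (f : H →* K),
        Function.Surjective f → F H → F K) →
    (∀ (H K₁ K₂ : Type) [Group H] [Group K₁] [Group K₂] [Finite H]
        (f₁ : H →* K₁) (f₂ : H →* K₂),
        Function.Surjective f₁ → Function.Surjective f₂ → F K₁ → F K₂ →
        F ↥(f₁.prod f₂).range) →
    (∀ (H K : Type) [Group H] [Group K] [Finite H] (f : H →* K),
        Function.Surjective f → (∀ M : Subgroup H, IsCoatom M → f.ker ≤ M) →
        F K → F H) →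
    ∀ (G : Type) [Group G] [Finite G],
      IsSolvable G → ¬ F G → (∀ K : Subgroup G, K ≠ ⊤ → F ↥K) →
      ∀ (p : ℕ) [Fact p.Prime] (R : Subgroup G),
        R = sInf {K : Subgroup G | ∃ (H : Type) (_ : Group H) (_ : Finite H),
              F H ∧ ∃ f : G →* H, Function.Surjective f ∧ f.ker = K} →
        (∃ P : Sylow p G, (P : Subgroup G) = R) →
        ∃ n : ℕ, 0 < n ∧
          ∃ φ : GaloisField p (2 * n) × GaloisField p (2 * n) → G,
            (∀ x : GaloisField p (2 * n) × GaloisField p (2 * n),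
                x.2 + x.2 ^ (p ^ n) + x.1 ^ (p ^ n + 1) = 0 → φ x ∈ R) ∧
            (∀ g ∈ R, ∃ x : GaloisField p (2 * n) × GaloisField p (2 * n),
                x.2 + x.2 ^ (p ^ n) + x.1 ^ (p ^ n + 1) = 0 ∧ φ x = g) ∧
            (∀ x y : GaloisField p (2 * n) × GaloisField p (2 * n),
                x.2 + x.2 ^ (p ^ n) + x.1 ^ (p ^ n + 1) = 0 →
                y.2 + y.2 ^ (p ^ n) + y.1 ^ (p ^ n + 1) = 0 →
                φ (x.1 + y.1, x.2 + y.2 - x.1 * y.1 ^ (p ^ n)) = φ x * φ y)) := by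
  intro H
  have : Fact (Nat.Prime 3) := ⟨Nat.prime_three⟩
  obtain ⟨n, hn, φ, h1, h2, h3⟩ := H (fun H _ => ND H)
    (fun H K _ _ _ f hf h => nd_of_surjective f hf h)
    (fun H K₁ K₂ _ _ _ _ f₁ f₂ _ _ h₁ h₂ => nd_subdirect f₁ f₂ h₁ h₂)
    (fun H K _ _ _ f hf hM h => nd_saturated f hf hM h)
    Pool.Agent.Helper3.GrpG.G G.solvable G.not_nd (fun K hK => G.nd_proper K hK) 3 G.pr.ker
    G.residual G.sylow
  exact no_image n hn φ h1 h2 h3

end Pool.Agent.S03302
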