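import Pool.Statements.S03696
-- import your own Pool.Agent.* helpers here
import Pool.Agent.Helper25.HL.All

set_option autoImplicit false
open Pool Pool.MP_03bcbb_an

namespace Pool.Agent.S03696

/-- The negation of the preceding statement: For every complex Banach space X: X has the approximation property and every nuclear operator with absolutely summable eigenvalues (algebraic multiplicity) has nuclear trace equal to its eigenvalue sum, iff every closed subspace of X has the approximation property. -/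
theorem result :
    ¬ (∀ (X : Type) [NormedAddCommGroup X] [NormedSpace ℂ X] [CompleteSpace X],
    ((∀ K : Set X, IsCompact K → ∀ ε : ℝ, 0 < ε →
        ∃ S : X →L[ℂ] X, FiniteDimensional ℂ (LinearMap.range (S : X →ₗ[ℂ] X)) ∧
          ∀ x ∈ K, ‖S x - x‖ < ε) ∧
     ∀ (f : ℕ → X →L[ℂ] ℂ) (x : ℕ → X) (T : X →L[ℂ] X),
       Summable (fun i => ‖f i‖ * ‖x i‖) →
       (∀ y, T y = ∑' i, f i y • x i) →
       Summable (fun μ : ℂ =>
         (Module.finrank ℂ (Module.End.maxGenEigenspace (T : X →ₗ[ℂ] X) μ) : ℝ) * ‖μ‖) →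
       ∑' i, f i (x i) =
         ∑' μ : ℂ, (Module.finrank ℂ (Module.End.maxGenEigenspace (T : X →ₗ[ℂ] X) μ) : ℂ) * μ)
    ↔ ∀ Y : Submodule ℂ X, IsClosed (Y : Set X) →
        ∀ K : Set Y, IsCompact K → ∀ ε : ℝ, 0 < ε →
          ∃ S : Y →L[ℂ] Y, FiniteDimensional ℂ (LinearMap.range (S : Y →ₗ[ℂ] Y)) ∧
            ∀ y ∈ K, ‖S y - y‖ < ε) := by
  exact Pool.Agent.Helper25.HL.concl Pool.Agent.Helper25.HL.h_sc Pool.Agent.Helper25.HL.h_pg
    Pool.Agent.Helper59.HL.hap Pool.Agent.Helper25.HL.h_nli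

end Pool.Agent.S03696
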