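import Pool.Statements.S04375
import Pool.Agent.Helper76.FT.Chain4

set_option autoImplicit false
open Pool Pool.MP_39e2b7_an

namespace Pool.Agent.S04375

/-- For every analytic, bijective, area-preserving monotone twist lift of a cylinder map whose plane is partitioned into invariant graphs of continuous 1-periodic functions, each of those functions is real-analytic. -/
theorem result :
    ∀ (F : ℝ × ℝ → ℝ × ℝ) (u : ℝ → ℝ → ℝ),
      AnalyticOnNhd ℝ F Set.univ →
      Function.Bijective F →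
      (∀ x y : ℝ, F (x + 1, y) = ((F (x, y)).1 + 1, (F (x, y)).2)) →
      (∀ p : ℝ × ℝ, LinearMap.det (fderiv ℝ F p : ℝ × ℝ →ₗ[ℝ] ℝ × ℝ) = 1) →
      (∀ x y : ℝ, 0 < deriv (fun t : ℝ => (F (x, t)).1) y) →
      (∀ c : ℝ, Continuous (u c)) →
      (∀ c x : ℝ, u c (x + 1) = u c x) →
      (∀ c x : ℝ, (F (x, u c x)).2 = u c (F (x, u c x)).1) →
      (∀ p : ℝ × ℝ, ∃! c : ℝ, p.2 = u c p.1) →
      ∀ c : ℝ, AnalyticOnNhd ℝ (u c) Set.univ := by
  exact Pool.Agent.Helper76.FT.assemble Pool.Agent.Helper76.FT.c_sys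
    Pool.Agent.Helper76.FT.c_gmain

end Pool.Agent.S04375
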