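import Pool.Statements.S04471
import Pool.Agent.Helper22.A6

set_option autoImplicit false
open scoped InnerProductSpace
open Pool Pool.MP_41f01b_an

namespace Pool.Agent.S04471

/-- Every continuous convex function on a real separable Hilbert space has a point x with a vector y and a continuous symmetric bilinear B such that f(x+th)-f(x)-⟨y,th⟩-t²B(h,h)=o(t²) as t→0 for every h. -/
theorem result :
    ∀ (X : Type) [NormedAddCommGroup X] [InnerProductSpace ℝ X] [CompleteSpace X]
      [TopologicalSpace.SeparableSpace X] (f : X → ℝ),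
      Continuous f → ConvexOn ℝ Set.univ f →
      ∃ (x y : X) (B : X →L[ℝ] X →L[ℝ] ℝ),
        (∀ u v : X, B u v = B v u) ∧
        ∀ h : X,
          (fun t : ℝ => f (x + t • h) - f x - ⟪y, t • h⟫_ℝ - t ^ 2 * B h h)
            =o[nhds (0 : ℝ)] (fun t : ℝ => t ^ 2) := by
  intro X _ _ _ _ f hcont hf
  exact Pool.Agent.Helper22.SO.main_thm f hcont hf

end Pool.Agent.S04471
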