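import Pool.Statements.S04725
import Pool.Agent.Helper25.PCap.Assembly

set_option autoImplicit false
open MeasureTheory
open Pool Pool.MP_576c25_an

namespace Pool.Agent.S04725

/-- For 1<p<2, any nonempty bounded convex planar set Ω and any segment whose doubled length equals Ω's perimeter (via Cauchy's formula), the p-capacity of the segment is at most that of Ω. -/
theorem result :
    ∀ p : ℝ, 1 < p → p < 2 →
    ∀ Ω : Set (EuclideanSpace ℝ (Fin 2)), Ω.Nonempty → Bornology.IsBounded Ω → Convex ℝ Ω →
    ∀ a b : EuclideanSpace ℝ (Fin 2),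
      2 * dist a b =
        intervalIntegral
          (fun θ : ℝ => sSup ((fun x : EuclideanSpace ℝ (Fin 2) =>
            inner ℝ x (EuclideanSpace.single (0 : Fin 2) (Real.cos θ)
              + EuclideanSpace.single (1 : Fin 2) (Real.sin θ))) '' Ω))
          0 (2 * Real.pi) MeasureTheory.volume →
      sInf {c : ℝ | ∃ u : EuclideanSpace ℝ (Fin 2) → ℝ,
              ContDiff ℝ 1 u ∧ HasCompactSupport u ∧
              (∃ U : Set (EuclideanSpace ℝ (Fin 2)), IsOpen U ∧ segment ℝ a b ⊆ U ∧
                ∀ x ∈ U, 1 ≤ u x) ∧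
              c = MeasureTheory.integral MeasureTheory.volume
                    (fun x : EuclideanSpace ℝ (Fin 2) => ‖fderiv ℝ u x‖ ^ p)}
        ≤
      sInf {c : ℝ | ∃ u : EuclideanSpace ℝ (Fin 2) → ℝ,
              ContDiff ℝ 1 u ∧ HasCompactSupport u ∧
              (∃ U : Set (EuclideanSpace ℝ (Fin 2)), IsOpen U ∧ Ω ⊆ U ∧
                ∀ x ∈ U, 1 ≤ u x) ∧
              c = MeasureTheory.integral MeasureTheory.volume
                    (fun x : EuclideanSpace ℝ (Fin 2) => ‖fderiv ℝ u x‖ ^ p)} := by
  exact Pool.Agent.Helper25.PCap.frozen_of_final Pool.Agent.Helper25.PCap.Assembly.final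

end Pool.Agent.S04725
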