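import Pool.Statements.S04810

set_option autoImplicit false
open Pool Pool.MP_5e7086_an

namespace Pool.Agent.S04810

/-!
Proof of the negative answer: for `0 < p < 1` no complemented subspace of the Lipschitz free
`p`-space of a metric space is isomorphic to an infinite-dimensional Banach space.

Let `T : X → F`, `S : F → X` be bounded with `S (T x) = x`, `X` an infinite-dimensional normed space.
Take a bounded sequence `x n` in `X` with pairwise distances at least `1`, and finitely supported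
mass-zero measures `μ n` close to `T (x n)`.  Since `p < 1`, a representation of `μ n` by molecules
of `p`-cost at most `K` has at most `K / τ ^ p` molecules of weight at least `τ`, while the others
have total weight at most `τ ^ (1 - p) * K`.  So, up to an error as small as we like in the
`1`-cost (Kantorovich) sense, `μ n` is a measure `β n` supported on at most `k` points, `k` independent
of `n`.

For a set `D` of `L - 1` indices let `V D` be the span in `X` of the images of the points of the supports of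
`β m`, `m ∈ D`; its dimension is at most `L k + 1`.  As the `x n` are separated, a volume argument
bounds the number of `n` with `dist (x n, V D) ≤ 1 / 4` by a constant `Q1` depending on `L` and `k` only.  A
counting argument (`free_set`) gives a set `A` of `L` indices such that `dist (x n, V (A \ n)) > 1 / 4` for
all `n ∈ A`.  The Hahn-Banach theorem in `X` then yields Lipschitz functions `g n` on `M` which vanish on the
supports of `β m`, `m ∈ A \ n`, and satisfy `⟨g n, β n⟩ ≥ c`.  Truncating `g n` by the distance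
functions of the supports (`bump`) makes the `g n` disjointly supported, so that they define
a Lipschitz map from `M` to the `p`-normed space `ℓ_p ^ L` (`lp_bound`).  Hence the average of the `μ n`,
`n ∈ A`, has `p`-cost at least `(c / 2) ^ p * L ^ (1 - p) / 4`, which is unbounded as `L` grows; but the
average of the `x n` is bounded in `X` because `X` is locally convex.  Contradiction.
-/


open MeasureTheory Metric Set Module ENNReal in
theorem packing_aux {E : Type*} [NormedAddCommGroup E] [NormedSpace ℝ E] [FiniteDimensional ℝ E]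
    (s : Finset E) (R : ℝ) (hR : 0 ≤ R) (hs : ∀ c ∈ s, ‖c‖ ≤ R)
    (h : ∀ c ∈ s, ∀ d ∈ s, c ≠ d → 1 / 2 ≤ ‖c - d‖) :
    (s.card : ℝ) ≤ (4 * R + 1) ^ finrank ℝ E := by
  borelize E
  let μ : Measure E := Measure.addHaar
  let δ : ℝ := (1 : ℝ) / 4
  let ρ : ℝ := R + 1 / 4
  have ρpos : 0 < ρ := by positivity
  set A := ⋃ c ∈ s, ball (c : E) δ with hA
  have D : Set.Pairwise (s : Set E) (Function.onFun Disjoint fun c => ball (c : E) δ) := by
    rintro c hc d hd hcd
    apply ball_disjoint_ball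
    rw [dist_eq_norm]
    have := h c hc d hd hcd
    simp only [δ]
    linarith
  have A_subset : A ⊆ ball (0 : E) ρ := by
    refine iUnion₂_subset fun x hx => ?_
    apply ball_subset_ball'
    have := hs x hx
    rw [dist_zero_right]
    simp only [δ, ρ]
    linarith
  have I :
    (s.card : ℝ≥0∞) * ENNReal.ofReal (δ ^ finrank ℝ E) * μ (ball 0 1) ≤
      ENNReal.ofReal (ρ ^ finrank ℝ E) * μ (ball 0 1) :=
    calc
      (s.card : ℝ≥0∞) * ENNReal.ofReal (δ ^ finrank ℝ E) * μ (ball 0 1) = μ A := by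
        rw [hA, measure_biUnion_finset D fun c _ => measurableSet_ball]
        have I : 0 < δ := by norm_num [δ]
        simp only [μ.addHaar_ball_of_pos _ I]
        simp only [Finset.sum_const, nsmul_eq_mul, mul_assoc]
      _ ≤ μ (ball (0 : E) ρ) := measure_mono A_subset
      _ = ENNReal.ofReal (ρ ^ finrank ℝ E) * μ (ball 0 1) := by
        simp only [μ.addHaar_ball_of_pos _ ρpos]
  have J : (s.card : ℝ≥0∞) * ENNReal.ofReal (δ ^ finrank ℝ E) ≤ ENNReal.ofReal (ρ ^ finrank ℝ E) :=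
    (ENNReal.mul_le_mul_iff_left (measure_ball_pos _ _ zero_lt_one).ne' measure_ball_lt_top.ne).1 I
  have K := ENNReal.toReal_le_of_le_ofReal (pow_nonneg ρpos.le _) J
  have hδ : 0 < δ ^ finrank ℝ E := by positivity
  rw [ENNReal.toReal_mul, ENNReal.toReal_natCast, ENNReal.toReal_ofReal hδ.le] at K
  have : (4 * R + 1) ^ finrank ℝ E = ρ ^ finrank ℝ E / δ ^ finrank ℝ E := by
    rw [← div_pow]
    congr 1
    simp only [ρ, δ]
    ring
  rw [this, le_div_iff₀ hδ]
  exact K

theorem packing {X : Type*} [NormedAddCommGroup X] [NormedSpace ℝ X] (V : Submodule ℝ X)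
    [FiniteDimensional ℝ V] (d : ℕ) (hd : Module.finrank ℝ V ≤ d) (R : ℝ) (hR : 0 ≤ R)
    (I : Finset ℕ) (v : ℕ → X) (hv : ∀ i ∈ I, v i ∈ V) (hvR : ∀ i ∈ I, ‖v i‖ ≤ R)
    (hsep : ∀ i ∈ I, ∀ j ∈ I, i ≠ j → 1 / 2 ≤ ‖v i - v j‖) :
    (I.card : ℝ) ≤ (4 * R + 1) ^ d := by
  classical
  let w : I → V := fun i => ⟨v i, hv i i.2⟩
  have hinj : Function.Injective w := by
    intro i j hij
    by_contra hne
    have hne' : (i : ℕ) ≠ j := fun h => hne (Subtype.ext h)
    have h1 := hsep i i.2 j j.2 hne'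
    have h2 : v i = v j := congrArg Subtype.val hij
    rw [h2, sub_self, norm_zero] at h1
    norm_num at h1
  have hcard : (Finset.univ.image w).card = I.card := by
    rw [Finset.card_image_of_injective _ hinj]
    simp
  have h := packing_aux (Finset.univ.image w) R hR (by
    intro c hc
    simp only [Finset.mem_image, Finset.mem_univ, true_and] at hc
    obtain ⟨i, rfl⟩ := hc
    exact hvR i i.2) (by
    intro c hc d hd hcd
    simp only [Finset.mem_image, Finset.mem_univ, true_and] at hc hd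
    obtain ⟨i, rfl⟩ := hc
    obtain ⟨j, rfl⟩ := hd
    have hne : (i : ℕ) ≠ j := fun h => hcd (by rw [Subtype.ext h])
    exact hsep i i.2 j j.2 hne)
  rw [hcard] at h
  refine h.trans ?_
  exact pow_le_pow_right₀ (by linarith) hd

theorem free_set (L Q Q1 : ℕ) (hL : 1 ≤ L) (Bad : Finset ℕ → ℕ → Prop)
    (hBad : ∀ D : Finset ℕ, D.card = L - 1 → ∀ I : Finset ℕ, (∀ n ∈ I, n ∉ D ∧ Bad D n) → I.card ≤ Q1)
    (hQ : L * Q1 + L ≤ Q) :
    ∃ A : Finset ℕ, A.card = L ∧ ∀ n ∈ A, ¬ Bad (A.erase n) n := by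
  classical
  by_contra hcon
  push Not at hcon
  let T := Finset.range Q
  let P := Finset.powersetCard L T
  have hP : ∀ A ∈ P, ∃ n ∈ A, Bad (A.erase n) n := fun A hA => hcon A (Finset.mem_powersetCard.1 hA).2
  choose! f hf using hP
  let W := (Finset.powersetCard (L - 1) T).sigma (fun D => T.filter (fun n => n ∉ D ∧ Bad D n))
  have hmap : P.card ≤ W.card := by
    refine Finset.card_le_card_of_injOn (fun A => (⟨A.erase (f A), f A⟩ : (_ : Finset ℕ) × ℕ)) ?_ ?_
    · intro A hA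
      have hA' := Finset.mem_powersetCard.1 (Finset.mem_coe.1 hA)
      obtain ⟨h1, h2⟩ := hf A (Finset.mem_coe.1 hA)
      simp only [W, Finset.coe_sigma, Set.mem_sigma_iff, Finset.mem_coe, Finset.mem_powersetCard,
        Finset.mem_filter]
      refine ⟨⟨(Finset.erase_subset _ _).trans hA'.1, ?_⟩, hA'.1 h1, Finset.notMem_erase _ _, h2⟩
      rw [Finset.card_erase_of_mem h1, hA'.2]
    · intro A hA B hB hAB
      obtain ⟨h1, h2⟩ := hf A (Finset.mem_coe.1 hA)
      obtain ⟨h3, h4⟩ := hf B (Finset.mem_coe.1 hB)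
      simp only [Sigma.mk.injEq, heq_eq_eq] at hAB
      rw [← Finset.insert_erase h1, ← Finset.insert_erase h3, hAB.1, hAB.2]
  have hW : W.card ≤ (Q.choose (L - 1)) * Q1 := by
    rw [Finset.card_sigma]
    calc ∑ D ∈ Finset.powersetCard (L - 1) T, (T.filter (fun n => n ∉ D ∧ Bad D n)).card
        ≤ ∑ D ∈ Finset.powersetCard (L - 1) T, Q1 := by
          refine Finset.sum_le_sum fun D hD => ?_
          refine hBad D (Finset.mem_powersetCard.1 hD).2 _ ?_
          intro n hn
          exact (Finset.mem_filter.1 hn).2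
      _ = (Q.choose (L - 1)) * Q1 := by
          rw [Finset.sum_const, Finset.card_powersetCard, Finset.card_range, smul_eq_mul]
  have hPc : P.card = Q.choose L := by
    simp [P, T]
  have hch : Q.choose L * L = Q.choose (L - 1) * (Q - (L - 1)) := by
    have := Nat.choose_succ_right_eq Q (L - 1)
    rwa [Nat.sub_add_cancel hL] at this
  have hpos : 0 < Q.choose (L - 1) := Nat.choose_pos (by omega)
  have h1 : Q.choose L ≤ Q.choose (L - 1) * Q1 := by
    rw [← hPc]; exact hmap.trans hW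
  have h2 : Q.choose (L - 1) * (Q - (L - 1)) ≤ Q.choose (L - 1) * (Q1 * L) := by
    rw [← hch, ← mul_assoc]
    exact Nat.mul_le_mul_right _ h1
  have h3 : Q - (L - 1) ≤ Q1 * L := Nat.le_of_mul_le_mul_left h2 hpos
  have h4 : Q1 * L = L * Q1 := mul_comm _ _
  omega



theorem exists_sep_functional {X : Type*} [NormedAddCommGroup X] [NormedSpace ℝ X]
    (V : Submodule ℝ X) (x : X) (r : ℝ) (hr : ∀ v ∈ V, r ≤ ‖x - v‖) :
    ∃ f : X →ₗ[ℝ] ℝ, (∀ y, |f y| ≤ ‖y‖) ∧ (∀ v ∈ V, f v = 0) ∧ r ≤ f x := by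
  obtain ⟨g, hg1, hg2⟩ := exists_dual_vector'' ℝ (V.mkQ x)
  refine ⟨g.toLinearMap ∘ₗ V.mkQ, ?_, ?_, ?_⟩
  · intro y
    have h1 : |g (V.mkQ y)| ≤ ‖g‖ * ‖V.mkQ y‖ := by
      simpa using g.le_opNorm (V.mkQ y)
    have h2 : ‖V.mkQ y‖ ≤ ‖y‖ := Submodule.Quotient.norm_mk_le V y
    calc |g (V.mkQ y)| ≤ ‖g‖ * ‖V.mkQ y‖ := h1
      _ ≤ 1 * ‖y‖ := mul_le_mul hg1 h2 (norm_nonneg _) zero_le_one
      _ = ‖y‖ := one_mul _
  · intro v hv
    have : V.mkQ v = 0 := by simpa using hv
    simp [this]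
  · have h3 : g (V.mkQ x) = ‖V.mkQ x‖ := by simpa using hg2
    change r ≤ g (V.mkQ x)
    rw [h3]
    have h4 : ‖V.mkQ x‖ = Metric.infDist x (V.toAddSubgroup : Set X) :=
      QuotientAddGroup.norm_mk x
    rw [h4]
    refine (Metric.le_infDist (s := (V.toAddSubgroup : Set X)) ⟨0, V.zero_mem⟩).2 ?_
    intro y hy
    rw [dist_eq_norm]
    exact hr y hy



theorem bump {M : Type*} [MetricSpace M] (A : Finset ℕ) (S : ℕ → Finset M) (z0 : M)
    (hz0 : ∀ n, z0 ∈ S n) (E : ℕ → Set M)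
    (hE0 : ∀ n, z0 ∈ E n) (hE : ∀ n, ∀ m ∈ A, m ≠ n → ∀ z ∈ S m, z ∈ E n)
    (g : ℕ → M → ℝ) (hg : ∀ n ∈ A, ∀ u v, |g n u - g n v| ≤ dist u v)
    (hg0 : ∀ n ∈ A, ∀ z ∈ E n, g n z = 0) :
    ∃ G : ℕ → M → ℝ, (∀ n ∈ A, ∀ u v, |G n u - G n v| ≤ 2 * dist u v) ∧
      (∀ n ∈ A, ∀ z ∈ S n, G n z = g n z) ∧
      (∀ n ∈ A, ∀ m ∈ A, m ≠ n → ∀ z ∈ S m, G n z = 0) ∧
      (∀ u, ∀ n ∈ A, ∀ m ∈ A, G n u ≠ 0 → G m u ≠ 0 → n = m) := by
  classical
  let h : ℕ → M → ℝ := fun n u => max 0 (Metric.infDist u (E n) - Metric.infDist u (S n : Set M))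
  have hh0 : ∀ n u, 0 ≤ h n u := fun n u => le_max_left _ _
  have hdist : ∀ (s : Set M) (u v : M), |Metric.infDist u s - Metric.infDist v s| ≤ dist u v := by
    intro s u v
    have h1 := Metric.infDist_le_infDist_add_dist (s := s) (x := u) (y := v)
    have h2 := Metric.infDist_le_infDist_add_dist (s := s) (x := v) (y := u)
    rw [dist_comm v u] at h2
    rw [abs_le]
    constructor <;> linarith
  have hhL : ∀ n u v, |h n u - h n v| ≤ 2 * dist u v := by
    intro n u v
    have h1 := hdist (E n) u v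
    have h2 := hdist (S n : Set M) u v
    have h3 := abs_max_sub_max_le_max 0 (Metric.infDist u (E n) - Metric.infDist u (S n : Set M))
      0 (Metric.infDist v (E n) - Metric.infDist v (S n : Set M))
    refine h3.trans ?_
    rw [sub_self, abs_zero, max_le_iff]
    refine ⟨by positivity, ?_⟩
    rw [abs_le] at h1 h2 ⊢
    constructor <;> linarith
  refine ⟨fun n u => max (-h n u) (min (g n u) (h n u)), ?_, ?_, ?_, ?_⟩
  · intro n hn u v
    have h1 := hg n hn u v
    have h2 := hhL n u v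
    have hd : 0 ≤ dist u v := dist_nonneg
    refine (abs_max_sub_max_le_max _ _ _ _).trans ?_
    rw [max_le_iff]
    refine ⟨?_, (abs_min_sub_min_le_max _ _ _ _).trans ?_⟩
    · rw [show -h n u - -h n v = -(h n u - h n v) by ring, abs_neg]
      exact h2
    · rw [max_le_iff]
      exact ⟨by linarith, h2⟩
  · intro n hn z hz
    have h1 : Metric.infDist z (S n : Set M) = 0 := Metric.infDist_zero_of_mem (by simpa using hz)
    have h2 : |g n z| ≤ Metric.infDist z (E n) := by
      refine (Metric.le_infDist ⟨z0, hE0 n⟩).2 ?_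
      intro e he
      have := hg n hn z e
      rwa [hg0 n hn e he, sub_zero] at this
    have h3 : h n z = Metric.infDist z (E n) := by
      simp only [h, h1, sub_zero]
      exact max_eq_right Metric.infDist_nonneg
    rw [abs_le] at h2
    show max (-h n z) (min (g n z) (h n z)) = g n z
    rw [h3, min_eq_left h2.2, max_eq_right h2.1]
  · intro n hn m hm hmn z hz
    have h1 : Metric.infDist z (E n) = 0 := Metric.infDist_zero_of_mem (hE n m hm hmn z hz)
    have h3 : h n z = 0 := by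
      simp only [h, h1, zero_sub]
      exact max_eq_left (by
        have := Metric.infDist_nonneg (x := z) (s := (S n : Set M))
        linarith)
    show max (-h n z) (min (g n z) (h n z)) = 0
    rw [h3, neg_zero]
    exact max_eq_left (min_le_right _ _)
  · intro u n hn m hm h1 h2
    by_contra hne
    have key : ∀ n, max (-h n u) (min (g n u) (h n u)) ≠ 0 →
        Metric.infDist u (S n : Set M) < Metric.infDist u (E n) := by
      intro n hn0
      by_contra hlt
      have h3 : h n u = 0 := max_eq_left (by linarith)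
      apply hn0
      rw [h3, neg_zero]
      exact max_eq_left (min_le_right _ _)
    have k1 := key n h1
    have k2 := key m h2
    have k3 : Metric.infDist u (E n) ≤ Metric.infDist u (S m : Set M) :=
      Metric.infDist_le_infDist_of_subset (fun z hz => hE n m hm (Ne.symm hne) z (by simpa using hz))
        ⟨z0, by simpa using hz0 m⟩
    have k4 : Metric.infDist u (E m) ≤ Metric.infDist u (S n : Set M) :=
      Metric.infDist_le_infDist_of_subset (fun z hz => hE m n hn hne z (by simpa using hz))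
        ⟨z0, by simpa using hz0 n⟩
    linarith

/-- Finite-sum subadditivity of `t ↦ t ^ p` for `0 < p ≤ 1`. -/
theorem abs_sum_rpow_le {ι : Type*} (s : Finset ι) (f : ι → ℝ) (p : ℝ) (hp0 : 0 < p) (hp1 : p ≤ 1) :
    |∑ i ∈ s, f i| ^ p ≤ ∑ i ∈ s, |f i| ^ p := by
  classical
  induction s using Finset.induction_on with
  | empty => simp [Real.zero_rpow hp0.ne']
  | insert a s ha ih =>
    rw [Finset.sum_insert ha, Finset.sum_insert ha]
    calc |f a + ∑ i ∈ s, f i| ^ p ≤ (|f a| + |∑ i ∈ s, f i|) ^ p :=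
          Real.rpow_le_rpow (abs_nonneg _) (abs_add_le _ _) hp0.le
      _ ≤ |f a| ^ p + |∑ i ∈ s, f i| ^ p :=
          Real.rpow_add_le_add_rpow (abs_nonneg _) (abs_nonneg _) hp0.le hp1
      _ ≤ _ := by gcongr

theorem lp_bound {M : Type*} [MetricSpace M] (A : Finset ℕ) (G : ℕ → M → ℝ) (p : ℝ)
    (hp0 : 0 < p) (hp1 : p ≤ 1)
    (hG : ∀ n ∈ A, ∀ u v, |G n u - G n v| ≤ 2 * dist u v)
    (hdisj : ∀ u, ∀ n ∈ A, ∀ m ∈ A, G n u ≠ 0 → G m u ≠ 0 → n = m) (u v : M) :
    ∑ n ∈ A, |G n u - G n v| ^ p ≤ 4 * dist u v ^ p := by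
  classical
  set t : ℝ := (2 * dist u v) ^ p with ht
  have ht0 : 0 ≤ t := by positivity
  have hcard : ∀ w : M, ((A.filter (fun n => G n w ≠ 0)).card : ℝ) ≤ 1 := by
    intro w
    have : (A.filter (fun n => G n w ≠ 0)).card ≤ 1 := by
      rw [Finset.card_le_one]
      intro a ha b hb
      rw [Finset.mem_filter] at ha hb
      exact hdisj w a ha.1 b hb.1 ha.2 hb.2
    exact_mod_cast this
  have hsum : ∀ w : M, ∑ n ∈ A, (if G n w ≠ 0 then t else 0) ≤ t := by
    intro w
    rw [← Finset.sum_filter, Finset.sum_const, nsmul_eq_mul]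
    have := mul_le_mul_of_nonneg_right (hcard w) ht0
    linarith
  have h1 : ∑ n ∈ A, |G n u - G n v| ^ p ≤
      ∑ n ∈ A, ((if G n u ≠ 0 then t else 0) + (if G n v ≠ 0 then t else 0)) := by
    refine Finset.sum_le_sum fun n hn => ?_
    have hb : |G n u - G n v| ^ p ≤ t := Real.rpow_le_rpow (abs_nonneg _) (hG n hn u v) hp0.le
    by_cases h1 : G n u ≠ 0
    · rw [if_pos h1]
      split_ifs <;> linarith
    · by_cases h2 : G n v ≠ 0
      · rw [if_pos h2]
        split_ifs <;> linarith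
      · push Not at h1 h2
        rw [h1, h2]
        simp [Real.zero_rpow hp0.ne']
  rw [Finset.sum_add_distrib] at h1
  have h2 := hsum u
  have h3 := hsum v
  have h4 : t ≤ 2 * dist u v ^ p := by
    rw [ht, Real.mul_rpow (by norm_num) dist_nonneg]
    have : (2 : ℝ) ^ p ≤ 2 ^ (1 : ℝ) := Real.rpow_le_rpow_of_exponent_le (by norm_num) hp1
    rw [Real.rpow_one] at this
    have h5 : 0 ≤ dist u v ^ p := by positivity
    exact mul_le_mul_of_nonneg_right this h5
  linarith



theorem decomp {M : Type*} [MetricSpace M] (p : ℝ) (hp0 : 0 < p) (hp1 : p < 1) (z0 : M) (m : ℕ)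
    (b : Fin m → ℝ) (u v : Fin m → M) (K τ : ℝ) (hτ : 0 < τ)
    (hK : ∑ j, |b j| ^ p * dist (u j) (v j) ^ p ≤ K) :
    ∃ (S : Finset M) (J : Finset (Fin m)) (β : M →₀ ℝ), z0 ∈ S ∧ (S.card : ℝ) ≤ 2 * (K / τ ^ p) + 1 ∧
      (∀ z, z ∉ S → β z = 0) ∧
      ∑ j, b j • (Finsupp.single (u j) (1:ℝ) - Finsupp.single (v j) (1:ℝ)) =
        β + ∑ j ∈ J, b j • (Finsupp.single (u j) (1:ℝ) - Finsupp.single (v j) (1:ℝ)) ∧
      ∑ j ∈ J, |b j| * dist (u j) (v j) ≤ τ ^ (1 - p) * K := by
  classical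
  let J : Finset (Fin m) := Finset.univ.filter (fun j => |b j| * dist (u j) (v j) < τ)
  let J' : Finset (Fin m) := Finset.univ.filter (fun j => ¬ |b j| * dist (u j) (v j) < τ)
  let S : Finset M := insert z0 (J'.image u ∪ J'.image v)
  have hterm : ∀ j, |b j| ^ p * dist (u j) (v j) ^ p = (|b j| * dist (u j) (v j)) ^ p := by
    intro j
    rw [Real.mul_rpow (abs_nonneg _) dist_nonneg]
  have hnn : ∀ j, 0 ≤ |b j| * dist (u j) (v j) := fun j => by positivity
  have hτp : 0 < τ ^ p := Real.rpow_pos_of_pos hτ p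
  have hcard' : (J'.card : ℝ) ≤ K / τ ^ p := by
    rw [le_div_iff₀ hτp]
    calc (J'.card : ℝ) * τ ^ p = ∑ j ∈ J', τ ^ p := by rw [Finset.sum_const, nsmul_eq_mul]
      _ ≤ ∑ j ∈ J', |b j| ^ p * dist (u j) (v j) ^ p := by
          refine Finset.sum_le_sum fun j hj => ?_
          rw [hterm]
          have := (Finset.mem_filter.1 hj).2
          push Not at this
          exact Real.rpow_le_rpow hτ.le this hp0.le
      _ ≤ ∑ j, |b j| ^ p * dist (u j) (v j) ^ p := by
          refine Finset.sum_le_sum_of_subset_of_nonneg (Finset.subset_univ _) ?_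
          intro j _ _
          positivity
      _ ≤ K := hK
  refine ⟨S, J, ∑ j ∈ J', b j • (Finsupp.single (u j) (1:ℝ) - Finsupp.single (v j) (1:ℝ)),
    Finset.mem_insert_self _ _, ?_, ?_, ?_, ?_⟩
  · have h1 : S.card ≤ (J'.card + J'.card) + 1 := by
      refine (Finset.card_insert_le _ _).trans ?_
      gcongr
      refine (Finset.card_union_le _ _).trans ?_
      exact add_le_add Finset.card_image_le Finset.card_image_le
    have h2 : (S.card : ℝ) ≤ (J'.card + J'.card) + 1 := by exact_mod_cast h1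
    linarith
  · intro z hz
    rw [Finsupp.finsetSum_apply]
    refine Finset.sum_eq_zero fun j hj => ?_
    have h1 : u j ≠ z := by
      rintro rfl
      exact hz (Finset.mem_insert_of_mem (Finset.mem_union_left _ (Finset.mem_image_of_mem u hj)))
    have h2 : v j ≠ z := by
      rintro rfl
      exact hz (Finset.mem_insert_of_mem (Finset.mem_union_right _ (Finset.mem_image_of_mem v hj)))
    simp [h1, h2]
  · rw [add_comm]
    exact (Finset.sum_filter_add_sum_filter_not _ _ _).symm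
  · calc ∑ j ∈ J, |b j| * dist (u j) (v j)
        ≤ ∑ j ∈ J, τ ^ (1 - p) * (|b j| ^ p * dist (u j) (v j) ^ p) := by
          refine Finset.sum_le_sum fun j hj => ?_
          rw [hterm]
          have hlt := (Finset.mem_filter.1 hj).2
          set a := |b j| * dist (u j) (v j) with ha
          rcases (hnn j).eq_or_lt with h0 | h0
          · rw [← ha] at h0
            rw [← h0]
            positivity
          · rw [← ha] at h0
            calc a = a ^ (1 - p) * a ^ p := by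
                  rw [← Real.rpow_add h0]
                  simp
              _ ≤ τ ^ (1 - p) * a ^ p := by
                  gcongr
      _ = τ ^ (1 - p) * ∑ j ∈ J, (|b j| ^ p * dist (u j) (v j) ^ p) := by rw [Finset.mul_sum]
      _ ≤ τ ^ (1 - p) * ∑ j, (|b j| ^ p * dist (u j) (v j) ^ p) := by
          gcongr
          exact Finset.subset_univ _
      _ ≤ τ ^ (1 - p) * K := by gcongr


theorem core {M : Type*} [MetricSpace M] {X : Type*} [NormedAddCommGroup X] [NormedSpace ℝ X]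
    (p : ℝ) (hp0 : 0 < p) (hp1 : p < 1) (z0 : M) (W : (M →₀ ℝ) →ₗ[ℝ] X) (CS : ℝ) (hCS : 1 ≤ CS)
    (hW : ∀ u v, ‖W (Finsupp.single u (1:ℝ) - Finsupp.single v (1:ℝ))‖ ≤ CS * dist u v)
    (R : ℝ) (hR : 1 < R) (x : ℕ → X) (hxR : ∀ n, ‖x n‖ ≤ R)
    (hsep : Pairwise fun m n => 1 ≤ ‖x m - x n‖)
    (K : ℝ) (hK : 0 < K) (L : ℕ) (hL : 1 ≤ L)
    (μ : ℕ → M →₀ ℝ) (hμx : ∀ n, ‖x n - W (μ n)‖ ≤ 1 / 16)
    (hμ : ∀ n, ∃ (m : ℕ) (b : Fin m → ℝ) (u v : Fin m → M),
      μ n = ∑ j, b j • (Finsupp.single (u j) (1:ℝ) - Finsupp.single (v j) (1:ℝ)) ∧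
      ∑ j, |b j| ^ p * dist (u j) (v j) ^ p ≤ K) :
    ∃ (A : Finset ℕ) (G : ℕ → M → ℝ), A.card = L ∧
      (∀ n ∈ A, ∀ u v, |G n u - G n v| ≤ 2 * dist u v) ∧
      (∀ u, ∀ n ∈ A, ∀ m ∈ A, G n u ≠ 0 → G m u ≠ 0 → n = m) ∧
      ∀ n ∈ A, 1 / (16 * CS) ≤ Finsupp.linearCombination ℝ (G n) (∑ m ∈ A, μ m) := by
  classical
  have hCS0 : 0 < CS := by linarith
  have hL0 : (0:ℝ) < L := by exact_mod_cast hL
  have hL1 : (1:ℝ) ≤ L := by exact_mod_cast hL
  set c : ℝ := 1 / (8 * CS) with hc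
  have hc0 : 0 < c := by positivity
  set ε : ℝ := c / (4 * L) with hε
  have hε0 : 0 < ε := by positivity
  have hp1' : 0 < 1 - p := by linarith
  -- threshold
  obtain ⟨τ, hτ, hτε⟩ : ∃ τ : ℝ, 0 < τ ∧ τ ^ (1 - p) * K = ε := by
    refine ⟨(ε / K) ^ (1 / (1 - p)), by positivity, ?_⟩
    rw [← Real.rpow_mul (by positivity), one_div, inv_mul_cancel₀ hp1'.ne', Real.rpow_one]
    field_simp
  -- decomposition
  have hdec : ∀ n, ∃ (S : Finset M) (β σ : M →₀ ℝ), z0 ∈ S ∧
      (S.card : ℝ) ≤ 2 * (K / τ ^ p) + 1 ∧ (∀ z, z ∉ S → β z = 0) ∧ μ n = β + σ ∧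
      ‖W σ‖ ≤ CS * ε ∧
      (∀ g : M → ℝ, (∀ u v, |g u - g v| ≤ 2 * dist u v) →
        |Finsupp.linearCombination ℝ g σ| ≤ 2 * ε) := by
    intro n
    obtain ⟨m, b, u, v, hμn, hcost⟩ := hμ n
    obtain ⟨S, J, β, h1, h2, h3, h4, h5⟩ := decomp p hp0 hp1 z0 m b u v K τ hτ hcost
    rw [hτε] at h5
    refine ⟨S, β, _, h1, h2, h3, hμn.trans h4, ?_, ?_⟩
    · rw [map_sum]
      calc ‖∑ j ∈ J, W (b j • (Finsupp.single (u j) (1:ℝ) - Finsupp.single (v j) (1:ℝ)))‖
          ≤ ∑ j ∈ J, ‖W (b j • (Finsupp.single (u j) (1:ℝ) - Finsupp.single (v j) (1:ℝ)))‖ :=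
            norm_sum_le _ _
        _ ≤ ∑ j ∈ J, CS * (|b j| * dist (u j) (v j)) := by
            refine Finset.sum_le_sum fun j _ => ?_
            rw [map_smul, norm_smul, Real.norm_eq_abs]
            have := mul_le_mul_of_nonneg_left (hW (u j) (v j)) (abs_nonneg (b j))
            linarith
        _ = CS * ∑ j ∈ J, |b j| * dist (u j) (v j) := by rw [Finset.mul_sum]
        _ ≤ CS * ε := by gcongr
    · intro g hg
      rw [map_sum]
      calc |∑ j ∈ J, Finsupp.linearCombination ℝ g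
              (b j • (Finsupp.single (u j) (1:ℝ) - Finsupp.single (v j) (1:ℝ)))|
          ≤ ∑ j ∈ J, |Finsupp.linearCombination ℝ g
              (b j • (Finsupp.single (u j) (1:ℝ) - Finsupp.single (v j) (1:ℝ)))| :=
            Finset.abs_sum_le_sum_abs _ _
        _ ≤ ∑ j ∈ J, 2 * (|b j| * dist (u j) (v j)) := by
            refine Finset.sum_le_sum fun j _ => ?_
            rw [map_smul, map_sub, Finsupp.linearCombination_single,
              Finsupp.linearCombination_single, smul_eq_mul, smul_eq_mul, smul_eq_mul, one_mul,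
              one_mul, abs_mul]
            have := mul_le_mul_of_nonneg_left (hg (u j) (v j)) (abs_nonneg (b j))
            linarith
        _ = 2 * ∑ j ∈ J, |b j| * dist (u j) (v j) := by rw [Finset.mul_sum]
        _ ≤ 2 * ε := by gcongr
  choose S β σ hz0 hScard hβ hμβσ hWσ hgσ using hdec
  set k : ℕ := ⌊2 * (K / τ ^ p) + 1⌋₊ with hk
  have hSk : ∀ n, (S n).card ≤ k := fun n => Nat.le_floor (hScard n)
  have hxβ : ∀ n, ‖x n - W (β n)‖ ≤ 1 / 8 := by
    intro n
    have h1 : x n - W (β n) = (x n - W (μ n)) + W (σ n) := by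
      rw [hμβσ n, map_add]; abel
    have h2 : CS * ε ≤ 1 / 16 := by
      have : CS * ε = 1 / (32 * L) := by
        rw [hε, hc]; field_simp; norm_num
      rw [this, div_le_div_iff₀ (by positivity) (by norm_num)]
      linarith
    calc ‖x n - W (β n)‖ ≤ ‖x n - W (μ n)‖ + ‖W (σ n)‖ := by rw [h1]; exact norm_add_le _ _
      _ ≤ 1 / 16 + 1 / 16 := add_le_add (hμx n) ((hWσ n).trans h2)
      _ = 1 / 8 := by norm_num
  -- the finite-dimensional subspaces
  let SD : Finset ℕ → Finset M := fun D => insert z0 (D.biUnion S)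
  let V : Finset ℕ → Submodule ℝ X := fun D =>
    Submodule.span ℝ (((SD D).image (fun z => W (Finsupp.single z (1:ℝ))) : Finset X) : Set X)
  have hVfin : ∀ D, FiniteDimensional ℝ (V D) := fun D => FiniteDimensional.span_finset ℝ _
  have hVrank : ∀ D, Module.finrank ℝ (V D) ≤ D.card * k + 1 := by
    intro D
    refine (finrank_span_finset_le_card _).trans ?_
    refine Finset.card_image_le.trans ?_
    refine (Finset.card_insert_le _ _).trans ?_
    gcongr
    refine Finset.card_biUnion_le.trans ?_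
    refine (Finset.sum_le_sum (fun n _ => hSk n)).trans ?_
    rw [Finset.sum_const, smul_eq_mul]
  let Bad : Finset ℕ → ℕ → Prop := fun D n => ∃ v ∈ V D, ‖x n - v‖ ≤ 1 / 4
  set Q1 : ℕ := ⌊(4 * (R + 1) + 1) ^ (L * k + 1)⌋₊ with hQ1
  obtain ⟨A, hAcard, hA⟩ := free_set L (L * Q1 + L) Q1 hL Bad (by
    intro D hD I hI
    refine Nat.le_floor ?_
    have hI' : ∀ n, ∃ v, n ∈ I → v ∈ V D ∧ ‖x n - v‖ ≤ 1 / 4 := by
      intro n
      by_cases hn : n ∈ I
      · obtain ⟨v, hv, hv'⟩ := (hI n hn).2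
        exact ⟨v, fun _ => ⟨hv, hv'⟩⟩
      · exact ⟨0, fun h => absurd h hn⟩
    choose v hv using hI'
    have := hVfin D
    refine packing (V D) (L * k + 1) ?_ (R + 1) (by linarith) I v (fun i hi => (hv i hi).1) ?_ ?_
    · refine (hVrank D).trans ?_
      rw [hD]
      gcongr
      omega
    · intro i hi
      have h1 := (hv i hi).2
      have h2 : v i = x i - (x i - v i) := by abel
      rw [h2]
      refine (norm_sub_le _ _).trans ?_
      have := hxR i
      linarith
    · intro i hi j hj hij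
      have h1 := (hv i hi).2
      have h2 := (hv j hj).2
      have h3 := hsep hij
      have h4 : x i - x j = (x i - v i) + (v i - v j) - (x j - v j) := by abel
      have h5 : ‖x i - x j‖ ≤ ‖x i - v i‖ + ‖v i - v j‖ + ‖x j - v j‖ := by
        rw [h4]
        refine (norm_sub_le _ _).trans ?_
        gcongr
        exact norm_add_le _ _
      linarith) le_rfl
  -- the functionals
  have hfun : ∀ n, ∃ g : M → ℝ, n ∈ A → (∀ u v, |g u - g v| ≤ dist u v) ∧
      (∀ z ∈ SD (A.erase n), g z = 0) ∧ c ≤ Finsupp.linearCombination ℝ g (β n) := by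
    intro n
    by_cases hn : n ∈ A
    swap
    · exact ⟨fun _ => 0, fun h => absurd h hn⟩
    have hnb := hA n hn
    simp only [Bad] at hnb
    push Not at hnb
    obtain ⟨f, hf1, hf2, hf3⟩ := exists_sep_functional (V (A.erase n)) (W (β n)) (1 / 8) (by
      intro v hv
      have h1 := hnb v hv
      have h2 := hxβ n
      have h3 : x n - v = (x n - W (β n)) + (W (β n) - v) := by abel
      have h4 : ‖x n - v‖ ≤ ‖x n - W (β n)‖ + ‖W (β n) - v‖ := by
        rw [h3]; exact norm_add_le _ _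
      linarith)
    have hlin : ∀ ν : M →₀ ℝ, Finsupp.linearCombination ℝ
        (fun z => f (W (Finsupp.single z (1:ℝ))) / CS) ν = f (W ν) / CS := by
      intro ν
      induction ν using Finsupp.induction_linear with
      | zero => simp
      | add a b ha hb => rw [map_add, ha, hb, map_add, map_add, add_div]
      | single a b =>
        rw [Finsupp.linearCombination_single, smul_eq_mul]
        have : Finsupp.single a b = b • Finsupp.single a (1:ℝ) := by simp
        rw [this, map_smul, map_smul, smul_eq_mul, mul_div_assoc]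
    refine ⟨fun z => f (W (Finsupp.single z (1:ℝ))) / CS, fun _ => ⟨?_, ?_, ?_⟩⟩
    · intro u v
      rw [← sub_div, ← map_sub, ← map_sub, abs_div, abs_of_pos hCS0, div_le_iff₀ hCS0]
      refine (hf1 _).trans ?_
      rw [mul_comm]
      exact hW u v
    · intro z hz
      have : f (W (Finsupp.single z (1:ℝ))) = 0 := by
        apply hf2
        apply Submodule.subset_span
        rw [Finset.mem_coe]
        exact Finset.mem_image_of_mem _ hz
      simp [this]
    · rw [hlin, hc, le_div_iff₀ hCS0]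
      refine le_trans (le_of_eq ?_) hf3
      field_simp
  choose g hg using hfun
  obtain ⟨G, hG1, hG2, hG3, hG4⟩ := bump A S z0 hz0 (fun n => (SD (A.erase n) : Set M))
    (fun n => by simp [SD]) (fun n m hm hmn z hz => by
      simp only [SD, Finset.coe_insert, Finset.coe_biUnion, Set.mem_insert_iff, Set.mem_iUnion,
        Finset.mem_coe]
      exact Or.inr ⟨m, Finset.mem_erase.2 ⟨hmn, hm⟩, hz⟩) g (fun n hn => (hg n hn).1)
    (fun n hn z hz => (hg n hn).2.1 z (by simpa using hz))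
  refine ⟨A, G, hAcard, hG1, hG4, ?_⟩
  intro n hn
  have hcomp : ∀ m ∈ A, Finsupp.linearCombination ℝ (G n) (β m) = 
      if m = n then Finsupp.linearCombination ℝ (g n) (β n) else 0 := by
    intro m hm
    by_cases hmn : m = n
    · rw [if_pos hmn, hmn, Finsupp.linearCombination_apply, Finsupp.linearCombination_apply]
      refine Finsupp.sum_congr fun z hz => ?_
      have : z ∈ S n := by
        by_contra hzS
        exact (Finsupp.mem_support_iff.1 hz) (hβ n z hzS)
      rw [hG2 n hn z this]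
    · rw [if_neg hmn, Finsupp.linearCombination_apply]
      refine Finset.sum_eq_zero fun z hz => ?_
      have : z ∈ S m := by
        by_contra hzS
        exact (Finsupp.mem_support_iff.1 hz) (hβ m z hzS)
      show (β m) z • G n z = 0
      rw [hG3 n hn m hm hmn z this, smul_zero]
  have hsum : Finsupp.linearCombination ℝ (G n) (∑ m ∈ A, μ m) =
      Finsupp.linearCombination ℝ (g n) (β n) + ∑ m ∈ A, Finsupp.linearCombination ℝ (G n) (σ m) := by
    rw [map_sum]
    have h1 : ∀ m ∈ A, Finsupp.linearCombination ℝ (G n) (μ m) =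
        (if m = n then Finsupp.linearCombination ℝ (g n) (β n) else 0) +
          Finsupp.linearCombination ℝ (G n) (σ m) := by
      intro m hm
      rw [hμβσ m, map_add, hcomp m hm]
    rw [Finset.sum_congr rfl h1, Finset.sum_add_distrib, Finset.sum_ite_eq' A n, if_pos hn]
  have h2 : |∑ m ∈ A, Finsupp.linearCombination ℝ (G n) (σ m)| ≤ L * (2 * ε) := by
    refine (Finset.abs_sum_le_sum_abs _ _).trans ?_
    refine (Finset.sum_le_sum (fun m _ => hgσ m (G n) (hG1 n hn))).trans ?_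
    rw [Finset.sum_const, hAcard, nsmul_eq_mul]
  have h3 : (L:ℝ) * (2 * ε) = c / 2 := by
    rw [hε]; field_simp; norm_num
  have h4 : 1 / (16 * CS) = c / 2 := by
    rw [hc]; field_simp; norm_num
  have h5 := (hg n hn).2.2
  rw [hsum, h4]
  rw [h3, abs_le] at h2
  linarith [h2.1]

theorem key (p : ℝ) (hp0 : 0 < p) (hp1 : p < 1) {M : Type} [MetricSpace M]
    {F : Type} [AddCommGroup F] [Module ℝ F] (N : F → ℝ) (ι : (M →₀ ℝ) →ₗ[ℝ] F)
    (hN0 : ∀ x, 0 ≤ N x) (hNz : ∀ x, N x = 0 ↔ x = 0)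
    (hNs : ∀ (c : ℝ) (x : F), N (c • x) = |c| * N x)
    (hNt : ∀ x y, N (x + y) ^ p ≤ N x ^ p + N y ^ p)
    (hGLB : ∀ μ : M →₀ ℝ, μ.sum (fun _ a => a) = 0 →
         IsGLB {t : ℝ | ∃ (n : ℕ) (b : Fin n → ℝ) (u v : Fin n → M),
             μ = ∑ j, b j • (Finsupp.single (u j) (1:ℝ) - Finsupp.single (v j) (1:ℝ)) ∧
             t = ∑ j, |b j| ^ p * dist (u j) (v j) ^ p} (N (ι μ) ^ p))
    (hdense : ∀ z : F, ∀ ε > 0, ∃ μ : M →₀ ℝ, μ.sum (fun _ a => a) = 0 ∧ N (z - ι μ) < ε)
    {X : Type} [NormedAddCommGroup X] [NormedSpace ℝ X] (hfin : ¬ FiniteDimensional ℝ X)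
    (T : X →ₗ[ℝ] F) (S : F →ₗ[ℝ] X) (CT : ℝ) (hT : ∀ x, N (T x) ≤ CT * ‖x‖)
    (CS : ℝ) (hS : ∀ y, ‖S y‖ ≤ CS * N y) (hST : ∀ x, S (T x) = x) : False := by
  classical
  -- a base point
  obtain ⟨z0⟩ : Nonempty M := by
    by_contra hM
    rw [not_nonempty_iff] at hM
    apply hfin
    have hzero : ∀ z : F, z = 0 := by
      intro z
      rw [← hNz]
      refine le_antisymm (le_of_forall_pos_lt_add fun ε hε => ?_) (hN0 z)
      obtain ⟨μ, _, hμ⟩ := hdense z ε hε
      have : μ = 0 := Subsingleton.elim _ _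
      rw [this, map_zero, sub_zero] at hμ
      linarith
    have hX : ∀ x : X, x = 0 := by
      intro x
      rw [← hST x, hzero (T x), map_zero]
    have : Subsingleton X := ⟨fun a b => by rw [hX a, hX b]⟩
    infer_instance
  obtain ⟨R, x, hR1, hxR, hsep⟩ := exists_seq_norm_le_one_le_norm_sub hfin
  -- positive constants
  obtain ⟨CT', hCT1, hT'⟩ : ∃ CT' : ℝ, 1 ≤ CT' ∧ ∀ x, N (T x) ≤ CT' * ‖x‖ :=
    ⟨max CT 1, le_max_right _ _, fun x => (hT x).trans
      (mul_le_mul_of_nonneg_right (le_max_left _ _) (norm_nonneg _))⟩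
  obtain ⟨CS', hCS1, hS'⟩ : ∃ CS' : ℝ, 1 ≤ CS' ∧ ∀ y, ‖S y‖ ≤ CS' * N y :=
    ⟨max CS 1, le_max_right _ _, fun y => (hS y).trans
      (mul_le_mul_of_nonneg_right (le_max_left _ _) (hN0 _))⟩
  have hCT0 : 0 < CT' := by linarith
  have hCS0 : 0 < CS' := by linarith
  have hR0 : 0 < R := by linarith
  set B : ℝ := (CT' * R) ^ p + 1 with hB
  have hB0 : 0 < B := by positivity
  set c : ℝ := 1 / (16 * CS') with hc
  have hc0 : 0 < c := by positivity
  -- choose L
  obtain ⟨L, hL1, hL⟩ : ∃ L : ℕ, 1 ≤ L ∧ 4 * B < (L : ℝ) ^ (1 - p) * c ^ p := by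
    have h1 : Filter.Tendsto (fun n : ℕ => ((n : ℝ)) ^ (1 - p)) Filter.atTop Filter.atTop :=
      (tendsto_rpow_atTop (by linarith)).comp tendsto_natCast_atTop_atTop
    have h2 := h1.eventually_gt_atTop (4 * B / c ^ p)
    obtain ⟨L, hL⟩ := (h2.and (Filter.eventually_ge_atTop 1)).exists
    refine ⟨L, hL.2, ?_⟩
    have := hL.1
    rwa [div_lt_iff₀ (by positivity)] at this
  have hL0 : (0:ℝ) < L := by exact_mod_cast hL1
  have hLge : (1:ℝ) ≤ L := by exact_mod_cast hL1
  -- approximation parameter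
  obtain ⟨η, hη0, hη1, hη2⟩ : ∃ η : ℝ, 0 < η ∧ CS' * η ≤ 1 / 16 ∧ η ^ p ≤ 1 / L := by
    refine ⟨min (1 / (16 * CS')) ((1 / L) ^ (1 / p)), by positivity, ?_, ?_⟩
    · calc CS' * min (1 / (16 * CS')) ((1 / (L:ℝ)) ^ (1 / p)) ≤ CS' * (1 / (16 * CS')) := by
            gcongr
            exact min_le_left _ _
        _ = 1 / 16 := by field_simp
    · calc (min (1 / (16 * CS')) ((1 / (L:ℝ)) ^ (1 / p))) ^ p ≤ ((1 / (L:ℝ)) ^ (1 / p)) ^ p := by
            refine Real.rpow_le_rpow (by positivity) (min_le_right _ _) hp0.le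
        _ = 1 / L := by
            rw [← Real.rpow_mul (by positivity), one_div p, inv_mul_cancel₀ hp0.ne', Real.rpow_one]
  have hηp : η ^ p ≤ 1 := hη2.trans (by rw [div_le_one hL0]; exact hLge)
  -- approximating measures
  have happ : ∀ n, ∃ μ : M →₀ ℝ, μ.sum (fun _ a => a) = 0 ∧ N (T (x n) - ι μ) < η :=
    fun n => hdense (T (x n)) η hη0
  choose μ hμ0 hμη using happ
  have hNneg : ∀ y, N (-y) = N y := by
    intro y
    have := hNs (-1) y
    simpa using this
  have hμN : ∀ n, N (ι (μ n)) ^ p ≤ B := by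
    intro n
    have h1 : ι (μ n) = T (x n) + -(T (x n) - ι (μ n)) := by abel
    have h2 : N (T (x n)) ^ p ≤ (CT' * R) ^ p := by
      refine Real.rpow_le_rpow (hN0 _) ((hT' _).trans ?_) hp0.le
      gcongr
      exact hxR n
    have h3 : N (-(T (x n) - ι (μ n))) ^ p ≤ 1 := by
      rw [hNneg]
      exact (Real.rpow_le_rpow (hN0 _) (hμη n).le hp0.le).trans hηp
    calc N (ι (μ n)) ^ p = N (T (x n) + -(T (x n) - ι (μ n))) ^ p := by rw [← h1]
      _ ≤ _ := hNt _ _
      _ ≤ B := by rw [hB]; exact add_le_add h2 h3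
  have hμrep : ∀ n, ∃ (m : ℕ) (b : Fin m → ℝ) (u v : Fin m → M),
      μ n = ∑ j, b j • (Finsupp.single (u j) (1:ℝ) - Finsupp.single (v j) (1:ℝ)) ∧
      ∑ j, |b j| ^ p * dist (u j) (v j) ^ p ≤ B + 1 := by
    intro n
    have h1 : N (ι (μ n)) ^ p < B + 1 := by linarith [hμN n]
    obtain ⟨t, ⟨m, b, u, v, h2, h3⟩, h4⟩ := (isGLB_lt_iff (hGLB (μ n) (hμ0 n))).1 h1
    exact ⟨m, b, u, v, h2, by rw [← h3]; exact h4.le⟩
  have hμx : ∀ n, ‖x n - (S ∘ₗ ι) (μ n)‖ ≤ 1 / 16 := by
    intro n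
    have h1 : x n - (S ∘ₗ ι) (μ n) = S (T (x n) - ι (μ n)) := by
      rw [map_sub, hST]; rfl
    rw [h1]
    refine (hS' _).trans (le_trans ?_ hη1)
    gcongr
    exact (hμη n).le
  have hW : ∀ u v, ‖(S ∘ₗ ι) (Finsupp.single u (1:ℝ) - Finsupp.single v (1:ℝ))‖
      ≤ CS' * dist u v := by
    intro u v
    have h0 : (Finsupp.single u (1:ℝ) - Finsupp.single v (1:ℝ)).sum (fun _ a => a) = 0 := by
      rw [Finsupp.sum_sub_index (fun _ _ _ => rfl)]
      simp
    have h1 : N (ι (Finsupp.single u (1:ℝ) - Finsupp.single v (1:ℝ))) ^ p ≤ dist u v ^ p := by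
      refine (hGLB _ h0).1 ⟨1, fun _ => 1, fun _ => u, fun _ => v, by simp, by simp⟩
    have h2 : N (ι (Finsupp.single u (1:ℝ) - Finsupp.single v (1:ℝ))) ≤ dist u v :=
      (Real.rpow_le_rpow_iff (hN0 _) dist_nonneg hp0).1 h1
    refine (hS' _).trans ?_
    gcongr
  obtain ⟨A, G, hAcard, hG1, hG2, hG3⟩ := core p hp0 hp1 z0 (S ∘ₗ ι) CS' hCS1 hW R hR1 x hxR hsep
    (B + 1) (by positivity) L hL1 μ hμx hμrep
  -- the average
  set ν : M →₀ ℝ := (1 / (L:ℝ)) • ∑ m ∈ A, μ m with hν
  have hmass : ∀ ρ : M →₀ ℝ, ρ.sum (fun _ a => a) = Finsupp.linearCombination ℝ (fun _ => (1:ℝ)) ρ := by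
    intro ρ
    rw [Finsupp.linearCombination_apply]
    simp
  have hν0 : ν.sum (fun _ a => a) = 0 := by
    rw [hmass, hν, map_smul, map_sum]
    rw [Finset.sum_eq_zero (fun m _ => by rw [← hmass, hμ0 m]), smul_zero]
  have hlow : (L : ℝ) ^ (1 - p) * c ^ p ≤ ∑ n ∈ A, |Finsupp.linearCombination ℝ (G n) ν| ^ p := by
    have h1 : ∀ n ∈ A, ((1 / (L:ℝ)) * c) ^ p ≤ |Finsupp.linearCombination ℝ (G n) ν| ^ p := by
      intro n hn
      refine Real.rpow_le_rpow (by positivity) ?_ hp0.le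
      refine le_trans ?_ (le_abs_self _)
      rw [hν, map_smul, smul_eq_mul]
      gcongr
      exact hG3 n hn
    have h2 := Finset.sum_le_sum h1
    rw [Finset.sum_const, hAcard, nsmul_eq_mul] at h2
    refine le_trans (le_of_eq ?_) h2
    rw [Real.mul_rpow (by positivity) hc0.le, Real.div_rpow zero_le_one hL0.le, Real.one_rpow,
      Real.rpow_sub hL0, Real.rpow_one]
    ring
  have hup : (∑ n ∈ A, |Finsupp.linearCombination ℝ (G n) ν| ^ p) / 4 ≤ N (ι ν) ^ p := by
    refine (hGLB ν hν0).2 ?_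
    rintro t ⟨m, b, u, v, h1, rfl⟩
    rw [div_le_iff₀ (by norm_num)]
    have h2 : ∀ n ∈ A, |Finsupp.linearCombination ℝ (G n) ν| ^ p ≤
        ∑ j, |b j| ^ p * |G n (u j) - G n (v j)| ^ p := by
      intro n _
      rw [h1, map_sum]
      refine (abs_sum_rpow_le _ _ p hp0 hp1.le).trans (le_of_eq ?_)
      refine Finset.sum_congr rfl fun j _ => ?_
      rw [map_smul, map_sub, Finsupp.linearCombination_single, Finsupp.linearCombination_single,
        smul_eq_mul, smul_eq_mul, smul_eq_mul, one_mul, one_mul, abs_mul,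
        Real.mul_rpow (abs_nonneg _) (abs_nonneg _)]
    refine (Finset.sum_le_sum h2).trans ?_
    rw [Finset.sum_comm, Finset.sum_mul]
    refine Finset.sum_le_sum fun j _ => ?_
    rw [← Finset.mul_sum, mul_assoc]
    gcongr
    rw [mul_comm]
    exact lp_bound A G p hp0 hp1.le hG1 hG2 (u j) (v j)
  -- upper bound of the average
  have hNsum : ∀ (s : Finset ℕ) (y : ℕ → F), N (∑ n ∈ s, y n) ^ p ≤ ∑ n ∈ s, N (y n) ^ p := by
    intro s y
    induction s using Finset.induction_on with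
    | empty =>
      have : N (0 : F) = 0 := (hNz 0).2 rfl
      simp [this, Real.zero_rpow hp0.ne']
    | insert a s ha ih =>
      rw [Finset.sum_insert ha, Finset.sum_insert ha]
      exact (hNt _ _).trans (by gcongr)
  have hNν : N (ι ν) ^ p ≤ B := by
    set xb : X := (1 / (L:ℝ)) • ∑ n ∈ A, x n with hxb
    have h1 : ι ν = T xb + ∑ n ∈ A, (-(1 / (L:ℝ))) • (T (x n) - ι (μ n)) := by
      rw [hν, hxb, map_smul, map_smul, map_sum, map_sum, ← Finset.smul_sum, Finset.sum_sub_distrib,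
        neg_smul, smul_sub]
      abel
    have hxbn : ‖xb‖ ≤ R := by
      rw [hxb, norm_smul, Real.norm_of_nonneg (by positivity)]
      have h2 : ‖∑ n ∈ A, x n‖ ≤ L * R := by
        refine (norm_sum_le _ _).trans ?_
        refine (Finset.sum_le_sum (fun n _ => hxR n)).trans ?_
        rw [Finset.sum_const, hAcard, nsmul_eq_mul]
      calc 1 / (L:ℝ) * ‖∑ n ∈ A, x n‖ ≤ 1 / (L:ℝ) * (L * R) := by gcongr
        _ = R := by field_simp
    have h2 : N (T xb) ^ p ≤ (CT' * R) ^ p := by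
      refine Real.rpow_le_rpow (hN0 _) ((hT' _).trans ?_) hp0.le
      gcongr
    have h3 : N (∑ n ∈ A, (-(1 / (L:ℝ))) • (T (x n) - ι (μ n))) ^ p ≤ 1 := by
      refine (hNsum _ _).trans ?_
      have h4 : ∀ n ∈ A, N ((-(1 / (L:ℝ))) • (T (x n) - ι (μ n))) ^ p ≤ 1 / L := by
        intro n _
        rw [hNs, abs_neg, abs_of_nonneg (by positivity)]
        refine le_trans (Real.rpow_le_rpow (by have := hN0 (T (x n) - ι (μ n)); positivity) ?_ hp0.le) hη2
        calc 1 / (L:ℝ) * N (T (x n) - ι (μ n)) ≤ 1 * N (T (x n) - ι (μ n)) := by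
              gcongr
              · exact hN0 _
              · rw [div_le_one hL0]; exact hLge
          _ ≤ η := by rw [one_mul]; exact (hμη n).le
      refine (Finset.sum_le_sum h4).trans ?_
      rw [Finset.sum_const, hAcard, nsmul_eq_mul]
      exact le_of_eq (by field_simp)
    calc N (ι ν) ^ p = N (T xb + ∑ n ∈ A, (-(1 / (L:ℝ))) • (T (x n) - ι (μ n))) ^ p := by rw [h1]
      _ ≤ _ := hNt _ _
      _ ≤ B := by rw [hB]; exact add_le_add h2 h3
  linarith

/-- The negation of the preceding statement: There are 0<p<1, a metric space M and an infinite-dimensional real Banach space X such that X maps boundedly into the free p-space of M with a bounded left inverse, i.e. X is isomorphic to a complemented subspace. -/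
theorem result :
    ¬ (∃ (p : ℝ), 0 < p ∧ p < 1 ∧
    ∃ (M : Type) (_ : MetricSpace M)
      (F : Type) (_ : AddCommGroup F) (_ : Module ℝ F)
      (N : F → ℝ) (ι : (M →₀ ℝ) →ₗ[ℝ] F),
      (∀ x, 0 ≤ N x) ∧ (∀ x, N x = 0 ↔ x = 0) ∧
      (∀ (c : ℝ) (x : F), N (c • x) = |c| * N x) ∧
      (∀ x y, N (x + y) ^ p ≤ N x ^ p + N y ^ p) ∧
      (∀ s : ℕ → F, (∀ ε > 0, ∃ K : ℕ, ∀ m ≥ K, ∀ n ≥ K, N (s m - s n) < ε) →
          ∃ z, Filter.Tendsto (fun n => N (s n - z)) Filter.atTop (nhds 0)) ∧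
      (∀ μ : M →₀ ℝ, μ.sum (fun _ a => a) = 0 →
         IsGLB {t : ℝ | ∃ (n : ℕ) (b : Fin n → ℝ) (u v : Fin n → M),
             μ = ∑ j, b j • (Finsupp.single (u j) (1:ℝ) - Finsupp.single (v j) (1:ℝ)) ∧
             t = ∑ j, |b j| ^ p * dist (u j) (v j) ^ p} (N (ι μ) ^ p)) ∧
      (∀ z : F, ∀ ε > 0, ∃ μ : M →₀ ℝ, μ.sum (fun _ a => a) = 0 ∧ N (z - ι μ) < ε) ∧
      ∃ (X : Type) (_ : NormedAddCommGroup X) (_ : NormedSpace ℝ X),
        CompleteSpace X ∧ ¬ FiniteDimensional ℝ X ∧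
        ∃ (T : X →ₗ[ℝ] F) (S : F →ₗ[ℝ] X),
          (∃ C : ℝ, ∀ x, N (T x) ≤ C * ‖x‖) ∧
          (∃ C : ℝ, ∀ y, ‖S y‖ ≤ C * N y) ∧
          ∀ x, S (T x) = x) := by
  rintro ⟨p, hp0, hp1, M, _, F, _, _, N, ι, hN0, hNz, hNs, hNt, _, hGLB, hdense, X, _, _, _, hfin,
    T, S, ⟨CT, hT⟩, ⟨CS, hS⟩, hST⟩
  exact key p hp0 hp1 N ι hN0 hNz hNs hNt hGLB hdense hfin T S CT hT CS hS hST

end Pool.Agent.S04810
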