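import Pool.Statements.S04971
import Pool.Agent.Helper26.Asym2

set_option autoImplicit false
open Filter Topology Asymptotics Real
open Pool Pool.MP_6dace2_an

namespace Pool.Agent.S04971

/-- For closed plates E_k(r) shrinking to distinct points z_k, with log-capacity μ_k r^ν_k(1+o(1)) and non-constant levels δ_k, the condenser capacity equals −2πΣ(δ_k−δ)²/(ν_k log r)+R/(log r)²+o(1/(log r)²) as r→0⁺. -/
theorem result :
  ∀ (n : ℕ) (z : Fin n → ℂ) (δ μ ν : Fin n → ℝ) (E : Fin n → ℝ → Set ℂ) (D R : ℝ),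
    Function.Injective z →
    (∃ k l, δ k ≠ δ l) →
    (∀ k, 0 < μ k) → (∀ k, 0 < ν k) →
    (∀ k r, IsClosed (E k r)) →
    (∀ k, ∀ ε > 0, ∀ᶠ r in 𝓝[>] (0:ℝ), E k r ⊆ Metric.ball (z k) ε) →
    (∀ k, Tendsto (fun r : ℝ =>
        (⨅ m : ℕ, ⨆ w : Fin (m+2) → E k r,
          (∏ i : Fin (m+2), ∏ j ∈ Finset.Ioi i, ‖(w i : ℂ) - (w j : ℂ)‖)
            ^ ((2:ℝ) / (((m:ℝ) + 2) * ((m:ℝ) + 1)))) / (μ k * r ^ (ν k)))
        (𝓝[>] 0) (𝓝 1)) →
    D = (∑ k, δ k / ν k) / (∑ k, 1 / ν k) →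
    R = 2 * π * (∑ k, (δ k - D) ^ 2 / (ν k) ^ 2 * Real.log (μ k)
        + ∑ k, ∑ l ∈ Finset.univ.erase k,
            (δ k - D) * (δ l - D) / (ν k * ν l) * Real.log ‖z k - z l‖) →
    (fun r : ℝ =>
        (⨅ (u : ℂ → ℝ) (_ : LocallyLipschitz u ∧ (∃ c : ℝ, Tendsto u (cocompact ℂ) (𝓝 c)) ∧
              ∀ k, ∀ x ∈ E k r, u x = δ k),
            ∫⁻ x, (‖fderiv ℝ u x‖₊ : ENNReal) ^ 2).toReal
        - (-(2 * π) * ∑ k, (δ k - D) ^ 2 / (ν k * Real.log r) + R * (1 / Real.log r) ^ 2))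
      =o[𝓝[>] 0] (fun r : ℝ => (1 / Real.log r) ^ 2) := by
  intro n z δ μ ν E D R hinj hnc hμ hν hcl hsh hcap hD hR
  have h : Helper26.Hyp z δ μ ν E D := ⟨hinj, hnc, hμ, hν, hcl, hsh, hcap, hD⟩
  rw [isLittleO_iff]
  intro c hc
  have hpi := Real.pi_pos
  have hs : 0 < c / (2 * π) := by positivity
  have hA := h.AA_pos
  have e3 : ∀ᶠ r in 𝓝[>] (0:ℝ), 0 < -Real.log r :=
    Helper26.Hyp.tendsto_L.eventually_gt_atTop 0
  have e4 : ∀ᶠ r in 𝓝[>] (0:ℝ), -(Helper26.RR z δ μ ν D + c / (2 * π)) <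
      Helper26.AA δ ν D * (-Real.log r) :=
    (Tendsto.const_mul_atTop hA Helper26.Hyp.tendsto_L).eventually_gt_atTop _
  filter_upwards [h.lower hs, h.upper hs, e3, e4] with r hlo hup hL hAL
  set C : ENNReal := Helper26.CapC (fun k => E k r) δ with hC
  have hC' : (⨅ (u : ℂ → ℝ) (_ : LocallyLipschitz u ∧
      (∃ c : ℝ, Tendsto u (cocompact ℂ) (𝓝 c)) ∧ ∀ k, ∀ x ∈ E k r, u x = δ k),
            ∫⁻ x, (‖fderiv ℝ u x‖₊ : ENNReal) ^ 2) = C := rfl
  rw [hC']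
  have hCtop : C ≠ ⊤ := ne_top_of_le_ne_top ENNReal.ofReal_ne_top hup
  set A := Helper26.AA δ ν D with hAdef
  set RR := Helper26.RR z δ μ ν D with hRRdef
  have hRR : R = 2 * π * RR := hR
  set L : ℝ := -Real.log r with hLdef
  have hlog : Real.log r = -L := by
    rw [hLdef]
    ring
  have hsum : ∑ k, (δ k - D) ^ 2 / (ν k * Real.log r) = -(A / L) := by
    rw [hAdef]
    unfold Helper26.AA
    rw [Finset.sum_div, ← Finset.sum_neg_distrib]
    apply Finset.sum_congr rfl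
    intro k _
    rw [hlog]
    have := (hν k).ne'
    field_simp
  have hinv : (1 / Real.log r) ^ 2 = 1 / L ^ 2 := by
    rw [hlog]
    field_simp
  rw [hsum, hinv, hRR, Real.norm_eq_abs, Real.norm_eq_abs, abs_of_pos (by positivity : 0 < 1 / L ^ 2)]
  have h1 : 2 * π * (A / L + (RR - c / (2 * π)) / L ^ 2) ≤ C.toReal := by
    rcases le_or_gt (2 * π * (A / L + (RR - c / (2 * π)) / L ^ 2)) 0 with h0 | h0
    · exact h0.trans ENNReal.toReal_nonneg
    · exact (ENNReal.ofReal_le_iff_le_toReal hCtop).mp hlo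
  have h2 : C.toReal ≤ 2 * π * (A / L + (RR + c / (2 * π)) / L ^ 2) := by
    rcases le_or_gt 0 (2 * π * (A / L + (RR + c / (2 * π)) / L ^ 2)) with h0 | h0
    · exact ENNReal.toReal_le_of_le_ofReal h0 hup
    · exfalso
      have h3 : A / L + (RR + c / (2 * π)) / L ^ 2 = (A * L + (RR + c / (2 * π))) / L ^ 2 := by
        field_simp
      have h4 : 0 < (A * L + (RR + c / (2 * π))) / L ^ 2 := by
        apply div_pos _ (by positivity)
        linarith
      rw [h3] at h0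
      have h5 : 0 < 2 * π * ((A * L + (RR + c / (2 * π))) / L ^ 2) := by positivity
      linarith
  have e1 : 2 * π * (A / L + (RR - c / (2 * π)) / L ^ 2) =
      -(2 * π) * -(A / L) + 2 * π * RR * (1 / L ^ 2) - c * (1 / L ^ 2) := by
    field_simp
    ring
  have e2 : 2 * π * (A / L + (RR + c / (2 * π)) / L ^ 2) =
      -(2 * π) * -(A / L) + 2 * π * RR * (1 / L ^ 2) + c * (1 / L ^ 2) := by
    field_simp
    ring
  rw [abs_le]
  constructor
  · linarith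
  · linarith

end Pool.Agent.S04971
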