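import Pool.Statements.S05352
import Pool.Agent.Helper82.PL.Final2
import Pool.Agent.Helper82.PL.Barrier
import Pool.Agent.Helper32.PL.R
import Pool.Agent.Helper33.PL.Exist
import Pool.Agent.Helper50.PL.Pass2
import Pool.Agent.Helper51.PL.BoundS
import Pool.Agent.Helper51.PL.JetA
import Pool.Agent.Helper51.PL.Prof
import Pool.Agent.Helper54.PL.EL
import Pool.Agent.Helper57.PL.Lim
import Pool.Agent.Helper61.PL.Trunc
import Pool.Agent.Helper74.PL.Polar
import Pool.Agent.Helper8.PL.Rd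
import Pool.Agent.Helper8.PL.U
import Pool.Agent.Helper94.PL.Ext
import Pool.Agent.Helper10.PL.Ibp

set_option autoImplicit false
open Pool Pool.MP_8d56bc_an

namespace Pool.Agent.S05352

/-- The negation of the preceding statement: For d≥2, 1<p: if V is L∞_loc, ∣x∣^p∣V∣ is bounded near ζ∈{0,∞}, and −Δ_p w+V w^{p−1}=0 has a positive weak solution in Ω, then any two positive solutions near ζ satisfy u∼v, u≺v or v≺u. -/
theorem result :
    ¬ (∀ (d : ℕ), 2 ≤ d → ∀ (p : ℝ), 1 < p →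
  ∀ Sol : (EuclideanSpace ℝ (Fin d) → ℝ) → Set (EuclideanSpace ℝ (Fin d)) →
      (EuclideanSpace ℝ (Fin d) → ℝ) → Prop,
  (∀ V U u, Sol V U u ↔
      (ContinuousOn u U ∧ (∀ x ∈ U, 0 < u x) ∧
        ∃ g : EuclideanSpace ℝ (Fin d) → EuclideanSpace ℝ (Fin d),
          MeasureTheory.LocallyIntegrableOn g U ∧
          MeasureTheory.LocallyIntegrableOn (fun x => ‖g x‖ ^ p) U ∧
          ∀ φ : EuclideanSpace ℝ (Fin d) → ℝ, ContDiff ℝ (⊤ : ℕ∞) φ → HasCompactSupport φ →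
            tsupport φ ⊆ U →
            ((∫ x, u x • gradient φ x) = -∫ x, φ x • g x) ∧
            (∫ x, (‖g x‖ ^ (p - 2) * inner ℝ (g x) (gradient φ x)
                    + V x * u x ^ (p - 1) * φ x)) = 0)) →
  ∀ (L : Filter (EuclideanSpace ℝ (Fin d))) (Ω : Set (EuclideanSpace ℝ (Fin d)))
    (V : EuclideanSpace ℝ (Fin d) → ℝ),
  ((L = nhdsWithin (0 : EuclideanSpace ℝ (Fin d)) {0}ᶜ ∧ (0 : EuclideanSpace ℝ (Fin d)) ∉ Ω)
      ∨ L = Bornology.cobounded (EuclideanSpace ℝ (Fin d))) →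
  IsOpen Ω → IsConnected Ω → Ω ∈ L →
  MeasureTheory.AEStronglyMeasurable V MeasureTheory.volume →
  (∀ K : Set (EuclideanSpace ℝ (Fin d)), IsCompact K → K ⊆ Ω →
      ∃ C : ℝ, ∀ᵐ x ∂MeasureTheory.volume, x ∈ K → |V x| ≤ C) →
  (∃ C : ℝ, ∃ S ∈ L, ∀ᵐ x ∂MeasureTheory.volume, x ∈ S → ‖x‖ ^ p * |V x| ≤ C) →
  (∃ w, Sol V Ω w) →
  ∀ (U W : Set (EuclideanSpace ℝ (Fin d))) (u v : EuclideanSpace ℝ (Fin d) → ℝ),
    IsOpen U → U ⊆ Ω → U ∈ L → IsOpen W → W ⊆ Ω → W ∈ L →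
    Sol V U u → Sol V W v →
    (∃ C : ℝ, 0 < C ∧ Filter.Tendsto (fun x => u x / v x) L (nhds C)) ∨
    Filter.Tendsto (fun x => u x / v x) L (nhds 0) ∨
    (∃ C : ℝ, 0 < C ∧ Filter.Tendsto (fun x => v x / u x) L (nhds C)) ∨
    Filter.Tendsto (fun x => v x / u x) L (nhds 0)) := by
  have hI : Pool.Agent.Helper82.PL.stmtIBP := Pool.Agent.Helper10.PL.ibp
  have hE := Pool.Agent.Helper94.PL.ext
  have hInt := Pool.Agent.Helper33.PL.int_ok
  have hLow := Pool.Agent.Helper33.PL.low_ok hInt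
  have hMid := Pool.Agent.Helper33.PL.mid_ok hInt
  have hEL := Pool.Agent.Helper54.PL.el_ok hInt hLow hE
  have hLim := Pool.Agent.Helper57.PL.lim_ok Pool.Agent.Helper57.PL.morrey
  have hPass := Pool.Agent.Helper50.PL.pass_ok hI hE
  have hExist := Pool.Agent.Helper33.PL.exist_ok hLow hMid hEL hLim hPass
  have hUp := Pool.Agent.Helper61.PL.truncUp_ok hI hE hInt
  have hDown := Pool.Agent.Helper61.PL.truncDown_ok hI hE hInt
  have hPolar := Pool.Agent.Helper74.PL.polar_ok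
  have hProf := Pool.Agent.Helper51.PL.prof_ok
  have hPsi := Pool.Agent.Helper51.PL.psi_ok hProf
  have hR := Pool.Agent.Helper32.PL.r_ok hProf
  have hRd := Pool.Agent.Helper8.PL.rd_ok hProf hR
  have hJetS := Pool.Agent.Helper51.PL.jetS_ok hProf hR hRd Pool.Agent.Helper51.PL.g_ok
  have hEven := Pool.Agent.Helper51.PL.evenS_ok
  have hBound := Pool.Agent.Helper51.PL.boundS_ok hProf hR hRd
  have hJetA := Pool.Agent.Helper51.PL.jetA_ok hProf
  have hJetAA := Pool.Agent.Helper51.PL.jetAA_ok hProf hJetA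
  have hU := Pool.Agent.Helper8.PL.u_ok hPolar hJetAA
  have hSolU := Pool.Agent.Helper8.PL.solU_ok hI
  have hOm := Pool.Agent.Helper8.PL.om_ok
  have hBar := Pool.Agent.Helper82.PL.barrier_ok hProf hPsi hR hBound hEven
  exact Pool.Agent.Helper82.PL.final_neg hExist hUp hDown hPolar hJetA hJetS hJetAA hBound hEven
    hBar hU hOm hSolU

end Pool.Agent.S05352
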