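import Pool.Statements.S05550
import Pool.Agent.Helper30.NIFinal

set_option autoImplicit false
open Pool Pool.MP_9d0e4c_an

namespace Pool.Agent.S05550

/-- The negation of the preceding statement: For every real or complex Banach space X in which every Lipschitz map from the reals is differentiable almost everywhere (RNP), the numerical index of X equals the numerical index of its dual X*. -/
theorem result :
    ¬ (∀ (𝕜 : Type) [RCLike 𝕜] (X : Type) [NormedAddCommGroup X] [NormedSpace ℝ X]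
      [NormedSpace 𝕜 X] [IsScalarTower ℝ 𝕜 X] [CompleteSpace X],
      (∀ (f : ℝ → X) (K : NNReal), LipschitzWith K f →
        ∀ᵐ t ∂(MeasureTheory.volume : MeasureTheory.Measure ℝ), DifferentiableAt ℝ f t) →
      (⨅ T : {T : X →L[𝕜] X // ‖T‖ = 1},
          ⨆ p : {p : X × (X →L[𝕜] 𝕜) // ‖p.1‖ = 1 ∧ ‖p.2‖ = 1 ∧ p.2 p.1 = 1},
            ‖p.1.2 (T.1 p.1.1)‖)
        =
      (⨅ T : {T : (X →L[𝕜] 𝕜) →L[𝕜] (X →L[𝕜] 𝕜) // ‖T‖ = 1},
          ⨆ p : {p : (X →L[𝕜] 𝕜) × ((X →L[𝕜] 𝕜) →L[𝕜] 𝕜) //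
                  ‖p.1‖ = 1 ∧ ‖p.2‖ = 1 ∧ p.2 p.1 = 1},
            ‖p.1.2 (T.1 p.1.1)‖)) := by
  intro H
  have h := H ℝ Pool.Agent.Helper30.XX Pool.Agent.Helper30.XX_rnp
  have h2 : Pool.Agent.Helper30.nidx Pool.Agent.Helper30.XX =
      Pool.Agent.Helper30.nidx Pool.Agent.Helper30.XD := h
  have h3 := Pool.Agent.Helper30.nidx_XX
  have h4 := Pool.Agent.Helper30.nidx_XD
  rw [h2] at h3
  have := h3.trans h4
  norm_num at this

end Pool.Agent.S05550
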