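import Pool.Statements.S05716
import Pool.Agent.Helper77.BN.Top
import Pool.Agent.Helper77.BN.NonIso

set_option autoImplicit false
open Pool Pool.MP_a6e7fb_an

namespace Pool.Agent.S05716

/-- The negation of the preceding statement: For all infinite compact metric spaces K1, K2: if the real Banach spaces C(βN×βN×K1) and C(βN×βN×K2) are isomorphic, then C(K1) and C(K2) are isomorphic. -/
theorem result :
    ¬ (∀ (K₁ K₂ : Type) [MetricSpace K₁] [CompactSpace K₁] [Infinite K₁]
      [MetricSpace K₂] [CompactSpace K₂] [Infinite K₂],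
      Nonempty (ContinuousMap (StoneCech ℕ × StoneCech ℕ × K₁) ℝ ≃L[ℝ]
        ContinuousMap (StoneCech ℕ × StoneCech ℕ × K₂) ℝ) →
      Nonempty (ContinuousMap K₁ ℝ ≃L[ℝ] ContinuousMap K₂ ℝ)) := by
  intro H
  have hm1 : TopologicalSpace.MetrizableSpace (OnePoint ℕ) :=
    Pool.Agent.Helper77.BN.sE_emb.isEmbedding.metrizableSpace
  let m1 : MetricSpace (OnePoint ℕ) := TopologicalSpace.metrizableSpaceMetric (OnePoint ℕ)
  let m2 : MetricSpace (ℕ → Bool) := TopologicalSpace.metrizableSpaceMetric (ℕ → Bool)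
  exact Pool.Agent.Helper77.BN.not_iso
    (H (OnePoint ℕ) (ℕ → Bool) Pool.Agent.Helper77.BN.iso_UV)

end Pool.Agent.S05716
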