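import Pool.Statements.S05877
import Pool.Agent.Helper30.DL.FinB
import Pool.Agent.Helper30.DL.FinC

set_option autoImplicit false
open Pool Pool.MP_b4564f_an

namespace Pool.Agent.S05877

/-- For α>1, β>0, k≥0: if the equilibrium (α−1)/β of x_{n+1}=αx_n/(1+βx_{n−k}) is locally asymptotically stable (Lyapunov stable and locally attracting), then every solution with positive initial values converges to it. -/
theorem result :
    ∀ (α β : ℝ) (k : ℕ), 1 < α → 0 < β →
      ((∀ ε : ℝ, 0 < ε → ∃ δ : ℝ, 0 < δ ∧ ∀ x : ℕ → ℝ,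
          (∀ n, x (n + k + 1) = α * x (n + k) / (1 + β * x n)) →
          (∀ i ≤ k, 0 < x i) →
          (∀ i ≤ k, |x i - (α - 1) / β| < δ) →
          ∀ n, |x n - (α - 1) / β| < ε) ∧
       (∃ γ : ℝ, 0 < γ ∧ ∀ x : ℕ → ℝ,
          (∀ n, x (n + k + 1) = α * x (n + k) / (1 + β * x n)) →
          (∀ i ≤ k, 0 < x i) →
          (∀ i ≤ k, |x i - (α - 1) / β| < γ) →
          Filter.Tendsto x Filter.atTop (nhds ((α - 1) / β)))) →
      ∀ x : ℕ → ℝ,
        (∀ n, x (n + k + 1) = α * x (n + k) / (1 + β * x n)) →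
        (∀ i ≤ k, 0 < x i) →
        Filter.Tendsto x Filter.atTop (nhds ((α - 1) / β)) := by
  intro α β k hα hβ hst x hx h0
  rcases le_or_gt ((α - 1) / α) (2 * Real.cos (k * Real.pi / (2 * k + 1))) with hc | hc
  · exact Pool.Agent.Helper30.DL.conv_pos Pool.Agent.Helper30.DL.all hα hβ hc hx h0
  · exfalso
    obtain ⟨ε, hε, h⟩ := Pool.Agent.Helper30.DL.unstable hα hβ hc
    obtain ⟨δ, hδ, hst'⟩ := hst.1 ε hε
    obtain ⟨x, hx, hpos, hclose, n, hn⟩ := h δ hδ
    exact absurd (hst' x hx hpos hclose n) (not_lt.mpr hn)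

end Pool.Agent.S05877
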