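import Pool.Statements.S06356
import Pool.Agent.Helper5.NE.Final
import Pool.Agent.Helper5.NE.KillEx
import Pool.Agent.Helper96.NE.Gap
import Pool.Agent.Helper8.NE.QE
import Pool.Agent.Helper17.NE5.Transfer
import Pool.Agent.Helper28.NE.QEForm
import Pool.Agent.Helper64.NE.State
import Pool.Agent.Helper64.NE.Form
import Pool.Agent.Helper8.NE.Kesten
import Pool.Agent.Helper40.NE.PartA
import Pool.Agent.Helper88.NE.Sel
import Pool.Agent.Helper91.NE.PartB
import Pool.Agent.Helper13.NE.Blk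
import Pool.Agent.Helper77.NE.Fact
import Pool.Agent.Helper11.NE.RotMain
import Pool.Agent.Helper27.NE.Exact
import Pool.Agent.Helper22.NE.Small

set_option autoImplicit false
open Pool Pool.MP_d99be0_an

namespace Pool.Agent.S06356

/-- The negation of the preceding statement: Every nonseparable C*-algebra that embeds nuclearly into some C*-algebra (i.e. is exact) admits an injective *-homomorphism into a C*-algebra whose identity is approximated by ccp maps through finite-dimensional C*-algebras (i.e. is nuclear). -/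
theorem result :
    ¬ (∀ (A : Type) [NonUnitalCStarAlgebra A], ¬ TopologicalSpace.SeparableSpace A →
    (∃ (B : Type) (_ : NonUnitalCStarAlgebra B) (π : A →⋆ₙₐ[ℂ] B), Function.Injective π ∧
      ∀ (F : Finset A) (ε : ℝ), 0 < ε →
        ∃ (D : Type) (_ : CStarAlgebra D) (_ : FiniteDimensional ℂ D)
          (φ : A →ₗ[ℂ] D) (ψ : D →ₗ[ℂ] B),
          (∀ a, ‖φ a‖ ≤ ‖a‖) ∧ (∀ d, ‖ψ d‖ ≤ ‖d‖) ∧
          (∀ (n : ℕ) (y : Matrix (Fin n) (Fin n) A),
            ∃ z : Matrix (Fin n) (Fin n) D, (star y * y).map φ = star z * z) ∧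
          (∀ (n : ℕ) (y : Matrix (Fin n) (Fin n) D),
            ∃ z : Matrix (Fin n) (Fin n) B, (star y * y).map ψ = star z * z) ∧
          ∀ a ∈ F, ‖ψ (φ a) - π a‖ < ε) →
    ∃ (C : Type) (_ : NonUnitalCStarAlgebra C) (ι : A →⋆ₙₐ[ℂ] C), Function.Injective ι ∧
      ∀ (F : Finset C) (ε : ℝ), 0 < ε →
        ∃ (D : Type) (_ : CStarAlgebra D) (_ : FiniteDimensional ℂ D)
          (φ : C →ₗ[ℂ] D) (ψ : D →ₗ[ℂ] C),
          (∀ c, ‖φ c‖ ≤ ‖c‖) ∧ (∀ d, ‖ψ d‖ ≤ ‖d‖) ∧
          (∀ (n : ℕ) (y : Matrix (Fin n) (Fin n) C),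
            ∃ z : Matrix (Fin n) (Fin n) D, (star y * y).map φ = star z * z) ∧
          (∀ (n : ℕ) (y : Matrix (Fin n) (Fin n) D),
            ∃ z : Matrix (Fin n) (Fin n) C, (star y * y).map ψ = star z * z) ∧
          ∀ c ∈ F, ‖ψ (φ c) - c‖ < ε) := by
  have hQE : Pool.Agent.Helper5.NE.QEStmt :=
    Pool.Agent.Helper8.NE.qe Pool.Agent.Helper96.NE.gap
  have hQF : Pool.Agent.Helper5.NE.QEFormStmt :=
    Pool.Agent.Helper5.NE.qeForm hQE Pool.Agent.Helper17.NE5.transfer
  have hFact : Pool.Agent.Helper5.NE.FactStmt :=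
    Pool.Agent.Helper77.NE.fact Pool.Agent.Helper13.NE.blk
  exact Pool.Agent.Helper5.NE.not_main
    (Pool.Agent.Helper64.NE.form Pool.Agent.Helper64.NE.state)
    Pool.Agent.Helper64.NE.formGood
    (Pool.Agent.Helper5.NE.partA Pool.Agent.Helper8.NE.kesten Pool.Agent.Helper64.NE.formGood)
    (Pool.Agent.Helper5.NE.killEx Pool.Agent.Helper88.NE.sel hQF)
    Pool.Agent.Helper91.NE.partB
    Pool.Agent.Helper22.NE.adFam Pool.Agent.Helper22.NE.code
    (Pool.Agent.Helper5.NE.exact hFact Pool.Agent.Helper11.NE.rotStmt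
      Pool.Agent.Helper5.NE.nnAlg)
    Pool.Agent.Helper22.NE.nonSep

end Pool.Agent.S06356
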