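import Pool.Statements.S06672

set_option autoImplicit false
open Pool Pool.MP_f23f32_an

namespace Pool.Agent.S06672

open Filter Topology

section Limit

variable {H : Type*} [NormedAddCommGroup H] [InnerProductSpace ℂ H] [CompleteSpace H]
variable {Γ : Type*}

/-- bounded complex sequences converge along an ultrafilter -/
theorem exists_tendsto_of_bdd (U : Ultrafilter Γ) (f : Γ → ℂ) (C : ℝ) (hf : ∀ k, ‖f k‖ ≤ C) :
    ∃ a : ℂ, Tendsto f U (𝓝 a) ∧ ‖a‖ ≤ C := by
  have hK : IsCompact (Metric.closedBall (0 : ℂ) C) := isCompact_closedBall 0 C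
  have hmem : ((U.map f : Ultrafilter ℂ) : Filter ℂ) ≤ 𝓟 (Metric.closedBall (0 : ℂ) C) := by
    rw [le_principal_iff]
    change ∀ᶠ k in (U : Filter Γ), f k ∈ Metric.closedBall (0 : ℂ) C
    exact Eventually.of_forall fun k => by simpa [Metric.mem_closedBall, dist_zero_right] using hf k
  obtain ⟨a, ha, hle⟩ := hK.ultrafilter_le_nhds (U.map f) hmem
  refine ⟨a, ?_, by simpa [Metric.mem_closedBall, dist_zero_right] using ha⟩
  simpa [Tendsto] using hle

/-- existence of a weak operator limit of a bounded family along an ultrafilter -/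
theorem exists_wot_limit (U : Ultrafilter Γ) (T : Γ → (H →L[ℂ] H)) (C : ℝ) (hC : 0 ≤ C)
    (hT : ∀ k, ‖T k‖ ≤ C) :
    ∃ S : H →L[ℂ] H, ‖S‖ ≤ C ∧
      ∀ v w : H, Tendsto (fun k => inner ℂ (T k v) w) U (𝓝 (inner ℂ (S v) w)) := by
  have hb : ∀ v w : H, ∀ k, ‖(inner ℂ (T k v) w : ℂ)‖ ≤ C * ‖v‖ * ‖w‖ := by
    intro v w k
    calc ‖(inner ℂ (T k v) w : ℂ)‖ ≤ ‖T k v‖ * ‖w‖ := norm_inner_le_norm _ _
      _ ≤ (C * ‖v‖) * ‖w‖ := by
        gcongr
        exact (T k).le_of_opNorm_le (hT k) v
  choose L hL hLn using fun v w : H => exists_tendsto_of_bdd U _ _ (hb v w)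
  let B₀ : H →ₗ⋆[ℂ] H →ₗ[ℂ] ℂ := LinearMap.mk₂'ₛₗ (starRingEnd ℂ) (RingHom.id ℂ) L
    (by
      intro v₁ v₂ w
      refine tendsto_nhds_unique (hL (v₁ + v₂) w) ?_
      simpa [inner_add_left] using (hL v₁ w).add (hL v₂ w))
    (by
      intro c v w
      refine tendsto_nhds_unique (hL (c • v) w) ?_
      simpa [inner_smul_left, mul_comm] using (hL v w).const_mul ((starRingEnd ℂ) c))
    (by
      intro v w₁ w₂
      refine tendsto_nhds_unique (hL v (w₁ + w₂)) ?_
      simpa [inner_add_right] using (hL v w₁).add (hL v w₂))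
    (by
      intro c v w
      refine tendsto_nhds_unique (hL v (c • w)) ?_
      simpa [inner_smul_right] using (hL v w).const_mul c)
  let B : H →L⋆[ℂ] H →L[ℂ] ℂ := B₀.mkContinuous₂ C (fun v w => hLn v w)
  refine ⟨InnerProductSpace.continuousLinearMapOfBilin B, ?_, ?_⟩
  · refine ContinuousLinearMap.opNorm_le_bound _ hC fun v => ?_
    have h1 : ∀ w, ‖inner ℂ (InnerProductSpace.continuousLinearMapOfBilin B v) w‖
        ≤ C * ‖v‖ * ‖w‖ := by
      intro w
      rw [InnerProductSpace.continuousLinearMapOfBilin_apply]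
      exact hLn v w
    have h2 := h1 (InnerProductSpace.continuousLinearMapOfBilin B v)
    rw [inner_self_eq_norm_sq_to_K, norm_pow, RCLike.norm_ofReal, abs_norm, sq] at h2
    by_cases h0 : ‖InnerProductSpace.continuousLinearMapOfBilin B v‖ = 0
    · rw [h0]; positivity
    · exact le_of_mul_le_mul_right h2 (lt_of_le_of_ne (norm_nonneg _) (Ne.symm h0))
  · intro v w
    rw [InnerProductSpace.continuousLinearMapOfBilin_apply]
    exact hL v w

variable (U : Ultrafilter Γ) (V : Γ → (H →L[ℂ] H)) (hV : ∀ k, ‖V k‖ ≤ 1)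

include hV in
theorem exists_conj_limit (x : H →L[ℂ] H) :
    ∃ S : H →L[ℂ] H, ‖S‖ ≤ ‖x‖ ∧
      ∀ v w : H, Tendsto (fun k => inner ℂ (x (V k v)) (V k w)) U (𝓝 (inner ℂ (S v) w)) := by
  have hT : ∀ k, ‖star (V k) * x * V k‖ ≤ ‖x‖ := by
    intro k
    calc ‖star (V k) * x * V k‖ ≤ ‖star (V k)‖ * ‖x‖ * ‖V k‖ := norm_mul₃_le
      _ ≤ 1 * ‖x‖ * 1 := by
        gcongr
        · rw [norm_star]; exact hV k
        · exact hV k
      _ = ‖x‖ := by ring
  obtain ⟨S, hS, hlim⟩ := exists_wot_limit U (fun k => star (V k) * x * V k) ‖x‖ (norm_nonneg _) hT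
  refine ⟨S, hS, fun v w => ?_⟩
  refine (hlim v w).congr fun k => ?_
  simp [ContinuousLinearMap.star_eq_adjoint, ContinuousLinearMap.adjoint_inner_left]

/-- the map `x ↦ lim_{k → U} (V k)^* x (V k)` -/
noncomputable def psi : (H →L[ℂ] H) →ₗ[ℂ] (H →L[ℂ] H) where
  toFun x := (exists_conj_limit U V hV x).choose
  map_add' x y := by
    have hx := (exists_conj_limit U V hV x).choose_spec.2
    have hy := (exists_conj_limit U V hV y).choose_spec.2
    have hxy := (exists_conj_limit U V hV (x + y)).choose_spec.2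
    ext v
    refine ext_inner_right ℂ fun w => ?_
    refine tendsto_nhds_unique (hxy v w) ?_
    simpa [inner_add_left] using (hx v w).add (hy v w)
  map_smul' c x := by
    have hx := (exists_conj_limit U V hV x).choose_spec.2
    have hcx := (exists_conj_limit U V hV (c • x)).choose_spec.2
    ext v
    refine ext_inner_right ℂ fun w => ?_
    refine tendsto_nhds_unique (hcx v w) ?_
    simpa [inner_smul_left, mul_comm] using (hx v w).const_mul ((starRingEnd ℂ) c)

theorem psi_norm (x : H →L[ℂ] H) : ‖psi U V hV x‖ ≤ ‖x‖ :=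
  (exists_conj_limit U V hV x).choose_spec.1

theorem psi_tendsto (x : H →L[ℂ] H) (v w : H) :
    Tendsto (fun k => inner ℂ (x (V k v)) (V k w)) U (𝓝 (inner ℂ (psi U V hV x v) w)) :=
  (exists_conj_limit U V hV x).choose_spec.2 v w

end Limit

section Perm

variable {Γ : Type} 

/-- the Hilbert space `ℓ²(Γ)` -/
abbrev L2 (Γ : Type) : Type := lp (fun _ : Γ => ℂ) 2

/-- permutation isometry of `ℓ²(Γ)` -/
noncomputable def permL (σ : Equiv.Perm Γ) : L2 Γ →ₗᵢ[ℂ] L2 Γ where
  toFun f := ⟨fun i => f (σ.symm i), by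
    have h := lp.memℓp f
    change Memℓp (fun i => f (σ.symm i)) 2
    rw [memℓp_gen_iff (by norm_num)] at h ⊢
    exact (Equiv.summable_iff σ.symm (f := fun i => ‖f i‖ ^ (2 : ENNReal).toReal)).2 h⟩
  map_add' f g := by ext i; rfl
  map_smul' c f := by ext i; rfl
  norm_map' f := by
    have h2 : (0 : ℝ) < (2 : ENNReal).toReal := by norm_num
    rw [lp.norm_eq_tsum_rpow h2, lp.norm_eq_tsum_rpow h2]
    congr 1
    exact Equiv.tsum_eq σ.symm (fun i => ‖f i‖ ^ (2 : ENNReal).toReal)

/-- as a bounded operator -/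
noncomputable def permC (σ : Equiv.Perm Γ) : L2 Γ →L[ℂ] L2 Γ := (permL σ).toContinuousLinearMap

theorem permC_apply (σ : Equiv.Perm Γ) (f : L2 Γ) (i : Γ) : (permC σ f : Γ → ℂ) i = f (σ.symm i) := rfl

theorem permC_norm_le (σ : Equiv.Perm Γ) : ‖permC σ‖ ≤ 1 :=
  (permL σ).norm_toContinuousLinearMap_le

theorem permC_inner (σ : Equiv.Perm Γ) (f g : L2 Γ) :
    inner ℂ (permC σ f) (permC σ g) = inner ℂ f g := (permL σ).inner_map_map f g

theorem permC_mul (σ τ : Equiv.Perm Γ) : permC (σ * τ) = permC σ * permC τ := by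
  ext f i
  rfl

theorem permC_one : permC (1 : Equiv.Perm Γ) = 1 := by
  ext f i
  rfl

theorem star_permC (σ : Equiv.Perm Γ) : star (permC σ) = permC σ⁻¹ := by
  rw [ContinuousLinearMap.star_eq_adjoint]
  symm
  rw [ContinuousLinearMap.eq_adjoint_iff]
  intro x y
  rw [← permC_inner σ]
  congr 1
  change (permC σ * permC σ⁻¹) x = x
  rw [← permC_mul]
  simp [permC_one]

variable [DecidableEq Γ]

/-- basis vectors -/
noncomputable def e (i : Γ) : L2 Γ := lp.single 2 i (1 : ℂ)

theorem inner_e (i : Γ) (f : L2 Γ) : inner ℂ (e i) f = f i := by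
  simp [e, lp.inner_single_left]

theorem e_apply (i j : Γ) : (e i : Γ → ℂ) j = if j = i then 1 else 0 := by
  simp [e, lp.single_apply, Pi.single_apply]

theorem permC_e (σ : Equiv.Perm Γ) (i : Γ) : permC σ (e i) = e (σ i) := by
  ext j
  rw [permC_apply, e_apply, e_apply]
  simp [Equiv.symm_apply_eq]

end Perm

section VN

variable {H : Type*} [NormedAddCommGroup H] [InnerProductSpace ℂ H] [CompleteSpace H]

/-- the commutant of the star closure of a set, as a von Neumann algebra -/
noncomputable def commVN (s : Set (H →L[ℂ] H)) : VonNeumannAlgebra H where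
  toStarSubalgebra := StarSubalgebra.centralizer ℂ s
  centralizer_centralizer' := by
    change ((s ∪ star s).centralizer).centralizer.centralizer = (s ∪ star s).centralizer
    exact Set.centralizer_centralizer_centralizer _

theorem mem_commVN {s : Set (H →L[ℂ] H)} {z : H →L[ℂ] H} :
    z ∈ commVN s ↔ ∀ g ∈ s, g * z = z * g ∧ star g * z = z * star g :=
  StarSubalgebra.mem_centralizer_iff ℂ

/-- all bounded operators, as the commutant of the empty set -/
noncomputable def fullVN (H : Type*) [NormedAddCommGroup H] [InnerProductSpace ℂ H]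
    [CompleteSpace H] : VonNeumannAlgebra H := commVN (∅ : Set (H →L[ℂ] H))

theorem mem_fullVN (z : H →L[ℂ] H) : z ∈ fullVN H := by
  rw [fullVN, mem_commVN]
  intro g hg
  exact absurd hg (Set.notMem_empty g)

end VN

section Comb

/-- the countable elementary abelian 2-group -/
abbrev G : Type := ℕ →₀ ZMod 2

/-- first coordinate of the support -/
noncomputable def mn (g : G) : ℕ := sInf {i | g i ≠ 0}

theorem exists_ne {g : G} (hg : g ≠ 0) : ∃ i, g i ≠ 0 := by
  by_contra h
  push Not at h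
  exact hg (Finsupp.ext h)

theorem mn_ne {g : G} (hg : g ≠ 0) : g (mn g) ≠ 0 := Nat.sInf_mem (exists_ne hg)

theorem lt_mn {g : G} {i : ℕ} (hi : i < mn g) : g i = 0 := by
  by_contra h
  exact absurd (Nat.sInf_le (m := i) h) (not_le.2 hi)

theorem mn_eq {g : G} {i : ℕ} (hi : g i ≠ 0) (h : ∀ j < i, g j = 0) : mn g = i := by
  apply le_antisymm
  · exact Nat.sInf_le hi
  · by_contra hlt
    push Not at hlt
    have hg : g ≠ 0 := by
      rintro rfl
      exact hi rfl
    exact mn_ne hg (h _ hlt)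

/-- the shift by `single (mn g + 1) 1` on nonzero elements -/
noncomputable def sg (g : G) : G := if g = 0 then 0 else g + Finsupp.single (mn g + 1) 1

theorem sg_zero : sg 0 = 0 := if_pos rfl

theorem sg_of_ne {g : G} (hg : g ≠ 0) : sg g = g + Finsupp.single (mn g + 1) 1 := if_neg hg

theorem sg_apply_le {g : G} (hg : g ≠ 0) {j : ℕ} (hj : j ≤ mn g) : sg g j = g j := by
  rw [sg_of_ne hg, Finsupp.add_apply, Finsupp.single_apply, if_neg (by omega), add_zero]

theorem sg_ne {g : G} (hg : g ≠ 0) : sg g ≠ 0 := by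
  intro h
  have := sg_apply_le hg le_rfl
  rw [h] at this
  exact mn_ne hg this.symm

theorem mn_sg {g : G} (hg : g ≠ 0) : mn (sg g) = mn g := by
  apply mn_eq
  · rw [sg_apply_le hg le_rfl]; exact mn_ne hg
  · intro j hj
    rw [sg_apply_le hg hj.le]; exact lt_mn hj

theorem sg_sg (g : G) : sg (sg g) = g := by
  by_cases hg : g = 0
  · rw [hg, sg_zero, sg_zero]
  · rw [sg_of_ne (sg_ne hg), mn_sg hg, sg_of_ne hg, add_assoc, ← Finsupp.single_add]
    have : (1 : ZMod 2) + 1 = 0 := by decide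
    rw [this, Finsupp.single_zero, add_zero]

/-- as a permutation -/
noncomputable def sgP : Equiv.Perm G := ⟨sg, sg, sg_sg, sg_sg⟩

theorem mn_add {g k : G} (hg : g ≠ 0) (hk : ∀ j ≤ mn g, k j = 0) : mn (k + g) = mn g := by
  apply mn_eq
  · rw [Finsupp.add_apply, hk _ le_rfl, zero_add]; exact mn_ne hg
  · intro j hj
    rw [Finsupp.add_apply, hk _ hj.le, zero_add]; exact lt_mn hj

theorem sg_add {g k : G} (hg : g ≠ 0) (hk : ∀ j ≤ mn g, k j = 0) : sg (k + g) = k + sg g := by
  have hne : k + g ≠ 0 := by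
    intro h
    have h1 : (k + g) (mn g) = 0 := by rw [h]; rfl
    rw [Finsupp.add_apply, hk _ le_rfl, zero_add] at h1
    exact mn_ne hg h1
  rw [sg_of_ne hne, sg_of_ne hg, mn_add hg hk, add_assoc]

theorem sg_ne_add {f k : G} (hk0 : k ≠ 0) (N : ℕ) (hN : ∀ j, N < j → f j = 0)
    (hk : ∀ j ≤ N, k j = 0) : sg k ≠ k + f := by
  intro h
  rw [sg_of_ne hk0] at h
  have h1 := add_left_cancel h
  have h2 : N < mn k := by
    by_contra hle
    push Not at hle
    exact mn_ne hk0 (hk _ hle)
  have h3 : f (mn k + 1) = 0 := hN _ (by omega)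
  rw [← h1, Finsupp.single_eq_same] at h3
  exact one_ne_zero h3

attribute [local instance] Ultrafilter.add

/-- an idempotent ultrafilter concentrated on nonzero elements far out -/
theorem exists_ultra : ∃ U : Ultrafilter G, U + U = U ∧ (∀ᶠ k in (U : Filter G), k ≠ 0) ∧
    ∀ N : ℕ, ∀ᶠ k in (U : Filter G), ∀ j ≤ N, k j = 0 := by
  obtain ⟨U, hU, hFS⟩ := Hindman.exists_idempotent_ultrafilter_le_FS
    (M := G) (fun n => Finsupp.single n 1)
  refine ⟨U, hU, ?_, ?_⟩
  · have key : ∀ (a : Stream' G) (m : G), m ∈ Hindman.FS a →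
        ∀ n : ℕ, (∀ i, a i = Finsupp.single (n + i) 1) → (∀ j < n, m j = 0) ∧ m ≠ 0 := by
      intro a m hm
      induction hm with
      | head' a =>
        intro n ha
        have h0 : a.head = Finsupp.single n 1 := ha 0
        rw [h0]
        refine ⟨fun j hj => ?_, ?_⟩
        · rw [Finsupp.single_apply, if_neg (by omega)]
        · simp
      | tail' a m h ih =>
        intro n ha
        have := ih (n + 1) (fun i => by
          have := ha (i + 1)
          change a (i + 1) = _
          rw [this]; congr 1; omega)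
        exact ⟨fun j hj => this.1 j (by omega), this.2⟩
      | cons' a m h ih =>
        intro n ha
        have h1 := ih (n + 1) (fun i => by
          have := ha (i + 1)
          change a (i + 1) = _
          rw [this]; congr 1; omega)
        have h0 : a.head = Finsupp.single n 1 := ha 0
        rw [h0]
        refine ⟨fun j hj => ?_, fun h => ?_⟩
        · rw [Finsupp.add_apply, h1.1 j (by omega), Finsupp.single_apply, if_neg (by omega),
            add_zero]
        · have h2 : (Finsupp.single n (1 : ZMod 2) + m) n = 0 := by rw [h]; rfl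
          rw [Finsupp.add_apply, h1.1 n (by omega), Finsupp.single_eq_same, add_zero] at h2
          exact one_ne_zero h2
    filter_upwards [hFS] with m hm
    exact (key _ m hm 0 (fun i => by simp)).2
  · have h1 : ∀ i : ℕ, ∀ᶠ k in (U : Filter G), k i = 0 := by
      intro i
      by_contra hcon
      have hne : ∀ᶠ k in (U : Filter G), ¬ (k i = 0) := Ultrafilter.eventually_not.2 hcon
      have hone : ∀ᶠ k in (U : Filter G), k i = 1 := by
        filter_upwards [hne] with k hk
        have : ∀ x : ZMod 2, x ≠ 0 → x = 1 := by decide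
        exact this _ hk
      have hsum : ∀ᶠ k in ((U + U : Ultrafilter G) : Filter G), k i = 0 := by
        rw [Ultrafilter.eventually_add]
        filter_upwards [hone] with k hk
        filter_upwards [hone] with l hl
        rw [Finsupp.add_apply, hk, hl]
        decide
      rw [hU] at hsum
      exact hcon hsum
    intro N
    have : ∀ᶠ k in (U : Filter G), ∀ j ∈ Finset.range (N + 1), k j = 0 := by
      rw [Filter.eventually_all_finset]
      intro j _
      exact h1 j
    filter_upwards [this] with k hk j hj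
    exact hk j (Finset.mem_range.2 (by omega))

end Comb

section Main

attribute [local instance] Ultrafilter.add

/-- translation unitaries on `ℓ²(G)` -/
noncomputable def V (k : G) : L2 G →L[ℂ] L2 G := permC (Equiv.addLeft k)

theorem V_add (k l : G) : V (k + l) = V k * V l := by
  rw [V, V, V, ← permC_mul]
  congr 1
  ext x
  simp

theorem V_norm (k : G) : ‖V k‖ ≤ 1 := permC_norm_le _

theorem V_inner (k : G) (f g : L2 G) : inner ℂ (V k f) (V k g) = inner ℂ f g := permC_inner _ f g

theorem V_comm (k l : G) : V k * V l = V l * V k := by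
  rw [← V_add, ← V_add, add_comm]

theorem star_V (k : G) : star (V k) = V (-k) := by
  rw [V, star_permC, V]
  congr 1
  ext x
  rfl

theorem V_e (k g : G) : V k (e g) = e (k + g) := by
  rw [V, permC_e]; rfl

/-- the abelian algebra: commutant of the translations -/
noncomputable def A : VonNeumannAlgebra (L2 G) := commVN (Set.range V)

theorem mem_A {z : L2 G →L[ℂ] L2 G} : z ∈ A ↔ ∀ k, V k * z = z * V k := by
  rw [A, mem_commVN]
  constructor
  · intro h k
    exact (h _ ⟨k, rfl⟩).1
  · rintro h _ ⟨k, rfl⟩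
    refine ⟨h k, ?_⟩
    rw [star_V]
    exact h _

theorem V_mem_A (k : G) : V k ∈ A := mem_A.2 fun l => V_comm l k

theorem main : ¬ (∀ (H : Type) [NormedAddCommGroup H] [InnerProductSpace ℂ H] [CompleteSpace H]
      (M A : VonNeumannAlgebra H), A ≤ M →
      (∀ x ∈ M, (∀ a ∈ A, a * x = x * a) → x ∈ A) →
      ∀ ψ : (H →L[ℂ] H) →ₗ[ℂ] (H →L[ℂ] H),
        (∀ x ∈ M, ψ x ∈ M) →
        (∀ x ∈ M, ‖ψ x‖ ≤ ‖x‖) →
        (∀ x ∈ M, ψ (ψ x) = ψ x) →
        (∀ a ∈ A, ∀ x ∈ M,
          a * ψ x ∈ ψ '' (M : Set (H →L[ℂ] H)) ∧ ψ x * a ∈ ψ '' (M : Set (H →L[ℂ] H))) →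
        ∀ x ∈ M, ∀ y ∈ M, ∀ z ∈ M,
          (1 / 2 : ℂ) • (ψ x * star (ψ y) * ψ z + ψ z * star (ψ y) * ψ x)
            ∈ ψ '' (M : Set (H →L[ℂ] H))) := by
  intro h
  obtain ⟨U, hU, hU0, hUN⟩ := exists_ultra
  set ψ := psi U V V_norm with hψ
  have hlim : ∀ (x : L2 G →L[ℂ] L2 G) (v w : L2 G),
      Tendsto (fun k => (inner ℂ (x (V k v)) (V k w) : ℂ)) U (𝓝 (inner ℂ (ψ x v) w)) :=
    fun x v w => psi_tendsto U V V_norm x v w
  -- idempotency, from `U + U = U`
  have hidem : ∀ x, ψ (ψ x) = ψ x := by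
    intro x
    ext1 v
    refine ext_inner_right ℂ fun w => ?_
    refine tendsto_nhds_unique (hlim (ψ x) v w) ?_
    rw [Metric.tendsto_nhds]
    intro ε hε
    have h1 : ∀ᶠ m in (U : Filter G),
        dist (inner ℂ (x (V m v)) (V m w) : ℂ) (inner ℂ (ψ x v) w) ≤ ε / 2 :=
      ((Metric.tendsto_nhds.1 (hlim x v w)) (ε / 2) (half_pos hε)).mono fun m hm => hm.le
    rw [← hU, Ultrafilter.eventually_add] at h1
    filter_upwards [h1] with k hk
    have h2 : Tendsto (fun l => (inner ℂ (x (V (k + l) v)) (V (k + l) w) : ℂ)) U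
        (𝓝 (inner ℂ (ψ x (V k v)) (V k w))) := by
      refine (hlim x (V k v) (V k w)).congr fun l => ?_
      rw [V_add k l, V_comm k l]
      rfl
    have h3 : dist (inner ℂ (ψ x (V k v)) (V k w) : ℂ) (inner ℂ (ψ x v) w) ≤ ε / 2 :=
      le_of_tendsto (h2.dist tendsto_const_nhds) hk
    linarith
  have hleft : ∀ a ∈ A, ∀ x, ψ (a * x) = a * ψ x := by
    intro a ha x
    have ha' : star a ∈ A := star_mem ha
    ext1 v
    refine ext_inner_right ℂ fun w => ?_
    refine tendsto_nhds_unique (hlim (a * x) v w) ?_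
    have h1 := hlim x v (star a w)
    have h2 : (inner ℂ ((a * ψ x) v) w : ℂ) = inner ℂ (ψ x v) (star a w) := by
      rw [ContinuousLinearMap.star_eq_adjoint, ContinuousLinearMap.adjoint_inner_right]
      rfl
    rw [h2]
    refine h1.congr fun k => ?_
    have h3 : V k (star a w) = star a (V k w) := by
      change (V k * star a) w = (star a * V k) w
      rw [mem_A.1 ha' k]
    rw [h3, ContinuousLinearMap.star_eq_adjoint, ContinuousLinearMap.adjoint_inner_right]
    rfl
  have hright : ∀ a ∈ A, ∀ x, ψ (x * a) = ψ x * a := by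
    intro a ha x
    ext1 v
    refine ext_inner_right ℂ fun w => ?_
    refine tendsto_nhds_unique (hlim (x * a) v w) ?_
    refine (hlim x (a v) w).congr fun k => ?_
    have h3 : V k (a v) = a (V k v) := by
      change (V k * a) v = (a * V k) v
      rw [mem_A.1 ha k]
    rw [h3]
    rfl
  have hone : ψ 1 = 1 := by
    ext1 v
    refine ext_inner_right ℂ fun w => ?_
    refine tendsto_nhds_unique (hlim 1 v w) ?_
    refine tendsto_const_nhds.congr fun k => ?_
    exact (V_inner k v w).symm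
  set T := ψ (permC sgP) with hTdef
  have hT0 : T (e 0) = 0 := by
    ext f
    have h1 : (inner ℂ (T (e 0)) (e f) : ℂ) = 0 := by
      refine tendsto_nhds_unique (hlim (permC sgP) (e 0) (e f)) ?_
      refine tendsto_const_nhds.congr' ?_
      obtain ⟨N, hN⟩ : ∃ N : ℕ, ∀ j, N < j → f j = 0 := by
        refine ⟨f.support.sup id, fun j hj => ?_⟩
        by_contra hne
        have := Finset.le_sup (f := id) (Finsupp.mem_support_iff.2 hne)
        simp only [id] at this
        omega
      filter_upwards [hU0, hUN N] with k hk0 hkN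
      rw [V_e, V_e, permC_e, add_zero, inner_e, e_apply, if_neg]
      exact fun hh => sg_ne_add hk0 N hN hkN hh
    have h2 : (inner ℂ (e f) (T (e 0)) : ℂ) = 0 := by
      rw [← inner_conj_symm, h1, map_zero]
    rw [inner_e] at h2
    rw [h2]; rfl
  have hTg : ∀ g : G, g ≠ 0 → T (e g) = e (sg g) := by
    intro g hg
    refine ext_inner_right ℂ fun w => ?_
    refine tendsto_nhds_unique (hlim (permC sgP) (e g) w) ?_
    refine tendsto_const_nhds.congr' ?_
    filter_upwards [hUN (mn g)] with k hk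
    rw [V_e, permC_e]
    change _ = inner ℂ (e (sg (k + g))) (V k w)
    rw [sg_add hg hk, ← V_e, V_inner]
  have hmain := h (L2 G) (fullVN (L2 G)) A (fun x _ => mem_fullVN x)
    (fun x _ hx => mem_A.2 fun k => hx (V k) (V_mem_A k)) ψ
    (fun x _ => mem_fullVN _) (fun x _ => psi_norm U V V_norm x) (fun x _ => hidem x)
    (fun a ha x _ => ⟨⟨a * ψ x, mem_fullVN _, by rw [hleft a ha, hidem]⟩,
      ⟨ψ x * a, mem_fullVN _, by rw [hright a ha, hidem]⟩⟩)
    (permC sgP) (mem_fullVN _) 1 (mem_fullVN _) (permC sgP) (mem_fullVN _)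
  obtain ⟨y, _, hy⟩ := hmain
  rw [hone, star_one, mul_one, ← hTdef, ← two_smul ℂ, smul_smul] at hy
  norm_num at hy
  have hTT : ψ (T * T) = T * T := by rw [← hy, hidem]
  have h0 : (inner ℂ (ψ (T * T) (e 0)) (e 0) : ℂ) = 0 := by
    rw [hTT]
    change inner ℂ (T (T (e 0))) (e 0) = (0 : ℂ)
    rw [hT0, map_zero, inner_zero_left]
  have h1 : (inner ℂ (ψ (T * T) (e 0)) (e 0) : ℂ) = 1 := by
    refine tendsto_nhds_unique (hlim (T * T) (e 0) (e 0)) ?_
    refine tendsto_const_nhds.congr' ?_
    filter_upwards [hU0] with k hk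
    rw [V_e, add_zero]
    change (1 : ℂ) = inner ℂ (T (T (e k))) (e k)
    rw [hTg k hk, hTg _ (sg_ne hk), sg_sg, inner_e, e_apply, if_pos rfl]
  rw [h0] at h1
  exact zero_ne_one h1

end Main

/-- The negation of the bimodule statement: a contractive idempotent `A`-bimodule map `psi` of
`B(ℓ²(G))`, `A` the commutant of the translations, given by the weak operator limit along an
idempotent ultrafilter of conjugation by translations; its range is not closed under the triple
product. -/
theorem result :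
    ¬ (∀ (H : Type) [NormedAddCommGroup H] [InnerProductSpace ℂ H] [CompleteSpace H]
      (M A : VonNeumannAlgebra H), A ≤ M →
      (∀ x ∈ M, (∀ a ∈ A, a * x = x * a) → x ∈ A) →
      ∀ ψ : (H →L[ℂ] H) →ₗ[ℂ] (H →L[ℂ] H),
        (∀ x ∈ M, ψ x ∈ M) →
        (∀ x ∈ M, ‖ψ x‖ ≤ ‖x‖) →
        (∀ x ∈ M, ψ (ψ x) = ψ x) →
        (∀ a ∈ A, ∀ x ∈ M,
          a * ψ x ∈ ψ '' (M : Set (H →L[ℂ] H)) ∧ ψ x * a ∈ ψ '' (M : Set (H →L[ℂ] H))) →
        ∀ x ∈ M, ∀ y ∈ M, ∀ z ∈ M,
          (1 / 2 : ℂ) • (ψ x * star (ψ y) * ψ z + ψ z * star (ψ y) * ψ x)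
            ∈ ψ '' (M : Set (H →L[ℂ] H))) := by
  exact main

end Pool.Agent.S06672
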