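import Pool.Statements.S06751
import Pool.Agent.Helper82.IW.Core
import Pool.Agent.Helper82.IW.Half2

set_option autoImplicit false
open Pool Pool.MP_f7b570_an

namespace Pool.Agent.S06751

/-- For every real p>1 and every compactly supported C¹ map f from ℂ to ℂ, the integral of ∣∂̄f∣^p is at most (max(p, p/(p−1)) − 1)^p times the integral of ∣∂f∣^p. -/
theorem result :
    ∀ p : ℝ, 1 < p → ∀ f : ℂ → ℂ, ContDiff ℝ 1 f → HasCompactSupport f →
      ∫ z, ‖(1 / 2 : ℂ) * (fderiv ℝ f z 1 + Complex.I * fderiv ℝ f z Complex.I)‖ ^ p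
        ≤ (max p (p / (p - 1)) - 1) ^ p *
          ∫ z, ‖(1 / 2 : ℂ) * (fderiv ℝ f z 1 - Complex.I * fderiv ℝ f z Complex.I)‖ ^ p :=
  Pool.Agent.Helper82.IW.iwaniec' Pool.Agent.Helper82.IW.coreC

end Pool.Agent.S06751
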