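import Pool.Statements.S06999
import Pool.Agent.Helper58.Nivat.Full

set_option autoImplicit false
open Pool Pool.MP_06b25c_co

namespace Pool.Agent.S06999

/-- For every finite window D of integer points cut out by a convex region of the plane, and every finite-alphabet coloring c of Z^2 with at most ∣D∣ distinct D-patterns, c has a nonzero period vector. -/
theorem result :
    ∀ (A : Type) [Finite A] (D : Finset (ℤ × ℤ)) (S : Set (ℝ × ℝ)),
      Convex ℝ S →
      (∀ z : ℤ × ℤ, z ∈ D ↔ ((z.1 : ℝ), (z.2 : ℝ)) ∈ S) →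
      ∀ c : ℤ × ℤ → A,
        (Set.range (fun t : ℤ × ℤ => fun d : D => c (t + (d : ℤ × ℤ)))).ncard ≤ D.card →
        ∃ p : ℤ × ℤ, p ≠ 0 ∧ ∀ x : ℤ × ℤ, c (x + p) = c x := by
  intro A _ D S hS hD c hc
  exact Pool.Agent.Helper58.Nivat.nivat c D ⟨S, hS, hD⟩ hc

end Pool.Agent.S06999
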