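import Pool.Statements.S07193
import Pool.Agent.Helper38.Judicious

set_option autoImplicit false
open Pool Pool.MP_0efbd6_co

namespace Pool.Agent.S07193

open Pool.Agent.Helper38.Judicious

/-- the 0/1 adjacency matrix -/
def adj {N : ℕ} (G : SimpleGraph (Fin N)) [DecidableRel G.Adj] (u v : Fin N) : ℤ :=
  if G.Adj u v then 1 else 0

lemma E_adj {N : ℕ} (G : SimpleGraph (Fin N)) [DecidableRel G.Adj] (S : Finset (Fin N)) :
    E (adj G) S S = 2 * (((Finset.univ : Finset (Fin N × Fin N)).filter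
      (fun p => p.1 < p.2 ∧ G.Adj p.1 p.2 ∧ p.1 ∈ S ∧ p.2 ∈ S)).card : ℤ) := by
  classical
  have h1 : E (adj G) S S = ∑ p : Fin N × Fin N,
      (if G.Adj p.1 p.2 ∧ p.1 ∈ S ∧ p.2 ∈ S then (1 : ℤ) else 0) := by
    rw [Fintype.sum_prod_type]
    unfold E adj
    rw [← Finset.sum_subset (Finset.subset_univ S)]
    · refine Finset.sum_congr rfl fun u hu => ?_
      rw [← Finset.sum_subset (Finset.subset_univ S)]
      · refine Finset.sum_congr rfl fun v hv => ?_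
        simp [hu, hv]
      · intro v _ hv
        simp [hv]
    · intro u _ hu
      simp [hu]
  have h2 : ∑ p : Fin N × Fin N, (if G.Adj p.1 p.2 ∧ p.1 ∈ S ∧ p.2 ∈ S then (1 : ℤ) else 0)
      = ∑ p : Fin N × Fin N,
        (if p.1 < p.2 ∧ G.Adj p.1 p.2 ∧ p.1 ∈ S ∧ p.2 ∈ S then (1 : ℤ) else 0)
      + ∑ p : Fin N × Fin N,
        (if p.2 < p.1 ∧ G.Adj p.2 p.1 ∧ p.2 ∈ S ∧ p.1 ∈ S then (1 : ℤ) else 0) := by
    rw [← Finset.sum_add_distrib]
    refine Finset.sum_congr rfl fun p _ => ?_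
    rcases lt_trichotomy p.1 p.2 with h | h | h
    · have h' : ¬ p.2 < p.1 := not_lt.mpr h.le
      simp [h, h']
    · simp [h]
    · have h' : ¬ p.1 < p.2 := not_lt.mpr h.le
      simp only [h, h', false_and, if_false, true_and, zero_add]
      by_cases hadj : G.Adj p.1 p.2
      · simp [hadj, hadj.symm, and_comm]
      · have : ¬ G.Adj p.2 p.1 := fun h => hadj h.symm
        simp [hadj, this]
  have h3 : ∑ p : Fin N × Fin N,
        (if p.2 < p.1 ∧ G.Adj p.2 p.1 ∧ p.2 ∈ S ∧ p.1 ∈ S then (1 : ℤ) else 0)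
      = ∑ p : Fin N × Fin N,
        (if p.1 < p.2 ∧ G.Adj p.1 p.2 ∧ p.1 ∈ S ∧ p.2 ∈ S then (1 : ℤ) else 0) :=
    Fintype.sum_equiv (Equiv.prodComm _ _) _ _ (fun p => by rcases p with ⟨x, y⟩; rfl)
  rw [h1, h2, h3, Finset.card_filter]
  push_cast
  ring

/-- real estimate: `n^2/2 - t < m/4 + sqrt(m/32) - c m^(1/4)` -/
lemma real_estimate (t : ℝ) (ht : 1 ≤ t) (n m : ℝ) (hn : n = 10000 * t ^ 2)
    (hm : m = 2 * n ^ 2 - n) :
    n ^ 2 / 2 - t < m / 4 + Real.sqrt (m / 32) - (1 / 1000 : ℝ) * m ^ ((1 : ℝ) / 4) := by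
  have hn1 : 10000 ≤ n := by rw [hn]; nlinarith
  have hmpos : 0 ≤ m := by rw [hm]; nlinarith
  have h1 : n / 4 - 1 / 8 ≤ Real.sqrt (m / 32) := by
    apply Real.le_sqrt_of_sq_le
    rw [hm]; nlinarith
  have h2 : m ^ ((1 : ℝ) / 4) ≤ 120 * t := by
    have h120 : (0 : ℝ) ≤ 120 * t := by linarith
    have hle : m ≤ (120 * t) ^ 4 := by
      rw [hm, hn]
      nlinarith [sq_nonneg t, sq_nonneg (t ^ 2)]
    calc m ^ ((1 : ℝ) / 4) ≤ ((120 * t) ^ 4) ^ ((1 : ℝ) / 4) :=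
          Real.rpow_le_rpow hmpos hle (by norm_num)
      _ = 120 * t := by
          rw [← Real.rpow_natCast, ← Real.rpow_mul h120]
          norm_num
  rw [hm]
  rw [hm] at h1 h2
  linarith

/-- There is c>0 such that for infinitely many m, every graph with m edges has a vertex bipartition where each part spans fewer than m/4 + sqrt(m/32) - c m^(1/4) edges. -/
theorem result :
    ∃ c : ℝ, 0 < c ∧ ∀ N : ℕ, ∃ m : ℕ, N ≤ m ∧
      ∀ (n : ℕ) (G : SimpleGraph (Fin n)) [DecidableRel G.Adj],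
        ((Finset.univ : Finset (Fin n × Fin n)).filter
            (fun p => p.1 < p.2 ∧ G.Adj p.1 p.2)).card = m →
        ∃ S : Finset (Fin n),
          (((max ((Finset.univ : Finset (Fin n × Fin n)).filter
                (fun p => p.1 < p.2 ∧ G.Adj p.1 p.2 ∧ p.1 ∈ S ∧ p.2 ∈ S)).card
              ((Finset.univ : Finset (Fin n × Fin n)).filter
                (fun p => p.1 < p.2 ∧ G.Adj p.1 p.2 ∧ p.1 ∉ S ∧ p.2 ∉ S)).card : ℕ) : ℝ)
            < (m : ℝ) / 4 + Real.sqrt ((m : ℝ) / 32) - c * (m : ℝ) ^ ((1 : ℝ) / 4)) := by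
  refine ⟨1 / 1000, by norm_num, fun N => ?_⟩
  obtain ⟨t, ht⟩ : ∃ t : ℕ, t = N + 1 := ⟨_, rfl⟩
  obtain ⟨q, hq⟩ : ∃ q : ℕ, q = 10000 * t ^ 2 := ⟨_, rfl⟩
  have ht1 : 1 ≤ t := by omega
  have htq : t ≤ q := by
    rw [hq]
    nlinarith
  have hqpos : 1 ≤ q := ht1.trans htq
  have hqz : (q : ℤ) = 10000 * (t : ℤ) ^ 2 := by rw [hq]; push_cast; ring
  have hqr : (q : ℝ) = 10000 * (t : ℝ) ^ 2 := by rw [hq]; push_cast; ring
  clear hq
  have hsub : q ≤ 2 * q ^ 2 := by nlinarith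
  refine ⟨2 * q ^ 2 - q, ?_, ?_⟩
  · have : 2 * q ≤ 2 * q ^ 2 := by nlinarith
    omega
  · intro n G _ hcard
    have hm : E (adj G) Finset.univ Finset.univ = 4 * (q : ℤ) ^ 2 - 2 * q := by
      rw [E_adj]
      have : ((Finset.univ : Finset (Fin n × Fin n)).filter
        (fun p => p.1 < p.2 ∧ G.Adj p.1 p.2 ∧ p.1 ∈ (Finset.univ : Finset (Fin n)) ∧
          p.2 ∈ (Finset.univ : Finset (Fin n)))).card = 2 * q ^ 2 - q := by
        rw [← hcard]
        congr 1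
        ext p
        simp
      rw [this, Nat.cast_sub hsub]
      push_cast
      ring
    obtain ⟨S, hS1, hS2⟩ := main_int (adj G)
      (fun u v => by simp [adj, G.adj_comm])
      (fun v => by simp [adj])
      (fun u v => by
        unfold adj
        by_cases h : G.Adj u v <;> simp [h]) (t : ℤ) (q : ℤ) (by exact_mod_cast ht1) hqz hm
    refine ⟨S, ?_⟩
    rw [E_adj] at hS1 hS2
    have e2 : ((Finset.univ : Finset (Fin n × Fin n)).filter
        (fun p => p.1 < p.2 ∧ G.Adj p.1 p.2 ∧ p.1 ∈ Sᶜ ∧ p.2 ∈ Sᶜ)).card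
        = ((Finset.univ : Finset (Fin n × Fin n)).filter
        (fun p => p.1 < p.2 ∧ G.Adj p.1 p.2 ∧ p.1 ∉ S ∧ p.2 ∉ S)).card := by
      congr 1
      ext p
      simp
    rw [e2] at hS2
    have hest := real_estimate (t : ℝ) (by exact_mod_cast ht1) (q : ℝ)
      (((2 * q ^ 2 - q : ℕ) : ℝ)) hqr (by rw [Nat.cast_sub hsub]; push_cast; ring)
    refine lt_of_le_of_lt ?_ hest
    rw [Nat.cast_max]
    have r1 : (2 : ℝ) * (((Finset.univ : Finset (Fin n × Fin n)).filter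
        (fun p => p.1 < p.2 ∧ G.Adj p.1 p.2 ∧ p.1 ∈ S ∧ p.2 ∈ S)).card : ℝ)
        ≤ (q : ℝ) ^ 2 - 2 * t := by exact_mod_cast hS1
    have r2 : (2 : ℝ) * (((Finset.univ : Finset (Fin n × Fin n)).filter
        (fun p => p.1 < p.2 ∧ G.Adj p.1 p.2 ∧ p.1 ∉ S ∧ p.2 ∉ S)).card : ℝ)
        ≤ (q : ℝ) ^ 2 - 2 * t := by exact_mod_cast hS2
    apply max_le <;> linarith

end Pool.Agent.S07193
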