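import Pool.Statements.S08019
import Pool.Agent.Helper42.Assemble

set_option autoImplicit false
open Pool Pool.MP_33a8f1_co

namespace Pool.Agent.S08019

/-- For every ε>0 there are n≥1 and positive integers a_1..a_n such that at least (1−ε)n distinct pairs are simultaneously of the forms (a_i,a_{i+1}), (a_j+a_{j+1},a_{j+2}) and (a_k,a_{k+1}+a_{k+2}). -/
theorem result :
    ∀ ε : ℝ, 0 < ε →
      ∃ n : ℕ, 1 ≤ n ∧ ∃ a : ℕ → ℕ,
        (∀ i ∈ Finset.Icc 1 n, 0 < a i) ∧
        (1 - ε) * (n : ℝ) ≤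
          (((((Finset.Icc 1 (n - 1)).image (fun i => (a i, a (i + 1)))) ∩
              ((Finset.Icc 1 (n - 2)).image (fun j => (a j + a (j + 1), a (j + 2))))) ∩
              ((Finset.Icc 1 (n - 2)).image (fun k => (a k, a (k + 1) + a (k + 2))))).card : ℝ) := by
  intro ε hε
  obtain ⟨n, hn, a, ha, hle⟩ := Pool.Agent.Helper42.main_small (ε := min ε 1)
    (lt_min hε one_pos) (min_le_right _ _)
  refine ⟨n, hn, a, ha, le_trans ?_ hle⟩
  apply mul_le_mul_of_nonneg_right _ (Nat.cast_nonneg n)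
  have := min_le_left ε 1
  linarith

end Pool.Agent.S08019
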