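import Pool.Statements.S08190
import Pool.Agent.Helper1.AlmostDR
import Pool.Agent.Helper61.Glue

set_option autoImplicit false
open Pool Pool.MP_3a82a8_co

namespace Pool.Agent.S08190

/-- The negation of the preceding statement: For every finite point set P in Euclidean space: if for all r and ε>0 some finite R with diameter at most diam P + ε forces a monochromatic congruent copy of P in every r-colouring, then for all r such an R exists with diameter exactly diam P. -/
theorem result :
    ¬ (∀ (d : ℕ) (P : Finset (EuclideanSpace ℝ (Fin d))),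
      (∀ r : ℕ, 1 ≤ r → ∀ ε : ℝ, 0 < ε →
        ∃ (n : ℕ) (R : Finset (EuclideanSpace ℝ (Fin n))),
          (∀ c : EuclideanSpace ℝ (Fin n) → Fin r,
            ∃ f : EuclideanSpace ℝ (Fin d) → EuclideanSpace ℝ (Fin n),
              (∀ x ∈ P, f x ∈ R) ∧
              (∀ x ∈ P, ∀ y ∈ P, dist (f x) (f y) = dist x y) ∧
              ∃ i : Fin r, ∀ x ∈ P, c (f x) = i) ∧
          Metric.diam (R : Set (EuclideanSpace ℝ (Fin n)))
            ≤ Metric.diam (P : Set (EuclideanSpace ℝ (Fin d))) + ε) →
      (∀ r : ℕ, 1 ≤ r →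
        ∃ (n : ℕ) (R : Finset (EuclideanSpace ℝ (Fin n))),
          (∀ c : EuclideanSpace ℝ (Fin n) → Fin r,
            ∃ f : EuclideanSpace ℝ (Fin d) → EuclideanSpace ℝ (Fin n),
              (∀ x ∈ P, f x ∈ R) ∧
              (∀ x ∈ P, ∀ y ∈ P, dist (f x) (f y) = dist x y) ∧
              ∃ i : Fin r, ∀ x ∈ P, c (f x) = i) ∧
          Metric.diam (R : Set (EuclideanSpace ℝ (Fin n)))
            = Metric.diam (P : Set (EuclideanSpace ℝ (Fin d))))) := by
  exact Pool.Agent.Helper61.NotDR.glue
    (fun r _ ε hε => Pool.Agent.Helper1.almost_dr r ε hε)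

end Pool.Agent.S08190
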