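import Pool.Statements.S08191
import Pool.Agent.Helper43.RamseyI

set_option autoImplicit false
open Pool Pool.MP_3a87f6_co

namespace Pool.Agent.S08191

/-- For every N there is m > N and a finite nonempty set carrying m symmetric relations which, with the diagonal, partition all pairs, such that each R_i composed with itself is its complement and R_i composed with R_j (i ≠ j) is everything off the diagonal. -/
theorem result :
    ∀ N : ℕ, ∃ m : ℕ, N < m ∧ ∃ n : ℕ, 0 < n ∧
      ∃ R : Fin m → Fin n → Fin n → Prop,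
        (∀ i : Fin m, ∀ x : Fin n, ¬ R i x x) ∧
        (∀ x y : Fin n, x ≠ y → ∃! i : Fin m, R i x y) ∧
        (∀ i : Fin m, ∀ x y : Fin n, R i x y ↔ R i y x) ∧
        (∀ i : Fin m, ∀ x z : Fin n, (∃ y : Fin n, R i x y ∧ R i y z) ↔ ¬ R i x z) ∧
        (∀ i j : Fin m, i ≠ j → ∀ x z : Fin n,
          (∃ y : Fin n, R i x y ∧ R j y z) ↔ x ≠ z) :=
  Pool.Agent.Helper43.Ramsey.main

end Pool.Agent.S08191
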