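import Pool.Statements.S08465
import Pool.Agent.Helper44.Hex.Final

set_option autoImplicit false
open Pool Pool.MP_45c1aa_co

namespace Pool.Agent.S08465

/-- In the triangular lattice on ℤ×ℤ, every finite vertex set inducing no triangle contains a pairwise non-adjacent subset of at least 4/9 of its size. -/
theorem result :
    ∀ G : SimpleGraph (ℤ × ℤ),
      (∀ p q : ℤ × ℤ, G.Adj p q ↔
        (q - p = (1, 0) ∨ q - p = (-1, 0) ∨ q - p = (0, 1) ∨
         q - p = (0, -1) ∨ q - p = (1, -1) ∨ q - p = (-1, 1))) →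
      ∀ S : Finset (ℤ × ℤ),
        (∀ x ∈ S, ∀ y ∈ S, ∀ z ∈ S, ¬ (G.Adj x y ∧ G.Adj y z ∧ G.Adj x z)) →
        ∃ I ⊆ S, (∀ x ∈ I, ∀ y ∈ I, ¬ G.Adj x y) ∧ 4 * S.card ≤ 9 * I.card := by
  intro G hG S hS
  exact Pool.Agent.H44.graph_bound G hG S hS

end Pool.Agent.S08465
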