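import Pool.Statements.S09251
import Pool.Agent.Helper99.Perm.Transfer

set_option autoImplicit false
open scoped Classical
open Pool Pool.MP_6726c7_co

namespace Pool.Agent.S09251

/-- For some C>0, the fraction of pairs of permutations of [n] that can be split into at most ⌈C n^(1/3)⌉ pairs of order-isomorphic subpermutations tends to 1 as n grows. -/
theorem result :
    ∃ C : ℝ, 0 < C ∧ Filter.Tendsto (fun n : ℕ =>
      ((Finset.univ.filter (fun p : Equiv.Perm (Fin n) × Equiv.Perm (Fin n) =>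
        ∃ c : Fin n → Fin ⌈C * (n : ℝ) ^ ((1 : ℝ) / 3)⌉₊, ∃ g : Equiv.Perm (Fin n),
          ∀ a a' : Fin n, c a = c a' →
            ((a < a' ↔ g a < g a') ∧ (p.1 a < p.1 a' ↔ p.2 (g a) < p.2 (g a'))))).card : ℝ)
        / ((n.factorial : ℝ) ^ 2)) Filter.atTop (nhds 1) := by
  refine ⟨30000000, by norm_num, ?_⟩
  have hlow : Filter.Tendsto (fun n : ℕ => 1 - 4 * (n : ℝ) ^ (-(1 / 72) : ℝ)) Filter.atTop
      (nhds 1) := by
    have h1 : Filter.Tendsto (fun n : ℕ => (n : ℝ) ^ (-(1 / 72) : ℝ)) Filter.atTop (nhds 0) :=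
      (tendsto_rpow_neg_atTop (by norm_num : (0 : ℝ) < 1 / 72)).comp tendsto_natCast_atTop_atTop
    have h2 := (h1.const_mul 4).const_sub 1
    simpa using h2
  refine tendsto_of_tendsto_of_tendsto_of_le_of_le' hlow tendsto_const_nhds ?_ ?_
  · filter_upwards [Pool.Agent.Helper99.Perm.final_bound] with n hn
    refine hn.trans (le_of_eq ?_)
    unfold Pool.Agent.Helper99.Perm.Nice
    congr!
  filter_upwards with n
  have hF : (0 : ℝ) < (n.factorial : ℝ) ^ 2 := by
    have : (0 : ℝ) < n.factorial := by exact_mod_cast Nat.factorial_pos n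
    positivity
  rw [div_le_one hF]
  have h : ∀ s : Finset (Equiv.Perm (Fin n) × Equiv.Perm (Fin n)),
      (s.card : ℝ) ≤ (n.factorial : ℝ) ^ 2 := by
    intro s
    have h1 : s.card ≤ n.factorial * n.factorial := by
      refine (Finset.card_le_univ s).trans (le_of_eq ?_)
      rw [Fintype.card_prod, Fintype.card_perm, Fintype.card_fin]
    have h2 : (s.card : ℝ) ≤ ((n.factorial * n.factorial : ℕ) : ℝ) := by exact_mod_cast h1
    rw [Nat.cast_mul] at h2
    rw [sq]
    exact h2
  exact h _

end Pool.Agent.S09251
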