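import Pool.Statements.S09649
-- import your own Pool.Agent.* helpers here
import Pool.Agent.Helper52.Hemi.FinalIf
import Pool.Agent.Helper93.Hemi.Final
import Pool.Agent.Helper93.Hemi.Link
import Pool.Agent.Helper61.Hemi.EvalC
import Pool.Agent.Helper90.Hemi.K
import Pool.Agent.Helper83.Hemi.F1
import Pool.Agent.Helper83.Hemi.F3
import Pool.Agent.Helper40.Hemi2.F2w
import Pool.Agent.Helper24.Hemi.J
import Pool.Agent.Helper1.Hemi.LS

set_option autoImplicit false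
open Pool Pool.MP_7aba51_co

namespace Pool.Agent.S09649

/-- For every field of order q^2 with q ≡ 1 mod 4 and q ≡ 0,2 mod 3, some hemisystem of the Hermitian surface H(3,q^2) is invariant under a collineation of the surface of projective order q^2-q+1. -/
theorem result :
  ∀ (F : Type) [Field F] [Fintype F] (q : ℕ), Fintype.card F = q ^ 2 → q % 4 = 1 →
    (q % 3 = 0 ∨ q % 3 = 2) →
    ∃ (S : Set (Submodule F (Fin 4 → F))) (g : (Fin 4 → F) ≃+ (Fin 4 → F)) (τ : F ≃+* F),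
      (∀ L ∈ S, Module.finrank F L = 2 ∧ ∀ x ∈ L, ∀ y ∈ L, ∑ i, x i * y i ^ q = 0) ∧
      (∀ P : Submodule F (Fin 4 → F), Module.finrank F P = 1 →
          (∀ x ∈ P, ∑ i, x i ^ (q + 1) = 0) →
          Set.ncard {L | L ∈ S ∧ P ≤ L} = (q + 1) / 2) ∧
      (∀ (c : F) (x : Fin 4 → F), g (c • x) = τ c • g x) ∧
      (∀ x : Fin 4 → F, (∑ i, g x i ^ (q + 1) = 0 ↔ ∑ i, x i ^ (q + 1) = 0)) ∧
      (∀ L ∈ S, ∃ L' ∈ S, (L' : Set (Fin 4 → F)) = ⇑g '' (L : Set (Fin 4 → F))) ∧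
      (∀ v : Fin 4 → F, ∃ c : F, (⇑g)^[q ^ 2 - q + 1] v = c • v) ∧
      (∀ k : ℕ, 0 < k → k < q ^ 2 - q + 1 → ∃ v : Fin 4 → F, ∀ c : F, (⇑g)^[k] v ≠ c • v) := by
  have hF1 := Pool.Agent.Helper83.Hemi.f1
  have hF3b := Pool.Agent.Helper83.Hemi.f3b
  have hK0 := Pool.Agent.Helper90.Hemi.k0 hF1 hF3b
  have hK1 := Pool.Agent.Helper90.Hemi.k1 hF3b
  have hE := Pool.Agent.Helper61.Hemi.goalEval hK0 hK1
  have hLS := Pool.Agent.Helper1.Hemi.goalLS hF1 Pool.Agent.Helper40.Hemi2.f2w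
    Pool.Agent.Helper83.Hemi.f3a Pool.Agent.Helper24.Hemi.goalJ
  have hL := Pool.Agent.Helper93.Hemi.link hLS
  exact Pool.Agent.Helper52.Hemi.main_of_goal (Pool.Agent.Helper93.Hemi.goalFun2_final hE hL)

end Pool.Agent.S09649
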