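import Pool.Statements.S09854

set_option autoImplicit false
open Pool Pool.MP_84ee99_co

namespace Pool.Agent.S09854

/-!
The counterexample is the convex polytope `P` with the six vertices
`a = (30,10,0)`, `b = (30,-10,0)`, `c = (15,5,0)`, `d = (9,13,0)`, `v = (0,0,10)`, `w = (37,0,1)`.
It is a pyramid with apex `v` over the quadrilateral `abcd` together with a tetrahedron `wvab`
stacked on its lateral face `vab`.  The combinatorial automorphism `(a b)(c d)` fixing `v` and `w`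
preserves all edge lengths (`|va| = |vb|`, `|vc| = |vd|`, `|wa| = |wb|`, `|bc| = |ad|`).
In a polytope with the same graph and the same edge lengths that realizes this automorphism, the
base would be an isosceles trapezoid, and the given lengths then force `v` and `w` to lie on
different sides of the base plane, which is impossible.
-/

/-- Euclidean 3-space. -/
abbrev E3 := EuclideanSpace ℝ (Fin 3)

lemma inner3 (u x : E3) : @inner ℝ E3 _ u x = u 0 * x 0 + u 1 * x 1 + u 2 * x 2 := by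
  simp [PiLp.inner_apply, Fin.sum_univ_three]; ring

lemma dist3 (x y : E3) :
    dist x y ^ 2 = (x 0 - y 0)^2 + (x 1 - y 1)^2 + (x 2 - y 2)^2 := by
  rw [EuclideanSpace.dist_eq, Real.sq_sqrt (by positivity)]
  simp [Fin.sum_univ_three, Real.dist_eq, sq_abs]

/-- The point of 3-space with coordinates `x, y, z`. -/
def pt (x y z : ℝ) : E3 := !₂[x, y, z]

@[simp] lemma pt_zero (x y z : ℝ) : pt x y z 0 = x := rfl
@[simp] lemma pt_one (x y z : ℝ) : pt x y z 1 = y := rfl
@[simp] lemma pt_two (x y z : ℝ) : pt x y z 2 = z := rfl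

/-- The six vertices of the counterexample. -/
def P : Fin 6 → E3
  | 0 => pt 30 10 0
  | 1 => pt 30 (-10) 0
  | 2 => pt 15 5 0
  | 3 => pt 9 13 0
  | 4 => pt 0 0 10
  | 5 => pt 37 0 1

/-- `p i` and `p j` are joined by an edge of the convex hull of the six points `p`. -/
def Edge (p : Fin 6 → E3) (i j : Fin 6) : Prop :=
  i ≠ j ∧ ∃ u : E3, @inner ℝ E3 _ u (p i) = @inner ℝ E3 _ u (p j) ∧
    ∀ k, k ≠ i → k ≠ j → @inner ℝ E3 _ u (p k) < @inner ℝ E3 _ u (p i)

lemma Edge.symm {p : Fin 6 → E3} {i j : Fin 6} (h : Edge p i j) : Edge p j i := by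
  obtain ⟨hne, u, hu, h⟩ := h
  exact ⟨hne.symm, u, hu.symm, fun k hk hk' => by rw [← hu]; exact h k hk' hk⟩

lemma edge_iff (S : Finset E3) (q : Fin 6 ≃ {x // x ∈ S}) (i j : Fin 6) :
    (q i ≠ q j ∧ ∃ u : E3, @inner ℝ E3 _ u (q i).1 = @inner ℝ E3 _ u (q j).1 ∧
      ∀ z ∈ S, z ≠ (q i).1 → z ≠ (q j).1 → @inner ℝ E3 _ u z < @inner ℝ E3 _ u (q i).1) ↔
    Edge (fun i => (q i).1) i j := by
  unfold Edge
  constructor
  · rintro ⟨hne, u, hu, h⟩
    refine ⟨fun hij => hne (by rw [hij]), u, hu, fun k hki hkj => h _ (q k).2 ?_ ?_⟩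
    · exact fun hh => hki (q.injective (Subtype.ext hh))
    · exact fun hh => hkj (q.injective (Subtype.ext hh))
  · rintro ⟨hne, u, hu, h⟩
    refine ⟨fun hij => hne (q.injective hij), u, hu, fun z hz hzi hzj => ?_⟩
    obtain ⟨k, hk⟩ := q.surjective ⟨z, hz⟩
    have hk' : (q k).1 = z := by rw [hk]
    have := h k (fun hh => hzi (by rw [← hk', hh])) (fun hh => hzj (by rw [← hk', hh]))
    simpa [hk'] using this

/-- The graph of the counterexample. -/
def adj (i j : Fin 6) : Bool :=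
  (i, j) ∈ ([(0,1),(1,0),(1,2),(2,1),(2,3),(3,2),(0,3),(3,0),(0,4),(4,0),(1,4),(4,1),
    (2,4),(4,2),(3,4),(4,3),(4,5),(5,4),(0,5),(5,0),(1,5),(5,1)] : List (Fin 6 × Fin 6))

lemma edge_ab : Edge P 0 1 := by
  refine ⟨by decide, pt (1) (0) (-8), ?_, ?_⟩
  · rw [inner3, inner3]; norm_num [P]
  · intro k hk hk'
    rw [inner3, inner3]
    fin_cases k <;> first | exact absurd rfl hk | exact absurd rfl hk' | norm_num [P]

lemma edge_ad : Edge P 0 3 := by
  refine ⟨by decide, pt (1) (7) (0), ?_, ?_⟩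
  · rw [inner3, inner3]; norm_num [P]
  · intro k hk hk'
    rw [inner3, inner3]
    fin_cases k <;> first | exact absurd rfl hk | exact absurd rfl hk' | norm_num [P]

lemma edge_av : Edge P 0 4 := by
  refine ⟨by decide, pt (1) (2) (5), ?_, ?_⟩
  · rw [inner3, inner3]; norm_num [P]
  · intro k hk hk'
    rw [inner3, inner3]
    fin_cases k <;> first | exact absurd rfl hk | exact absurd rfl hk' | norm_num [P]

lemma edge_aw : Edge P 0 5 := by
  refine ⟨by decide, pt (1) (1) (3), ?_, ?_⟩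
  · rw [inner3, inner3]; norm_num [P]
  · intro k hk hk'
    rw [inner3, inner3]
    fin_cases k <;> first | exact absurd rfl hk | exact absurd rfl hk' | norm_num [P]

lemma edge_bc : Edge P 1 2 := by
  refine ⟨by decide, pt (-1) (-1) (-3), ?_, ?_⟩
  · rw [inner3, inner3]; norm_num [P]
  · intro k hk hk'
    rw [inner3, inner3]
    fin_cases k <;> first | exact absurd rfl hk | exact absurd rfl hk' | norm_num [P]

lemma edge_bv : Edge P 1 4 := by
  refine ⟨by decide, pt (0) (-1) (1), ?_, ?_⟩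
  · rw [inner3, inner3]; norm_num [P]
  · intro k hk hk'
    rw [inner3, inner3]
    fin_cases k <;> first | exact absurd rfl hk | exact absurd rfl hk' | norm_num [P]

lemma edge_bw : Edge P 1 5 := by
  refine ⟨by decide, pt (1) (-1) (3), ?_, ?_⟩
  · rw [inner3, inner3]; norm_num [P]
  · intro k hk hk'
    rw [inner3, inner3]
    fin_cases k <;> first | exact absurd rfl hk | exact absurd rfl hk' | norm_num [P]

lemma edge_cd : Edge P 2 3 := by
  refine ⟨by decide, pt (-4) (-3) (-8), ?_, ?_⟩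
  · rw [inner3, inner3]; norm_num [P]
  · intro k hk hk'
    rw [inner3, inner3]
    fin_cases k <;> first | exact absurd rfl hk | exact absurd rfl hk' | norm_num [P]

lemma edge_cv : Edge P 2 4 := by
  refine ⟨by decide, pt (-9) (-7) (-17), ?_, ?_⟩
  · rw [inner3, inner3]; norm_num [P]
  · intro k hk hk'
    rw [inner3, inner3]
    fin_cases k <;> first | exact absurd rfl hk | exact absurd rfl hk' | norm_num [P]

lemma edge_dv : Edge P 3 4 := by
  refine ⟨by decide, pt (-4) (2) (-1), ?_, ?_⟩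
  · rw [inner3, inner3]; norm_num [P]
  · intro k hk hk'
    rw [inner3, inner3]
    fin_cases k <;> first | exact absurd rfl hk | exact absurd rfl hk' | norm_num [P]

lemma edge_vw : Edge P 4 5 := by
  refine ⟨by decide, pt (9) (0) (37), ?_, ?_⟩
  · rw [inner3, inner3]; norm_num [P]
  · intro k hk hk'
    rw [inner3, inner3]
    fin_cases k <;> first | exact absurd rfl hk | exact absurd rfl hk' | norm_num [P]

lemma not_edge_ac : ¬ Edge P 0 2 := by
  rintro ⟨-, u, hu, h⟩
  have h1 := h 1 (by decide) (by decide)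
  have h3 := h 3 (by decide) (by decide)
  simp only [inner3] at hu h1 h3
  norm_num [P] at hu h1 h3
  linarith

lemma not_edge_bd : ¬ Edge P 1 3 := by
  rintro ⟨-, u, hu, h⟩
  have h1 := h 0 (by decide) (by decide)
  have h3 := h 2 (by decide) (by decide)
  simp only [inner3] at hu h1 h3
  norm_num [P] at hu h1 h3
  linarith

lemma not_edge_cw : ¬ Edge P 2 5 := by
  rintro ⟨-, u, hu, h⟩
  have h1 := h 0 (by decide) (by decide)
  have h3 := h 1 (by decide) (by decide)
  have h4 := h 4 (by decide) (by decide)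
  simp only [inner3] at hu h1 h3 h4
  norm_num [P] at hu h1 h3 h4
  linarith

lemma not_edge_dw : ¬ Edge P 3 5 := by
  rintro ⟨-, u, hu, h⟩
  have h1 := h 0 (by decide) (by decide)
  have h3 := h 1 (by decide) (by decide)
  have h4 := h 4 (by decide) (by decide)
  simp only [inner3] at hu h1 h3 h4
  norm_num [P] at hu h1 h3 h4
  linarith

lemma edge_iff_adj (i j : Fin 6) : Edge P i j ↔ adj i j = true := by
  constructor
  · intro h
    by_contra hadj
    fin_cases i <;> fin_cases j <;>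
      first
      | exact absurd rfl h.1
      | exact hadj (by decide)
      | exact not_edge_ac h
      | exact not_edge_ac h.symm
      | exact not_edge_bd h
      | exact not_edge_bd h.symm
      | exact not_edge_cw h
      | exact not_edge_cw h.symm
      | exact not_edge_dw h
      | exact not_edge_dw h.symm
  · intro h
    fin_cases i <;> fin_cases j <;>
      first
      | exact absurd h (by decide)
      | exact edge_ab | exact edge_ab.symm | exact edge_ad | exact edge_ad.symm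
      | exact edge_av | exact edge_av.symm | exact edge_aw | exact edge_aw.symm
      | exact edge_bc | exact edge_bc.symm | exact edge_bv | exact edge_bv.symm
      | exact edge_bw | exact edge_bw.symm | exact edge_cd | exact edge_cd.symm
      | exact edge_cv | exact edge_cv.symm | exact edge_dv | exact edge_dv.symm
      | exact edge_vw | exact edge_vw.symm

/-- A vector orthogonal to three vectors with the given (nondegenerate) Gram matrix vanishes. -/
lemma ortho_zero (p0 p1 p2 r0 r1 r2 n0 n1 n2 x0 x1 x2 : ℝ)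
    (hpp : p0 * p0 + p1 * p1 + p2 * p2 = 4000) (hrr : r0 * r0 + r1 * r1 + r2 * r2 = 200)
    (hnn : n0 * n0 + n1 * n1 + n2 * n2 = 400) (hpr : p0 * r0 + p1 * r1 + p2 * r2 = -800)
    (hpn : p0 * n0 + p1 * n1 + p2 * n2 = 0) (hrn : r0 * n0 + r1 * n1 + r2 * n2 = 0)
    (hxp : x0 * p0 + x1 * p1 + x2 * p2 = 0) (hxr : x0 * r0 + x1 * r1 + x2 * r2 = 0)
    (hxn : x0 * n0 + x1 * n1 + x2 * n2 = 0) : x0 = 0 ∧ x1 = 0 ∧ x2 = 0 := by
  have hDsq : (p0 * (r1 * n2 - r2 * n1) - p1 * (r0 * n2 - r2 * n0) + p2 * (r0 * n1 - r1 * n0)) ^ 2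
      = 64000000 := by
    have h : (p0 * (r1 * n2 - r2 * n1) - p1 * (r0 * n2 - r2 * n0) + p2 * (r0 * n1 - r1 * n0)) ^ 2
        = (p0 * p0 + p1 * p1 + p2 * p2) * ((r0 * r0 + r1 * r1 + r2 * r2) *
            (n0 * n0 + n1 * n1 + n2 * n2) - (r0 * n0 + r1 * n1 + r2 * n2) ^ 2)
          - (p0 * r0 + p1 * r1 + p2 * r2) * ((p0 * r0 + p1 * r1 + p2 * r2) *
            (n0 * n0 + n1 * n1 + n2 * n2) -
            (r0 * n0 + r1 * n1 + r2 * n2) * (p0 * n0 + p1 * n1 + p2 * n2))
          + (p0 * n0 + p1 * n1 + p2 * n2) * ((p0 * r0 + p1 * r1 + p2 * r2) *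
            (r0 * n0 + r1 * n1 + r2 * n2) -
            (r0 * r0 + r1 * r1 + r2 * r2) * (p0 * n0 + p1 * n1 + p2 * n2)) := by ring
    rw [h, hpp, hrr, hnn, hpr, hpn, hrn]; norm_num
  generalize hD : p0 * (r1 * n2 - r2 * n1) - p1 * (r0 * n2 - r2 * n0) + p2 * (r0 * n1 - r1 * n0)
    = D at hDsq
  have hD0 : D ≠ 0 := by
    rintro rfl
    norm_num at hDsq
  have e0 : D * x0 = 0 := by
    rw [← hD]
    linear_combination (r1 * n2 - r2 * n1) * hxp + (p2 * n1 - p1 * n2) * hxr
      + (p1 * r2 - p2 * r1) * hxn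
  have e1 : D * x1 = 0 := by
    rw [← hD]
    linear_combination (r2 * n0 - r0 * n2) * hxp + (p0 * n2 - p2 * n0) * hxr
      + (p2 * r0 - p0 * r2) * hxn
  have e2 : D * x2 = 0 := by
    rw [← hD]
    linear_combination (r0 * n1 - r1 * n0) * hxp + (p1 * n0 - p0 * n1) * hxr
      + (p0 * r1 - p1 * r0) * hxn
  exact ⟨(mul_eq_zero.mp e0).resolve_left hD0, (mul_eq_zero.mp e1).resolve_left hD0,
    (mul_eq_zero.mp e2).resolve_left hD0⟩

/-- The algebraic core: six points with the prescribed edge lengths and with the two extra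
equalities `|ac| = |bd|`, `|wc| = |wd|` forced by symmetry cannot have `ab`, `bc` and `vw` as
edges of their convex hull. -/
lemma core (A B C D V W : E3)
    (hAB : dist A B ^ 2 = 400) (hBC : dist B C ^ 2 = 450) (hAD : dist A D ^ 2 = 450)
    (hCD : dist C D ^ 2 = 100) (hAV : dist A V ^ 2 = 1100) (hBV : dist B V ^ 2 = 1100)
    (hCV : dist C V ^ 2 = 350) (hDV : dist D V ^ 2 = 350) (hAW : dist A W ^ 2 = 150)
    (hBW : dist B W ^ 2 = 150) (hVW : dist V W ^ 2 = 1450)
    (hAC : dist A C ^ 2 = dist B D ^ 2) (hCW : dist C W ^ 2 = dist D W ^ 2)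
    (eAB : ∃ u : E3, @inner ℝ E3 _ u A = @inner ℝ E3 _ u B ∧
      @inner ℝ E3 _ u C < @inner ℝ E3 _ u A ∧ @inner ℝ E3 _ u D < @inner ℝ E3 _ u A ∧
      @inner ℝ E3 _ u V < @inner ℝ E3 _ u A ∧ @inner ℝ E3 _ u W < @inner ℝ E3 _ u A)
    (eBC : ∃ u : E3, @inner ℝ E3 _ u B = @inner ℝ E3 _ u C ∧
      @inner ℝ E3 _ u A < @inner ℝ E3 _ u B ∧ @inner ℝ E3 _ u D < @inner ℝ E3 _ u B)
    (eVW : ∃ u : E3, @inner ℝ E3 _ u V = @inner ℝ E3 _ u W ∧
      @inner ℝ E3 _ u A < @inner ℝ E3 _ u V ∧ @inner ℝ E3 _ u B < @inner ℝ E3 _ u V ∧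
      @inner ℝ E3 _ u C < @inner ℝ E3 _ u V ∧ @inner ℝ E3 _ u D < @inner ℝ E3 _ u V) :
    False := by
  simp only [dist3, inner3] at *
  generalize A 0 = a0 at *
  generalize A 1 = a1 at *
  generalize A 2 = a2 at *
  generalize B 0 = b0 at *
  generalize B 1 = b1 at *
  generalize B 2 = b2 at *
  generalize C 0 = c0 at *
  generalize C 1 = c1 at *
  generalize C 2 = c2 at *
  generalize D 0 = d0 at *
  generalize D 1 = d1 at *
  generalize D 2 = d2 at *
  generalize V 0 = v0 at *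
  generalize V 1 = v1 at *
  generalize V 2 = v2 at *
  generalize W 0 = w0 at *
  generalize W 1 = w1 at *
  generalize W 2 = w2 at *
  -- Gram matrix of `p = 2v - a - b`, `r = 2w - a - b`, `n = a - b`
  have hpp : (2*v0-a0-b0) * (2*v0-a0-b0) + (2*v1-a1-b1) * (2*v1-a1-b1)
      + (2*v2-a2-b2) * (2*v2-a2-b2) = 4000 := by
    linear_combination 2 * hAV + 2 * hBV - hAB
  have hrr : (2*w0-a0-b0) * (2*w0-a0-b0) + (2*w1-a1-b1) * (2*w1-a1-b1)
      + (2*w2-a2-b2) * (2*w2-a2-b2) = 200 := by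
    linear_combination 2 * hAW + 2 * hBW - hAB
  have hnn : (a0-b0) * (a0-b0) + (a1-b1) * (a1-b1) + (a2-b2) * (a2-b2) = 400 := by
    linear_combination hAB
  have hpr : (2*v0-a0-b0) * (2*w0-a0-b0) + (2*v1-a1-b1) * (2*w1-a1-b1)
      + (2*v2-a2-b2) * (2*w2-a2-b2) = -800 := by
    linear_combination hAV + hBV + hAW + hBW - hAB - 2 * hVW
  have hpn : (2*v0-a0-b0) * (a0-b0) + (2*v1-a1-b1) * (a1-b1) + (2*v2-a2-b2) * (a2-b2) = 0 := by
    linear_combination hBV - hAV
  have hrn : (2*w0-a0-b0) * (a0-b0) + (2*w1-a1-b1) * (a1-b1) + (2*w2-a2-b2) * (a2-b2) = 0 := by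
    linear_combination hBW - hAW
  -- `k = c - d` is orthogonal to `p`, `r`
  have hkm : (c0-d0) * (c0+d0-a0-b0) + (c1-d1) * (c1+d1-a1-b1) + (c2-d2) * (c2+d2-a2-b2) = 0 := by
    linear_combination (1/2) * (hAC + hBC - hAD)
  have hkp : (c0-d0) * (2*v0-a0-b0) + (c1-d1) * (2*v1-a1-b1) + (c2-d2) * (2*v2-a2-b2) = 0 := by
    linear_combination hkm - hCV + hDV
  have hkr : (c0-d0) * (2*w0-a0-b0) + (c1-d1) * (2*w1-a1-b1) + (c2-d2) * (2*w2-a2-b2) = 0 := by
    linear_combination hkm - hCW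
  have hmn : (c0+d0-a0-b0) * (a0-b0) + (c1+d1-a1-b1) * (a1-b1) + (c2+d2-a2-b2) * (a2-b2) = 0 := by
    linear_combination (1/2) * (hBC - hAD - hAC)
  -- hence `k` is a multiple of `n`
  obtain ⟨l, hl⟩ : ∃ l : ℝ, (c0-d0) * (a0-b0) + (c1-d1) * (a1-b1) + (c2-d2) * (a2-b2) = 400 * l :=
    ⟨((c0-d0) * (a0-b0) + (c1-d1) * (a1-b1) + (c2-d2) * (a2-b2)) / 400, by ring⟩
  obtain ⟨k0, k1, k2⟩ := ortho_zero _ _ _ _ _ _ _ _ _
    (c0 - d0 - l * (a0-b0)) (c1 - d1 - l * (a1-b1)) (c2 - d2 - l * (a2-b2))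
    hpp hrr hnn hpr hpn hrn (by linear_combination hkp - l * hpn)
    (by linear_combination hkr - l * hrn) (by linear_combination hl - l * hnn)
  have hl2 : (l - 1/2) * (l + 1/2) = 0 := by
    have : 400 * l ^ 2 = 100 := by
      linear_combination hCD - l^2 * hnn - (c0 - d0 + l * (a0-b0)) * k0
        - (c1 - d1 + l * (a1-b1)) * k1 - (c2 - d2 + l * (a2-b2)) * k2
    linear_combination this / 400
  rcases mul_eq_zero.mp hl2 with hl' | hl'
  · -- crossed trapezoid: `b + 2c = a + 2d`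
    obtain rfl : l = 1/2 := by linarith
    obtain ⟨u, hu, h1, h2⟩ := eBC
    have key : (u 0 * b0 + u 1 * b1 + u 2 * b2) + 2 * (u 0 * c0 + u 1 * c1 + u 2 * c2)
        = (u 0 * a0 + u 1 * a1 + u 2 * a2) + 2 * (u 0 * d0 + u 1 * d1 + u 2 * d2) := by
      linear_combination 2 * u 0 * k0 + 2 * u 1 * k1 + 2 * u 2 * k2
    linarith
  · obtain rfl : l = -(1/2) := by linarith
    -- Gram data of `m = c + d - a - b`
    have hmm : (c0+d0-a0-b0) * (c0+d0-a0-b0) + (c1+d1-a1-b1) * (c1+d1-a1-b1)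
        + (c2+d2-a2-b2) * (c2+d2-a2-b2) = 1700 := by
      linear_combination 2 * hBC + 2 * hAD - hAB - hCD - 2 * hl
    have hmp : (c0+d0-a0-b0) * (2*v0-a0-b0) + (c1+d1-a1-b1) * (2*v1-a1-b1)
        + (c2+d2-a2-b2) * (2*v2-a2-b2) = 2200 := by
      linear_combination (1/2) * (hpp + hmm) - hCV - hDV + (1/2) * hCD
    obtain ⟨t, hmr⟩ : ∃ t : ℝ, (c0+d0-a0-b0) * (2*w0-a0-b0) + (c1+d1-a1-b1) * (2*w1-a1-b1)
        + (c2+d2-a2-b2) * (2*w2-a2-b2) = t := ⟨_, rfl⟩
    obtain ⟨α, hα⟩ : ∃ α : ℝ, α = (200 * 2200 + 800 * t) / 160000 := ⟨_, rfl⟩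
    obtain ⟨β, hβ⟩ : ∃ β : ℝ, β = (4000 * t + 800 * 2200) / 160000 := ⟨_, rfl⟩
    obtain ⟨m0, m1, m2⟩ := ortho_zero _ _ _ _ _ _ _ _ _
      (c0+d0-a0-b0 - α * (2*v0-a0-b0) - β * (2*w0-a0-b0))
      (c1+d1-a1-b1 - α * (2*v1-a1-b1) - β * (2*w1-a1-b1))
      (c2+d2-a2-b2 - α * (2*v2-a2-b2) - β * (2*w2-a2-b2))
      hpp hrr hnn hpr hpn hrn
      (by linear_combination hmp - α * hpp - β * hpr - 4000 * hα + 800 * hβ)
      (by linear_combination hmr - α * hpr - β * hrr + 800 * hα - 200 * hβ)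
      (by linear_combination hmn - α * hpn - β * hrn)
    have hab : 4000 * α - 800 * β = 2200 := by rw [hα, hβ]; ring
    have hmm' : α * 2200 + β * t = 1700 := by
      linear_combination hmm - α * hmp - β * hmr - (c0+d0-a0-b0) * m0 - (c1+d1-a1-b1) * m1
        - (c2+d2-a2-b2) * m2
    have ht : t = -800 * α + 200 * β := by rw [hα, hβ]; ring
    have hα' : α = (11 + 4 * β) / 20 := by linarith
    have hβ2 : (β - 7/2) * (β + 7/2) = 0 := by
      rw [ht, hα'] at hmm'
      linear_combination hmm' / 40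
    rcases mul_eq_zero.mp hβ2 with hb | hb
    · -- `4c + 4d + 15a + 15b = 10v + 28w`
      obtain rfl : β = 7/2 := by linarith
      obtain rfl : α = 5/4 := by rw [hα']; norm_num
      obtain ⟨u, hu, h1, h2, h3, h4⟩ := eVW
      have key : 4 * (u 0 * c0 + u 1 * c1 + u 2 * c2) + 4 * (u 0 * d0 + u 1 * d1 + u 2 * d2)
          + 15 * (u 0 * a0 + u 1 * a1 + u 2 * a2) + 15 * (u 0 * b0 + u 1 * b1 + u 2 * b2)
          = 10 * (u 0 * v0 + u 1 * v1 + u 2 * v2) + 28 * (u 0 * w0 + u 1 * w1 + u 2 * w2) := by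
        linear_combination 4 * u 0 * m0 + 4 * u 1 * m1 + 4 * u 2 * m2
      linarith
    · -- `20c + 20d + 6v + 140w = 93a + 93b`
      obtain rfl : β = -(7/2) := by linarith
      obtain rfl : α = -(3/20) := by rw [hα']; norm_num
      obtain ⟨u, hu, h1, h2, h3, h4⟩ := eAB
      have key : 20 * (u 0 * c0 + u 1 * c1 + u 2 * c2) + 20 * (u 0 * d0 + u 1 * d1 + u 2 * d2)
          + 6 * (u 0 * v0 + u 1 * v1 + u 2 * v2) + 140 * (u 0 * w0 + u 1 * w1 + u 2 * w2)
          = 93 * (u 0 * a0 + u 1 * a1 + u 2 * a2) + 93 * (u 0 * b0 + u 1 * b1 + u 2 * b2) := by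
        linear_combination 20 * u 0 * m0 + 20 * u 1 * m1 + 20 * u 2 * m2
      linarith

lemma P_injective : Function.Injective P := by
  intro i j h
  have h0 : P i 0 = P j 0 := by rw [h]
  have h1 : P i 1 = P j 1 := by rw [h]
  fin_cases i <;> fin_cases j <;> first | rfl | (exfalso; revert h0 h1; norm_num [P])

/-- The vertex set of the counterexample. -/
noncomputable def S0 : Finset E3 := Finset.univ.map ⟨P, P_injective⟩

lemma mem_S0 {x : E3} : x ∈ S0 ↔ ∃ i, P i = x := by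
  simp [S0]

/-- The indexing of the vertex set. -/
noncomputable def q : Fin 6 ≃ {x // x ∈ S0} :=
  Equiv.ofBijective (fun i => ⟨P i, mem_S0.mpr ⟨i, rfl⟩⟩)
    ⟨fun i j h => P_injective (congrArg Subtype.val h), fun x => by
      obtain ⟨i, hi⟩ := mem_S0.mp x.2
      exact ⟨i, Subtype.ext hi⟩⟩

lemma q_val (i : Fin 6) : (q i).1 = P i := rfl

/-- The combinatorial automorphism `(a b)(c d)`. -/
def s : Equiv.Perm (Fin 6) := Equiv.swap 0 1 * Equiv.swap 2 3

lemma adj_s (i j : Fin 6) : adj (s i) (s j) = adj i j := by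
  revert i j; decide

lemma not_mem_hull (x : E3) (S : Set E3) (u : E3)
    (h : ∀ z ∈ S, @inner ℝ E3 _ u z < @inner ℝ E3 _ u x) : x ∉ convexHull ℝ S := by
  intro hx
  have hsub : convexHull ℝ S ⊆ {z : E3 | @inner ℝ E3 _ u z < @inner ℝ E3 _ u x} := by
    apply convexHull_min
    · intro z hz; exact h z hz
    · have := convex_halfSpace_lt (𝕜 := ℝ) (f := fun z : E3 => @inner ℝ E3 _ u z)
        ⟨fun a b => inner_add_right u a b, fun c a => by simp [inner_smul_right]⟩
        (@inner ℝ E3 _ u x)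
      exact this
  exact lt_irrefl (@inner ℝ E3 _ u x) (hsub hx)

lemma S0_vertices (x : E3) (hx : x ∈ S0) : x ∉ convexHull ℝ ((S0 : Set E3) \ {x}) := by
  obtain ⟨i, rfl⟩ := mem_S0.mp hx
  have key : ∃ u : E3, ∀ k, k ≠ i → @inner ℝ E3 _ u (P k) < @inner ℝ E3 _ u (P i) := by
    fin_cases i
    · refine ⟨pt 1 5 0, fun k hk => ?_⟩
      rw [inner3, inner3]
      fin_cases k <;> first | exact absurd rfl hk | norm_num [P]
    · refine ⟨pt 0 (-1) 0, fun k hk => ?_⟩
      rw [inner3, inner3]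
      fin_cases k <;> first | exact absurd rfl hk | norm_num [P]
    · refine ⟨pt (-5) (-4) (-11), fun k hk => ?_⟩
      rw [inner3, inner3]
      fin_cases k <;> first | exact absurd rfl hk | norm_num [P]
    · refine ⟨pt (-1) 3 0, fun k hk => ?_⟩
      rw [inner3, inner3]
      fin_cases k <;> first | exact absurd rfl hk | norm_num [P]
    · refine ⟨pt 0 0 1, fun k hk => ?_⟩
      rw [inner3, inner3]
      fin_cases k <;> first | exact absurd rfl hk | norm_num [P]
    · refine ⟨pt 1 0 0, fun k hk => ?_⟩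
      rw [inner3, inner3]
      fin_cases k <;> first | exact absurd rfl hk | norm_num [P]
  obtain ⟨u, hu⟩ := key
  apply not_mem_hull _ _ u
  rintro z ⟨hz, hzi⟩
  obtain ⟨k, rfl⟩ := mem_S0.mp (Finset.mem_coe.mp hz)
  exact hu k (fun hk => hzi (by rw [hk]; rfl))


lemma S0_interior : (interior (convexHull ℝ (S0 : Set E3))).Nonempty := by
  rw [(convex_convexHull ℝ (S0 : Set E3)).interior_nonempty_iff_affineSpan_eq_top,
    affineSpan_convexHull]
  have hP : ∀ i, P i ∈ affineSpan ℝ (S0 : Set E3) := fun i =>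
    subset_affineSpan ℝ _ (Finset.mem_coe.mpr (mem_S0.mpr ⟨i, rfl⟩))
  have hdir : ∀ i j, P i - P j ∈ (affineSpan ℝ (S0 : Set E3)).direction := fun i j =>
    AffineSubspace.vsub_mem_direction (hP i) (hP j)
  have htop : (affineSpan ℝ (S0 : Set E3)).direction = ⊤ := by
    rw [eq_top_iff]
    intro x _
    have hx : x = (x 2 / 10) • (P 4 - P 0) + ((x 0 + 3 * x 2) / 15) • (P 0 - P 2)
        + ((x 1 + x 2) / 20 - (x 0 + 3 * x 2) / 60) • (P 0 - P 1) := by
      ext i
      fin_cases i <;> simp [P] <;> ring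
    rw [hx]
    exact Submodule.add_mem _ (Submodule.add_mem _ (Submodule.smul_mem _ _ (hdir 4 0))
      (Submodule.smul_mem _ _ (hdir 0 2))) (Submodule.smul_mem _ _ (hdir 0 1))
  exact (AffineSubspace.direction_eq_top_iff_of_nonempty ⟨P 0, hP 0⟩).mp htop

lemma dist_s (i j : Fin 6) (h : adj i j = true) : dist (P (s i)) (P (s j)) = dist (P i) (P j) := by
  have key : dist (P (s i)) (P (s j)) ^ 2 = dist (P i) (P j) ^ 2 := by
    have h0 : s 0 = 1 := by decide
    have h1 : s 1 = 0 := by decide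
    have h2 : s 2 = 3 := by decide
    have h3 : s 3 = 2 := by decide
    have h4 : s 4 = 4 := by decide
    have h5 : s 5 = 5 := by decide
    rw [dist3, dist3]
    fin_cases i <;> fin_cases j <;>
      first
      | exact absurd h (by decide)
      | (simp only [Fin.mk_zero, Fin.mk_one, Fin.reduceFinMk, Fin.isValue,
          h0, h1, h2, h3, h4, h5] <;> norm_num [P])
  exact (pow_left_inj₀ dist_nonneg dist_nonneg two_ne_zero).mp key

/-- The negation of the preceding statement: Every convex 3-polytope has a combinatorially equivalent convex 3-polytope with equal corresponding edge lengths in which every edge-length-preserving combinatorial automorphism is induced by an isometry of space. -/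
theorem result :
    ¬ (∀ (S : Finset (EuclideanSpace ℝ (Fin 3))),
      (∀ x ∈ S, x ∉ convexHull ℝ ((S : Set (EuclideanSpace ℝ (Fin 3))) \ {x})) →
      (interior (convexHull ℝ (S : Set (EuclideanSpace ℝ (Fin 3))))).Nonempty →
      ∃ (T : Finset (EuclideanSpace ℝ (Fin 3))) (e : {x // x ∈ S} ≃ {x // x ∈ T}),
        (∀ x ∈ T, x ∉ convexHull ℝ ((T : Set (EuclideanSpace ℝ (Fin 3))) \ {x})) ∧
        (interior (convexHull ℝ (T : Set (EuclideanSpace ℝ (Fin 3))))).Nonempty ∧
        (∀ a b : {x // x ∈ S},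
          ((a ≠ b ∧ ∃ u : EuclideanSpace ℝ (Fin 3),
              @inner ℝ (EuclideanSpace ℝ (Fin 3)) _ u a.1 = @inner ℝ (EuclideanSpace ℝ (Fin 3)) _ u b.1 ∧
              ∀ z ∈ S, z ≠ a.1 → z ≠ b.1 →
                @inner ℝ (EuclideanSpace ℝ (Fin 3)) _ u z < @inner ℝ (EuclideanSpace ℝ (Fin 3)) _ u a.1) ↔
           (e a ≠ e b ∧ ∃ u : EuclideanSpace ℝ (Fin 3),
              @inner ℝ (EuclideanSpace ℝ (Fin 3)) _ u (e a).1 = @inner ℝ (EuclideanSpace ℝ (Fin 3)) _ u (e b).1 ∧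
              ∀ z ∈ T, z ≠ (e a).1 → z ≠ (e b).1 →
                @inner ℝ (EuclideanSpace ℝ (Fin 3)) _ u z < @inner ℝ (EuclideanSpace ℝ (Fin 3)) _ u (e a).1))) ∧
        (∀ a b : {x // x ∈ S},
          (a ≠ b ∧ ∃ u : EuclideanSpace ℝ (Fin 3),
              @inner ℝ (EuclideanSpace ℝ (Fin 3)) _ u a.1 = @inner ℝ (EuclideanSpace ℝ (Fin 3)) _ u b.1 ∧
              ∀ z ∈ S, z ≠ a.1 → z ≠ b.1 →
                @inner ℝ (EuclideanSpace ℝ (Fin 3)) _ u z < @inner ℝ (EuclideanSpace ℝ (Fin 3)) _ u a.1) →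
          dist (e a).1 (e b).1 = dist a.1 b.1) ∧
        ∀ σ : {x // x ∈ T} ≃ {x // x ∈ T},
          (∀ a b : {x // x ∈ T},
            ((a ≠ b ∧ ∃ u : EuclideanSpace ℝ (Fin 3),
                @inner ℝ (EuclideanSpace ℝ (Fin 3)) _ u a.1 = @inner ℝ (EuclideanSpace ℝ (Fin 3)) _ u b.1 ∧
                ∀ z ∈ T, z ≠ a.1 → z ≠ b.1 →
                  @inner ℝ (EuclideanSpace ℝ (Fin 3)) _ u z < @inner ℝ (EuclideanSpace ℝ (Fin 3)) _ u a.1) ↔
             (σ a ≠ σ b ∧ ∃ u : EuclideanSpace ℝ (Fin 3),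
                @inner ℝ (EuclideanSpace ℝ (Fin 3)) _ u (σ a).1 = @inner ℝ (EuclideanSpace ℝ (Fin 3)) _ u (σ b).1 ∧
                ∀ z ∈ T, z ≠ (σ a).1 → z ≠ (σ b).1 →
                  @inner ℝ (EuclideanSpace ℝ (Fin 3)) _ u z < @inner ℝ (EuclideanSpace ℝ (Fin 3)) _ u (σ a).1))) →
          (∀ a b : {x // x ∈ T},
            (a ≠ b ∧ ∃ u : EuclideanSpace ℝ (Fin 3),
                @inner ℝ (EuclideanSpace ℝ (Fin 3)) _ u a.1 = @inner ℝ (EuclideanSpace ℝ (Fin 3)) _ u b.1 ∧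
                ∀ z ∈ T, z ≠ a.1 → z ≠ b.1 →
                  @inner ℝ (EuclideanSpace ℝ (Fin 3)) _ u z < @inner ℝ (EuclideanSpace ℝ (Fin 3)) _ u a.1) →
            dist (σ a).1 (σ b).1 = dist a.1 b.1) →
          ∃ g : AffineIsometryEquiv ℝ (EuclideanSpace ℝ (Fin 3)) (EuclideanSpace ℝ (Fin 3)),
            ∀ a : {x // x ∈ T}, g a.1 = (σ a).1) := by
  intro H
  obtain ⟨T, e, -, -, hiso, hdist, hsym⟩ := H S0 S0_vertices S0_interior
  -- index the vertices of `T`
  let t : Fin 6 ≃ {x // x ∈ T} := q.trans e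
  have ht : ∀ i, t i = e (q i) := fun i => rfl
  have hE : ∀ i j, Edge (fun i => (t i).1) i j ↔ Edge P i j := by
    intro i j
    rw [← edge_iff T t i j]
    have := hiso (q i) (q j)
    rw [edge_iff S0 q i j] at this
    exact this.symm
  have hD : ∀ i j, adj i j = true → dist (t i).1 (t j).1 = dist (P i) (P j) := by
    intro i j hij
    exact hdist (q i) (q j) ((edge_iff S0 q i j).mpr ((edge_iff_adj i j).mpr hij))
  -- the symmetry
  obtain ⟨g, hg⟩ := hsym ((t.symm.trans s).trans t) (by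
    intro a b
    obtain ⟨i, rfl⟩ := t.surjective a
    obtain ⟨j, rfl⟩ := t.surjective b
    simp only [Equiv.trans_apply, Equiv.symm_apply_apply]
    rw [edge_iff T t i j, edge_iff T t (s i) (s j), hE, hE, edge_iff_adj, edge_iff_adj, adj_s]) (by
    intro a b
    obtain ⟨i, rfl⟩ := t.surjective a
    obtain ⟨j, rfl⟩ := t.surjective b
    simp only [Equiv.trans_apply, Equiv.symm_apply_apply]
    rw [edge_iff T t i j, hE, edge_iff_adj]
    intro hij
    rw [hD i j hij, hD (s i) (s j) (by rw [adj_s]; exact hij)]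
    exact dist_s i j hij)
  have hg' : ∀ i, g (t i).1 = (t (s i)).1 := by
    intro i
    have := hg (t i)
    simpa only [Equiv.trans_apply, Equiv.symm_apply_apply] using this
  have hgd : ∀ i j, dist (t (s i)).1 (t (s j)).1 = dist (t i).1 (t j).1 := by
    intro i j
    rw [← hg' i, ← hg' j]
    exact g.dist_map _ _
  have e01 := (hE 0 1).mpr edge_ab
  have e12 := (hE 1 2).mpr edge_bc
  have e45 := (hE 4 5).mpr edge_vw
  refine core (t 0).1 (t 1).1 (t 2).1 (t 3).1 (t 4).1 (t 5).1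
    ?_ ?_ ?_ ?_ ?_ ?_ ?_ ?_ ?_ ?_ ?_ ?_ ?_ ?_ ?_ ?_
  · rw [hD 0 1 (by decide), dist3]; norm_num [P]
  · rw [hD 1 2 (by decide), dist3]; norm_num [P]
  · rw [hD 0 3 (by decide), dist3]; norm_num [P]
  · rw [hD 2 3 (by decide), dist3]; norm_num [P]
  · rw [hD 0 4 (by decide), dist3]; norm_num [P]
  · rw [hD 1 4 (by decide), dist3]; norm_num [P]
  · rw [hD 2 4 (by decide), dist3]; norm_num [P]
  · rw [hD 3 4 (by decide), dist3]; norm_num [P]
  · rw [hD 0 5 (by decide), dist3]; norm_num [P]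
  · rw [hD 1 5 (by decide), dist3]; norm_num [P]
  · rw [hD 4 5 (by decide), dist3]; norm_num [P]
  · have h := hgd 0 2
    have h0 : s 0 = 1 := by decide
    have h2 : s 2 = 3 := by decide
    rw [h0, h2] at h
    rw [h]
  · have h := hgd 2 5
    have h2 : s 2 = 3 := by decide
    have h5 : s 5 = 5 := by decide
    rw [h2, h5] at h
    rw [h]
  · obtain ⟨-, u, hu, h⟩ := e01
    exact ⟨u, hu, h 2 (by decide) (by decide), h 3 (by decide) (by decide),
      h 4 (by decide) (by decide), h 5 (by decide) (by decide)⟩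
  · obtain ⟨-, u, hu, h⟩ := e12
    exact ⟨u, hu, h 0 (by decide) (by decide), h 3 (by decide) (by decide)⟩
  · obtain ⟨-, u, hu, h⟩ := e45
    exact ⟨u, hu, h 0 (by decide) (by decide), h 1 (by decide) (by decide),
      h 2 (by decide) (by decide), h 3 (by decide) (by decide)⟩

end Pool.Agent.S09854
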