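import Pool.Statements.S10147
import Pool.Agent.Helper51.QFact

set_option autoImplicit false
open Polynomial
open Pool Pool.MP_9172b5_co

namespace Pool.Agent.S10147

/-- For every positive integer n, the q-factorial ratio [15n]![2n]!/([10n]![4n]![3n]!) with [m]!=(1-q)...(1-q^m) equals an integer polynomial in q all of whose coefficients are non-negative. -/
theorem result :
    ∀ n : ℕ, 0 < n →
      ∃ P : Polynomial ℤ, (∀ k : ℕ, 0 ≤ P.coeff k) ∧
        (∏ i ∈ Finset.range (15 * n), ((1 : Polynomial ℤ) - X ^ (i + 1))) *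
          (∏ i ∈ Finset.range (2 * n), ((1 : Polynomial ℤ) - X ^ (i + 1))) =
        P * ((∏ i ∈ Finset.range (10 * n), ((1 : Polynomial ℤ) - X ^ (i + 1))) *
          (∏ i ∈ Finset.range (4 * n), ((1 : Polynomial ℤ) - X ^ (i + 1))) *
          (∏ i ∈ Finset.range (3 * n), ((1 : Polynomial ℤ) - X ^ (i + 1)))) := by
  intro n _
  exact Pool.Agent.Helper51.main n

end Pool.Agent.S10147
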