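import Pool.Statements.S10649
import Pool.Agent.Helper66.KD.Fin

set_option autoImplicit false
open Pool Pool.MP_a8383f_co

namespace Pool.Agent.S10649

/-- The set of 12-tuples of unit vectors in 3-space with every two distinct ones at angle at least pi/3 is path-connected. -/
theorem result :
    IsPathConnected
      {p : Fin 12 → EuclideanSpace ℝ (Fin 3) |
        (∀ i, ‖p i‖ = 1) ∧
        ∀ i j, i ≠ j → Real.pi / 3 ≤ InnerProductGeometry.angle (p i) (p j)} := by
  exact Pool.Agent.Helper66.Kiss.Dl.final_of_cov Pool.Agent.Helper66.Kiss.Dl.cov_all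

end Pool.Agent.S10649
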