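import Pool.Statements.S10802
import Pool.Agent.Helper53.KoebeMain

set_option autoImplicit false
open Pool Pool.MP_af0770_co

namespace Pool.Agent.S10802

/-- The negation of the preceding statement: For every 3-dimensional convex polytope there is a combinatorially equivalent convex polytope whose every edge line is tangent to the unit sphere at a point inside that edge, and whose solid center of mass is the origin. -/
theorem result :
    ¬ (∀ S : Finset (EuclideanSpace ℝ (Fin 3)),
      (interior (convexHull ℝ (S : Set (EuclideanSpace ℝ (Fin 3))))).Nonempty →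
      ∃ T : Finset (EuclideanSpace ℝ (Fin 3)),
        (interior (convexHull ℝ (T : Set (EuclideanSpace ℝ (Fin 3))))).Nonempty ∧
        (∃ f : EuclideanSpace ℝ (Fin 3) → EuclideanSpace ℝ (Fin 3),
          Set.BijOn f
            (Set.extremePoints ℝ (convexHull ℝ (S : Set (EuclideanSpace ℝ (Fin 3)))))
            (Set.extremePoints ℝ (convexHull ℝ (T : Set (EuclideanSpace ℝ (Fin 3))))) ∧
          ∀ A : Set (EuclideanSpace ℝ (Fin 3)),
            A ⊆ Set.extremePoints ℝ (convexHull ℝ (S : Set (EuclideanSpace ℝ (Fin 3)))) →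
            ((∃ F : Set (EuclideanSpace ℝ (Fin 3)),
                IsExposed ℝ (convexHull ℝ (S : Set (EuclideanSpace ℝ (Fin 3)))) F ∧
                F.Nonempty ∧
                A = F ∩ Set.extremePoints ℝ (convexHull ℝ (S : Set (EuclideanSpace ℝ (Fin 3))))) ↔
             (∃ G : Set (EuclideanSpace ℝ (Fin 3)),
                IsExposed ℝ (convexHull ℝ (T : Set (EuclideanSpace ℝ (Fin 3)))) G ∧
                G.Nonempty ∧
                f '' A = G ∩ Set.extremePoints ℝ (convexHull ℝ (T : Set (EuclideanSpace ℝ (Fin 3))))))) ∧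
        (∀ v w : EuclideanSpace ℝ (Fin 3), v ≠ w →
          IsExposed ℝ (convexHull ℝ (T : Set (EuclideanSpace ℝ (Fin 3)))) (segment ℝ v w) →
            (∃ p ∈ openSegment ℝ v w, ‖p‖ = 1) ∧
            ∀ q ∈ affineSpan ℝ ({v, w} : Set (EuclideanSpace ℝ (Fin 3))), 1 ≤ ‖q‖) ∧
        ∫ x in convexHull ℝ (T : Set (EuclideanSpace ℝ (Fin 3))), x = 0) := by
  intro H
  obtain ⟨T, -, ⟨f, hf, hfaces⟩, hedge, hcent⟩ :=
    H Helper53.Koebe.PS_finite.toFinset (by
      rw [Set.Finite.coe_toFinset]; exact Helper53.Koebe.PS_interior)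
  rw [Set.Finite.coe_toFinset] at hf hfaces
  exact Helper53.Koebe.core T f hf hfaces hedge hcent

end Pool.Agent.S10802
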