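import Pool.Statements.S12360
import Pool.Agent.Helper61.VGroup
import Pool.Agent.Helper61.NoTwoFactor

set_option autoImplicit false
open Pool Pool.MP_f17f26_co

namespace Pool.Agent.S12360

/-- The negation of the preceding statement: Every connected infinite 4-regular vertex-transitive graph has a spanning 2-regular subgraph H whose stabilizer in the automorphism group of the graph has only finitely many orbits on vertices. -/
theorem result :
    ¬ (∀ (V : Type) (G : SimpleGraph V), Infinite V → G.Connected →
      (∀ v : V, (G.neighborSet v).ncard = 4) →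
      (∀ u v : V, ∃ φ : G ≃g G, φ u = v) →
      ∃ H : SimpleGraph V, H ≤ G ∧ (∀ v : V, (H.neighborSet v).ncard = 2) ∧
        ∃ S : Finset V, ∀ v : V, ∃ s ∈ S, ∃ φ : G ≃g G,
          (∀ x y : V, H.Adj (φ x) (φ y) ↔ H.Adj x y) ∧ φ s = v) := by
  intro hall
  have H : Helper61.Hyp Helper61.ga Helper61.gb :=
    { a3 := Helper61.ga3
      b2 := Helper61.gb2
      gen := Helper61.closure_Gm
      a1 := Helper61.n0a
      b1 := Helper61.n0b
      n2 := Helper61.n2
      n3 := Helper61.n3
      r25 := Helper61.gab25
      nofi := Helper61.no_finite_index }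
  obtain ⟨F, hF, h2, S, hS⟩ := hall _ H.Gr H.infin H.conn H.nbhd_ncard H.vtrans
  exact H.no_factor F hF h2 S hS

end Pool.Agent.S12360
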