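import Pool.Statements.S12427
import Pool.Agent.Helper39.AperyProof

set_option autoImplicit false
open Pool Pool.MP_f59cb1_co

namespace Pool.Agent.S12427

open Finset in
theorem coeffA (A : ℕ → Polynomial ℤ)
    (hA : ∀ n : ℕ, A n = ∑ k ∈ Finset.range (n + 1),
          Polynomial.monomial k (((n.choose k : ℤ)) ^ 2 * ((n + k).choose k : ℤ))) (n k : ℕ) :
    (((A n).coeff k : ℤ) : ℚ) = Pool.Agent.Helper39.Apery.a n k := by
  rw [hA n, Polynomial.finsetSum_coeff]
  simp only [Polynomial.coeff_monomial]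
  unfold Pool.Agent.Helper39.Apery.a
  by_cases hk : k ∈ Finset.range (n + 1)
  · rw [Finset.sum_ite_eq' (range (n + 1)) k, if_pos hk]
    push_cast
    rfl
  · rw [Finset.sum_ite_eq' (range (n + 1)) k, if_neg hk]
    have : n < k := by simpa using hk
    rw [Nat.choose_eq_zero_of_lt this]
    simp

/-- With A_n(q) = sum over k ≤ n of C(n,k)^2 C(n+k,k) q^k, for every n ≥ 1 every coefficient of A_{n+1}(q)A_{n-1}(q) − A_n(q)^2 is nonnegative (q-log-convexity). -/
theorem result :
    ∀ A : ℕ → Polynomial ℤ,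
      (∀ n : ℕ, A n = ∑ k ∈ Finset.range (n + 1),
          Polynomial.monomial k (((n.choose k : ℤ)) ^ 2 * ((n + k).choose k : ℤ))) →
      ∀ n i : ℕ, 0 ≤ (A (n + 2) * A n - A (n + 1) ^ 2).coeff i := by
  intro A hA n i
  have h := Pool.Agent.Helper39.Apery.main_sum n i
  have e : (((A (n + 2) * A n - A (n + 1) ^ 2).coeff i : ℤ) : ℚ) =
      ∑ x ∈ Finset.HasAntidiagonal.antidiagonal i,
        (Pool.Agent.Helper39.Apery.a (n + 2) x.1 * Pool.Agent.Helper39.Apery.a n x.2 -
          Pool.Agent.Helper39.Apery.a (n + 1) x.1 * Pool.Agent.Helper39.Apery.a (n + 1) x.2) := by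
    rw [pow_two, Polynomial.coeff_sub, Polynomial.coeff_mul, Polynomial.coeff_mul,
      ← Finset.sum_sub_distrib]
    push_cast
    apply Finset.sum_congr rfl
    intro x _
    rw [coeffA A hA, coeffA A hA, coeffA A hA, coeffA A hA]
  rw [← e] at h
  exact_mod_cast h

end Pool.Agent.S12427
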