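import Pool.Statements.S12664
import Pool.Agent.Helper56.LD.Final
import Pool.Agent.Helper9.LD.CO17
import Pool.Agent.Helper17.LD.MatAux
import Pool.Agent.Helper17.LD.HU
import Pool.Agent.Helper22.LD.Word
import Pool.Agent.Helper25.LD.AuxBwd
import Pool.Agent.Helper27.LD.MatMain
import Pool.Agent.Helper31.LD.AuxFwd
import Pool.Agent.Helper31.LD.Compact
import Pool.Agent.Helper43.LD.Ext
import Pool.Agent.Helper50.LD.USC
import Pool.Agent.Helper51.LD.Conn
import Pool.Agent.Helper54.LD.LSC
import Pool.Agent.Helper67.LD.StmtHD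
import Pool.Agent.Helper69.LD.C1
import Pool.Agent.Helper69.LD.C2s
import Pool.Agent.Helper69.LD.Miss
import Pool.Agent.Helper75.LD.MainTail
import Pool.Agent.Helper75.LD.Cut
import Pool.Agent.Helper77.LD.Hit
import Pool.Agent.Helper89.LD.ES
import Pool.Agent.Helper90.LD.Mu
import Pool.Agent.Helper90.LD.Push
import Pool.Agent.Helper94.LD.C34
import Pool.Agent.Helper94.LD.C2
import Pool.Agent.Helper94.LD.Val
import Pool.Agent.Helper94.LD.Core

set_option autoImplicit false
open Pool Pool.MP_0152c0_gt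

namespace Pool.Agent.S12664

open Pool.Agent.Helper56.LD

theorem hES : StmtES := Pool.Agent.Helper89.LD.stmtES
theorem hMu : StmtMu := Pool.Agent.Helper90.LD.muS hES
theorem hInv : StmtMainInv := Pool.Agent.Helper75.LD.stmtMainInv
theorem hTail : StmtTail := Pool.Agent.Helper75.LD.stmtTail
theorem hRoot : StmtRoot := Pool.Agent.Helper75.LD.stmtRoot
theorem hFwd : StmtAuxFwd := Pool.Agent.Helper31.LD.auxFwd
theorem hBwd : StmtAuxBwd := Pool.Agent.Helper25.LD.auxBwd hES
theorem hMatMain : StmtMatMain := Pool.Agent.Helper27.LD.matMain hES hMu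
theorem hMatAux : StmtMatAux := Pool.Agent.Helper17.LD.matAux hInv hFwd hBwd hRoot
theorem hExt : StmtExt := Pool.Agent.Helper43.LD.ext hMu
theorem hC1 : StmtC1 := Pool.Agent.Helper69.LD.stmtC1 hES
theorem hC2 : StmtC2 := Pool.Agent.Helper94.LD.stmtC2 hES hMu hExt
theorem hC2s : StmtC2s := Pool.Agent.Helper69.LD.stmtC2s hES hTail hExt hC2
theorem hC3 : StmtC3 := Pool.Agent.Helper94.LD.stmtC3 hES hInv hTail
theorem hC4 : StmtC4 := Pool.Agent.Helper94.LD.stmtC4 hES hTail
theorem hC5 : StmtC5 := Pool.Agent.Helper9.LD.c5 hExt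
theorem hC6 : StmtC6 := Pool.Agent.Helper9.LD.c6 hES
theorem hSne : StmtSne := Pool.Agent.Helper9.LD.sne hMu
theorem hStail : StmtStail := Pool.Agent.Helper9.LD.stail
theorem hWord : StmtWord := Pool.Agent.Helper22.LD.pf_StmtWord
theorem hCompact : StmtCompact := Pool.Agent.Helper31.LD.compactSpace
theorem hCut : StmtCut := Pool.Agent.Helper75.LD.stmtCut hCompact
theorem hPush : StmtPush := Pool.Agent.Helper90.LD.stmtPush
theorem hConn : StmtConn := Pool.Agent.Helper51.LD.conn
theorem hHU : StmtHU := Pool.Agent.Helper17.LD.stmtHU hCompact hCut hPush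
theorem hHD : StmtHD := _root_.Helper67.LD.pf_StmtHD hCompact hCut hPush
theorem hVal : StmtVal := Pool.Agent.Helper94.LD.stmtVal
theorem hValNe : StmtValNe := Pool.Agent.Helper94.LD.stmtValNe hCompact
theorem hNoFix : StmtNoFix := Pool.Agent.Helper94.LD.stmtNoFix
theorem hUSC : StmtUSC := Pool.Agent.Helper50.LD.usc
theorem hLSC : StmtLSC := Pool.Agent.Helper54.LD.pf_StmtLSC
theorem hCore : StmtLSCcore := Pool.Agent.Helper94.LD.stmtLSCcore
theorem hHit : StmtHit := Pool.Agent.Helper77.LD.hit hCompact hUSC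
theorem hMiss : StmtMiss := Pool.Agent.Helper69.LD.stmtMiss hCompact hLSC hCore

/-- The negation of the preceding statement: Every hereditarily unicoherent, hereditarily decomposable metric continuum M has the fixed point property for continuous maps into its hyperspace of nonempty closed sets: some x lies in f(x). -/
theorem result :
    ¬ (∀ (M : Type) [MetricSpace M] [CompactSpace M] [ConnectedSpace M] [Nonempty M],
      (∀ A B : Set M, IsClosed A → IsConnected A → IsClosed B → IsConnected B →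
          IsPreconnected (A ∩ B)) →
      (∀ K : Set M, IsClosed K → IsConnected K → K.Nontrivial →
          ∃ A B : Set M, IsClosed A ∧ IsConnected A ∧ IsClosed B ∧ IsConnected B ∧
            A ⊂ K ∧ B ⊂ K ∧ A ∪ B = K) →
      ∀ f : M → TopologicalSpace.NonemptyCompacts M, Continuous f →
        ∃ x : M, x ∈ f x) := by
  obtain ⟨u, hu⟩ := hWord
  exact of_sys hCompact hConn hHU hHD hVal hValNe hNoFix hHit hMiss Lab Om
    (mkSys u hu hES hMatMain hMatAux hC1 hC2 hC2s hC3 hC4 hC5 hC6 hSne hStail)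

end Pool.Agent.S12664
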