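import Pool.Statements.S12700
import Pool.Agent.Helper63.MainClaim

set_option autoImplicit false
open Pool Pool.MP_0764dd_gt

namespace Pool.Agent.S12700

/-- The negation of the preceding statement: If a compact Hausdorff space is a union of countably many subspaces, each having small transfinite inductive dimension trind, then the whole space has small transfinite inductive dimension. -/
theorem result :
    ¬ (∀ (X : Type) [TopologicalSpace X] [CompactSpace X] [T2Space X] (A : ℕ → Set X),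
      (⋃ n, A n) = Set.univ →
      (∀ n, ∃ (𝒮 : Set (Set X)) (f : Set X → Ordinal.{0}), A n ∈ 𝒮 ∧
        ∀ S ∈ 𝒮, ∀ x ∈ S, ∀ V : Set X, IsOpen V → x ∈ V →
          ∃ U : Set X, IsOpen U ∧ x ∈ U ∧ U ∩ S ⊆ V ∧
            ((S ∩ closure (U ∩ S)) \ U) ∈ 𝒮 ∧ f ((S ∩ closure (U ∩ S)) \ U) < f S) →
      ∃ (𝒮 : Set (Set X)) (f : Set X → Ordinal.{0}), (Set.univ : Set X) ∈ 𝒮 ∧
        ∀ S ∈ 𝒮, ∀ x ∈ S, ∀ V : Set X, IsOpen V → x ∈ V →
          ∃ U : Set X, IsOpen U ∧ x ∈ U ∧ U ∩ S ⊆ V ∧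
            ((S ∩ closure (U ∩ S)) \ U) ∈ 𝒮 ∧ f ((S ∩ closure (U ∩ S)) \ U) < f S) := by
  intro h
  obtain ⟨X, _, _, _, A, hA, hA', hn⟩ := Pool.Agent.Helper63.counterexample
  exact hn (h X A hA hA')

end Pool.Agent.S12700
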