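import Pool.Statements.S14505
import Pool.Agent.Helper74.BlindMain

set_option autoImplicit false
open Pool Pool.MP_280e70_lc

namespace Pool.Agent.S14505

open Pool.Agent.Helper74 in
/-- The one-region system built from a counter program generates the given set. -/
theorem gen_iff (S : Set ℕ) (hS : Partrec (fun n : ℕ => Part.assert (n ∈ S)
    (fun _ => Part.some ()))) :
    ∃ (A : Type) (_ : DecidableEq A) (_ : Finite A) (Rs : Set (RuleT A)) (_ : Rs.Finite) (c : A)
      (_ : OneCat Rs c) (X0 : Multiset A) (_ : X0.count c ≤ 1), ∀ n, n ∈ S ↔ ∃ T, HC Rs T X0 n := by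
  classical
  obtain ⟨P, hP⟩ := exists_prg S hS
  obtain ⟨K0, hK0⟩ := exists_bound P
  let K := K0 + 1
  have hK : P.all (fun a => a.reg < K) := Prg.all_mono (fun a h => Nat.lt_succ_of_lt h) P hK0
  obtain ⟨σ, hσ, D, hD⟩ := (full K P).lang_regular
  let ι : Reg K ≃ Fin (Fintype.card (Reg K)) := Fintype.equivFin _
  let G := ctl (BA K) D
  have hfin : (PR G ι).Finite := PR_finite G ι
  refine ⟨Sym (Option σ) ((σ × BL K) ⊕ (Option D.accept)) (Reg K) (Fintype.card (Reg K)),
    inferInstance, inferInstance, PR G ι, hfin, Sym.c, PR_oneCat G ι,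
    Sym.c ::ₘ Sym.st (some D.start) ::ₘ ({Reg.d} : Multiset (Reg K)).map
      (sy G (Fintype.card (Reg K)) 0), ?_, ?_⟩
  · rw [Multiset.count_cons_self, Multiset.count_eq_zero_of_notMem (c_not_mem_start G _ _)]
  · intro n
    have hv0 : view ({Reg.d} : Multiset (Reg K)) = v0 K := by
      ext <;> simp [view, v0]
    have hsem : (full K P).sem (vs K) (v0 K, 0) (v0 K, n) ↔ n ∈ S := by
      rw [hP]
      constructor
      · exact full_sound (Nat.succ_pos _) P hK n
      · rintro ⟨t, ht⟩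
        exact full_complete (Nat.succ_pos _) P hK n t ht
    rw [← hsem, Prg.sem_iff]
    constructor
    · rintro ⟨w, hw, hrun⟩
      rw [← hD] at hw
      have hb : brun (BA K) w {Reg.d} {Reg.d} n := by
        rw [brun_iff w _ _ 0 n, wrun_view, hv0, Nat.zero_add]
        exact hrun
      exact dfa_complete (BA K) D ι w D.start {Reg.d} n (by simp [BA]) hw hb
    · rintro ⟨T, hT⟩
      obtain ⟨w, hw, hb⟩ := dfa_sound (BA K) D ι T D.start {Reg.d} n (by simp [BA]) hT
      refine ⟨w, ?_, ?_⟩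
      · rw [← hD]
        exact hw
      · have hb' : brun (BA K) w {Reg.d} {Reg.d} n := hb
        rw [brun_iff w _ _ 0 n, wrun_view, hv0, Nat.zero_add] at hb'
        exact hb'

/-- Every recursively enumerable set of naturals equals the set of halting results of some cell-like P system with catalytic and noncooperative rules, maximal parallelism, any number of membranes and at most one catalyst initially. -/
theorem result :
  ∀ S : Set ℕ, Partrec (fun n : ℕ => Part.assert (n ∈ S) (fun _ => Part.some ())) →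
  ∃ (k m : ℕ) (C : Finset (Fin k)) (p : Fin (m+1) → Fin (m+1))
    (w : Fin (m+1) → Multiset (Fin k))
    (R : Fin (m+1) → Finset (Option (Fin k) × Fin k × Multiset (Fin k × Fin 3)))
    (iout : Option (Fin (m+1)))
    (App : Fin (m+1) → Multiset (Fin k) →
      Multiset (Option (Fin k) × Fin k × Multiset (Fin k × Fin 3)) → Prop),
    p 0 = 0 ∧ (∀ i : Fin (m+1), i ≠ 0 → p i < i) ∧
    (∀ j : Fin (m+1), iout = some j → ∀ i : Fin (m+1), i ≠ 0 → p i ≠ j) ∧
    (∀ i : Fin (m+1), ∀ ρ ∈ R i,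
      ρ.2.1 ∉ C ∧ (∀ c : Fin k, ρ.1 = some c → c ∈ C) ∧ ∀ x ∈ ρ.2.2, x.1 ∉ C) ∧
    (∑ i : Fin (m+1), ((w i).filter (fun a => a ∈ C)).card) ≤ 1 ∧
    (∀ (i : Fin (m+1)) (X : Multiset (Fin k))
       (U : Multiset (Option (Fin k) × Fin k × Multiset (Fin k × Fin 3))),
       App i X U ↔
         ((∀ ρ ∈ U, ρ ∈ R i ∧
            ((∀ l : Fin (m+1), l ≠ 0 → p l ≠ i) → ∀ x ∈ ρ.2.2, x.2 ≠ 2)) ∧
          U.map (fun ρ => ρ.2.1) + U.filterMap (fun ρ => ρ.1) ≤ X)) ∧
    ∀ n : ℕ, n ∈ S ↔
      ∃ (T : ℕ) (M : ℕ → Fin (m+1) → Multiset (Fin k)) (e : ℕ → ℕ),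
        M 0 = w ∧ e 0 = 0 ∧
        (∀ t < T, ∃ (U : Fin (m+1) →
              Multiset (Option (Fin k) × Fin k × Multiset (Fin k × Fin 3)))
            (D : Fin (m+1) → Multiset (Fin k)),
          (∀ i : Fin (m+1), App i (M t i) (U i) ∧
              ∀ ρ : Option (Fin k) × Fin k × Multiset (Fin k × Fin 3),
                ¬ App i (M t i) (Multiset.cons ρ (U i))) ∧
          D 0 = 0 ∧
          (∀ i : Fin (m+1),
            ∑ j ∈ Finset.univ.filter (fun j : Fin (m+1) => j ≠ 0 ∧ p j = i), D j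
              = (U i).bind (fun ρ => (ρ.2.2.filter (fun x => x.2 = 2)).map Prod.fst)) ∧
          (∀ i : Fin (m+1), M (t+1) i =
              M t i - (U i).map (fun ρ => ρ.2.1)
              + (U i).bind (fun ρ => (ρ.2.2.filter (fun x => x.2 = 0)).map Prod.fst)
              + ∑ j ∈ Finset.univ.filter (fun j : Fin (m+1) => j ≠ 0 ∧ p j = i),
                  (U j).bind (fun ρ => (ρ.2.2.filter (fun x => x.2 = 1)).map Prod.fst)
              + D i) ∧
          e (t+1) = e t +
            ((U 0).bind (fun ρ => (ρ.2.2.filter (fun x => x.2 = 1)).map Prod.fst)).card) ∧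
        (∀ (i : Fin (m+1)) (ρ : Option (Fin k) × Fin k × Multiset (Fin k × Fin 3)),
          ¬ App i (M T i) (Multiset.cons ρ 0)) ∧
        (∀ j : Fin (m+1), iout = some j → n = (M T j).card) ∧
        (iout = none → n = e T) := by
  intro S hS
  obtain ⟨A, hA1, hA2, Rs, hfin, c, hR, X0, hX0, hgen⟩ := gen_iff S hS
  exact Pool.Agent.Helper74.frozen_of_HC Rs hfin c hR X0 hX0 S hgen

end Pool.Agent.S14505
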