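import Pool.Statements.S14519
import Pool.Agent.Helper7.AC.Final

set_option autoImplicit false
open Classical
open Pool Pool.MP_29fd35_lc

namespace Pool.Agent.S14519

open Pool.Agent.Helper7.AC in
theorem chi_halt : (chi halt) =
    (fun n => Part.some (if (Nat.Partrec.Code.eval (Denumerable.ofNat Nat.Partrec.Code n) n).Dom
      then 1 else 0) : ℕ →. ℕ) := by
  funext n
  unfold chi halt
  by_cases h : (Nat.Partrec.Code.eval (Denumerable.ofNat Nat.Partrec.Code n) n).Dom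
  · simp [h]
  · simp [h]

open Pool.Agent.Helper7.AC in
theorem ofFn_halt (n : ℕ) : (List.ofFn (fun i : Fin n =>
      decide ((Nat.Partrec.Code.eval (Denumerable.ofNat Nat.Partrec.Code (i : ℕ)) (i : ℕ)).Dom)))
      = pre halt n := by
  unfold pre
  apply List.ext_getElem
  · simp
  · intro i h1 h2
    simp [halt]

/-- For every noncomputable c.e. set A there is a set B strictly Turing below the halting set, not computing A, such that the halting set is K-trivial relative to B (stated via the relativized coding-Theorem characterization of K^B). -/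
theorem result :
  ∀ A : ℕ → Bool,
    (∃ φ : ℕ →. ℕ, Nat.Partrec φ ∧ ∀ n, (φ n).Dom ↔ A n = true) →
    ¬ Computable A →
    ∃ B : ℕ → Bool,
      TuringReducible (fun n => Part.some (Bool.toNat (B n)) : ℕ →. ℕ)
        (fun n => Part.some (if (Nat.Partrec.Code.eval (Denumerable.ofNat Nat.Partrec.Code n) n).Dom then 1 else 0) : ℕ →. ℕ) ∧
      ¬ TuringReducible
        (fun n => Part.some (if (Nat.Partrec.Code.eval (Denumerable.ofNat Nat.Partrec.Code n) n).Dom then 1 else 0) : ℕ →. ℕ)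
        (fun n => Part.some (Bool.toNat (B n)) : ℕ →. ℕ) ∧
      ¬ TuringReducible (fun n => Part.some (Bool.toNat (A n)) : ℕ →. ℕ)
        (fun n => Part.some (Bool.toNat (B n)) : ℕ →. ℕ) ∧
      ∀ f : ℕ → ℕ,
        (∃ φ : ℕ →. ℕ, TuringReducible φ (fun n => Part.some (Bool.toNat (B n)) : ℕ →. ℕ) ∧
          ∀ n k : ℕ, (φ (Nat.pair n k)).Dom ↔ f n ≤ k) →
        (∀ s : Finset ℕ, ∑ n ∈ s, (1/2 : ℝ) ^ (f n) ≤ 1) →
        ∃ h : List Bool → ℕ,
          (∃ ψ : ℕ →. ℕ, TuringReducible ψ (fun n => Part.some (Bool.toNat (B n)) : ℕ →. ℕ) ∧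
            ∀ σ : List Bool, ∀ k : ℕ, (ψ (Nat.pair (Encodable.encode σ) k)).Dom ↔ h σ ≤ k) ∧
          (∀ s : Finset (List Bool), ∑ σ ∈ s, (1/2 : ℝ) ^ (h σ) ≤ 1) ∧
          ∃ c : ℕ, ∀ n : ℕ,
            h (List.ofFn (fun i : Fin n =>
              decide ((Nat.Partrec.Code.eval (Denumerable.ofNat Nat.Partrec.Code (i : ℕ)) (i : ℕ)).Dom)))
              ≤ f n + c := by
  intro A hA hnc
  obtain ⟨B, h1, h2, h3, h4⟩ := Pool.Agent.Helper7.AC.main A hA hnc
  rw [chi_halt] at h1 h2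
  refine ⟨B, RecursiveIn.iff_nat.2 h1, fun h => h2 (RecursiveIn.iff_nat.1 h),
    fun h => h3 (RecursiveIn.iff_nat.1 h), ?_⟩
  rintro f ⟨φ, hφ, hφf⟩ hf
  obtain ⟨h, ⟨ψ, hψ, hψh⟩, hs, c, hc⟩ := h4 f ⟨φ, RecursiveIn.iff_nat.1 hφ, hφf⟩ hf
  refine ⟨h, ⟨ψ, RecursiveIn.iff_nat.2 hψ, hψh⟩, hs, c, fun n => ?_⟩
  rw [ofFn_halt]
  exact hc n

end Pool.Agent.S14519
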