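import Pool.Statements.S14723
import Pool.Agent.Helper77.Fin

set_option autoImplicit false
open Pool Pool.MP_569b45_lc

namespace Pool.Agent.S14723

/-- There is a computable f, a constant c and a multi-stack Turing machine that decides whether a 3-machine flow shop instance (unary input) has a schedule of makespan at most T, within f(p_max)·(input length+1)^c steps. -/
theorem result :
  ∃ f : ℕ → ℕ, Computable f ∧ ∃ c : ℕ, ∃ tm : Turing.FinTM2,
    ∃ e₀ : tm.Γ tm.k₀ ≃ Bool, ∃ e₁ : tm.Γ tm.k₁ ≃ Bool,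
    ∀ (n : ℕ) (p : Fin n → Fin 3 → ℕ) (T : ℕ) (w : List Bool),
      w = (T :: (List.ofFn (fun j : Fin n => List.ofFn (fun i : Fin 3 => p j i))).flatten).flatMap
            (fun m => List.replicate m true ++ [false]) →
      ∃ b : Bool,
        (b = true ↔ ∃ s : Fin n → Fin 3 → ℕ,
          (∀ j, s j 0 + p j 0 ≤ s j 1 ∧ s j 1 + p j 1 ≤ s j 2) ∧
          (∀ (i : Fin 3) (j j' : Fin n), j ≠ j' →
              s j i + p j i ≤ s j' i ∨ s j' i + p j' i ≤ s j i) ∧
          (∀ j, s j 2 + p j 2 ≤ T)) ∧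
        Nonempty (Turing.TM2OutputsInTime tm (w.map e₀.symm) (some [e₁.symm b])
          (f (Finset.univ.sup (fun x : Fin n × Fin 3 => p x.1 x.2)) * (w.length + 1) ^ c)) :=
  Pool.Agent.Helper77.main

end Pool.Agent.S14723
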