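import Pool.Statements.S14870
import Pool.Agent.Helper79.PcpFinal

set_option autoImplicit false
open Pool Pool.MP_6f9417_lc

namespace Pool.Agent.S14870

/-- The negation of the preceding statement: Some computable predicate on pairs of equal-length lists of words over ℕ correctly decides, whenever both letter-image maps are elementary (not factorable through a smaller alphabet), whether some nonempty index word has equal images. -/
theorem result :
    ¬ (∃ P : List (List ℕ) × List (List ℕ) → Prop, ComputablePred P ∧
      ∀ u v : List (List ℕ), u.length = v.length →
        (∀ m : ℕ, m < u.length → ∀ f : ℕ → List (Fin m), ∀ k : Fin m → List ℕ,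
          ¬ ∀ i : ℕ, i < u.length → ((f i).map k).flatten = u.getD i []) →
        (∀ m : ℕ, m < v.length → ∀ f : ℕ → List (Fin m), ∀ k : Fin m → List ℕ,
          ¬ ∀ i : ℕ, i < v.length → ((f i).map k).flatten = v.getD i []) →
        (P (u, v) ↔ ∃ w : List ℕ, w ≠ [] ∧ (∀ i ∈ w, i < u.length) ∧
          (w.map (fun i => u.getD i [])).flatten = (w.map (fun i => v.getD i [])).flatten)) := by
  exact Pool.Agent.Helper79.Pcp.final

end Pool.Agent.S14870
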