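import Pool.Statements.S14903
import Pool.Agent.Helper79.HajnalFinal

set_option autoImplicit false
open Pool Pool.MP_74a51f_lc

namespace Pool.Agent.S14903

/-- Assuming GCH, there is a red/blue colouring of pairs of ordinals below omega_{omega+1} with no red-homogeneous set of order type omega_{omega+1} (equivalently of size aleph_{omega+1}) and no blue-homogeneous set of order type omega+2. -/
theorem result :
    (∀ κ : Cardinal.{0}, Cardinal.aleph0 ≤ κ → (2 : Cardinal.{0}) ^ κ = Order.succ κ) →
    ∃ c : Ordinal.{0} → Ordinal.{0} → Bool,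
      (∀ g : Ordinal.{0} → Ordinal.{0},
        StrictMonoOn g (Set.Iio (Cardinal.aleph (Ordinal.omega0 + 1)).ord) →
        (∀ i, i < (Cardinal.aleph (Ordinal.omega0 + 1)).ord →
            g i < (Cardinal.aleph (Ordinal.omega0 + 1)).ord) →
        ∃ i j, i < j ∧ j < (Cardinal.aleph (Ordinal.omega0 + 1)).ord ∧ c (g i) (g j) = true) ∧
      (∀ g : Ordinal.{0} → Ordinal.{0},
        StrictMonoOn g (Set.Iio (Ordinal.omega0 + 2)) →
        (∀ i, i < Ordinal.omega0 + 2 → g i < (Cardinal.aleph (Ordinal.omega0 + 1)).ord) →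
        ∃ i j, i < j ∧ j < Ordinal.omega0 + 2 ∧ c (g i) (g j) = false) := by
  exact Pool.Agent.Helper79.Hajnal.final

end Pool.Agent.S14903
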