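import Pool.Statements.S15418
import Pool.Agent.Lead.Ek.Grp
import Pool.Agent.Helper83.Ek.Cert

set_option autoImplicit false
open Pool Pool.MP_d4e2f9_lc

namespace Pool.Agent.S15418

/-- The negation of the preceding statement: For every ε>0 there is N such that every non-constant monotone Boolean function on n≥N variables, invariant under a transitive group of variable permutations, needs decision-tree depth at least n^(1-ε). -/
theorem result :
    ¬ (∀ ε : ℝ, 0 < ε → ∃ N : ℕ, ∀ n : ℕ, N ≤ n →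
    ∀ f : (Fin n → Bool) → Bool, Monotone f → (∃ x y, f x ≠ f y) →
      (∀ i j : Fin n, ∃ σ : Equiv.Perm (Fin n), σ i = j ∧
          ∀ x : Fin n → Bool, f (x ∘ σ) = f x) →
      ∀ k : ℕ,
        (∀ P : ℕ → ((Fin n → Bool) → Bool) → Prop,
          (∀ (m : ℕ) (g : (Fin n → Bool) → Bool), (∀ x y, g x = g y) → P m g) →
          (∀ (m : ℕ) (g : (Fin n → Bool) → Bool) (i : Fin n),
             P m (fun x => g (Function.update x i false)) →
             P m (fun x => g (Function.update x i true)) → P (m + 1) g) →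
          P k f) →
        (n : ℝ) ^ (1 - ε) ≤ (k : ℝ)) := by
  classical
  obtain ⟨n, hn⟩ := Pool.Agent.Helper83.Ek.cert
  obtain ⟨G, i1, i2, i3, K, hK, hI, h0, hu, hNE⟩ :=
    Pool.Agent.Lead.Ek.exists_invariant_NE' (B := Fin 13) Pool.Agent.Lead.Ek.rel
      Pool.Agent.Lead.Ek.linv_rel Pool.Agent.Lead.Ek.univ_rel n
      (by rw [Pool.Agent.Lead.Ek.dowR_rel]; exact hn)
      (by rw [Pool.Agent.Lead.Ek.dowR_rel]; exact Pool.Agent.Lead.Ek.cx_N0)
  obtain ⟨m, hm, f, hf⟩ := Pool.Agent.Lead.Ek.final_of_NE hK hI h0 hu hNE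
  exact Pool.Agent.Helper22.Evas.refute hm hf

end Pool.Agent.S15418
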