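import Pool.Statements.S15615
import Pool.Agent.Helper84.OneMaxFinal
import Pool.Agent.Helper84.OneMaxBlock
import Pool.Agent.Helper84.OneMaxNum

set_option autoImplicit false
open Pool Pool.MP_f3ccbb_lc

namespace Pool.Agent.S15615

/-- There are c>0 and C such that for all large n some (1+1) elitist algorithm (state = best point, offspring and tie rule depend only on it) finds every OneMax optimum in expected ≤ Cn queries, and every such algorithm needs ≥ cn on some target. -/
theorem result :
    ∃ c C : ℝ, 0 < c ∧ ∃ N : ℕ, ∀ n : ℕ, N ≤ n →
      (∃ init : PMF (Fin n → Bool), ∃ step : (Fin n → Bool) → PMF ((Fin n → Bool) × Bool),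
        ∀ z : Fin n → Bool,
          1 + ∑' k : ℕ, (1 - (Nat.iterate
              (fun p : PMF (Fin n → Bool) => p.bind (fun x => (step x).bind (fun yb =>
                PMF.pure (if (Finset.univ.filter (fun i => x i = z i)).card
                      < (Finset.univ.filter (fun i => yb.1 i = z i)).card
                    ∨ ((Finset.univ.filter (fun i => x i = z i)).card
                      = (Finset.univ.filter (fun i => yb.1 i = z i)).card ∧ yb.2 = true)
                  then yb.1 else x))))
              k init) z)
            ≤ ENNReal.ofReal (C * (n : ℝ))) ∧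
      (∀ init : PMF (Fin n → Bool), ∀ step : (Fin n → Bool) → PMF ((Fin n → Bool) × Bool),
        ∃ z : Fin n → Bool,
          ENNReal.ofReal (c * (n : ℝ)) ≤
          1 + ∑' k : ℕ, (1 - (Nat.iterate
              (fun p : PMF (Fin n → Bool) => p.bind (fun x => (step x).bind (fun yb =>
                PMF.pure (if (Finset.univ.filter (fun i => x i = z i)).card
                      < (Finset.univ.filter (fun i => yb.1 i = z i)).card
                    ∨ ((Finset.univ.filter (fun i => x i = z i)).card
                      = (Finset.univ.filter (fun i => yb.1 i = z i)).card ∧ yb.2 = true)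
                  then yb.1 else x))))
              k init) z)) := by
  obtain ⟨C, n0, hup⟩ := Pool.Agent.Helper84.OneMax.upper Pool.Agent.Helper84.OneMax.block
    Pool.Agent.Helper84.OneMax.params
  refine ⟨1 / 2, C, by norm_num, n0, fun n hn => ⟨?_, ?_⟩⟩
  · obtain ⟨init, step, h⟩ := hup n hn
    exact ⟨init, step, fun z => h z⟩
  · intro init step
    exact Pool.Agent.Helper84.OneMaxAbs.lower n init step

end Pool.Agent.S15615
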