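-- Proof of the frozen statement S16995 (MP_55e671_nt).
--
-- Outline. Suppose the conclusion fails for A. For every N take a multiplicative Folner family r_1..r_n of
-- positive integers for the multipliers 1..N, let L be their product and let k L^2 be a value that is not
-- attained. Averaging the normalised autocorrelation of A (in a huge rectangle) at the points
-- (L r a, k L b / r) over r gives a positive definite function on Q x Q, and an ultralimit over N gives
-- Phi : Q x Q -> [0,1], positive definite, with Phi(0)=1, Phi(q a, b/q) = Phi(a,b), Phi(1,1) = 0 and with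
-- box averages at least epsilon. The lemma `rigidity` shows that this is impossible:
-- (1) Phi(0,b) is constant for b nonzero, so the translates in the y-direction form, up to a common
--     component, an orthogonal family, and Bessel's inequality shows that f(b) = Phi(1,b) is constant up to
--     an arbitrarily small error off a finite set (step1);
-- (2) comparing the points (M+1+i, 1/(M+1+i)), i < K, whose pairwise differences have the products
--     -(i-j)^2/((M+1+i)(M+1+j)), with a far translate of the same configuration shows that f(1) equals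
--     the generic value of f, which is at least epsilon by the density of A.
import Pool.Statements.S16995
import Mathlib

set_option autoImplicit false
open Pool Pool.MP_55e671_nt

namespace Pool.Agent.S16995

open Finset Filter


/-- A multiplicative Folner family of positive integers. -/
lemma folner_aux (η : ℝ) (hη : 0 < η) (N : ℕ) :
    ∃ (ι : Type) (_ : Fintype ι) (_ : Nonempty ι) (r : ι → ℕ), (∀ i, 0 < r i) ∧
      ∀ q : ℕ, 0 < q → q ≤ N → ∀ φ : ℕ → ℝ, (∀ x, |φ x| ≤ 1) →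
        |(∑ i, φ (q * r i)) - ∑ i, φ (r i)| ≤ η * Fintype.card ι := by
  induction N with
  | zero =>
    refine ⟨Unit, inferInstance, inferInstance, fun _ => 1, fun _ => one_pos, ?_⟩
    intro q h1 h2; omega
  | succ N ih =>
    obtain ⟨ι, hι, hne, r, hr, hφ⟩ := ih
    obtain ⟨m, hm⟩ := exists_nat_gt (2 / η)
    have hmpos : 0 < m := by
      have : (0:ℝ) < m := lt_trans (by positivity) hm
      exact_mod_cast this
    have : Nonempty (Fin m) := ⟨⟨0, hmpos⟩⟩
    refine ⟨ι × Fin m, inferInstance, inferInstance,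
      fun p => r p.1 * (N + 1) ^ (p.2 : ℕ), fun p => by
        have := hr p.1; positivity, ?_⟩
    intro q hq1 hq2 φ hb
    rw [Fintype.sum_prod_type, Fintype.sum_prod_type, Fintype.card_prod, Fintype.card_fin]
    push_cast
    rcases Nat.lt_or_ge q (N + 1) with hlt | hge
    · rw [Finset.sum_comm, Finset.sum_comm (s := Finset.univ (α := ι)), ← Finset.sum_sub_distrib]
      have : ∀ j ∈ (Finset.univ : Finset (Fin m)),
          |(∑ i : ι, φ (q * (r i * (N + 1) ^ (j:ℕ)))) - ∑ i : ι, φ (r i * (N + 1) ^ (j:ℕ))| ≤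
            η * Fintype.card ι := by
        intro j _
        have := hφ q hq1 (by omega) (fun x => φ (x * (N + 1) ^ (j:ℕ))) (fun x => hb _)
        simpa [mul_assoc] using this
      calc _ ≤ ∑ j : Fin m, |(∑ i : ι, φ (q * (r i * (N + 1) ^ (j:ℕ)))) -
              ∑ i : ι, φ (r i * (N + 1) ^ (j:ℕ))| := Finset.abs_sum_le_sum_abs _ _
        _ ≤ ∑ j : Fin m, (η * Fintype.card ι) := Finset.sum_le_sum this
        _ = _ := by simp; ring
    · have hqe : q = N + 1 := by omega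
      subst hqe
      rw [← Finset.sum_sub_distrib]
      have : ∀ i ∈ (Finset.univ : Finset ι),
          |(∑ j : Fin m, φ ((N + 1) * (r i * (N + 1) ^ (j:ℕ)))) - ∑ j : Fin m, φ (r i * (N + 1) ^ (j:ℕ))| ≤
            η * m := by
        intro i _
        have e1 : ∑ j : Fin m, φ ((N + 1) * (r i * (N + 1) ^ (j:ℕ))) =
            ∑ j ∈ range m, φ (r i * (N + 1) ^ (j + 1)) := by
          rw [Finset.sum_range (fun j => φ (r i * (N + 1) ^ (j + 1)))]
          apply Finset.sum_congr rfl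
          intro j _
          congr 1; ring
        have e2 : ∑ j : Fin m, φ (r i * (N + 1) ^ (j:ℕ)) =
            ∑ j ∈ range m, φ (r i * (N + 1) ^ j) := by
          rw [Finset.sum_range (fun j => φ (r i * (N + 1) ^ j))]
        rw [e1, e2, ← Finset.sum_sub_distrib, Finset.sum_range_sub (fun j => φ (r i * (N + 1) ^ j))]
        have h1 := hb (r i * (N + 1) ^ m)
        have h2 := hb (r i * (N + 1) ^ 0)
        have h3 : |φ (r i * (N + 1) ^ m) - φ (r i * (N + 1) ^ 0)| ≤ 2 := by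
          rw [abs_le] at *
          constructor <;> linarith [h1.1, h1.2, h2.1, h2.2]
        rw [div_lt_iff₀ hη] at hm
        linarith
      calc _ ≤ ∑ i : ι, |(∑ j : Fin m, φ ((N + 1) * (r i * (N + 1) ^ (j:ℕ)))) -
              ∑ j : Fin m, φ (r i * (N + 1) ^ (j:ℕ))| := Finset.abs_sum_le_sum_abs _ _
        _ ≤ ∑ i : ι, (η * m) := Finset.sum_le_sum this
        _ = _ := by simp; ring

/-- same, indexed by `Fin n`. -/
lemma folner (η : ℝ) (hη : 0 < η) (N : ℕ) :
    ∃ (n : ℕ) (r : Fin n → ℕ), 0 < n ∧ (∀ i, 0 < r i) ∧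
      ∀ q : ℕ, 0 < q → q ≤ N → ∀ φ : ℕ → ℝ, (∀ x, |φ x| ≤ 1) →
        |(∑ i, φ (q * r i)) / n - (∑ i, φ (r i)) / n| ≤ η := by
  obtain ⟨ι, hι, hne, r, hr, hφ⟩ := folner_aux η hη N
  have hcard : 0 < Fintype.card ι := Fintype.card_pos
  refine ⟨Fintype.card ι, fun i => r ((Fintype.equivFin ι).symm i), hcard, fun i => hr _, ?_⟩
  intro q h1 h2 φ hb
  have e1 : ∑ i, φ (q * r ((Fintype.equivFin ι).symm i)) = ∑ i, φ (q * r i) :=
    Equiv.sum_comp (Fintype.equivFin ι).symm (fun i => φ (q * r i))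
  have e2 : ∑ i, φ (r ((Fintype.equivFin ι).symm i)) = ∑ i, φ (r i) :=
    Equiv.sum_comp (Fintype.equivFin ι).symm (fun i => φ (r i))
  rw [e1, e2, ← sub_div, abs_div, Nat.abs_cast, div_le_iff₀ (by exact_mod_cast hcard)]
  exact hφ q h1 h2 φ hb

/-- normalised autocorrelation of a finite set -/
noncomputable def corr (B : Finset (ℚ × ℚ)) (v : ℚ × ℚ) : ℝ :=
  ((B.filter (fun u => u + v ∈ B)).card : ℝ) / B.card

lemma corr_nonneg (B : Finset (ℚ × ℚ)) (v : ℚ × ℚ) : 0 ≤ corr B v := by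
  unfold corr; positivity

lemma corr_le_one (B : Finset (ℚ × ℚ)) (v : ℚ × ℚ) : corr B v ≤ 1 := by
  unfold corr
  apply div_le_one_of_le₀ _ (by positivity)
  exact_mod_cast Finset.card_filter_le _ _

lemma corr_zero (B : Finset (ℚ × ℚ)) (hB : B.Nonempty) : corr B 0 = 1 := by
  unfold corr
  have : B.filter (fun u => u + 0 ∈ B) = B := by
    apply Finset.filter_true_of_mem
    intro u hu; simpa using hu
  rw [this]
  have := hB.card_pos
  exact div_self (by positivity)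

lemma corr_neg (B : Finset (ℚ × ℚ)) (v : ℚ × ℚ) : corr B (-v) = corr B v := by
  unfold corr
  congr 2
  apply Finset.card_nbij' (fun u => u + (-v)) (fun u => u + v)
  · intro u hu
    simp only [Finset.coe_filter, Set.mem_ofPred_eq] at hu ⊢
    refine ⟨hu.2, by simpa using hu.1⟩
  · intro u hu
    simp only [Finset.coe_filter, Set.mem_ofPred_eq] at hu ⊢
    refine ⟨hu.2, by simpa using hu.1⟩
  · intro u hu; simp
  · intro u hu; simp

/-- the basic counting identity -/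
lemma corr_card (B : Finset (ℚ × ℚ)) (a b : ℚ × ℚ) (U : Finset (ℚ × ℚ))
    (hU : ∀ u ∈ B, u - b ∈ U) :
    ((B.filter (fun u => u + (a - b) ∈ B)).card : ℝ) =
      ∑ t ∈ U, (if t + a ∈ B then (1:ℝ) else 0) * (if t + b ∈ B then (1:ℝ) else 0) := by
  have h1 : ∀ t ∈ U, (if t + a ∈ B then (1:ℝ) else 0) * (if t + b ∈ B then (1:ℝ) else 0) =
      if (t + a ∈ B ∧ t + b ∈ B) then (1:ℝ) else 0 := by
    intro t _
    by_cases h1 : t + a ∈ B <;> by_cases h2 : t + b ∈ B <;> simp [h1, h2]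
  rw [Finset.sum_congr rfl h1, ← Finset.sum_filter, Finset.sum_const, nsmul_eq_mul, mul_one]
  congr 1
  apply Finset.card_nbij' (fun u => u - b) (fun t => t + b)
  · intro u hu
    simp only [Finset.coe_filter, Set.mem_ofPred_eq] at hu ⊢
    refine ⟨hU u hu.1, ?_, ?_⟩
    · have : u - b + a = u + (a - b) := by abel
      rw [this]; exact hu.2
    · simpa using hu.1
  · intro t ht
    simp only [Finset.coe_filter, Set.mem_ofPred_eq] at ht ⊢
    refine ⟨ht.2.2, ?_⟩
    have : t + b + (a - b) = t + a := by abel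
    rw [this]; exact ht.2.1
  · intro u hu; simp
  · intro t ht; simp

lemma corr_pd (B : Finset (ℚ × ℚ)) {ι : Type} (s : Finset ι) (v : ι → ℚ × ℚ) (z : ι → ℝ) :
    0 ≤ ∑ i ∈ s, ∑ j ∈ s, z i * z j * corr B (v i - v j) := by
  classical
  set U : Finset (ℚ × ℚ) := s.biUnion (fun j => B.image (fun u => u - v j)) with hU
  have hUm : ∀ j ∈ s, ∀ u ∈ B, u - v j ∈ U := by
    intro j hj u hu
    rw [hU, Finset.mem_biUnion]
    exact ⟨j, hj, Finset.mem_image_of_mem _ hu⟩
  have h1 : ∑ i ∈ s, ∑ j ∈ s, z i * z j * corr B (v i - v j) =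
      (∑ t ∈ U, (∑ i ∈ s, z i * (if t + v i ∈ B then (1:ℝ) else 0)) ^ 2) / B.card := by
    have h2 : ∀ i ∈ s, ∀ j ∈ s, z i * z j * corr B (v i - v j) =
        (∑ t ∈ U, (z i * (if t + v i ∈ B then (1:ℝ) else 0)) *
          (z j * (if t + v j ∈ B then (1:ℝ) else 0))) / B.card := by
      intro i hi j hj
      unfold corr
      rw [corr_card B (v i) (v j) U (hUm j hj), ← mul_div_assoc, Finset.mul_sum]
      congr 1
      apply Finset.sum_congr rfl
      intro t _; ring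
    rw [Finset.sum_congr rfl (fun i hi => Finset.sum_congr rfl (h2 i hi))]
    simp only [← Finset.sum_div]
    congr 1
    rw [Finset.sum_congr rfl (fun i _ => Finset.sum_comm), Finset.sum_comm]
    apply Finset.sum_congr rfl
    intro t _
    rw [sq, Finset.sum_mul_sum]
  rw [h1]
  positivity

/-- lower bound for the averages of the autocorrelation -/
lemma corr_dens (B : Finset (ℚ × ℚ)) (hB : B.Nonempty) {ι : Type} (s : Finset ι) (v : ι → ℚ × ℚ)
    (U : Finset (ℚ × ℚ)) (hU : ∀ i ∈ s, ∀ u ∈ B, u - v i ∈ U) (hUne : U.Nonempty) :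
    (s.card : ℝ) ^ 2 * B.card / U.card ≤ ∑ i ∈ s, ∑ j ∈ s, corr B (v i - v j) := by
  classical
  have h1 : ∑ i ∈ s, ∑ j ∈ s, corr B (v i - v j) =
      (∑ t ∈ U, (∑ i ∈ s, (if t + v i ∈ B then (1:ℝ) else 0)) ^ 2) / B.card := by
    have h2 : ∀ i ∈ s, ∀ j ∈ s, corr B (v i - v j) =
        (∑ t ∈ U, ((if t + v i ∈ B then (1:ℝ) else 0)) *
          ((if t + v j ∈ B then (1:ℝ) else 0))) / B.card := by
      intro i hi j hj
      unfold corr
      rw [corr_card B (v i) (v j) U (hU j hj)]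
    rw [Finset.sum_congr rfl (fun i hi => Finset.sum_congr rfl (h2 i hi))]
    simp only [← Finset.sum_div]
    congr 1
    rw [Finset.sum_congr rfl (fun i _ => Finset.sum_comm), Finset.sum_comm]
    apply Finset.sum_congr rfl
    intro t _
    rw [sq, Finset.sum_mul_sum]
  have hBc : (0:ℝ) < B.card := by exact_mod_cast hB.card_pos
  have hUc : (0:ℝ) < U.card := by exact_mod_cast hUne.card_pos
  have h3 : ∑ t ∈ U, ∑ i ∈ s, (if t + v i ∈ B then (1:ℝ) else 0) = s.card * B.card := by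
    rw [Finset.sum_comm]
    have : ∀ i ∈ s, ∑ t ∈ U, (if t + v i ∈ B then (1:ℝ) else 0) = B.card := by
      intro i hi
      rw [← Finset.sum_filter, Finset.sum_const, nsmul_eq_mul, mul_one]
      congr 1
      apply Finset.card_nbij' (fun t => t + v i) (fun u => u - v i)
      · intro t ht
        simp only [Finset.coe_filter, Set.mem_ofPred_eq] at ht
        exact ht.2
      · intro u hu
        simp only [Finset.coe_filter, Set.mem_ofPred_eq]
        exact ⟨hU i hi u hu, by simpa using hu⟩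
      · intro t _; simp
      · intro u _; simp
    rw [Finset.sum_congr rfl this, Finset.sum_const, nsmul_eq_mul]
  have h4 := sq_sum_le_card_mul_sum_sq (s := U) (f := fun t => ∑ i ∈ s, (if t + v i ∈ B then (1:ℝ) else 0))
  rw [h3] at h4
  rw [h1, div_le_div_iff₀ hUc hBc]
  nlinarith [h4]



/-- Cauchy-Schwarz for a positive definite symmetric kernel. -/
lemma cs_aux (Φ : ℚ × ℚ → ℝ) (h0 : Φ 0 = 1) (hsymm : ∀ v, Φ (-v) = Φ v)
    (hpd : ∀ (ι : Type) (s : Finset ι) (v : ι → ℚ × ℚ) (z : ι → ℝ),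
      0 ≤ ∑ i ∈ s, ∑ j ∈ s, z i * z j * Φ (v i - v j))
    (ι : Type) (s : Finset ι) (v : ι → ℚ × ℚ) (z : ι → ℝ) (x : ℚ × ℚ) :
    (∑ i ∈ s, z i * Φ (v i - x)) ^ 2 ≤ ∑ i ∈ s, ∑ j ∈ s, z i * z j * Φ (v i - v j) := by
  set Lam : ℝ := ∑ i ∈ s, z i * Φ (v i - x) with hL
  have h := hpd (Option ι) (insertNone s) (fun o => o.elim x v) (fun o => o.elim (-Lam) z)
  simp only [Finset.sum_insertNone, Option.elim] at h
  have e1 : ∑ j ∈ s, (-Lam) * z j * Φ (x - v j) = - Lam ^ 2 := by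
    have : ∀ j ∈ s, (-Lam) * z j * Φ (x - v j) = (-Lam) * (z j * Φ (v j - x)) := by
      intro j _
      have : Φ (x - v j) = Φ (v j - x) := by
        rw [← hsymm (v j - x)]; congr 1; abel
      rw [this]; ring
    rw [Finset.sum_congr rfl this, ← Finset.mul_sum, ← hL]; ring
  have e2 : ∑ i ∈ s, (z i * (-Lam) * Φ (v i - x) + ∑ j ∈ s, z i * z j * Φ (v i - v j))
      = - Lam ^ 2 + ∑ i ∈ s, ∑ j ∈ s, z i * z j * Φ (v i - v j) := by
    rw [Finset.sum_add_distrib]
    congr 1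
    have : ∀ j ∈ s, z j * (-Lam) * Φ (v j - x) = (-Lam) * (z j * Φ (v j - x)) := by
      intro j _; ring
    rw [Finset.sum_congr rfl this, ← Finset.mul_sum, ← hL]; ring
  rw [e1, e2] at h
  have e3 : Φ (x - x) = 1 := by rw [sub_self, h0]
  rw [e3] at h
  nlinarith [h]

lemma bd_aux (Φ : ℚ × ℚ → ℝ) (h0 : Φ 0 = 1) (hsymm : ∀ v, Φ (-v) = Φ v)
    (hpd : ∀ (ι : Type) (s : Finset ι) (v : ι → ℚ × ℚ) (z : ι → ℝ),
      0 ≤ ∑ i ∈ s, ∑ j ∈ s, z i * z j * Φ (v i - v j)) (v : ℚ × ℚ) :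
    -1 ≤ Φ v ∧ Φ v ≤ 1 := by
  have h := cs_aux Φ h0 hsymm hpd Unit {()} (fun _ => v) (fun _ => 1) 0
  simp [h0] at h
  exact abs_le.mp h

/-- The abstract rigidity statement. -/
theorem rigidity (Φ : ℚ × ℚ → ℝ) (δ : ℝ) (hδ : 0 < δ) (h0 : Φ 0 = 1)
    (hsymm : ∀ v, Φ (-v) = Φ v)
    (hpd : ∀ (ι : Type) (s : Finset ι) (v : ι → ℚ × ℚ) (z : ι → ℝ),
      0 ≤ ∑ i ∈ s, ∑ j ∈ s, z i * z j * Φ (v i - v j))
    (hinv : ∀ (q : ℕ), 0 < q → ∀ a b : ℚ, Φ ((q : ℚ) * a, b / q) = Φ (a, b))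
    (hdens : ∀ (K c : ℕ), δ * (K : ℝ) ^ 2 ≤ ∑ i ∈ range K, ∑ j ∈ range K,
      Φ ((c : ℚ) * ((i : ℚ) - j), (c : ℚ) * ((i : ℚ) - j))) :
    Φ (1, 1) ≠ 0 := by
  intro h11
  have hbd := bd_aux Φ h0 hsymm hpd
  -- the function f
  set f : ℚ → ℝ := fun n => Φ (1, n) with hf
  have hpos : ∀ a b : ℚ, 0 < a → Φ (a, b) = f (a * b) := by
    intro a b ha
    have hp : 0 < a.num.toNat := by
      have := Rat.num_pos.mpr ha; omega
    have hden : 0 < a.den := a.den_pos
    have hnum : ((a.num.toNat : ℕ) : ℚ) = (a.num : ℚ) := by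
      have : ((a.num.toNat : ℕ) : ℤ) = a.num := Int.toNat_of_nonneg (Rat.num_nonneg.mpr ha.le)
      exact_mod_cast this
    have hd0 : (a.den : ℚ) ≠ 0 := by exact_mod_cast hden.ne'
    have hn0 : (a.num : ℚ) ≠ 0 := by exact_mod_cast (Rat.num_pos.mpr ha).ne'
    have haeq : a = (a.num : ℚ) / (a.den : ℚ) := (Rat.num_div_den a).symm
    -- Φ(1/den, num * b)
    have s1 := hinv a.num.toNat hp (1 / (a.den : ℚ)) (a.num * b)
    have s2 := hinv a.den hden (1 / (a.den : ℚ)) (a.num * b)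
    rw [hnum] at s1
    have t1 : ((a.num : ℚ) * (1 / (a.den : ℚ)), (a.num * b) / (a.num : ℚ)) = (a, b) := by
      ext
      · simp only; rw [mul_one_div]; exact haeq.symm
      · simp only; field_simp
    have t2 : ((a.den : ℚ) * (1 / (a.den : ℚ)), (a.num * b) / (a.den : ℚ)) = (1, a * b) := by
      ext
      · simp only; field_simp
      · simp only; rw [mul_div_right_comm, ← haeq]
    rw [t1] at s1
    rw [t2] at s2
    rw [s1, ← s2]
  have hne : ∀ a b : ℚ, a ≠ 0 → Φ (a, b) = f (a * b) := by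
    intro a b ha
    rcases lt_or_gt_of_ne ha with h | h
    · have := hpos (-a) (-b) (by linarith)
      rw [show (-a) * (-b) = a * b by ring] at this
      rw [← this, ← hsymm (a, b)]; rfl
    · exact hpos a b h
  set c0 : ℝ := Φ (0, 1) with hc0
  have hzpos : ∀ b : ℚ, 0 < b → Φ (0, b) = c0 := by
    intro b hb
    have hp : 0 < b.num.toNat := by
      have := Rat.num_pos.mpr hb; omega
    have hden : 0 < b.den := b.den_pos
    have hnum : ((b.num.toNat : ℕ) : ℚ) = (b.num : ℚ) := by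
      have : ((b.num.toNat : ℕ) : ℤ) = b.num := Int.toNat_of_nonneg (Rat.num_nonneg.mpr hb.le)
      exact_mod_cast this
    have hd0 : (b.den : ℚ) ≠ 0 := by exact_mod_cast hden.ne'
    have hn0 : (b.num : ℚ) ≠ 0 := by exact_mod_cast (Rat.num_pos.mpr hb).ne'
    have hbeq : b = (b.num : ℚ) / (b.den : ℚ) := (Rat.num_div_den b).symm
    have s1 := hinv b.num.toNat hp 0 b.num
    have s2 := hinv b.den hden 0 b.num
    rw [hnum] at s1
    rw [mul_zero, div_self hn0] at s1
    rw [mul_zero, ← hbeq] at s2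
    rw [s2, ← s1]
  have hz : ∀ b : ℚ, b ≠ 0 → Φ (0, b) = c0 := by
    intro b hb
    rcases lt_or_gt_of_ne hb with h | h
    · have := hzpos (-b) (by linarith)
      rw [← this, ← hsymm (0, b)]; simp
    · exact hzpos b h
  -- Step 1: f is almost constant off a finite set
  have step1 : ∀ ε : ℝ, 0 < ε → ∃ E : Finset ℚ, ∀ b ∉ E, ∀ b' ∉ E, f b - f b' ≤ ε := by
    intro ε hε
    by_contra hcon
    push Not at hcon
    have key : ∀ K : ℕ, ∃ B B' : Finset ℚ, Disjoint B B' ∧ B.card = K ∧ B'.card = K ∧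
        ε * K ≤ ∑ b ∈ B, f b - ∑ b ∈ B', f b := by
      intro K
      induction K with
      | zero => exact ⟨∅, ∅, by simp, by simp, by simp, by simp⟩
      | succ K ih =>
        obtain ⟨B, B', hd, hB, hB', hs⟩ := ih
        obtain ⟨b, hb, b', hb', hbb⟩ := hcon (B ∪ B')
        rw [Finset.mem_union, not_or] at hb hb'
        have hbne : b ≠ b' := by
          rintro rfl; linarith [hε, hbb]
        refine ⟨insert b B, insert b' B', ?_, ?_, ?_, ?_⟩
        · rw [Finset.disjoint_insert_left, Finset.disjoint_insert_right]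
          refine ⟨?_, hb'.1, hd⟩
          rw [Finset.mem_insert, not_or]
          exact ⟨hbne, hb.2⟩
        · rw [Finset.card_insert_of_notMem hb.1, hB]
        · rw [Finset.card_insert_of_notMem hb'.2, hB']
        · rw [Finset.sum_insert hb.1, Finset.sum_insert hb'.2]
          push_cast
          linarith
    -- choose K large
    obtain ⟨K, hK⟩ := exists_nat_gt (4 / ε ^ 2)
    obtain ⟨B, B', hd, hB, hB', hs⟩ := key K
    have hcs := cs_aux Φ h0 hsymm hpd ℚ (B ∪ B') (fun b => (0, b)) (fun b => if b ∈ B then 1 else -1)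
      (-1, 0)
    have hlin : ∑ i ∈ B ∪ B', (if i ∈ B then (1:ℝ) else -1) * Φ ((0, i) - (-1, 0))
        = ∑ b ∈ B, f b - ∑ b ∈ B', f b := by
      rw [Finset.sum_union hd]
      rw [sub_eq_add_neg, ← Finset.sum_neg_distrib]
      congr 1
      · apply Finset.sum_congr rfl
        intro b hb
        simp [hb, hf]
      · apply Finset.sum_congr rfl
        intro b hb
        have : b ∉ B := fun h => (Finset.disjoint_left.mp hd) h hb
        simp [this, hf]
    have hquad : ∑ i ∈ B ∪ B', ∑ j ∈ B ∪ B', (if i ∈ B then (1:ℝ) else -1) *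
        (if j ∈ B then (1:ℝ) else -1) * Φ ((0, i) - (0, j)) = 2 * K * (1 - c0) := by
      have hΦ : ∀ i j : ℚ, Φ ((0, i) - (0, j)) = c0 + (1 - c0) * (if i = j then 1 else 0) := by
        intro i j
        by_cases hij : i = j
        · subst hij; simp [h0]
        · have : ((0 : ℚ), i) - (0, j) = (0, i - j) := by simp
          rw [this, hz _ (sub_ne_zero.mpr hij)]; simp [hij]
      have hsum0 : ∑ i ∈ B ∪ B', (if i ∈ B then (1:ℝ) else -1) = 0 := by
        rw [Finset.sum_union hd]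
        have e1 : ∑ i ∈ B, (if i ∈ B then (1:ℝ) else -1) = K := by
          rw [Finset.sum_congr rfl (g := fun _ => (1:ℝ)) (fun x hx => by simp [hx])]
          simp [hB]
        have e2 : ∑ i ∈ B', (if i ∈ B then (1:ℝ) else -1) = -K := by
          rw [Finset.sum_congr rfl (g := fun _ => (-1:ℝ)) (fun x hx => by
            have : x ∉ B := fun h => (Finset.disjoint_left.mp hd) h hx
            simp [this])]
          simp [hB']
        rw [e1, e2]; ring
      have hinner : ∀ i ∈ B ∪ B', ∑ j ∈ B ∪ B', (if i ∈ B then (1:ℝ) else -1) *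
        (if j ∈ B then (1:ℝ) else -1) * Φ ((0, i) - (0, j)) = (1 - c0) := by
        intro i hi
        have : ∀ j ∈ B ∪ B', (if i ∈ B then (1:ℝ) else -1) *
          (if j ∈ B then (1:ℝ) else -1) * Φ ((0, i) - (0, j)) =
          ((if i ∈ B then (1:ℝ) else -1) * c0) * (if j ∈ B then (1:ℝ) else -1) +
          (if i = j then (1 - c0) else 0) := by
          intro j hj
          rw [hΦ]
          by_cases hij : i = j
          · subst hij
            by_cases hiB : i ∈ B <;> simp [hiB]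
          · simp [hij]
            try ring
        rw [Finset.sum_congr rfl this, Finset.sum_add_distrib, ← Finset.mul_sum, hsum0,
          Finset.sum_ite_eq, if_pos hi]
        ring
      rw [Finset.sum_congr rfl hinner, Finset.sum_const, Finset.card_union_of_disjoint hd, hB, hB']
      simp only [nsmul_eq_mul]; push_cast; ring
    rw [hlin, hquad] at hcs
    have hc1 : -1 ≤ c0 := (hbd (0, 1)).1
    have hKpos : (0:ℝ) < K := lt_trans (by positivity) hK
    have hsq : (ε * K) ^ 2 ≤ 4 * K := by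
      have h1 : (ε * K) ^ 2 ≤ (∑ b ∈ B, f b - ∑ b ∈ B', f b) ^ 2 := by
        apply pow_le_pow_left₀ (by positivity) hs
      have h2 : 2 * (K:ℝ) * (1 - c0) ≤ 4 * K := by nlinarith
      linarith
    have : ε ^ 2 * K ≤ 4 := by
      have : (ε ^ 2 * K) * K ≤ 4 * K := by nlinarith
      exact le_of_mul_le_mul_right this hKpos
    rw [div_lt_iff₀ (by positivity)] at hK
    linarith
  -- Step 2
  have hδ1 : δ ≤ 1 := by
    have h1 := hdens 1 0
    have h00 : Φ (0, 0) = 1 := h0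
    simp [h00] at h1
    exact h1
  set ε : ℝ := δ ^ 2 / 32 with hε
  have hεpos : 0 < ε := by positivity
  obtain ⟨E, hE⟩ := step1 ε hεpos
  obtain ⟨K, hK⟩ := exists_nat_gt (1 / ε)
  have hKpos : (0:ℝ) < K := lt_trans (by positivity) hK
  -- a base point off E
  obtain ⟨b0, hb0⟩ := Infinite.exists_notMem_finset E
  set t : ℝ := f b0 with ht
  have hgen : ∀ b ∉ E, t - ε ≤ f b ∧ f b ≤ t + ε := by
    intro b hb
    have h1 := hE b hb b0 hb0
    have h2 := hE b0 hb0 b hb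
    constructor <;> linarith
  -- choose M
  have hM : ∀ᶠ M : ℕ in atTop, ∀ i ∈ range K, ∀ j ∈ range K, i ≠ j →
      ((i:ℚ) - j) * (1 / ((M:ℚ) + 1 + i) - 1 / ((M:ℚ) + 1 + j)) ∉ E := by
    rw [eventually_all_finset]
    intro i _
    rw [eventually_all_finset]
    intro j _
    rw [← Nat.cofinite_eq_atTop]
    by_cases hij : i = j
    · filter_upwards with M hM using absurd hij hM
    have hinj : Function.Injective (fun M : ℕ =>
        ((i:ℚ) - j) * (1 / ((M:ℚ) + 1 + i) - 1 / ((M:ℚ) + 1 + j))) := by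
      intro M M' hMM
      simp only at hMM
      have hij' : ((i:ℚ) - j) ≠ 0 := by
        rw [sub_ne_zero]; exact_mod_cast hij
      have p1 : (0:ℚ) < (M:ℚ) + 1 + i := by positivity
      have p2 : (0:ℚ) < (M:ℚ) + 1 + j := by positivity
      have p3 : (0:ℚ) < (M':ℚ) + 1 + i := by positivity
      have p4 : (0:ℚ) < (M':ℚ) + 1 + j := by positivity
      have h1 := mul_left_cancel₀ hij' hMM
      rw [div_sub_div _ _ p1.ne' p2.ne', div_sub_div _ _ p3.ne' p4.ne'] at h1
      have e1 : (1 * ((M:ℚ) + 1 + j) - ((M:ℚ) + 1 + i) * 1) = -((i:ℚ) - j) := by ring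
      have e2 : (1 * ((M':ℚ) + 1 + j) - ((M':ℚ) + 1 + i) * 1) = -((i:ℚ) - j) := by ring
      rw [e1, e2, div_eq_div_iff (by positivity) (by positivity)] at h1
      have h2 := mul_left_cancel₀ (neg_ne_zero.mpr hij') h1
      have h3 : ((M:ℚ) - M') * ((M:ℚ) + M' + 2 + i + j) = 0 := by linear_combination -h2
      rcases mul_eq_zero.mp h3 with h4 | h4
      · have : (M:ℚ) = M' := by linarith
        exact_mod_cast this
      · have : (0:ℚ) < (M:ℚ) + M' + 2 + i + j := by positivity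
        linarith
    have := hinj.tendsto_cofinite.eventually (E.finite_toSet.compl_mem_cofinite)
    filter_upwards [this] with M hM _ using by simpa using hM
  obtain ⟨M, hM⟩ := hM.exists
  obtain ⟨U, hU⟩ : ∃ U : ℚ, ∀ e ∈ E, e < U := by
    obtain ⟨U, hU⟩ := E.finite_toSet.bddAbove
    exact ⟨U + 1, fun e he => by have := hU (Finset.mem_coe.mpr he); linarith⟩
  have hnotE : ∀ x : ℚ, U ≤ x → x ∉ E := fun x hx hxE => absurd (hU x hxE) (not_lt.mpr hx)
  -- choose c
  have hlarge : ∀ x y : ℚ, ∀ᶠ c : ℕ in atTop, U ≤ ((c:ℚ) + x) * ((c:ℚ) + y) ∧ 0 < (c:ℚ) + x := by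
    intro x y
    have t1 : Tendsto (fun c : ℕ => (c:ℚ) + x) atTop atTop :=
      tendsto_atTop_add_const_right _ _ tendsto_natCast_atTop_atTop
    have t2 : Tendsto (fun c : ℕ => (c:ℚ) + y) atTop atTop :=
      tendsto_atTop_add_const_right _ _ tendsto_natCast_atTop_atTop
    have t3 := t1.atTop_mul_atTop₀ t2
    exact (t3.eventually_ge_atTop U).and (t1.eventually_gt_atTop 0)
  have hc : ∀ᶠ c : ℕ in atTop,
      (∀ i ∈ range K, ∀ j ∈ range K,
        (U ≤ ((c:ℚ) + (-((i:ℚ) - j))) * ((c:ℚ) + (-(1 / ((M:ℚ) + 1 + i) - 1 / ((M:ℚ) + 1 + j)))) ∧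
          0 < (c:ℚ) + (-((i:ℚ) - j)))) ∧
      (∀ i ∈ range K,
        (U ≤ ((c:ℚ) + ((M:ℚ) + 1 + i)) * ((c:ℚ) + (1 / ((M:ℚ) + 1 + i))) ∧
          0 < (c:ℚ) + ((M:ℚ) + 1 + i))) ∧
      (U ≤ ((c:ℚ) + 0) * ((c:ℚ) + 0) ∧ 0 < (c:ℚ) + 0) := by
    refine Filter.Eventually.and ?_ (Filter.Eventually.and ?_ (hlarge 0 0))
    · rw [eventually_all_finset]; intro i _
      rw [eventually_all_finset]; intro j _
      exact hlarge _ _
    · rw [eventually_all_finset]; intro i _
      exact hlarge _ _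
  obtain ⟨c, hc1, hc2, hc3⟩ := hc.exists
  -- density: t ≥ δ - 2ε
  have h5 : 1 < ε * K := by
    rw [div_lt_iff₀ hεpos] at hK; linarith
  have htlow : δ - 3 * ε ≤ t := by
    have hd := hdens K c
    have hcp : (0:ℚ) < c := by have := hc3.2; linarith
    have hcc : U ≤ (c:ℚ) * c := by have := hc3.1; simpa using this
    have hterm : ∀ i ∈ range K, ∀ j ∈ range K,
        Φ ((c : ℚ) * ((i : ℚ) - j), (c : ℚ) * ((i : ℚ) - j)) ≤ (t + ε) + (if i = j then 2 else 0) := by
      intro i _ j _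
      by_cases hij : i = j
      · subst hij
        have h1 : Φ ((c : ℚ) * ((i : ℚ) - i), (c : ℚ) * ((i : ℚ) - i)) ≤ 1 := (hbd _).2
        have h2 : -1 ≤ t := (hbd _).1
        simp only [if_true]; linarith
      · simp only [hij, if_false, add_zero]
        have hij' : ((i:ℚ) - j) ≠ 0 := by
          rw [sub_ne_zero]; exact_mod_cast hij
        rw [hne _ _ (mul_ne_zero hcp.ne' hij')]
        apply (hgen _ _).2
        apply hnotE
        have h1 : (1:ℚ) ≤ ((i:ℚ) - j) ^ 2 := by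
          have h2 : (1:ℤ) ≤ ((i:ℤ) - j) ^ 2 := by
            have : ((i:ℤ) - j) ≠ 0 := by
              rw [sub_ne_zero]; exact_mod_cast hij
            have := sq_pos_of_ne_zero this
            omega
          exact_mod_cast h2
        calc U ≤ (c:ℚ) * c := hcc
          _ ≤ (c:ℚ) * c * ((i:ℚ) - j) ^ 2 := le_mul_of_one_le_right (by positivity) h1
          _ = _ := by ring
    have hsum : ∑ i ∈ range K, ∑ j ∈ range K,
        Φ ((c : ℚ) * ((i : ℚ) - j), (c : ℚ) * ((i : ℚ) - j)) ≤ K ^ 2 * (t + ε) + 2 * K := by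
      calc _ ≤ ∑ i ∈ range K, ∑ j ∈ range K, ((t + ε) + (if i = j then (2:ℝ) else 0)) :=
            Finset.sum_le_sum (fun i hi => Finset.sum_le_sum (fun j hj => hterm i hi j hj))
        _ = ∑ i ∈ range K, (K * (t + ε) + 2) := by
            apply Finset.sum_congr rfl
            intro i hi
            rw [Finset.sum_add_distrib, Finset.sum_ite_eq, if_pos hi, Finset.sum_const,
              Finset.card_range, nsmul_eq_mul]
        _ = _ := by
            rw [Finset.sum_const, Finset.card_range, nsmul_eq_mul]; ring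
    have h3 : δ * (K:ℝ) ^ 2 ≤ K ^ 2 * (t + ε) + 2 * K := le_trans hd hsum
    have h4 : δ * K ≤ K * (t + ε) + 2 := by
      have : (δ * K) * K ≤ (K * (t + ε) + 2) * K := by nlinarith
      exact le_of_mul_le_mul_right this hKpos
    by_contra hlt
    push Not at hlt
    have : K * (t + 3 * ε) < K * δ := by
      apply mul_lt_mul_of_pos_left _ hKpos
      linarith
    nlinarith
  -- final quadratic inequality
  have hfin := cs_aux Φ h0 hsymm hpd (ℕ ⊕ ℕ) ((range K).disjSum (range K))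
    (Sum.elim (fun i : ℕ => ((M:ℚ) + 1 + i, 1 / ((M:ℚ) + 1 + i)))
      (fun i : ℕ => ((M:ℚ) + 1 + i + c, 1 / ((M:ℚ) + 1 + i) + c)))
    (Sum.elim (fun _ => 1) (fun _ => -1)) 0
  simp only [Finset.sum_disjSum, Sum.elim_inl, Sum.elim_inr, sub_zero, Prod.mk_sub_mk] at hfin
  have hlin : ∑ i ∈ range K, (1:ℝ) * Φ ((M:ℚ) + 1 + i, 1 / ((M:ℚ) + 1 + i)) +
      ∑ i ∈ range K, (-1:ℝ) * Φ ((M:ℚ) + 1 + i + c, 1 / ((M:ℚ) + 1 + i) + c) ≤ - (K * (t - ε)) := by
    have e1 : ∑ i ∈ range K, (1:ℝ) * Φ ((M:ℚ) + 1 + i, 1 / ((M:ℚ) + 1 + i)) = 0 := by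
      apply Finset.sum_eq_zero
      intro i _
      have hp : (0:ℚ) < (M:ℚ) + 1 + i := by positivity
      rw [hne _ _ hp.ne', mul_one_div, div_self hp.ne']
      rw [hf]; simp [h11]
    have e2 : ∑ i ∈ range K, (-1:ℝ) * Φ ((M:ℚ) + 1 + i + c, 1 / ((M:ℚ) + 1 + i) + c) ≤
        ∑ i ∈ range K, (-(t - ε)) := by
      apply Finset.sum_le_sum
      intro i hi
      obtain ⟨g1, g2⟩ := hc2 i hi
      have hne0 : (M:ℚ) + 1 + i + c ≠ 0 := by
        have : (0:ℚ) < (M:ℚ) + 1 + i + c := by linarith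
        exact this.ne'
      rw [hne _ _ hne0]
      have := (hgen _ (hnotE _ g1)).1
      have e : ((M:ℚ) + 1 + i + c) * (1 / ((M:ℚ) + 1 + i) + c) =
        ((c:ℚ) + ((M:ℚ) + 1 + i)) * ((c:ℚ) + (1 / ((M:ℚ) + 1 + i))) := by ring
      rw [e]; linarith
    rw [Finset.sum_const, Finset.card_range, nsmul_eq_mul] at e2
    linarith
  have hquad : ∑ i ∈ range K, (∑ j ∈ range K, (1:ℝ) * 1 * Φ ((M:ℚ) + 1 + i - ((M:ℚ) + 1 + j),
        1 / ((M:ℚ) + 1 + i) - 1 / ((M:ℚ) + 1 + j)) +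
      ∑ j ∈ range K, (1:ℝ) * (-1) * Φ ((M:ℚ) + 1 + i - ((M:ℚ) + 1 + j + c),
        1 / ((M:ℚ) + 1 + i) - (1 / ((M:ℚ) + 1 + j) + c))) +
      ∑ i ∈ range K, (∑ j ∈ range K, (-1:ℝ) * 1 * Φ ((M:ℚ) + 1 + i + c - ((M:ℚ) + 1 + j),
        1 / ((M:ℚ) + 1 + i) + c - 1 / ((M:ℚ) + 1 + j)) +
      ∑ j ∈ range K, (-1:ℝ) * (-1) * Φ ((M:ℚ) + 1 + i + c - ((M:ℚ) + 1 + j + c),
        1 / ((M:ℚ) + 1 + i) + c - (1 / ((M:ℚ) + 1 + j) + c))) ≤ 4 * ε * K ^ 2 + 4 * K := by
    simp only [← Finset.sum_add_distrib]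
    have hterm : ∀ i ∈ range K, ∀ j ∈ range K,
      ((1:ℝ) * 1 * Φ ((M:ℚ) + 1 + i - ((M:ℚ) + 1 + j),
        1 / ((M:ℚ) + 1 + i) - 1 / ((M:ℚ) + 1 + j)) +
      (1:ℝ) * (-1) * Φ ((M:ℚ) + 1 + i - ((M:ℚ) + 1 + j + c),
        1 / ((M:ℚ) + 1 + i) - (1 / ((M:ℚ) + 1 + j) + c))) +
      ((-1:ℝ) * 1 * Φ ((M:ℚ) + 1 + i + c - ((M:ℚ) + 1 + j),
        1 / ((M:ℚ) + 1 + i) + c - 1 / ((M:ℚ) + 1 + j)) +
      (-1:ℝ) * (-1) * Φ ((M:ℚ) + 1 + i + c - ((M:ℚ) + 1 + j + c),
        1 / ((M:ℚ) + 1 + i) + c - (1 / ((M:ℚ) + 1 + j) + c))) ≤ 4 * ε + (if i = j then 4 else 0) := by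
      intro i hi j hj
      have a1 : ((M:ℚ) + 1 + i - ((M:ℚ) + 1 + j)) = (i:ℚ) - j := by ring
      have a2 : ((M:ℚ) + 1 + i + c - ((M:ℚ) + 1 + j + c)) = (i:ℚ) - j := by ring
      have a3 : (1 / ((M:ℚ) + 1 + i) + c - (1 / ((M:ℚ) + 1 + j) + c)) =
        1 / ((M:ℚ) + 1 + i) - 1 / ((M:ℚ) + 1 + j) := by ring
      rw [a1, a2, a3]
      by_cases hij : i = j
      · subst hij
        have b1 := hbd ((i:ℚ) - i, 1 / ((M:ℚ) + 1 + i) - 1 / ((M:ℚ) + 1 + i))
        have b2 := hbd ((M:ℚ) + 1 + i - ((M:ℚ) + 1 + i + c), 1 / ((M:ℚ) + 1 + i) - (1 / ((M:ℚ) + 1 + i) + c))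
        have b3 := hbd ((M:ℚ) + 1 + i + c - ((M:ℚ) + 1 + i), 1 / ((M:ℚ) + 1 + i) + c - 1 / ((M:ℚ) + 1 + i))
        simp only [if_true]
        linarith [b1.1, b1.2, b2.1, b2.2, b3.1, b3.2]
      · simp only [hij, if_false, add_zero]
        have hij' : ((i:ℚ) - j) ≠ 0 := by
          rw [sub_ne_zero]; exact_mod_cast hij
        have c1 := hgen _ (hM i hi j hj hij)
        rw [hne _ _ hij']
        obtain ⟨g1, g2⟩ := hc1 i hi j hj
        have c2 := hgen _ (hnotE _ g1)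
        have c3 : Φ ((M:ℚ) + 1 + i - ((M:ℚ) + 1 + j + c),
            1 / ((M:ℚ) + 1 + i) - (1 / ((M:ℚ) + 1 + j) + c)) =
            f (((c:ℚ) + (-((i:ℚ) - j))) * ((c:ℚ) + (-(1 / ((M:ℚ) + 1 + i) - 1 / ((M:ℚ) + 1 + j))))) := by
          rw [hne]
          · congr 1; ring
          · intro h; linarith
        obtain ⟨g3, g4⟩ := hc1 j hj i hi
        have c4 := hgen _ (hnotE _ g3)
        have c5 : Φ ((M:ℚ) + 1 + i + c - ((M:ℚ) + 1 + j),
            1 / ((M:ℚ) + 1 + i) + c - 1 / ((M:ℚ) + 1 + j)) =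
            f (((c:ℚ) + (-((j:ℚ) - i))) * ((c:ℚ) + (-(1 / ((M:ℚ) + 1 + j) - 1 / ((M:ℚ) + 1 + i))))) := by
          rw [hne]
          · congr 1; ring
          · intro h; linarith
        rw [c3, c5]
        linarith [c1.1, c1.2, c2.1, c2.2, c4.1, c4.2]
    calc _ ≤ ∑ i ∈ range K, ∑ j ∈ range K, (4 * ε + (if i = j then (4:ℝ) else 0)) :=
          Finset.sum_le_sum (fun i hi => Finset.sum_le_sum (fun j hj => hterm i hi j hj))
      _ = ∑ i ∈ range K, (K * (4 * ε) + 4) := by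
          apply Finset.sum_congr rfl
          intro i hi
          rw [Finset.sum_add_distrib, Finset.sum_ite_eq, if_pos hi, Finset.sum_const,
            Finset.card_range, nsmul_eq_mul]
      _ = _ := by
          rw [Finset.sum_const, Finset.card_range, nsmul_eq_mul]; ring
  have hεδ : 8 * ε ≤ δ / 4 := by rw [hε]; nlinarith
  have hg : 7 / 8 * δ ≤ t - ε := by linarith
  have hg0 : 0 < t - ε := by linarith
  have hsq1 : (K * (t - ε)) ^ 2 ≤ 4 * ε * K ^ 2 + 4 * K := by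
    refine le_trans ?_ (le_trans hfin hquad)
    have hKt : 0 < K * (t - ε) := by positivity
    nlinarith [hlin, hKt]
  have hsq2 : (K * (7 / 8 * δ)) ^ 2 ≤ 4 * ε * K ^ 2 + 4 * K := by
    refine le_trans ?_ hsq1
    apply pow_le_pow_left₀ (by positivity)
    exact mul_le_mul_of_nonneg_left hg hKpos.le
  have hsq3 : 4 * ε * K ^ 2 + 4 * K < 8 * ε * K ^ 2 := by nlinarith
  have hsq4 : (K * (7 / 8 * δ)) ^ 2 < 8 * ε * K ^ 2 := lt_of_le_of_lt hsq2 hsq3
  rw [hε] at hsq4
  nlinarith [mul_pos (pow_pos hKpos 2) (pow_pos hδ 2)]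


/-- One stage of the approximation. -/
lemma stage (A : Set (ℕ × ℕ)) (ε : ℝ) (hε : 0 < ε)
    (hA : ∀ N : ℕ, ∃ a b m n : ℕ, N ≤ m ∧ N ≤ n ∧
        ε * ((m : ℝ) * (n : ℝ)) ≤
          (({p : ℕ × ℕ | p ∈ A ∧ a ≤ p.1 ∧ p.1 < a + m ∧ b ≤ p.2 ∧ p.2 < b + n}.ncard : ℕ) : ℝ))
    (hneg : ∀ H : AddSubgroup ℤ, H ≠ ⊥ → ∃ z ∈ H, ∀ p ∈ A, ∀ q ∈ A,
          (((p.1 : ℤ) - (q.1 : ℤ)) * ((p.2 : ℤ) - (q.2 : ℤ))) ≠ z) (N : ℕ) :
    ∃ Φ : ℚ × ℚ → ℝ, (∀ v, 0 ≤ Φ v ∧ Φ v ≤ 1) ∧ Φ 0 = 1 ∧ (∀ v, Φ (-v) = Φ v) ∧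
      (∀ (ι : Type) (s : Finset ι) (v : ι → ℚ × ℚ) (z : ι → ℝ),
        0 ≤ ∑ i ∈ s, ∑ j ∈ s, z i * z j * Φ (v i - v j)) ∧
      (∀ q : ℕ, 0 < q → q ≤ N → ∀ a b : ℚ,
        |Φ ((q : ℚ) * a, b / q) - Φ (a, b)| ≤ 1 / ((N : ℝ) + 1)) ∧
      (∀ K c : ℕ, K * c ≤ N → ε / (1 + 3 / ((N : ℝ) + 1)) ^ 2 * (K : ℝ) ^ 2 ≤
        ∑ i ∈ range K, ∑ j ∈ range K,
          Φ ((c : ℚ) * ((i : ℚ) - j), (c : ℚ) * ((i : ℚ) - j))) ∧
      Φ (1, 1) = 0 := by
  classical
  obtain ⟨n0, r, hn0, hr, hfol⟩ := folner (1 / ((N : ℝ) + 1)) (by positivity) N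
  set L : ℕ := ∏ i, r i with hL
  have hLpos : 0 < L := Finset.prod_pos (fun i _ => hr i)
  have hrL : ∀ i, r i ∣ L := fun i => Finset.dvd_prod_of_mem _ (Finset.mem_univ i)
  have hHne : AddSubgroup.zmultiples ((L : ℤ) ^ 2) ≠ ⊥ := by
    rw [Ne, AddSubgroup.zmultiples_eq_bot]
    positivity
  obtain ⟨z, hzH, hz⟩ := hneg _ hHne
  obtain ⟨k, rfl⟩ := AddSubgroup.mem_zmultiples_iff.mp hzH
  rw [smul_eq_mul] at hz
  obtain ⟨a, b, m, n, hm, hn, hcard⟩ := hA ((N + 1) * (N * L * L + N * k.natAbs * L + 1))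
  -- the finite set
  set S0 : Finset (ℕ × ℕ) := ((Finset.Ico a (a + m)) ×ˢ (Finset.Ico b (b + n))).filter (· ∈ A)
    with hS0
  have hS0c : {p : ℕ × ℕ | p ∈ A ∧ a ≤ p.1 ∧ p.1 < a + m ∧ b ≤ p.2 ∧ p.2 < b + n}.ncard
      = S0.card := by
    rw [← Set.ncard_coe_finset]
    congr 1
    ext p
    simp only [hS0, Finset.coe_filter, Finset.mem_product, Finset.mem_Ico, Set.mem_ofPred_eq]
    tauto
  set cst : ℕ × ℕ → ℚ × ℚ := fun p => ((p.1 : ℚ), (p.2 : ℚ)) with hcst
  have hinj : Function.Injective cst := by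
    intro p q hpq
    simp only [hcst, Prod.mk.injEq, Nat.cast_inj] at hpq
    exact Prod.ext hpq.1 hpq.2
  set B : Finset (ℚ × ℚ) := S0.image cst with hB
  have hBc : B.card = S0.card := Finset.card_image_of_injective _ hinj
  rw [hS0c, ← hBc] at hcard
  have hm1 : 0 < m := by
    have : 0 < (N + 1) * (N * L * L + N * k.natAbs * L + 1) := by positivity
    omega
  have hn1 : 0 < n := by
    have : 0 < (N + 1) * (N * L * L + N * k.natAbs * L + 1) := by positivity
    omega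
  have hBpos : (0:ℝ) < B.card := by
    have : 0 < ε * ((m:ℝ) * n) := by positivity
    linarith
  have hBne : B.Nonempty := by
    rw [← Finset.card_pos]; exact_mod_cast hBpos
  have hn0' : (0:ℝ) < n0 := by exact_mod_cast hn0
  have hn0ne : (n0:ℝ) ≠ 0 := hn0'.ne'
  set T : Fin n0 → ℚ × ℚ → ℚ × ℚ := fun l v => ((L:ℚ) * (r l : ℚ) * v.1, (k:ℚ) * L * v.2 / (r l : ℚ))
    with hT
  have hTsub : ∀ l v w, T l (v - w) = T l v - T l w := by
    intro l v w
    simp only [hT, Prod.fst_sub, Prod.snd_sub, Prod.mk_sub_mk]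
    ext
    · simp only; ring
    · simp only; ring
  refine ⟨fun v => (∑ l, corr B (T l v)) / n0, ?_, ?_, ?_, ?_, ?_, ?_, ?_⟩
  · intro v
    constructor
    · apply div_nonneg (Finset.sum_nonneg (fun l _ => corr_nonneg _ _)) hn0'.le
    · rw [div_le_one hn0']
      calc ∑ l, corr B (T l v) ≤ ∑ l : Fin n0, (1:ℝ) := Finset.sum_le_sum (fun l _ => corr_le_one _ _)
        _ = n0 := by simp
  · have : ∀ l ∈ (Finset.univ : Finset (Fin n0)), corr B (T l 0) = 1 := by
      intro l _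
      have : T l 0 = 0 := by simp [hT]
      rw [this, corr_zero B hBne]
    simp only
    rw [Finset.sum_congr rfl this]
    simp [hn0ne]
  · intro v
    simp only
    congr 1
    apply Finset.sum_congr rfl
    intro l _
    rw [← corr_neg]
    congr 1
    simp only [hT, Prod.fst_neg, Prod.snd_neg]
    ext
    · simp
    · simp; ring
  · intro ι s v z
    have : ∑ i ∈ s, ∑ j ∈ s, z i * z j * ((∑ l, corr B (T l (v i - v j))) / n0) =
        (∑ l, ∑ i ∈ s, ∑ j ∈ s, z i * z j * corr B (T l (v i) - T l (v j))) / n0 := by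
      rw [Finset.sum_comm (s := Finset.univ), Finset.sum_div]
      apply Finset.sum_congr rfl
      intro i _
      rw [Finset.sum_comm (s := Finset.univ), Finset.sum_div]
      apply Finset.sum_congr rfl
      intro j _
      rw [← Finset.mul_sum, mul_div_assoc]
      simp only [hTsub]
    simp only
    rw [this]
    apply div_nonneg _ hn0'.le
    exact Finset.sum_nonneg (fun l _ => corr_pd B s (fun i => T l (v i)) z)
  · intro q hq hqN x y
    have := hfol q hq hqN (fun t => corr B ((L:ℚ) * (t:ℚ) * x, (k:ℚ) * L * y / (t:ℚ)))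
      (fun t => abs_le.mpr ⟨by linarith [corr_nonneg B ((L:ℚ) * (t:ℚ) * x, (k:ℚ) * L * y / (t:ℚ))],
        corr_le_one _ _⟩)
    simp only [hT]
    convert this using 6 with l _
    have hq0 : (q:ℚ) ≠ 0 := by exact_mod_cast hq.ne'
    have hr0 : (r l:ℚ) ≠ 0 := by exact_mod_cast (hr l).ne'
    ext
    · simp only; push_cast; ring
    · simp only; push_cast; field_simp
  · intro K c hKc
    simp only
    rcases Nat.eq_zero_or_pos K with hK0 | hKpos
    · subst hK0; simp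
    have key : ∀ l : Fin n0, ε / (1 + 3 / ((N : ℝ) + 1)) ^ 2 * (K : ℝ) ^ 2 ≤
        ∑ i ∈ range K, ∑ j ∈ range K, corr B (T l ((c : ℚ) * ((i : ℚ) - j), (c : ℚ) * ((i : ℚ) - j))) := by
      intro l
      obtain ⟨e, he⟩ := hrL l
      have hr0 : (r l:ℚ) ≠ 0 := by exact_mod_cast (hr l).ne'
      -- enlarged rectangle
      set X : ℕ := N * L * L with hX
      set Y : ℕ := N * k.natAbs * L with hY
      set U : Finset (ℚ × ℚ) := ((Finset.Icc ((a:ℤ) - X) ((a:ℤ) + m + X)) ×ˢ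
        (Finset.Icc ((b:ℤ) - Y) ((b:ℤ) + n + Y))).image (fun p => ((p.1 : ℚ), (p.2 : ℚ))) with hU
      have hUne : U.Nonempty := by
        refine ⟨(((a:ℤ) : ℚ), ((b:ℤ) : ℚ)), ?_⟩
        rw [hU, Finset.mem_image]
        refine ⟨((a:ℤ), (b:ℤ)), ?_, rfl⟩
        rw [Finset.mem_product, Finset.mem_Icc, Finset.mem_Icc]
        refine ⟨⟨?_, ?_⟩, ⟨?_, ?_⟩⟩ <;> simp only <;> omega
      have hUcard : (U.card : ℝ) ≤ ((m:ℝ) + 2 * X + 1) * ((n:ℝ) + 2 * Y + 1) := by
        have h1 : U.card ≤ (m + 2 * X + 1) * (n + 2 * Y + 1) := by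
          refine le_trans Finset.card_image_le ?_
          rw [Finset.card_product, Int.card_Icc, Int.card_Icc]
          apply Nat.mul_le_mul
          · omega
          · omega
        exact_mod_cast h1
      have hmem : ∀ i ∈ range K, ∀ u ∈ B, u - T l ((c:ℚ) * i, (c:ℚ) * i) ∈ U := by
        intro i hi u hu
        rw [hB, Finset.mem_image] at hu
        obtain ⟨p, hp, rfl⟩ := hu
        rw [hS0, Finset.mem_filter, Finset.mem_product, Finset.mem_Ico, Finset.mem_Ico] at hp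
        obtain ⟨⟨⟨p1, p2⟩, ⟨p3, p4⟩⟩, _⟩ := hp
        rw [hU, Finset.mem_image]
        have hci : c * i ≤ N := by
          have : i ≤ K := (Finset.mem_range.mp hi).le
          calc c * i ≤ c * K := Nat.mul_le_mul_left _ this
            _ = K * c := by ring
            _ ≤ N := hKc
        have hrle : r l ≤ L := Nat.le_of_dvd hLpos (hrL l)
        have hele : e ≤ L := by
          rw [he]; exact Nat.le_mul_of_pos_left _ (hr l)
        have hx : L * r l * (c * i) ≤ X := by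
          rw [hX]
          calc L * r l * (c * i) ≤ L * L * N := by gcongr
            _ = N * L * L := by ring
        have hy : k.natAbs * e * (c * i) ≤ Y := by
          rw [hY]
          calc k.natAbs * e * (c * i) ≤ k.natAbs * L * N := by gcongr
            _ = N * k.natAbs * L := by ring
        refine ⟨((p.1 : ℤ) - (L * r l * (c * i) : ℕ), (p.2 : ℤ) - k * (e * (c * i) : ℕ)), ?_, ?_⟩
        · rw [Finset.mem_product, Finset.mem_Icc, Finset.mem_Icc]
          have hyabs : |k * ((e * (c * i) : ℕ) : ℤ)| ≤ (Y : ℤ) := by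
            rw [abs_mul, Nat.abs_cast, ← Int.natCast_natAbs]
            have : k.natAbs * (e * (c * i)) ≤ Y := by rw [← mul_assoc]; exact hy
            exact_mod_cast this
          rw [abs_le] at hyabs
          obtain ⟨hy1, hy2⟩ := hyabs
          refine ⟨⟨?_, ?_⟩, ⟨?_, ?_⟩⟩
          · simp only; omega
          · simp only; omega
          · simp only; omega
          · simp only; omega
        · have hLe : (L:ℚ) = r l * e := by exact_mod_cast he
          simp only [hT, hcst, Prod.mk_sub_mk]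
          ext
          · simp only; push_cast; ring
          · simp only; push_cast
            rw [hLe]; field_simp
      have hd := corr_dens B hBne (range K) (fun i => T l ((c:ℚ) * i, (c:ℚ) * i)) U hmem hUne
      have e1 : ∑ i ∈ range K, ∑ j ∈ range K,
          corr B (T l ((c : ℚ) * ((i : ℚ) - j), (c : ℚ) * ((i : ℚ) - j))) =
          ∑ i ∈ range K, ∑ j ∈ range K,
          corr B (T l ((c:ℚ) * i, (c:ℚ) * i) - T l ((c:ℚ) * j, (c:ℚ) * j)) := by
        apply Finset.sum_congr rfl; intro i _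
        apply Finset.sum_congr rfl; intro j _
        rw [← hTsub]
        simp only [Prod.mk_sub_mk, mul_sub]
      rw [e1]
      refine le_trans ?_ hd
      rw [Finset.card_range]
      have hUpos : (0:ℝ) < U.card := by exact_mod_cast hUne.card_pos
      rw [mul_comm, mul_div_assoc]
      apply mul_le_mul_of_nonneg_left _ (by positivity)
      rw [div_le_div_iff₀ (by positivity) hUpos]
      -- ε * |U| ≤ |B| * (1+3/(N+1))^2
      have hN1 : (0:ℝ) < (N:ℝ) + 1 := by positivity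
      have hmX : ((N:ℝ) + 1) * (X + Y + 1) ≤ m := by
        have : (N + 1) * (X + Y + 1) ≤ m := hm
        exact_mod_cast this
      have hnY : ((N:ℝ) + 1) * (X + Y + 1) ≤ n := by
        have : (N + 1) * (X + Y + 1) ≤ n := hn
        exact_mod_cast this
      have hXn : (0:ℝ) ≤ X := by positivity
      have hYn : (0:ℝ) ≤ Y := by positivity
      have g1 : (m:ℝ) + 2 * X + 1 ≤ m * (1 + 3 / ((N:ℝ) + 1)) := by
        have : 2 * (X:ℝ) + 1 ≤ m * (3 / ((N:ℝ) + 1)) := by
          rw [← mul_div_assoc, le_div_iff₀ hN1]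
          nlinarith
        linarith
      have g2 : (n:ℝ) + 2 * Y + 1 ≤ n * (1 + 3 / ((N:ℝ) + 1)) := by
        have : 2 * (Y:ℝ) + 1 ≤ n * (3 / ((N:ℝ) + 1)) := by
          rw [← mul_div_assoc, le_div_iff₀ hN1]
          nlinarith
        linarith
      calc ε * (U.card:ℝ) ≤ ε * (((m:ℝ) + 2 * X + 1) * ((n:ℝ) + 2 * Y + 1)) := by gcongr
        _ ≤ ε * ((m * (1 + 3 / ((N:ℝ) + 1))) * (n * (1 + 3 / ((N:ℝ) + 1)))) := by gcongr
        _ = (ε * ((m:ℝ) * n)) * (1 + 3 / ((N:ℝ) + 1)) ^ 2 := by ring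
        _ ≤ (B.card:ℝ) * (1 + 3 / ((N:ℝ) + 1)) ^ 2 := by gcongr
    have : ∑ i ∈ range K, ∑ j ∈ range K,
        (∑ l, corr B (T l ((c : ℚ) * ((i : ℚ) - j), (c : ℚ) * ((i : ℚ) - j)))) / n0 =
        (∑ l, ∑ i ∈ range K, ∑ j ∈ range K,
          corr B (T l ((c : ℚ) * ((i : ℚ) - j), (c : ℚ) * ((i : ℚ) - j)))) / n0 := by
      rw [Finset.sum_comm (s := Finset.univ), Finset.sum_div]
      apply Finset.sum_congr rfl
      intro i _
      rw [Finset.sum_comm (s := Finset.univ), Finset.sum_div]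
    rw [this, le_div_iff₀ hn0']
    calc _ = ∑ l : Fin n0, (ε / (1 + 3 / ((N : ℝ) + 1)) ^ 2 * (K : ℝ) ^ 2) := by simp; ring
      _ ≤ _ := Finset.sum_le_sum (fun l _ => key l)
  · have : ∀ l ∈ (Finset.univ : Finset (Fin n0)), corr B (T l (1, 1)) = 0 := by
      intro l _
      have hempty : B.filter (fun u => u + T l (1, 1) ∈ B) = ∅ := by
        rw [Finset.filter_eq_empty_iff]
        intro u hu hu2
        rw [hB, Finset.mem_image] at hu hu2
        obtain ⟨p, hp, rfl⟩ := hu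
        obtain ⟨p', hp', hpp⟩ := hu2
        have hpA : p ∈ A := (Finset.mem_filter.mp hp).2
        have hpA' : p' ∈ A := (Finset.mem_filter.mp hp').2
        have hr0 : (r l:ℚ) ≠ 0 := by exact_mod_cast (hr l).ne'
        simp only [hT, hcst, Prod.mk_add_mk, Prod.mk.injEq, mul_one] at hpp
        obtain ⟨q1, q2⟩ := hpp
        apply hz p' hpA' p hpA
        have : (((p'.1 : ℤ) - (p.1 : ℤ)) * ((p'.2 : ℤ) - (p.2 : ℤ)) : ℚ) = ((k * (L:ℤ) ^ 2 : ℤ) : ℚ) := by
          push_cast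
          have w1 : (p'.1 : ℚ) - p.1 = L * r l := by rw [q1]; ring
          have w2 : (p'.2 : ℚ) - p.2 = k * L / r l := by rw [q2]; ring
          rw [w1, w2]; field_simp
        exact_mod_cast this
      unfold corr
      rw [hempty]; simp
    simp only
    rw [Finset.sum_congr rfl this]; simp

/-- For every A in ℕ×ℕ of positive upper Banach density, the set of products x·y over (x,y) in A−A contains a nonzero subgroup of the integers. -/
theorem result :
    ∀ A : Set (ℕ × ℕ),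
      (∃ ε : ℝ, 0 < ε ∧ ∀ N : ℕ, ∃ a b m n : ℕ, N ≤ m ∧ N ≤ n ∧
        ε * ((m : ℝ) * (n : ℝ)) ≤
          (({p : ℕ × ℕ | p ∈ A ∧ a ≤ p.1 ∧ p.1 < a + m ∧ b ≤ p.2 ∧ p.2 < b + n}.ncard : ℕ) : ℝ)) →
      ∃ H : AddSubgroup ℤ, H ≠ ⊥ ∧
        ∀ z ∈ H, ∃ p ∈ A, ∃ q ∈ A,
          (((p.1 : ℤ) - (q.1 : ℤ)) * ((p.2 : ℤ) - (q.2 : ℤ))) = z := by
  rintro A ⟨ε, hε, hA⟩
  by_contra hcon
  have hneg : ∀ H : AddSubgroup ℤ, H ≠ ⊥ → ∃ z ∈ H, ∀ p ∈ A, ∀ q ∈ A,
          (((p.1 : ℤ) - (q.1 : ℤ)) * ((p.2 : ℤ) - (q.2 : ℤ))) ≠ z := by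
    intro H hH
    by_contra h
    apply hcon
    refine ⟨H, hH, ?_⟩
    intro z hz
    by_contra h2
    apply h
    refine ⟨z, hz, ?_⟩
    intro p hp q hq h3
    exact h2 ⟨p, hp, q, hq, h3⟩
  choose F hF using stage A ε hε hA hneg
  set 𝒰 : Ultrafilter ℕ := Filter.hyperfilter ℕ with h𝒰
  have hle : (𝒰 : Filter ℕ) ≤ atTop := Nat.hyperfilter_le_atTop
  have hlim : ∀ v : ℚ × ℚ, ∃ x : ℝ, Tendsto (fun N => F N v) 𝒰 (nhds x) := by
    intro v
    have hc : IsCompact (Set.Icc (0:ℝ) 1) := isCompact_Icc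
    have hmem : ((𝒰.map (fun N => F N v) : Ultrafilter ℝ) : Filter ℝ) ≤
        Filter.principal (Set.Icc (0:ℝ) 1) := by
      rw [Filter.le_principal_iff, Ultrafilter.coe_map, Filter.mem_map]
      apply Filter.univ_mem'
      intro N
      exact (hF N).1 v
    obtain ⟨x, _, hx⟩ := hc.ultrafilter_le_nhds _ hmem
    exact ⟨x, hx⟩
  choose Φ hΦ using hlim
  have hinvN : Tendsto (fun N : ℕ => (1:ℝ) / ((N:ℝ) + 1)) 𝒰 (nhds 0) :=
    tendsto_one_div_add_atTop_nhds_zero_nat.mono_left hle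
  refine rigidity Φ ε hε ?_ ?_ ?_ ?_ ?_ ?_
  · refine tendsto_nhds_unique (hΦ 0) ?_
    have : (fun N => F N 0) = fun _ => (1:ℝ) := by
      funext N; exact (hF N).2.1
    rw [this]; exact tendsto_const_nhds
  · intro v
    refine tendsto_nhds_unique (hΦ (-v)) ?_
    have : (fun N => F N (-v)) = fun N => F N v := by
      funext N; exact (hF N).2.2.1 v
    rw [this]; exact hΦ v
  · intro ι s v z
    have ht : Tendsto (fun N => ∑ i ∈ s, ∑ j ∈ s, z i * z j * F N (v i - v j)) 𝒰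
        (nhds (∑ i ∈ s, ∑ j ∈ s, z i * z j * Φ (v i - v j))) := by
      apply tendsto_finsetSum; intro i _
      apply tendsto_finsetSum; intro j _
      exact (hΦ _).const_mul _
    exact ge_of_tendsto ht (Filter.Eventually.of_forall (fun N => (hF N).2.2.2.1 ι s v z))
  · intro q hq a b
    have h1 : Tendsto (fun N => F N ((q:ℚ) * a, b / q) - F N (a, b)) 𝒰
        (nhds (Φ ((q:ℚ) * a, b / q) - Φ (a, b))) := (hΦ _).sub (hΦ _)
    have h2 : Tendsto (fun N => F N ((q:ℚ) * a, b / q) - F N (a, b)) 𝒰 (nhds 0) := by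
      apply squeeze_zero_norm' _ hinvN
      have : ∀ᶠ N : ℕ in (𝒰 : Filter ℕ), q ≤ N := hle (Filter.eventually_ge_atTop q)
      filter_upwards [this] with N hN
      rw [Real.norm_eq_abs]
      exact (hF N).2.2.2.2.1 q hq hN a b
    have := tendsto_nhds_unique h1 h2
    linarith
  · intro K c
    have ht : Tendsto (fun N => ∑ i ∈ range K, ∑ j ∈ range K,
          F N ((c : ℚ) * ((i : ℚ) - j), (c : ℚ) * ((i : ℚ) - j))) 𝒰
        (nhds (∑ i ∈ range K, ∑ j ∈ range K,
          Φ ((c : ℚ) * ((i : ℚ) - j), (c : ℚ) * ((i : ℚ) - j)))) := by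
      apply tendsto_finsetSum; intro i _
      apply tendsto_finsetSum; intro j _
      exact hΦ _
    have ht2 : Tendsto (fun N : ℕ => ε / (1 + 3 / ((N : ℝ) + 1)) ^ 2 * (K : ℝ) ^ 2) 𝒰
        (nhds (ε / (1 + 3 * 0) ^ 2 * (K:ℝ) ^ 2)) := by
      apply Tendsto.mul_const
      apply Tendsto.div tendsto_const_nhds _ (by norm_num)
      apply Tendsto.pow
      apply Tendsto.add tendsto_const_nhds
      have : (fun N : ℕ => (3:ℝ) / ((N:ℝ) + 1)) = fun N : ℕ => 3 * (1 / ((N:ℝ) + 1)) := by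
        funext N; ring
      rw [this]
      exact hinvN.const_mul 3
    have h3 : ε * (K:ℝ) ^ 2 = ε / (1 + 3 * 0) ^ 2 * (K:ℝ) ^ 2 := by norm_num
    rw [h3]
    refine le_of_tendsto_of_tendsto ht2 ht ?_
    have : ∀ᶠ N : ℕ in (𝒰 : Filter ℕ), K * c ≤ N := hle (Filter.eventually_ge_atTop (K * c))
    filter_upwards [this] with N hN
    exact (hF N).2.2.2.2.2.1 K c hN
  · refine tendsto_nhds_unique (hΦ (1, 1)) ?_
    have : (fun N => F N (1, 1)) = fun _ => (0:ℝ) := by
      funext N; exact (hF N).2.2.2.2.2.2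
    rw [this]; exact tendsto_const_nhds

end Pool.Agent.S16995
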