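import Pool.Statements.S17033
import Pool.Agent.Helper91.SC.Final

set_option autoImplicit false
open Pool Pool.MP_58376a_nt

namespace Pool.Agent.S17033

/-- For every prime p>3, all four congruences hold p-adically: (1) for every a≥1; (2) unconditionally; (3) when (p/7)=1; (4) when (p/7)=-1. Here x≡y mod p^n means p does not divide the denominator of (x-y)/p^n. -/
theorem result :
  ∀ p : ℕ, p.Prime → 3 < p →
    ((∀ a : ℕ, 1 ≤ a →
      ¬ (p ∣ ((((∑ k ∈ Finset.range (p ^ a),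
              ((35 * (k : ℚ) + 8) / (81 : ℚ) ^ k) *
                ((Nat.factorial (4 * k) : ℚ) / (Nat.factorial k : ℚ) ^ 4)) / (p : ℚ) ^ a)
            - (8 + (416 / 27 : ℚ) * (p : ℚ) ^ 3 * bernoulli (p - 3))) / (p : ℚ) ^ 4).den)) ∧
    (¬ (p ∣ (((∑ k ∈ Finset.range ((p - 1) / 2 + 1),
              ((35 * (k : ℚ) + 8) / (81 : ℚ) ^ k) *
                ((Nat.factorial (4 * k) : ℚ) / (Nat.factorial k : ℚ) ^ 4))
            - 8 * (p : ℚ) * (3 : ℚ) ^ (p - 1)) / (p : ℚ) ^ 3).den)) ∧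
    (jacobiSym (p : ℤ) 7 = 1 →
      (¬ (p ∣ (((∑ k ∈ Finset.range p, ((Nat.choose (2 * k) k : ℚ)) ^ 3)
            - (∑ k ∈ Finset.range p,
                ((Nat.factorial (4 * k) : ℚ) / (Nat.factorial k : ℚ) ^ 4) / (81 : ℚ) ^ k))
            / (p : ℚ) ^ 3).den)) ∧
      (¬ (p ∣ ((3 * (∑ k ∈ Finset.range p, (k : ℚ) * ((Nat.choose (2 * k) k : ℚ)) ^ 3)
            - 5 * (∑ k ∈ Finset.range p,
                (k : ℚ) * ((Nat.factorial (4 * k) : ℚ) / (Nat.factorial k : ℚ) ^ 4) / (81 : ℚ) ^ k))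
            / (p : ℚ) ^ 3).den))) ∧
    (jacobiSym (p : ℤ) 7 = -1 →
      ¬ (p ∣ ((∑ k ∈ Finset.range p,
                ((Nat.factorial (4 * k) : ℚ) / (Nat.factorial k : ℚ) ^ 4) / (81 : ℚ) ^ k)
            / (p : ℚ) ^ 2).den))) := by
  intro p hp h3
  have h4 : p ≠ 4 := by
    intro h
    rw [h] at hp
    exact absurd hp (by norm_num)
  have h5 : 5 ≤ p := by omega
  obtain ⟨h, hh⟩ := hp.odd_of_ne_two (by omega)
  refine ⟨?_, ?_, ?_, ?_⟩
  · intro a ha
    exact Pool.Agent.Helper91.den_of_Dv hp (Pool.Agent.Helper91.SC.partA hp h5 ha)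
  · have e1 : (p - 1) / 2 + 1 = h + 1 := by omega
    have e2 : p - 1 = 2 * h := by omega
    have hB := Pool.Agent.Helper91.SC.partB hp h5 hh
    rw [e1, e2]
    exact Pool.Agent.Helper91.den_of_Dv hp hB
  · intro hJ
    have h7 : p ≠ 7 := by
      intro h
      rw [h] at hJ
      exact absurd hJ (by norm_num)
    have h1 := Pool.Agent.Helper91.SC.split_all hp h5 hJ
    rw [Pool.Agent.Helper91.SC.Am_zero, Pool.Agent.Helper91.SC.Bm_zero] at h1
    exact ⟨Pool.Agent.Helper91.den_of_Dv hp h1,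
      Pool.Agent.Helper91.den_of_Dv hp (Pool.Agent.Helper91.SC.c2_of_c1 hp h5 h7 h1)⟩
  · intro hJ
    have h1 := Pool.Agent.Helper91.SC.inert_all hp h5 hJ
    rw [Pool.Agent.Helper91.SC.Bm_zero] at h1
    exact Pool.Agent.Helper91.den_of_Dv hp h1

end Pool.Agent.S17033
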