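import Pool.Statements.S17277
import Pool.Agent.Helper96.VF.All2

set_option autoImplicit false
open Filter
open Pool Pool.MP_6829b3_nt

namespace Pool.Agent.S17277

/-- Let f(n) be the largest size of a subset of {1,…,n} in which no element divides two other distinct elements. Then f(n)/n converges to a limit, and that limit is irrational. -/
theorem result :
    ∃ c : ℝ, Irrational c ∧ ∃ f : ℕ → ℕ,
      (∀ n : ℕ, IsGreatest
        {k : ℕ | ∃ A : Finset ℕ, A ⊆ Finset.Icc 1 n ∧
          (∀ a ∈ A, ∀ b ∈ A, ∀ d ∈ A, a ≠ b → a ≠ d → b ≠ d → ¬ (a ∣ b ∧ a ∣ d)) ∧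
          A.card = k} (f n)) ∧
      Tendsto (fun n : ℕ => (f n : ℝ) / (n : ℝ)) atTop (nhds c) := by
  exact Pool.Agent.Helper96.VF.frozenFinal

end Pool.Agent.S17277
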