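import Pool.Statements.S17321

set_option autoImplicit false
open Pool Pool.MP_6c5308_nt

namespace Pool.Agent.S17321

/-- `F_v ∣ 2^m - 2^k - 1` where `m = 2^I - 1`, `k < m` and `v = v_2(m - k)`. -/
theorem fermat_dvd (I k v u : ℕ) (hu : Odd u) (hm : 2 ^ I - 1 = k + 2 ^ v * u) :
    ((2 : ℤ) ^ (2 ^ v) + 1) ∣ (2 : ℤ) ^ (2 ^ I - 1) - 2 ^ k - 1 := by
  have hu1 : 1 ≤ u := hu.pos
  have hI1 : 1 ≤ 2 ^ I := Nat.one_le_two_pow
  have hvI : v + 1 ≤ I := by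
    by_contra hcon
    have h1 : 2 ^ I ≤ 2 ^ v := Nat.pow_le_pow_right (by norm_num) (by omega)
    have h2 : 2 ^ v ≤ 2 ^ v * u := Nat.le_mul_of_pos_right _ hu1
    omega
  -- F_v divides 2^(2^I) - 1
  have h1 : ((2 : ℤ) ^ (2 ^ v) + 1) ∣ (2 : ℤ) ^ (2 ^ I) - 1 := by
    have h11 : ((2 : ℤ) ^ (2 ^ v) + 1) ∣ (2 : ℤ) ^ (2 ^ (v + 1)) - 1 := by
      refine ⟨(2 : ℤ) ^ (2 ^ v) - 1, ?_⟩
      rw [pow_succ 2 v, pow_mul]
      ring
    have h12 : (2 : ℤ) ^ (2 ^ (v + 1)) - 1 ∣ (2 : ℤ) ^ (2 ^ I) - 1 := by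
      obtain ⟨c, hc⟩ : 2 ^ (v + 1) ∣ 2 ^ I := pow_dvd_pow 2 hvI
      rw [hc, pow_mul]
      exact sub_one_dvd_pow_sub_one _ _
    exact h11.trans h12
  -- F_v divides 2^(m-k) + 1
  have h2 : ((2 : ℤ) ^ (2 ^ v) + 1) ∣ (2 : ℤ) ^ (2 ^ v * u) + 1 := by
    rw [pow_mul]
    simpa using hu.add_dvd_pow_add_pow ((2 : ℤ) ^ (2 ^ v)) 1
  have h3 : (2 : ℤ) ^ (2 ^ I - 1) - 2 ^ k - 1
      = ((2 : ℤ) ^ (2 ^ I) - 1) - 2 ^ k * ((2 : ℤ) ^ (2 ^ v * u) + 1) := by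
    have h31 : (2 : ℤ) ^ (2 ^ I) = 2 * 2 ^ (2 ^ I - 1) := by
      rw [← pow_succ']
      congr 1
      omega
    have h32 : (2 : ℤ) ^ (2 ^ I - 1) = 2 ^ k * 2 ^ (2 ^ v * u) := by
      rw [hm, pow_add]
    rw [h31]
    linear_combination (-1 : ℤ) * h32
  rw [h3]
  exact dvd_sub h1 (h2.mul_left _)

theorem no_rep (I : ℕ) (hI : 3 ≤ I) (k p : ℕ) (hp : p.Prime) :
    2 ^ (2 ^ I - 1) - 1 ≠ 2 ^ k + p := by
  intro h
  have hI8 : 8 ≤ 2 ^ I := by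
    calc 8 = 2 ^ 3 := by norm_num
      _ ≤ 2 ^ I := Nat.pow_le_pow_right (by norm_num) hI
  have hp2 := hp.two_le
  have hkm : k < 2 ^ I - 1 := by
    by_contra hcon
    have h1 : 2 ^ (2 ^ I - 1) ≤ 2 ^ k := Nat.pow_le_pow_right (by norm_num) (by omega)
    have h2 : 1 ≤ 2 ^ k := Nat.one_le_two_pow
    omega
  set m := 2 ^ I - 1 with hm
  -- write m - k = 2^v u
  obtain ⟨v, u, hu, hvu⟩ := Nat.exists_eq_two_pow_mul_odd (n := m - k) (by omega)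
  have hmk : m = k + 2 ^ v * u := by omega
  have hdvd := fermat_dvd I k v u hu hmk
  rw [← hm] at hdvd
  have hpos : 1 ≤ 2 ^ m := Nat.one_le_two_pow
  have hpz : (2 : ℤ) ^ m - 2 ^ k - 1 = p := by
    have : 2 ^ m = 2 ^ k + p + 1 := by omega
    have h' : (2 : ℤ) ^ m = 2 ^ k + p + 1 := by exact_mod_cast this
    linarith
  rw [hpz] at hdvd
  have hdvd' : 2 ^ (2 ^ v) + 1 ∣ p := by exact_mod_cast hdvd
  have hF : 2 ^ (2 ^ v) + 1 = p := by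
    rcases (Nat.dvd_prime hp).mp hdvd' with h1 | h1
    · have : 0 < 2 ^ (2 ^ v) := by positivity
      omega
    · exact h1
  -- now 2^m = 2^k + 2^(2^v) + 2
  have heq : 2 ^ m = 2 ^ k + 2 ^ (2 ^ v) + 2 := by omega
  have hu1 : 1 ≤ u := hu.pos
  have hvle : 2 ^ v ≤ m - k := by
    have : 2 ^ v ≤ 2 ^ v * u := Nat.le_mul_of_pos_right _ hu1
    omega
  rcases Nat.eq_zero_or_pos k with hk0 | hk0
  · -- parity
    rw [hk0] at heq
    have h1 : 2 ∣ 2 ^ m := dvd_pow_self 2 (by omega)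
    have h2 : 2 ∣ 2 ^ (2 ^ v) := dvd_pow_self 2 (by positivity)
    omega
  · -- size
    have h1 : 2 ^ (2 ^ v) ≤ 2 ^ (m - k) := Nat.pow_le_pow_right (by norm_num) hvle
    -- convexity
    have h2 : 2 ^ k + 2 ^ (m - k) ≤ 2 + 2 ^ (m - 1) := by
      have e1 : 2 ^ (m - 1) * 2 = 2 ^ k * 2 ^ (m - k) := by
        rw [← pow_succ, ← pow_add]
        congr 1
        omega
      have e2 : 2 ≤ 2 ^ k := by
        calc 2 = 2 ^ 1 := by norm_num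
          _ ≤ 2 ^ k := Nat.pow_le_pow_right (by norm_num) hk0
      have e3 : 2 ≤ 2 ^ (m - k) := by
        calc 2 = 2 ^ 1 := by norm_num
          _ ≤ 2 ^ (m - k) := Nat.pow_le_pow_right (by norm_num) (by omega)
      nlinarith
    have h3 : 2 ^ m = 2 * 2 ^ (m - 1) := by
      rw [← pow_succ']
      congr 1
      omega
    have h4 : 2 ^ 6 ≤ 2 ^ (m - 1) := Nat.pow_le_pow_right (by norm_num) (by omega)
    omega

/-- There are infinitely many odd natural numbers n that are never 2^k plus a prime, and for which no finite set of primes has the property that every 2^k is congruent to n modulo one of them. -/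
theorem result :
    Set.Infinite {n : ℕ | Odd n ∧ (∀ k p : ℕ, p.Prime → n ≠ 2 ^ k + p) ∧
      ¬ ∃ P : Finset ℕ, (∀ p ∈ P, p.Prime) ∧
        ∀ k : ℕ, ∃ p ∈ P, (p : ℤ) ∣ (n : ℤ) - 2 ^ k} := by
  apply Set.infinite_of_injective_forall_mem (f := fun I : ℕ => 2 ^ (2 ^ (I + 3) - 1) - 1)
  · intro I J hIJ
    simp only at hIJ
    have h1 : 1 ≤ 2 ^ (2 ^ (I + 3) - 1) := Nat.one_le_two_pow
    have h2 : 1 ≤ 2 ^ (2 ^ (J + 3) - 1) := Nat.one_le_two_pow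
    have h3 : 2 ^ (2 ^ (I + 3) - 1) = 2 ^ (2 ^ (J + 3) - 1) := by omega
    have h4 := Nat.pow_right_injective (le_refl 2) h3
    have h5 : 1 ≤ 2 ^ (I + 3) := Nat.one_le_two_pow
    have h6 : 1 ≤ 2 ^ (J + 3) := Nat.one_le_two_pow
    have h7 : 2 ^ (I + 3) = 2 ^ (J + 3) := by omega
    have h8 := Nat.pow_right_injective (le_refl 2) h7
    omega
  · intro I
    have hI8 : 8 ≤ 2 ^ (I + 3) := by
      calc 8 = 2 ^ 3 := by norm_num
        _ ≤ 2 ^ (I + 3) := Nat.pow_le_pow_right (by norm_num) (by omega)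
    refine ⟨?_, ?_, ?_⟩
    · have h1 : 2 ∣ 2 ^ (2 ^ (I + 3) - 1) := dvd_pow_self 2 (by omega)
      have h2 : 1 ≤ 2 ^ (2 ^ (I + 3) - 1) := Nat.one_le_two_pow
      rw [Nat.odd_iff]
      omega
    · intro k p hp
      exact no_rep (I + 3) (by omega) k p hp
    · rintro ⟨P, hP, hcov⟩
      obtain ⟨p, hpP, hdvd⟩ := hcov (2 ^ (I + 3) - 1)
      have h2 : 1 ≤ 2 ^ (2 ^ (I + 3) - 1) := Nat.one_le_two_pow
      have h3 : (((2 ^ (2 ^ (I + 3) - 1) - 1 : ℕ) : ℤ)) - 2 ^ (2 ^ (I + 3) - 1) = -1 := by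
        rw [Nat.cast_sub h2]
        push_cast
        ring
      rw [h3] at hdvd
      have h4 : (p : ℤ) ∣ 1 := by simpa using hdvd
      have h5 : p ∣ 1 := by exact_mod_cast h4
      exact (hP p hpP).one_lt.ne' (Nat.dvd_one.mp h5)

end Pool.Agent.S17321
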