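-- Proof of the frozen statement S17434.
--
-- Take `k = 3 * j ^ 2` with `j = 30093202437272969173339374829` (odd, prime to `3`).
-- * `n` odd: `k * 2 ^ n + 1` is divisible by one of 13 small primes (a covering of the odd exponents
--   modulo 720), so it is not prime.
-- * `n` even: `p = k * 2 ^ n + 1 = 1 + 3 * Y ^ 2` with `Y = j * 2 ^ (n / 2)` prime to `3`.  If `p` divides a
--   Fermat number, `2` has order a power of two modulo `p`, so `2` is a cube modulo `p`; by the classical
--   Jacobi sum computation (Gauss) `p = u ^ 2 + 3 * v ^ 2` with `3 ∣ v`, and the uniqueness of such a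
--   representation gives `3 ∣ Y`, a contradiction.
-- * `k * 2 ^ 192 + 1` is prime (Proth certificate), so `k` is not a Sierpinski number.
-- Hence no Fermat number at all has a prime factor `k * 2 ^ n + 1`.
import Pool.Statements.S17434
import Mathlib

set_option autoImplicit false
open Pool Pool.MP_74da6d_nt

namespace Pool.Agent.S17434

/-- Proth's criterion. -/
theorem proth {k n a N : ℕ} (hN : N = k * 2 ^ (n + 1) + 1) (hkn : k < 2 ^ (n + 1)) (hk : 0 < k)
    (h : (a : ZMod N) ^ (k * 2 ^ n) = -1) : Nat.Prime N := by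
  have h2n : 0 < 2 ^ (n + 1) := by positivity
  have hkn0 : 0 < k * 2 ^ (n + 1) := by positivity
  by_contra hnp
  have hN1 : N ≠ 1 := by omega
  have hqp : N.minFac.Prime := Nat.minFac_prime hN1
  have hqN : N.minFac ∣ N := Nat.minFac_dvd _
  have hsq : N.minFac ^ 2 ≤ N := Nat.minFac_sq_le_self (by omega) hnp
  generalize N.minFac = q at hqp hqN hsq
  have : Fact q.Prime := ⟨hqp⟩
  have h1 : (a : ZMod q) ^ (k * 2 ^ n) = -1 := by
    have h3 := congrArg (ZMod.castHom hqN (ZMod q)) h
    rw [map_pow, map_natCast, map_neg, map_one] at h3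
    exact h3
  have hq2 : q ≠ 2 := by
    rintro rfl
    have : (2 : ℕ) ∣ k * 2 ^ (n + 1) := Dvd.dvd.mul_left (dvd_pow_self 2 (by omega)) k
    omega
  have hneg : (-1 : ZMod q) ≠ 1 := by
    have : Fact (2 < q) := ⟨lt_of_le_of_ne hqp.two_le (Ne.symm hq2)⟩
    exact ZMod.neg_one_ne_one
  have hord : orderOf ((a : ZMod q) ^ k) = 2 ^ (n + 1) := by
    apply orderOf_eq_prime_pow
    · rw [← pow_mul, h1]; exact hneg
    · rw [← pow_mul, pow_succ, ← mul_assoc, pow_mul, h1]; norm_num
  have hne : (a : ZMod q) ^ k ≠ 0 := by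
    intro h0
    rw [pow_mul, h0, zero_pow (by positivity)] at h1
    exact neg_ne_zero.2 one_ne_zero h1.symm
  have hdiv : 2 ^ (n + 1) ∣ q - 1 := by
    rw [← hord]; exact ZMod.orderOf_dvd_card_sub_one hne
  have hle : 2 ^ (n + 1) ≤ q - 1 := Nat.le_of_dvd (by have := hqp.two_le; omega) hdiv
  have hq1 : 2 ^ (n + 1) + 1 ≤ q := by have := hqp.two_le; omega
  have h6 : (2 ^ (n + 1) + 1) ^ 2 ≤ q ^ 2 := Nat.pow_le_pow_left hq1 2
  have h7 : k * 2 ^ (n + 1) ≤ 2 ^ (n + 1) * 2 ^ (n + 1) := Nat.mul_le_mul_right _ hkn.le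
  nlinarith

/-- uniqueness of the representation `x ^ 2 + 3 * y ^ 2` of a prime `1 + 3 * Y ^ 2`. -/
theorem unique_rep {p x y Y : ℤ} (hp : Prime p) (hp0 : 0 < p) (h1 : p = 1 + 3 * Y ^ 2)
    (h2 : p = x ^ 2 + 3 * y ^ 2) (hy : 3 ∣ y) : 3 ∣ Y := by
  have key : (x * Y - y) * (x * Y + y) = p * (Y ^ 2 - y ^ 2) := by
    have : x ^ 2 = p - 3 * y ^ 2 := by linarith
    have h3 : (x * Y - y) * (x * Y + y) = x ^ 2 * Y ^ 2 - y ^ 2 := by ring
    rw [h3, this]
    have h4 : y ^ 2 = y ^ 2 * (p - 3 * Y ^ 2) := by rw [h1]; ring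
    nlinarith
  have hdvd : p ∣ (x * Y - y) * (x * Y + y) := ⟨_, key⟩
  have aux : ∀ e : ℤ, p ^ 2 = (x + 3 * Y * (e * y)) ^ 2 + 3 * (x * Y - (e * y)) ^ 2 →
      p ∣ x * Y - e * y → x * Y = e * y := by
    intro e he ⟨t, ht⟩
    rw [ht] at he
    have : t = 0 := by
      by_contra hne
      have ht1 : 1 ≤ t ^ 2 := by
        have := sq_pos_of_ne_zero hne
        linarith
      have : p ^ 2 > 0 := by positivity
      nlinarith [sq_nonneg (x + 3 * Y * (e * y))]
    rw [this, mul_zero] at ht
    linarith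
  have hcase : x * Y = y ∨ x * Y = - y := by
    rcases hp.dvd_or_dvd hdvd with h | h
    · left
      have := aux 1 (by
        have : p ^ 2 = (x ^ 2 + 3 * y ^ 2) * (1 + 3 * Y ^ 2) := by rw [← h2, ← h1]; ring
        rw [this]; ring) (by simpa using h)
      simpa using this
    · right
      have := aux (-1) (by
        have : p ^ 2 = (x ^ 2 + 3 * y ^ 2) * (1 + 3 * Y ^ 2) := by rw [← h2, ← h1]; ring
        rw [this]; ring) (by simpa using h)
      simpa using this
  have hsq : y ^ 2 = x ^ 2 * Y ^ 2 := by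
    rcases hcase with h | h
    · rw [← h]; ring
    · have : y = - (x * Y) := by linarith
      rw [this]; ring
  have hx : x ^ 2 = 1 := by
    have h3 : p = x ^ 2 * p := by
      nth_rewrite 1 [h2]; rw [hsq, h1]; ring
    have h4 : p * (x ^ 2 - 1) = 0 := by linarith
    rcases mul_eq_zero.1 h4 with h | h
    · omega
    · linarith
  rw [hx, one_mul] at hsq
  have h5 : Y = y ∨ Y = - y := sq_eq_sq_iff_eq_or_eq_neg.1 hsq.symm
  rcases h5 with h | h
  · rw [h]; exact hy
  · rw [h]; exact (dvd_neg).2 hy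

/-- 1, w are linearly independent over the integers. -/
theorem lin_indep {w : ℂ} (hw : IsPrimitiveRoot w 3) {a b c d : ℤ}
    (h : (a : ℂ) + b * w = c + d * w) : a = c ∧ b = d := by
  have h1 : w ^ 2 + w + 1 = 0 := by
    have h3 : w ^ 3 = 1 := hw.pow_eq_one
    have hne : w ≠ 1 := hw.ne_one (by norm_num)
    have : (w - 1) * (w ^ 2 + w + 1) = 0 := by linear_combination h3
    rcases mul_eq_zero.1 this with h | h
    · exact absurd (sub_eq_zero.1 h) hne
    · exact h
  by_cases hbd : b = d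
  · subst hbd
    refine ⟨?_, rfl⟩
    have : (a : ℂ) = c := by linear_combination h
    exact_mod_cast this
  · exfalso
    have hs : (d : ℤ) - b ≠ 0 := sub_ne_zero.2 (Ne.symm hbd)
    have h2 : ((a - c : ℤ) : ℂ) = ((d - b : ℤ) : ℂ) * w := by push_cast; linear_combination h
    have h3 : (((a - c) ^ 2 + (a - c) * (d - b) + (d - b) ^ 2 : ℤ) : ℂ) = 0 := by
      have : (((a - c) ^ 2 + (a - c) * (d - b) + (d - b) ^ 2 : ℤ) : ℂ)
          = ((a - c : ℤ) : ℂ) ^ 2 + ((a - c : ℤ) : ℂ) * ((d - b : ℤ) : ℂ) + ((d - b : ℤ) : ℂ) ^ 2 := by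
        push_cast; ring
      rw [this, h2]
      linear_combination (((d - b : ℤ) : ℂ)) ^ 2 * h1
    have h4 : (a - c) ^ 2 + (a - c) * (d - b) + (d - b) ^ 2 = 0 := by exact_mod_cast h3
    have h5 : 0 < (d - b) ^ 2 := by positivity
    nlinarith [sq_nonneg (2 * (a - c) + (d - b))]

theorem adjoin_rep {w : ℂ} (hw : w ^ 2 + w + 1 = 0) {z : ℂ} (hz : z ∈ Algebra.adjoin ℤ {w}) :
    ∃ c d : ℤ, z = c + d * w := by
  induction hz using Algebra.adjoin_induction with
  | mem x hx => exact ⟨0, 1, by rw [Set.mem_singleton_iff.1 hx]; simp⟩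
  | algebraMap r => exact ⟨r, 0, by simp⟩
  | add x y _ _ hx hy =>
    obtain ⟨a, b, rfl⟩ := hx
    obtain ⟨c, d, rfl⟩ := hy
    exact ⟨a + c, b + d, by push_cast; ring⟩
  | mul x y _ _ hx hy =>
    obtain ⟨a, b, rfl⟩ := hx
    obtain ⟨c, d, rfl⟩ := hy
    refine ⟨a * c - b * d, a * d + b * c - b * d, ?_⟩
    push_cast
    linear_combination (b * d : ℂ) * hw

/-- a subset of `ZMod p` invariant under `x ↦ 1 - x` and not containing the fixed point is even. -/
theorem even_card_filter {p : ℕ} [Fact p.Prime] (P : ZMod p → Prop) [DecidablePred P]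
    (hinv : ∀ x, P x → P (1 - x)) (hfix : ∀ x, P x → 1 - x ≠ x) :
    Even (Finset.univ.filter P).card := by
  have : ((Finset.univ.filter P).card : ZMod 2) = 0 := by
    rw [Finset.cast_card]
    refine Finset.sum_involution (fun x _ => 1 - x) ?_ ?_ ?_ ?_
    · intro x _
      decide
    · intro x hx _
      exact hfix x (Finset.mem_filter.1 hx).2
    · intro x hx
      exact Finset.mem_filter.2 ⟨Finset.mem_univ _, hinv x (Finset.mem_filter.1 hx).2⟩
    · intro x hx
      exact sub_sub_cancel 1 x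
  exact (ZMod.natCast_eq_zero_iff_even).1 this

theorem cubic {p : ℕ} {Y : ℤ} (hp : p.Prime) (hpY : (p : ℤ) = 1 + 3 * Y ^ 2) (hY : ¬ 3 ∣ Y)
    (m : ℕ) (hm : p ∣ Nat.fermatNumber m) : False := by
  classical
  have : Fact p.Prime := ⟨hp⟩
  obtain ⟨w, hw⟩ : ∃ w : ℂ, IsPrimitiveRoot w 3 := ⟨_, Complex.isPrimitiveRoot_exp 3 (by norm_num)⟩
  have hw3 : w ^ 3 = 1 := hw.pow_eq_one
  have hne : w ≠ 1 := hw.ne_one (by norm_num)
  have hw2 : w ^ 2 + w + 1 = 0 := by
    have : (w - 1) * (w ^ 2 + w + 1) = 0 := by linear_combination hw3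
    rcases mul_eq_zero.1 this with h | h
    · exact absurd (sub_eq_zero.1 h) hne
    · exact h
  have hw0 : w ≠ 0 := by rintro rfl; norm_num at hw3
  have hconj : (starRingEnd ℂ) w = w ^ 2 := by
    have h1 : ‖w‖ = 1 := Complex.norm_eq_one_of_pow_eq_one hw3 (by norm_num)
    have h2 : w * (starRingEnd ℂ) w = 1 := by
      rw [Complex.mul_conj, Complex.normSq_eq_norm_sq, h1]; norm_num
    have h3 : w * ((starRingEnd ℂ) w - w ^ 2) = 0 := by linear_combination h2 - hw3
    rcases mul_eq_zero.1 h3 with h | h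
    · exact absurd h hw0
    · exact sub_eq_zero.1 h
  have h3 : 3 ∣ Fintype.card (ZMod p) - 1 := by
    rw [ZMod.card]
    have : ((3 : ℕ) : ℤ) ∣ ((p - 1 : ℕ) : ℤ) := by
      rw [Nat.cast_sub hp.one_le]
      exact ⟨Y ^ 2, by push_cast; linarith⟩
    exact_mod_cast this
  obtain ⟨χ, hχ⟩ := MulChar.exists_mulChar_orderOf (ZMod p) h3 hw
  have hχ3 : χ ^ 3 = 1 := by rw [← hχ]; exact pow_orderOf_eq_one χ
  have hχ1 : χ ≠ 1 := by rintro rfl; simp at hχ
  have hχ2 : χ * χ ≠ 1 := by
    intro h
    have : orderOf χ ∣ 2 := orderOf_dvd_of_pow_eq_one (by rw [pow_two]; exact h)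
    rw [hχ] at this
    omega
  -- `2` is a cube mod `p`
  have hfer0 : (2 : ZMod p) ^ (2 ^ m) = -1 := by
    have h : ((Nat.fermatNumber m : ℕ) : ZMod p) = 0 := (ZMod.natCast_eq_zero_iff _ _).2 hm
    rw [Nat.fermatNumber] at h
    push_cast at h
    exact eq_neg_of_add_eq_zero_left h
  have hfer : (2 : ZMod p) ^ (2 ^ (m + 1)) = 1 := by
    rw [pow_succ, pow_mul, hfer0]; norm_num
  have h2ne : (2 : ZMod p) ≠ 0 := by
    intro h
    rw [h, zero_pow (by positivity)] at hfer
    exact zero_ne_one hfer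
  have hchi2 : χ 2 = 1 := by
    have e1 : (χ 2) ^ (2 ^ (m + 1)) = 1 := by rw [← map_pow, hfer, map_one]
    have e2 : (χ 2) ^ 3 = 1 := by
      rw [← MulChar.pow_apply' _ (by norm_num), hχ3, MulChar.one_apply (isUnit_iff_ne_zero.2 h2ne)]
    have h1 := orderOf_dvd_of_pow_eq_one e1
    have h2 := orderOf_dvd_of_pow_eq_one e2
    have hcop : Nat.Coprime (2 ^ (m + 1)) 3 := Nat.Coprime.pow_left _ (by norm_num)
    exact orderOf_eq_one_iff.1 (Nat.eq_one_of_dvd_coprimes hcop h1 h2)
  -- values
  set f : ZMod p → ℂ := fun x => χ (x * (1 - x)) with hf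
  have hval : ∀ x, f x = 0 ∨ f x = 1 ∨ f x = w ∨ f x = w ^ 2 := by
    intro x
    by_cases hx : x * (1 - x) = 0
    · left; simp only [hf, hx]; exact MulChar.map_zero χ
    · obtain ⟨k, hk, hk'⟩ := MulChar.exists_apply_eq_pow hχ3 hw hx
      right
      simp only [hf, hk']
      interval_cases k
      · left; simp
      · right; left; simp
      · right; right; rfl
  have hww : w ≠ w ^ 2 := by
    intro h
    have : w * (w - 1) = 0 := by linear_combination -h
    rcases mul_eq_zero.1 this with h | h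
    · exact hw0 h
    · exact hne (sub_eq_zero.1 h)
  have hw21 : w ^ 2 ≠ 1 := by
    intro h
    apply hne
    calc w = w * w ^ 2 := by rw [h, mul_one]
      _ = w ^ 3 := by ring
      _ = 1 := hw3
  have hJ : jacobiSum χ χ = ∑ x, f x := by
    simp only [jacobiSum, hf, map_mul]
  have hsum : ∑ x, f x = ((Finset.univ.filter (fun x => f x = 1)).card : ℂ)
      + ((Finset.univ.filter (fun x => f x = w)).card : ℂ) * w
      + ((Finset.univ.filter (fun x => f x = w ^ 2)).card : ℂ) * w ^ 2 := by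
    have : ∀ x, f x = (if f x = 1 then 1 else 0) + (if f x = w then w else 0)
        + (if f x = w ^ 2 then w ^ 2 else 0) := by
      intro x
      rcases hval x with h | h | h | h
      · simp [h, Ne.symm hw0]
      · rw [h]; simp [Ne.symm hne, Ne.symm hw21]
      · rw [h]; simp [hne, hww]
      · rw [h]; simp [hw21, Ne.symm hww]
    rw [Finset.sum_congr rfl (fun x _ => this x), Finset.sum_add_distrib, Finset.sum_add_distrib]
    simp only [← Finset.sum_filter, Finset.sum_const, nsmul_eq_mul, mul_one]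
  -- parity
  have hfix : ∀ x : ZMod p, 1 - x = x → f x = 1 := by
    intro x hx
    have h2x : 2 * x = 1 := by linear_combination -hx
    have h4 : χ (2 * x) = 1 := by rw [h2x, map_one]
    rw [map_mul, hchi2, one_mul] at h4
    simp only [hf]
    rw [hx, map_mul, h4, one_mul]
  have hinv : ∀ x : ZMod p, f (1 - x) = f x := by
    intro x
    simp only [hf, sub_sub_cancel, mul_comm]
  obtain ⟨n1, hn1⟩ := even_card_filter (fun x : ZMod p => f x = w)
    (fun x hx => by rw [hinv]; exact hx)
    (fun x hx h => by rw [hfix x h] at hx; exact hne hx.symm)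
  obtain ⟨n2, hn2⟩ := even_card_filter (fun x : ZMod p => f x = w ^ 2)
    (fun x hx => by rw [hinv]; exact hx)
    (fun x hx h => by rw [hfix x h] at hx; exact hw21 hx.symm)
  -- the congruence mod 3
  obtain ⟨z, hz, hz'⟩ := exists_jacobiSum_eq_neg_one_add (by norm_num) hχ3 hχ3 h3 hw
  obtain ⟨c, d, rfl⟩ := adjoin_rep hw2 hz
  set N0 := (Finset.univ.filter (fun x => f x = 1)).card
  rw [hn1, hn2] at hsum
  have hJ1 : jacobiSum χ χ = ((N0 - 2 * n2 : ℤ) : ℂ) + ((2 * (n1 - n2) : ℤ) : ℂ) * w := by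
    rw [hJ, hsum]; push_cast; linear_combination (2 * n2 : ℂ) * hw2
  have hJ2 : jacobiSum χ χ = ((-1 + 3 * d : ℤ) : ℂ) + ((3 * (d - c) : ℤ) : ℂ) * w := by
    rw [hz']; push_cast
    linear_combination (c + d * (w - 3) : ℂ) * hw2
  obtain ⟨hA, hB⟩ := lin_indep hw (hJ1.symm.trans hJ2)
  -- the norm
  have hnorm : jacobiSum χ χ * (starRingEnd ℂ) (jacobiSum χ χ) = (p : ℂ) := by
    have h1 := jacobiSum_mul_jacobiSum_inv (F := ZMod p) (F' := ℂ) (by
      rw [ringChar.eq_zero, ZMod.ringChar_zmod_n]; exact hp.ne_zero.symm) hχ1 hχ1 hχ2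
    rw [ZMod.card] at h1
    rw [← h1, ← MulChar.star_eq_inv, ← jacobiSum_ringHomComp]
    rfl
  have hint : (N0 - 2 * n2 : ℤ) ^ 2 - (N0 - 2 * n2 : ℤ) * (2 * (n1 - n2) : ℤ)
      + (2 * (n1 - n2) : ℤ) ^ 2 = p := by
    have : (((N0 - 2 * n2 : ℤ) ^ 2 - (N0 - 2 * n2 : ℤ) * (2 * (n1 - n2) : ℤ)
      + (2 * (n1 - n2) : ℤ) ^ 2 : ℤ) : ℂ) = ((p : ℤ) : ℂ) := by
      rw [Int.cast_natCast, ← hnorm, hJ1, map_add, map_mul, hconj, map_intCast,
        map_intCast]
      generalize (N0 - 2 * n2 : ℤ) = A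
      generalize (2 * (n1 - n2) : ℤ) = B
      push_cast
      linear_combination (-(A * B) : ℂ) * hw2 + (-(B ^ 2) : ℂ) * hw3
    exact_mod_cast this
  have hrep : (p : ℤ) = ((N0 - 2 * n2 : ℤ) - (n1 - n2)) ^ 2 + 3 * (n1 - n2 : ℤ) ^ 2 := by
    rw [← hint]; ring
  have h3b : (3 : ℤ) ∣ n1 - n2 := by
    have : (3 : ℤ) ∣ 2 * (n1 - n2) := ⟨_, hB⟩
    omega
  exact hY (unique_rep (Nat.prime_iff_prime_int.1 hp) (by exact_mod_cast hp.pos) hpY hrep h3b)

/-- `k * 2 ^ 192 + 1` is prime for `k = 2716802498792075316461397636701496294623800404325676337723`. -/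
theorem prime_192 : Nat.Prime (2716802498792075316461397636701496294623800404325676337723 * 2 ^ 192 + 1) := by
  have hw : ((11 : ℕ) : ZMod 17053645679870606638634414221021197230185148150741982300618247377331345802739641714242179257105524684733045494775809) ^ 8526822839935303319317207110510598615092574075370991150309123688665672901369820857121089628552762342366522747387904 = -1 := by
    have h0 : ((11 : ℕ) : ZMod 17053645679870606638634414221021197230185148150741982300618247377331345802739641714242179257105524684733045494775809) = 11 := by norm_num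
    rw [h0]
    reduce_mod_char
  have hE : (8526822839935303319317207110510598615092574075370991150309123688665672901369820857121089628552762342366522747387904 : ℕ) = 2716802498792075316461397636701496294623800404325676337723 * 2 ^ 191 := by norm_num
  have hN : (17053645679870606638634414221021197230185148150741982300618247377331345802739641714242179257105524684733045494775809 : ℕ) = 2716802498792075316461397636701496294623800404325676337723 * 2 ^ (191 + 1) + 1 := by
    norm_num
  rw [hE] at hw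
  have := proth (k := 2716802498792075316461397636701496294623800404325676337723) (n := 191) (a := 11) hN (by norm_num) (by norm_num) hw
  rw [hN] at this
  exact this

/-- The covering of the odd exponents. -/
theorem covering (n : ℕ) (hn : Odd n) :
    ∃ q ∈ [5, 7, 11, 31, 73, 241, 151, 61681, 97, 673, 1321, 433, 38737],
      q ∣ 2716802498792075316461397636701496294623800404325676337723 * 2 ^ n + 1 := by
  have h1 : ∀ r < 720, r % 2 = 1 →
      ∃ q ∈ [5, 7, 11, 31, 73, 241, 151, 61681, 97, 673, 1321, 433, 38737],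
      (2716802498792075316461397636701496294623800404325676337723 * 2 ^ r + 1) % q = 0 := by
    decide +kernel
  have h2 : ∀ q ∈ [5, 7, 11, 31, 73, 241, 151, 61681, 97, 673, 1321, 433, 38737],
      2 ^ 720 % q = 1 % q := by
    decide +kernel
  have hr : n % 720 % 2 = 1 := by
    have := Nat.odd_iff.1 hn
    omega
  obtain ⟨q, hq, hq'⟩ := h1 (n % 720) (Nat.mod_lt _ (by norm_num)) hr
  refine ⟨q, hq, ?_⟩
  have h3 : (2 : ℕ) ^ n ≡ 2 ^ (n % 720) [MOD q] := by
    conv_lhs => rw [← Nat.div_add_mod n 720, pow_add, pow_mul]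
    have h4 : (2 : ℕ) ^ 720 ≡ 1 [MOD q] := h2 q hq
    simpa only [one_pow, one_mul] using (h4.pow (n / 720)).mul_right (2 ^ (n % 720))
  have h5 : 2716802498792075316461397636701496294623800404325676337723 * 2 ^ n + 1 ≡
      2716802498792075316461397636701496294623800404325676337723 * 2 ^ (n % 720) + 1 [MOD q] :=
    (h3.mul_left _).add_right 1
  have h6 : (2716802498792075316461397636701496294623800404325676337723 * 2 ^ n + 1) % q =
      (2716802498792075316461397636701496294623800404325676337723 * 2 ^ (n % 720) + 1) % q := h5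
  exact Nat.dvd_of_mod_eq_zero (h6.trans hq')

/-- No prime of the form `k * 2 ^ n + 1` divides a Fermat number. -/
theorem no_divisor (n m : ℕ)
    (hp : Nat.Prime (2716802498792075316461397636701496294623800404325676337723 * 2 ^ n + 1))
    (hd : (2716802498792075316461397636701496294623800404325676337723 * 2 ^ n + 1) ∣ Nat.fermatNumber m) : False := by
  rcases Nat.even_or_odd n with he | ho
  · obtain ⟨t, ht⟩ := he
    have hY : (((2716802498792075316461397636701496294623800404325676337723 * 2 ^ n + 1 : ℕ)) : ℤ)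
        = 1 + 3 * (30093202437272969173339374829 * 2 ^ t : ℤ) ^ 2 := by
      rw [ht]; push_cast; ring
    refine cubic hp hY ?_ m hd
    intro h3
    have hp3 : Prime (3 : ℤ) := Int.prime_three
    rcases hp3.dvd_or_dvd h3 with h | h
    · norm_num at h
    · have := hp3.dvd_of_dvd_pow h
      norm_num at this
  · obtain ⟨q, hq, hqd⟩ := covering n ho
    have h12 : ∀ q ∈ [5, 7, 11, 31, 73, 241, 151, 61681, 97, 673, 1321, 433, 38737],
        q ≠ 1 ∧ q ≤ 61681 := by
      decide
    have h1 : q ≠ 1 := (h12 q hq).1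
    have h2 : q ≤ 61681 := (h12 q hq).2
    have h3 : q = 2716802498792075316461397636701496294623800404325676337723 * 2 ^ n + 1 :=
      ((Nat.dvd_prime hp).1 hqd).resolve_left h1
    have h4 : 0 < 2 ^ n := by positivity
    omega

/-- The negation of the preceding statement: For every odd k ≥ 3 such that k·2^n+1 is prime for some n, there are infinitely many m for which the Fermat number 2^(2^m)+1 is divisible by some prime of the form k·2^n+1. -/
theorem result :
    ¬ (∀ k : ℕ, Odd k → 3 ≤ k → (∃ n : ℕ, Nat.Prime (k * 2 ^ n + 1)) →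
      Set.Infinite {m : ℕ | ∃ n : ℕ, Nat.Prime (k * 2 ^ n + 1) ∧
        (k * 2 ^ n + 1) ∣ Nat.fermatNumber m}) := by
  intro h
  have h1 := h 2716802498792075316461397636701496294623800404325676337723 (by decide +kernel)
    (by norm_num) ⟨192, prime_192⟩
  obtain ⟨m, n, hp, hd⟩ := h1.nonempty
  exact no_divisor n m hp hd

end Pool.Agent.S17434
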