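-- Proof of the negation of the Erdős–Szemerédi question on blocks of three consecutive terms.
import Pool.Statements.S17576

set_option autoImplicit false
open Pool Pool.MP_7fe555_nt

namespace Pool.Agent.S17576

/-- For `a < b < c` one has `a b c ≤ lcm(a,b,c) (b-a)(c-b)(c-a)`. -/
theorem lcm_bound {a b c : ℕ} (ha : 0 < a) (hab : a < b) (hbc : b < c) :
    a * b * c ≤ Nat.lcm (Nat.lcm a b) c * ((b - a) * (c - b) * (c - a)) := by
  have h1 : Nat.gcd a b * Nat.lcm a b = a * b := Nat.gcd_mul_lcm a b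
  have h2 : Nat.gcd (Nat.lcm a b) c * Nat.lcm (Nat.lcm a b) c = Nat.lcm a b * c :=
    Nat.gcd_mul_lcm _ _
  have h3 : Nat.gcd (Nat.lcm a b) c ∣ Nat.gcd c a * Nat.gcd c b := by
    have h : Nat.gcd c (Nat.lcm a b) ∣ Nat.gcd c (a * b) :=
      Nat.gcd_dvd_gcd_of_dvd_right _ (Nat.lcm_dvd_mul a b)
    rw [Nat.gcd_comm]
    exact h.trans (Nat.gcd_mul_right_dvd_mul_gcd c a b)
  have hg1 : Nat.gcd a b ≤ b - a :=
    Nat.le_of_dvd (by omega) (Nat.dvd_sub (Nat.gcd_dvd_right a b) (Nat.gcd_dvd_left a b))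
  have hg2 : Nat.gcd c a ≤ c - a :=
    Nat.le_of_dvd (by omega) (Nat.dvd_sub (Nat.gcd_dvd_left c a) (Nat.gcd_dvd_right c a))
  have hg3 : Nat.gcd c b ≤ c - b :=
    Nat.le_of_dvd (by omega) (Nat.dvd_sub (Nat.gcd_dvd_left c b) (Nat.gcd_dvd_right c b))
  have hpos : 0 < Nat.gcd c a * Nat.gcd c b :=
    Nat.mul_pos (Nat.gcd_pos_of_pos_left _ (by omega)) (Nat.gcd_pos_of_pos_left _ (by omega))
  have h4 : Nat.gcd (Nat.lcm a b) c ≤ (c - a) * (c - b) :=
    (Nat.le_of_dvd hpos h3).trans (Nat.mul_le_mul hg2 hg3)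
  calc a * b * c = Nat.gcd a b * (Nat.lcm a b * c) := by rw [← h1]; ring
    _ = Nat.gcd a b * (Nat.gcd (Nat.lcm a b) c * Nat.lcm (Nat.lcm a b) c) := by rw [h2]
    _ ≤ (b - a) * (((c - a) * (c - b)) * Nat.lcm (Nat.lcm a b) c) :=
        Nat.mul_le_mul hg1 (Nat.mul_le_mul h4 le_rfl)
    _ = _ := by ring

/-- The key pointwise inequality `c ^ 3 ≤ lcm(a,b,c) (8 (c-a)) ^ 3`. -/
theorem cube_bound {a b c : ℕ} (ha : 0 < a) (hab : a < b) (hbc : b < c) :
    c ^ 3 ≤ Nat.lcm (Nat.lcm a b) c * (8 * (c - a)) ^ 3 := by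
  have hL : c ≤ Nat.lcm (Nat.lcm a b) c :=
    Nat.le_of_dvd (Nat.lcm_pos (Nat.lcm_pos ha (by omega)) (by omega)) (Nat.dvd_lcm_right _ _)
  rcases Nat.lt_or_ge (8 * a) c with h | h
  · have h1 : c ≤ 8 * (c - a) := by omega
    have h2 : 1 ≤ Nat.lcm (Nat.lcm a b) c := by omega
    calc c ^ 3 ≤ (8 * (c - a)) ^ 3 := Nat.pow_le_pow_left h1 3
      _ = 1 * (8 * (c - a)) ^ 3 := by ring
      _ ≤ _ := Nat.mul_le_mul h2 le_rfl
  · have h1 := lcm_bound ha hab hbc
    have h2 : (b - a) * (c - b) * (c - a) ≤ (c - a) * (c - a) * (c - a) :=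
      Nat.mul_le_mul (Nat.mul_le_mul (by omega) (by omega)) le_rfl
    have h3 : c * c * c ≤ (8 * a) * (8 * b) * c :=
      Nat.mul_le_mul (Nat.mul_le_mul h (by omega)) le_rfl
    calc c ^ 3 = c * c * c := by ring
      _ ≤ (8 * a) * (8 * b) * c := h3
      _ = 64 * (a * b * c) := by ring
      _ ≤ 512 * (Nat.lcm (Nat.lcm a b) c * ((b - a) * (c - b) * (c - a))) :=
          Nat.mul_le_mul (by norm_num) h1
      _ ≤ 512 * (Nat.lcm (Nat.lcm a b) c * ((c - a) * (c - a) * (c - a))) :=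
          Nat.mul_le_mul le_rfl (Nat.mul_le_mul le_rfl h2)
      _ = _ := by ring

/-- If `lcm(a,b,c) < 8 ^ k` then `2 ^ (-k) ≤ 8 log (c / a)`. -/
theorem half_pow_le {a b c k : ℕ} (ha : 0 < a) (hab : a < b) (hbc : b < c)
    (hk : Nat.lcm (Nat.lcm a b) c < 8 ^ k) :
    ((1 : ℝ) / 2) ^ k ≤ 8 * (Real.log c - Real.log a) := by
  have hcpos : (0 : ℝ) < c := by exact_mod_cast (by omega : 0 < c)
  have hapos : (0 : ℝ) < a := by exact_mod_cast ha
  have hacR : (a : ℝ) ≤ c := by exact_mod_cast (by omega : a ≤ c)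
  have h1 : (c : ℝ) ^ 3 ≤ 8 ^ k * (8 * ((c : ℝ) - a)) ^ 3 := by
    have h := (cube_bound ha hab hbc).trans (Nat.mul_le_mul hk.le le_rfl)
    have h' : ((c ^ 3 : ℕ) : ℝ) ≤ ((8 ^ k * (8 * (c - a)) ^ 3 : ℕ) : ℝ) := by exact_mod_cast h
    push_cast [Nat.cast_sub (by omega : a ≤ c)] at h'
    exact h'
  have h2 : ((1 : ℝ) / 2) ^ k * c ≤ 8 * ((c : ℝ) - a) := by
    by_contra hcon
    push Not at hcon
    have hnn : (0 : ℝ) ≤ 8 * ((c : ℝ) - a) := by linarith
    have h3 : (8 * ((c : ℝ) - a)) ^ 3 < (((1 : ℝ) / 2) ^ k * c) ^ 3 :=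
      pow_lt_pow_left₀ hcon hnn (by norm_num)
    have h4 : (8 : ℝ) ^ k * (((1 : ℝ) / 2) ^ k * c) ^ 3 = (c : ℝ) ^ 3 := by
      have : (8 : ℝ) ^ k * (((1 : ℝ) / 2) ^ k) ^ 3 = 1 := by
        rw [← pow_mul, mul_comm k 3, pow_mul, ← mul_pow]
        norm_num
      calc (8 : ℝ) ^ k * (((1 : ℝ) / 2) ^ k * c) ^ 3
          = ((8 : ℝ) ^ k * (((1 : ℝ) / 2) ^ k) ^ 3) * (c : ℝ) ^ 3 := by ring
        _ = _ := by rw [this, one_mul]
    have h5 : (8 : ℝ) ^ k * (8 * ((c : ℝ) - a)) ^ 3 < 8 ^ k * (((1 : ℝ) / 2) ^ k * c) ^ 3 :=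
      mul_lt_mul_of_pos_left h3 (by positivity)
    linarith
  have h6 : 1 - (a : ℝ) / c ≤ Real.log c - Real.log a := by
    have h := Real.log_le_sub_one_of_pos (show (0 : ℝ) < (a : ℝ) / c by positivity)
    rw [Real.log_div hapos.ne' hcpos.ne'] at h
    linarith
  have h7 : ((1 : ℝ) / 2) ^ k ≤ 8 * (1 - (a : ℝ) / c) := by
    have h8 : 8 * (1 - (a : ℝ) / c) = (8 * ((c : ℝ) - a)) / c := by
      field_simp
    rw [h8, le_div_iff₀ hcpos]
    exact h2
  linarith

/-- Geometric tail. -/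
theorem geom_tail (k₀ n : ℕ) :
    ∑ k ∈ Finset.Ico k₀ n, ((1 : ℝ) / 2) ^ k ≤ 2 * ((1 : ℝ) / 2) ^ k₀ := by
  rcases Nat.lt_or_ge n k₀ with h | h
  · rw [Finset.Ico_eq_empty_of_le h.le]
    simp
  · induction n, h using Nat.le_induction with
    | base => simp
    | succ n hn ih =>
      have key : ∀ n, k₀ ≤ n → ∑ k ∈ Finset.Ico k₀ n, ((1 : ℝ) / 2) ^ k
          = 2 * ((1 : ℝ) / 2) ^ k₀ - 2 * ((1 : ℝ) / 2) ^ n := by
        intro n hn
        induction n, hn using Nat.le_induction with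
        | base => simp
        | succ n hn ih =>
          rw [Finset.sum_Ico_succ_top hn, ih]
          ring
      rw [key _ (by omega)]
      have : (0 : ℝ) < ((1 : ℝ) / 2) ^ (n + 1) := by positivity
      linarith

theorem result :
    ¬ (∃ a : ℕ → ℕ, StrictMono a ∧ (∀ n, 0 < a n) ∧
      ∃ c : ℝ, 0 < c ∧ ∃ X : ℝ, ∀ x : ℝ, X ≤ x →
        c * x ^ ((1 : ℝ) / 3) * Real.log x <
          (({i : ℕ | ((Nat.lcm (Nat.lcm (a (i + 1)) (a (i + 2))) (a (i + 3)) : ℕ) : ℝ) < x}.ncard : ℕ) : ℝ)) := by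
  rintro ⟨a, hmono, hpos, c, hc, X, hX⟩
  -- choose a large scale `m`
  obtain ⟨m, hm1, hm2⟩ : ∃ m : ℕ, X ≤ m ∧ 64 / c + 1 ≤ m := by
    obtain ⟨m, hm⟩ := exists_nat_ge (max X (64 / c + 1))
    exact ⟨m, (le_max_left _ _).trans hm, (le_max_right _ _).trans hm⟩
  have hmpos : (1 : ℝ) ≤ m := by
    have : 0 < 64 / c := by positivity
    linarith
  have hm0 : 1 ≤ m := by exact_mod_cast hmpos
  set L : ℕ → ℕ := fun i => Nat.lcm (Nat.lcm (a (i + 1)) (a (i + 2))) (a (i + 3)) with hL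
  set T : ℕ := 8 ^ (2 * m) with hT
  have hTpos : 0 < T := by positivity
  -- the terms are bounded by the lcm
  have hLa : ∀ i, a (i + 3) ≤ L i := fun i =>
    Nat.le_of_dvd (Nat.lcm_pos (Nat.lcm_pos (hpos _) (hpos _)) (hpos _)) (Nat.dvd_lcm_right _ _)
  have hai : ∀ i, i ≤ a i := fun i => hmono.le_apply
  have hLi : ∀ i, i < L i := fun i => by
    have h1 := hLa i
    have h2 := hai (i + 3)
    omega
  -- counting function at the points `8 ^ k`
  have hcount : ∀ k : ℕ, k ≤ 2 * m →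
      (({i : ℕ | ((L i : ℕ) : ℝ) < ((8 ^ k : ℕ) : ℝ)}.ncard : ℕ) : ℝ)
        = ∑ i ∈ Finset.range T, if L i < 8 ^ k then (1 : ℝ) else 0 := by
    intro k hk
    have hset : {i : ℕ | ((L i : ℕ) : ℝ) < ((8 ^ k : ℕ) : ℝ)}
        = ↑((Finset.range T).filter (fun i => L i < 8 ^ k)) := by
      ext i
      simp only [Set.mem_ofPred_eq, Finset.coe_filter, Finset.mem_range]
      constructor
      · intro h
        have h' : L i < 8 ^ k := by exact_mod_cast h
        have h'' : 8 ^ k ≤ T := Nat.pow_le_pow_right (by norm_num) hk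
        exact ⟨lt_of_lt_of_le ((hLi i).trans h') h'', h'⟩
      · rintro ⟨-, h⟩
        exact_mod_cast h
    rw [hset, Set.ncard_coe_finset]
    simp
  -- lower bound
  have hlower : ∀ k ∈ Finset.Ico m (2 * m), 3 * c * Real.log 2 * m ≤
      ((1 : ℝ) / 2) ^ k * ∑ i ∈ Finset.range T, if L i < 8 ^ k then (1 : ℝ) else 0 := by
    intro k hk
    rw [Finset.mem_Ico] at hk
    rw [← hcount k hk.2.le]
    have hkm : (m : ℝ) ≤ k := by exact_mod_cast hk.1
    have hXk : X ≤ ((8 ^ k : ℕ) : ℝ) := by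
      have h1 : k < 8 ^ k := Nat.lt_pow_self (by norm_num)
      have h2 : (k : ℝ) ≤ ((8 ^ k : ℕ) : ℝ) := by exact_mod_cast h1.le
      linarith
    have h := hX _ hXk
    have hcube : (((8 ^ k : ℕ) : ℝ)) ^ ((1 : ℝ) / 3) = 2 ^ k := by
      have h8 : (((8 ^ k : ℕ) : ℝ)) = ((2 : ℝ) ^ k) ^ (3 : ℕ) := by
        push_cast
        rw [← pow_mul, mul_comm k 3, pow_mul]
        norm_num
      rw [h8, ← Real.rpow_natCast, ← Real.rpow_mul (by positivity)]
      norm_num
    have hlog : Real.log (((8 ^ k : ℕ) : ℝ)) = 3 * Real.log 2 * k := by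
      push_cast
      rw [Real.log_pow, show (8 : ℝ) = 2 ^ 3 by norm_num, Real.log_pow]
      push_cast
      ring
    rw [hcube, hlog] at h
    have hlog2 : 0 < Real.log 2 := Real.log_pos (by norm_num)
    have hhalf : ((1 : ℝ) / 2) ^ k * 2 ^ k = 1 := by
      rw [← mul_pow]
      norm_num
    calc 3 * c * Real.log 2 * m ≤ 3 * c * Real.log 2 * k := by
          apply mul_le_mul_of_nonneg_left hkm (by positivity)
      _ = ((1 : ℝ) / 2) ^ k * (c * 2 ^ k * (3 * Real.log 2 * k)) := by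
          calc 3 * c * Real.log 2 * k = (((1 : ℝ) / 2) ^ k * 2 ^ k) * (3 * c * Real.log 2 * k) := by
                rw [hhalf, one_mul]
            _ = _ := by ring
      _ ≤ _ := mul_le_mul_of_nonneg_left h.le (by positivity)
  -- truncated logarithms
  set φ : ℕ → ℝ := fun n => Real.log ((min (a n) T : ℕ) : ℝ) with hφ
  have hφnn : ∀ n, 0 ≤ φ n := fun n => by
    apply Real.log_nonneg
    exact_mod_cast (le_min (hpos n) hTpos : 1 ≤ min (a n) T)
  have hφmono : ∀ n, φ n ≤ φ (n + 1) := fun n => by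
    apply Real.log_le_log
    · exact_mod_cast (lt_min (hpos n) hTpos : 0 < min (a n) T)
    · exact_mod_cast min_le_min_right T (hmono.monotone (Nat.le_succ n))
  have hφle : ∀ n, φ n ≤ Real.log T := fun n => by
    apply Real.log_le_log
    · exact_mod_cast (lt_min (hpos n) hTpos : 0 < min (a n) T)
    · exact_mod_cast min_le_right _ _
  -- pointwise upper bound
  have hupper : ∀ i ∈ Finset.range T,
      ∑ k ∈ Finset.Ico m (2 * m), ((1 : ℝ) / 2) ^ k * (if L i < 8 ^ k then (1 : ℝ) else 0)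
        ≤ 16 * (φ (i + 3) - φ (i + 1)) := by
    intro i _
    have hnn : 0 ≤ φ (i + 3) - φ (i + 1) := by
      have h1 := hφmono (i + 1)
      have h2 := hφmono (i + 2)
      simp only [Nat.add_assoc] at h1 h2
      norm_num at h1 h2
      linarith
    by_cases hi : L i < T
    · -- least `k₀` with `L i < 8 ^ k₀`
      have hex : ∃ k, L i < 8 ^ k := ⟨2 * m, hi⟩
      classical
      have hk₀ := Nat.find_spec hex
      have hmin : ∀ k, L i < 8 ^ k → Nat.find hex ≤ k := fun k hk => Nat.find_min' hex hk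
      set k₀ := Nat.find hex with hk₀def
      have h1 : ∑ k ∈ Finset.Ico m (2 * m),
          ((1 : ℝ) / 2) ^ k * (if L i < 8 ^ k then (1 : ℝ) else 0)
          ≤ ∑ k ∈ Finset.Ico k₀ (2 * m), ((1 : ℝ) / 2) ^ k := by
        calc ∑ k ∈ Finset.Ico m (2 * m), ((1 : ℝ) / 2) ^ k * (if L i < 8 ^ k then (1 : ℝ) else 0)
            = ∑ k ∈ (Finset.Ico m (2 * m)).filter (fun k => L i < 8 ^ k), ((1 : ℝ) / 2) ^ k := by
              rw [Finset.sum_filter]
              apply Finset.sum_congr rfl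
              intro k _
              split_ifs <;> simp
          _ ≤ _ := by
              apply Finset.sum_le_sum_of_subset_of_nonneg
              · intro k hk
                rw [Finset.mem_filter, Finset.mem_Ico] at hk
                rw [Finset.mem_Ico]
                exact ⟨hmin k hk.2, hk.1.2⟩
              · intro k _ _
                positivity
      have h2 := geom_tail k₀ (2 * m)
      have h3 := half_pow_le (hpos (i + 1)) (hmono (Nat.lt_succ_self (i + 1)))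
        (hmono (Nat.lt_succ_self (i + 2))) hk₀
      have hT3 : a (i + 3) ≤ T := (hLa i).trans hi.le
      have hT1 : a (i + 1) ≤ T := (hmono.monotone (by omega : i + 1 ≤ i + 3)).trans hT3
      have h4 : φ (i + 3) = Real.log (a (i + 3)) := by
        simp only [hφ]
        rw [min_eq_left hT3]
      have h5 : φ (i + 1) = Real.log (a (i + 1)) := by
        simp only [hφ]
        rw [min_eq_left hT1]
      rw [h4, h5]
      have h3' : ((1 : ℝ) / 2) ^ k₀ ≤ 8 * (Real.log (a (i + 3)) - Real.log (a (i + 1))) := h3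
      linarith
    · have hz : ∑ k ∈ Finset.Ico m (2 * m),
          ((1 : ℝ) / 2) ^ k * (if L i < 8 ^ k then (1 : ℝ) else 0) = 0 := by
        apply Finset.sum_eq_zero
        intro k hk
        rw [Finset.mem_Ico] at hk
        have h' : ¬ L i < 8 ^ k := by
          intro h
          exact hi (h.trans_le (Nat.pow_le_pow_right (by norm_num) hk.2.le))
        simp [h']
      rw [hz]
      linarith
  -- telescoping
  have htel : ∀ n : ℕ, ∑ i ∈ Finset.range n, (φ (i + 3) - φ (i + 1))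
      = φ (n + 2) + φ (n + 1) - φ 2 - φ 1 := by
    intro n
    induction n with
    | zero => simp
    | succ n ih =>
      rw [Finset.sum_range_succ, ih]
      ring
  have hsum1 : ∑ k ∈ Finset.Ico m (2 * m), (3 * c * Real.log 2 * m)
      ≤ ∑ k ∈ Finset.Ico m (2 * m),
        ((1 : ℝ) / 2) ^ k * ∑ i ∈ Finset.range T, if L i < 8 ^ k then (1 : ℝ) else 0 :=
    Finset.sum_le_sum hlower
  have hsum2 : ∑ k ∈ Finset.Ico m (2 * m),
        ((1 : ℝ) / 2) ^ k * ∑ i ∈ Finset.range T, (if L i < 8 ^ k then (1 : ℝ) else 0)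
      = ∑ i ∈ Finset.range T, ∑ k ∈ Finset.Ico m (2 * m),
        ((1 : ℝ) / 2) ^ k * (if L i < 8 ^ k then (1 : ℝ) else 0) := by
    rw [Finset.sum_comm]
    apply Finset.sum_congr rfl
    intro k _
    rw [Finset.mul_sum]
  have hsum3 : ∑ i ∈ Finset.range T, ∑ k ∈ Finset.Ico m (2 * m),
        ((1 : ℝ) / 2) ^ k * (if L i < 8 ^ k then (1 : ℝ) else 0)
      ≤ ∑ i ∈ Finset.range T, 16 * (φ (i + 3) - φ (i + 1)) :=
    Finset.sum_le_sum hupper
  rw [← Finset.mul_sum, htel] at hsum3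
  have hconst : ∑ k ∈ Finset.Ico m (2 * m), (3 * c * Real.log 2 * m)
      = m * (3 * c * Real.log 2 * m) := by
    rw [Finset.sum_const, Nat.card_Ico, nsmul_eq_mul]
    congr 2
    omega
  have hlogT : Real.log T = 6 * Real.log 2 * m := by
    rw [hT]
    push_cast
    rw [Real.log_pow, show (8 : ℝ) = 2 ^ 3 by norm_num, Real.log_pow]
    push_cast
    ring
  have hlog2 : 0 < Real.log 2 := Real.log_pos (by norm_num)
  have hfin : (m : ℝ) * (3 * c * Real.log 2 * m) ≤ 16 * (2 * (6 * Real.log 2 * m)) := by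
    have h1 := hφle (T + 2)
    have h2 := hφle (T + 1)
    have h3 := hφnn 2
    have h4 := hφnn 1
    rw [hlogT] at h1 h2
    rw [← hconst]
    refine hsum1.trans ?_
    rw [hsum2]
    refine hsum3.trans ?_
    linarith
  have hfin2 : c * m ≤ 64 := by
    have h1 : (3 * Real.log 2 * m) * (c * m) ≤ (3 * Real.log 2 * m) * 64 := by
      calc (3 * Real.log 2 * m) * (c * m) = (m : ℝ) * (3 * c * Real.log 2 * m) := by ring
        _ ≤ 16 * (2 * (6 * Real.log 2 * m)) := hfin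
        _ = _ := by ring
    exact le_of_mul_le_mul_left h1 (by positivity)
  have h64 : 64 < c * m := by
    have h1 : c * (64 / c + 1) ≤ c * m := mul_le_mul_of_nonneg_left hm2 hc.le
    have h2 : c * (64 / c + 1) = 64 + c := by
      field_simp
    linarith
  linarith

end Pool.Agent.S17576
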