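import Pool.Statements.S18402
-- import your own Pool.Agent.* helpers here

set_option autoImplicit false
open Pool Pool.MP_c34ff3_nt

namespace Pool.Agent.S18402

/-- The sixteen vectors of the extremal configuration in `ℤ⁴`, followed by one extra vector. -/
def T (M : ℤ) : ℕ → Fin 4 → ℤ
  | 0 => ![0, 0, 0, 0]
  | 1 => ![0, 0, 1, 0]
  | 2 => ![2, 0, 4, -1]
  | 3 => ![0, 2, 1, 1]
  | 4 => ![1, 0, 0, 0]
  | 5 => ![1, 0, 3, -1]
  | 6 => ![1, 0, 1, 0]
  | 7 => ![1, 0, 4, -1]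
  | 8 => ![0, 1, 0, 0]
  | 9 => ![0, 1, 1, 0]
  | 10 => ![0, 1, 0, 1]
  | 11 => ![0, 1, 1, 1]
  | 12 => ![1, 1, 2, 0]
  | 13 => ![1, 1, 3, 0]
  | 14 => ![1, 1, 2, 1]
  | 15 => ![1, 1, 3, 1]
  | _ => ![0, 0, 0, M]

theorem lb (M k L : ℤ) (hM : 1 ≤ M) (h : 3 * M * L ≤ 3 * M * k) : L ≤ k := by
  by_contra hc
  push Not at hc
  nlinarith

theorem ub (M k L : ℤ) (hM : 1 ≤ M) (h : 3 * M * k ≤ 3 * M * L) : k ≤ L := by
  by_contra hc
  push Not at hc
  nlinarith

/-- The arithmetic core: no nonnegative weights, each below `3 * M` on the sixteen vectors and at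
most `1` on the extra vector, of total `3 * M`, give the zero vector modulo `3 * M`. -/
theorem core (M a0 a1 b c d0 d1 d2 d3 e0 e1 e2 e3 f0 f1 f2 f3 y k1 k2 k3 k4 : ℤ)
    (hM : 1 ≤ M)
    (ha0 : 0 ≤ a0) (ha0' : a0 < 3 * M) (ha1 : 0 ≤ a1) (ha1' : a1 < 3 * M)
    (hb : 0 ≤ b) (hb' : b < 3 * M) (hc : 0 ≤ c) (hc' : c < 3 * M)
    (hd0 : 0 ≤ d0) (hd0' : d0 < 3 * M) (hd1 : 0 ≤ d1) (hd1' : d1 < 3 * M)
    (hd2 : 0 ≤ d2) (hd2' : d2 < 3 * M) (hd3 : 0 ≤ d3) (hd3' : d3 < 3 * M)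
    (he0 : 0 ≤ e0) (he0' : e0 < 3 * M) (he1 : 0 ≤ e1) (he1' : e1 < 3 * M)
    (he2 : 0 ≤ e2) (he2' : e2 < 3 * M) (he3 : 0 ≤ e3) (he3' : e3 < 3 * M)
    (hf0 : 0 ≤ f0) (hf0' : f0 < 3 * M) (hf1 : 0 ≤ f1) (hf1' : f1 < 3 * M)
    (hf2 : 0 ≤ f2) (hf2' : f2 < 3 * M) (hf3 : 0 ≤ f3) (hf3' : f3 < 3 * M)
    (hy : 0 ≤ y) (hy' : y ≤ 1)
    (htot : a0 + a1 + b + c + d0 + d1 + d2 + d3 + e0 + e1 + e2 + e3 + f0 + f1 + f2 + f3 + y
      = 3 * M)
    (h1 : 2 * b + (d0 + d1 + d2 + d3) + (f0 + f1 + f2 + f3) = 3 * M * k1)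
    (h2 : 2 * c + (e0 + e1 + e2 + e3) + (f0 + f1 + f2 + f3) = 3 * M * k2)
    (h3 : a1 + 4 * b + c + 3 * d1 + d2 + 4 * d3 + e1 + e3 + 2 * f0 + 3 * f1 + 2 * f2 + 3 * f3
      = 3 * M * k3)
    (h4 : - b + c - d1 - d3 + e2 + e3 + f2 + f3 + M * y = 3 * M * k4) : False := by
  have hk1 : 0 ≤ k1 := lb M k1 0 hM (by linarith)
  have hk1' : k1 ≤ 2 := ub M k1 2 hM (by linarith)
  have hk2 : 0 ≤ k2 := lb M k2 0 hM (by linarith)
  have hk2' : k2 ≤ 2 := ub M k2 2 hM (by linarith)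
  have hy2 : y = 0 ∨ y = 1 := by omega
  have hMy : 0 ≤ M * y ∧ M * y ≤ M := by
    rcases hy2 with rfl | rfl <;> constructor <;> linarith
  obtain ⟨hMy0, hMy1⟩ := hMy
  have hk3 : 0 ≤ k3 := lb M k3 0 hM (by linarith)
  have hk3' : k3 ≤ 4 := ub M k3 4 hM (by linarith)
  have hk4 : -1 ≤ k4 := lb M k4 (-1) hM (by linarith)
  have hk4' : k4 ≤ 1 := by
    have : k4 < 2 := by
      by_contra h
      have h2 : 3 * M * 2 ≤ 3 * M * k4 := by
        apply mul_le_mul_of_nonneg_left (by linarith) (by linarith)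
      linarith
    linarith
  have hk12 : (k1 = 0 ∧ k2 = 0) ∨ (k1 = 1 ∧ k2 = 0) ∨ (k1 = 0 ∧ k2 = 1) ∨ (k1 = 1 ∧ k2 = 1) := by
    interval_cases k1 <;> interval_cases k2 <;> simp <;> linarith
  rcases hk12 with ⟨rfl, rfl⟩ | ⟨rfl, rfl⟩ | ⟨rfl, rfl⟩ | ⟨rfl, rfl⟩
  · -- everything sits in the fibre over (0,0)
    obtain rfl : b = 0 := by linarith
    obtain rfl : c = 0 := by linarith
    obtain rfl : d0 = 0 := by linarith
    obtain rfl : d1 = 0 := by linarith
    obtain rfl : d2 = 0 := by linarith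
    obtain rfl : d3 = 0 := by linarith
    obtain rfl : e0 = 0 := by linarith
    obtain rfl : e1 = 0 := by linarith
    obtain rfl : e2 = 0 := by linarith
    obtain rfl : e3 = 0 := by linarith
    obtain rfl : f0 = 0 := by linarith
    obtain rfl : f1 = 0 := by linarith
    obtain rfl : f2 = 0 := by linarith
    obtain rfl : f3 = 0 := by linarith
    rcases hy2 with rfl | rfl
    · interval_cases k3 <;> omega
    · interval_cases k4 <;> omega
  · -- everything sits in the fibres over (0,0), (1,0), (2,0)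
    obtain rfl : c = 0 := by linarith
    obtain rfl : e0 = 0 := by linarith
    obtain rfl : e1 = 0 := by linarith
    obtain rfl : e2 = 0 := by linarith
    obtain rfl : e3 = 0 := by linarith
    obtain rfl : f0 = 0 := by linarith
    obtain rfl : f1 = 0 := by linarith
    obtain rfl : f2 = 0 := by linarith
    obtain rfl : f3 = 0 := by linarith
    rcases hy2 with rfl | rfl
    · interval_cases k4 <;> interval_cases k3 <;> omega
    · interval_cases k4 <;> interval_cases k3 <;> omega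
  · obtain rfl : b = 0 := by linarith
    obtain rfl : d0 = 0 := by linarith
    obtain rfl : d1 = 0 := by linarith
    obtain rfl : d2 = 0 := by linarith
    obtain rfl : d3 = 0 := by linarith
    obtain rfl : f0 = 0 := by linarith
    obtain rfl : f1 = 0 := by linarith
    obtain rfl : f2 = 0 := by linarith
    obtain rfl : f3 = 0 := by linarith
    rcases hy2 with rfl | rfl
    · interval_cases k4 <;> interval_cases k3 <;> omega
    · interval_cases k4 <;> interval_cases k3 <;> omega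
  · obtain rfl : a0 = 0 := by linarith
    obtain rfl : a1 = 0 := by linarith
    obtain rfl : y = 0 := by linarith
    obtain rfl : d0 = 0 := by linarith
    obtain rfl : d1 = 0 := by linarith
    obtain rfl : d2 = 0 := by linarith
    obtain rfl : d3 = 0 := by linarith
    obtain rfl : e0 = 0 := by linarith
    obtain rfl : e1 = 0 := by linarith
    obtain rfl : e2 = 0 := by linarith
    obtain rfl : e3 = 0 := by linarith
    interval_cases k4 <;> interval_cases k3 <;> omega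

/-- The negation of the preceding statement: For all positive n, r, once a is large enough, let m = 2^a·n. Every sequence of 2^r(m−1)+1 elements of (Z/m)^r has m terms summing to zero, and some sequence of 2^r(m−1) elements has no such m terms. -/
theorem result :
    ¬ (∀ n r : ℕ, 0 < n → 0 < r → ∃ A : ℕ, ∀ a : ℕ, A ≤ a →
      (∀ f : Fin (2 ^ r * (2 ^ a * n - 1) + 1) → (Fin r → ZMod (2 ^ a * n)),
          ∃ S : Finset (Fin (2 ^ r * (2 ^ a * n - 1) + 1)),
            S.card = 2 ^ a * n ∧ ∑ i ∈ S, f i = 0) ∧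
      ¬ (∀ f : Fin (2 ^ r * (2 ^ a * n - 1)) → (Fin r → ZMod (2 ^ a * n)),
          ∃ S : Finset (Fin (2 ^ r * (2 ^ a * n - 1))),
            S.card = 2 ^ a * n ∧ ∑ i ∈ S, f i = 0)) := by
  intro h
  obtain ⟨A, hA⟩ := h 3 4 (by norm_num) (by norm_num)
  obtain ⟨h1, -⟩ := hA A le_rfl
  have hM : 1 ≤ 2 ^ A := Nat.one_le_two_pow
  generalize hMdef : 2 ^ A = M at h1 hM
  obtain ⟨S, hcard, hsum⟩ := h1 (fun i k => ((T (M : ℤ) (i.val / (M * 3 - 1)) k : ℤ) : ZMod (M * 3)))
  have hP : 0 < M * 3 - 1 := by omega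
  -- the weights
  set x : ℕ → ℕ := fun j => (S.filter (fun i => i.val / (M * 3 - 1) = j)).card with hx
  have hmaps : ∀ i ∈ S, i.val / (M * 3 - 1) ∈ Finset.range 17 := by
    intro i _
    have hi := i.isLt
    rw [Finset.mem_range, Nat.div_lt_iff_lt_mul hP]
    omega
  have hxtot : ∑ j ∈ Finset.range 17, x j = M * 3 := by
    rw [← hcard]
    exact (Finset.card_eq_sum_card_fiberwise hmaps).symm
  have hxlt : ∀ j, x j < M * 3 := by
    intro j
    have : x j ≤ (Finset.Ico (j * (M * 3 - 1)) ((j + 1) * (M * 3 - 1))).card := by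
      apply Finset.card_le_card_of_injOn (fun i => i.val)
      · intro i hi
        simp only [Finset.coe_filter, Set.mem_ofPred_eq] at hi
        simp only [Finset.coe_Ico, Set.mem_Ico]
        obtain ⟨_, hi⟩ := hi
        rw [← hi]
        constructor
        · exact Nat.div_mul_le_self _ _
        · exact lt_of_lt_of_eq (Nat.lt_mul_div_succ i.val hP) (Nat.mul_comm _ _)
      · intro i _ i' _ hii
        exact Fin.ext hii
    rw [Nat.card_Ico, add_mul] at this
    omega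
  have hx16 : x 16 ≤ 1 := by
    have : x 16 ≤ (Finset.Ico (16 * (M * 3 - 1)) (16 * (M * 3 - 1) + 1)).card := by
      apply Finset.card_le_card_of_injOn (fun i => i.val)
      · intro i hi
        simp only [Finset.coe_filter, Set.mem_ofPred_eq] at hi
        simp only [Finset.coe_Ico, Set.mem_Ico]
        obtain ⟨_, hi⟩ := hi
        constructor
        · rw [← hi]
          exact Nat.div_mul_le_self _ _
        · have := i.isLt
          simpa using this
      · intro i _ i' _ hii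
        exact Fin.ext hii
    rw [Nat.card_Ico] at this
    omega
  -- the sums
  have hS : ∀ k : Fin 4, ((M * 3 : ℕ) : ℤ) ∣ ∑ j ∈ Finset.range 17, (x j : ℤ) * T (M : ℤ) j k := by
    intro k
    rw [← ZMod.intCast_zmod_eq_zero_iff_dvd]
    have h2 : ∑ i ∈ S, T (M : ℤ) (i.val / (M * 3 - 1)) k
        = ∑ j ∈ Finset.range 17, (x j : ℤ) * T (M : ℤ) j k := by
      rw [← Finset.sum_fiberwise_of_maps_to hmaps]
      apply Finset.sum_congr rfl
      intro j _
      rw [Finset.sum_congr rfl (g := fun _ => T (M : ℤ) j k)]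
      · rw [Finset.sum_const, nsmul_eq_mul]
      · intro i hi
        rw [Finset.mem_filter] at hi
        rw [hi.2]
    rw [← h2, Int.cast_sum]
    have h3 := congrFun hsum k
    rw [Finset.sum_apply] at h3
    exact h3
  obtain ⟨k1, hk1⟩ := hS 0
  obtain ⟨k2, hk2⟩ := hS 1
  obtain ⟨k3, hk3⟩ := hS 2
  obtain ⟨k4, hk4⟩ := hS 3
  simp only [Finset.sum_range_succ, Finset.sum_range_zero] at hk1 hk2 hk3 hk4 hxtot
  simp [T] at hk1 hk2 hk3 hk4
  have hM' : (1 : ℤ) ≤ M := by exact_mod_cast hM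
  have hlt : ∀ j, (x j : ℤ) < 3 * (M : ℤ) := by
    intro j
    have := hxlt j
    have h5 : x j < 3 * M := by omega
    exact_mod_cast h5
  have hnn : ∀ j, (0 : ℤ) ≤ x j := fun j => Int.natCast_nonneg _
  have hx16' : (x 16 : ℤ) ≤ 1 := by exact_mod_cast hx16
  have htot' : (x 0 : ℤ) + x 1 + x 2 + x 3 + x 4 + x 5 + x 6 + x 7 + x 8 + x 9 + x 10 + x 11
      + x 12 + x 13 + x 14 + x 15 + x 16 = 3 * (M : ℤ) := by
    have h6 := congrArg (Nat.cast (R := ℤ)) hxtot
    push_cast at h6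
    linarith
  exact core (M : ℤ) (x 0) (x 1) (x 2) (x 3) (x 4) (x 5) (x 6) (x 7) (x 8) (x 9) (x 10) (x 11)
    (x 12) (x 13) (x 14) (x 15) (x 16) k1 k2 k3 k4
    hM' (hnn 0) (hlt 0) (hnn 1) (hlt 1) (hnn 2) (hlt 2) (hnn 3) (hlt 3)
    (hnn 4) (hlt 4) (hnn 5) (hlt 5) (hnn 6) (hlt 6) (hnn 7) (hlt 7)
    (hnn 8) (hlt 8) (hnn 9) (hlt 9) (hnn 10) (hlt 10) (hnn 11) (hlt 11)
    (hnn 12) (hlt 12) (hnn 13) (hlt 13) (hnn 14) (hlt 14) (hnn 15) (hlt 15)
    (hnn 16) hx16' htot' (by linear_combination hk1) (by linear_combination hk2)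
    (by linear_combination hk3) (by linear_combination hk4)

end Pool.Agent.S18402
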