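import Pool.Statements.S18577
import Pool.Agent.Helper92.Ru.AsmD

set_option autoImplicit false
open NumberField
open Pool Pool.MP_d1d051_nt

namespace Pool.Agent.S18577

/-- For number field k, places S (all infinite plus finite T), hyperplanes over k in general position, δ≥1, ε>0: some C bounds m_{D,S}(P) < (2δn+ε)h(P)+C for every point P of degree ≤δ over k off the hyperplanes. -/
theorem result :
    ∀ (k : Type) [Field k] [NumberField k] (T : Finset (FinitePlace k)) (n q : ℕ)
      (a : Fin q → Fin (n + 1) → k),
      (∀ s : Finset (Fin q), s.card ≤ n + 1 → LinearIndependent k (fun i : s => a i)) →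
      ∀ δ : ℕ, 1 ≤ δ → ∀ ε : ℝ, 0 < ε → ∃ C : ℝ,
        ∀ (L : Type) [Field L] [NumberField L] [Algebra k L], Module.finrank k L ≤ δ →
          ∀ x : Fin (n + 1) → L, x ≠ 0 →
            (∀ i, ∑ j, algebraMap k L (a i j) * x j ≠ 0) →
            (1 / (Module.finrank ℚ L : ℝ)) *
                ((∑ w : InfinitePlace L, (w.mult : ℝ) *
                    ∑ i, Real.log ((⨆ j, w (x j)) * (⨆ j, w (algebraMap k L (a i j))) /
                      w (∑ j, algebraMap k L (a i j) * x j))) +
                  ∑ᶠ (w : FinitePlace L)
                    (_ : ∃ v ∈ T, ∀ y : k, (v y < 1 ↔ w (algebraMap k L y) < 1)),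
                    ∑ i, Real.log ((⨆ j, w (x j)) * (⨆ j, w (algebraMap k L (a i j))) /
                      w (∑ j, algebraMap k L (a i j) * x j)))
              < (2 * (δ : ℝ) * (n : ℝ) + ε) *
                  ((1 / (Module.finrank ℚ L : ℝ)) *
                    ((∑ w : InfinitePlace L, (w.mult : ℝ) * Real.log (⨆ j, w (x j))) +
                      ∑ᶠ w : FinitePlace L, Real.log (⨆ j, w (x j)))) + C := by
  exact Pool.Agent.Helper92.Ru.s18577

end Pool.Agent.S18577
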