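import Pool.Statements.S18871
import Pool.Agent.Helper23.EC.Final

set_option autoImplicit false
open Pool Pool.MP_ecc237_nt

namespace Pool.Agent.S18871

/-- With I0, K0 the modified Bessel functions and f the level-6 weight-4 eta-product newform, IKM(0,6;1)IKM(2,4;3) − IKM(0,6;3)IKM(2,4;1) equals 27/(4π²) times L(f,5), computed as a Mellin integral. -/
theorem result :
  ∀ (I K f : ℝ → ℝ),
    (∀ t : ℝ, I t = (1 / Real.pi) * ∫ θ in (0:ℝ)..Real.pi, Real.exp (t * Real.cos θ)) →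
    (∀ t : ℝ, K t = ∫ u in Set.Ioi (0:ℝ), Real.exp (-(t * Real.cosh u))) →
    (∀ y : ℝ, f y = Real.exp (-(2 * Real.pi * y)) *
        ∏' n : ℕ, ((1 - Real.exp (-(2 * Real.pi * ((n:ℝ) + 1) * y))) *
                   (1 - Real.exp (-(4 * Real.pi * ((n:ℝ) + 1) * y))) *
                   (1 - Real.exp (-(6 * Real.pi * ((n:ℝ) + 1) * y))) *
                   (1 - Real.exp (-(12 * Real.pi * ((n:ℝ) + 1) * y)))) ^ 2) →
    (∫ t in Set.Ioi (0:ℝ), K t ^ 6 * t) * (∫ t in Set.Ioi (0:ℝ), I t ^ 2 * K t ^ 4 * t ^ 3)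
      - (∫ t in Set.Ioi (0:ℝ), K t ^ 6 * t ^ 3) * (∫ t in Set.Ioi (0:ℝ), I t ^ 2 * K t ^ 4 * t)
      = 27 / (4 * Real.pi ^ 2) *
          ((2 * Real.pi) ^ 5 / 24 * ∫ y in Set.Ioi (0:ℝ), f y * y ^ 4) := by
  exact EC237.final

end Pool.Agent.S18871
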